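import Pool.Agent.Work.MP_f9d495_an.Defs

/-!
# Block C: area obstruction to pluripotency

If the forward orbit of `x ∈ L` only meets the region where the Jacobian of `f` is at least `1 + c`,
then `f` is not pluripotent for `L`.
-/

open Filter Topology MeasureTheory Set

namespace Pool.Agent.Work.MP_f9d495_an

namespace Area

/-! ### Basic facts on the covering -/

theorem cov_continuous : Continuous cov := by
  unfold cov
  exact ((AddCircle.continuous_mk' 1).comp continuous_fst).prodMk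
    ((AddCircle.continuous_mk' 1).comp continuous_snd)

theorem int_valued_const {k : Plane → ℝ} (hk : Continuous k) (h : ∀ x, ∃ m : ℤ, k x = m)
    (x y : Plane) : k x = k y := by
  choose m hm using h
  have hmc : Continuous m := by
    rw [Int.isClosedEmbedding_coe_real.isEmbedding.continuous_iff]
    have : ((fun n : ℤ => (n : ℝ)) ∘ m) = k := by
      funext x
      simp [hm]
    rwa [this]
  have := PreconnectedSpace.constant inferInstance hmc (x := x) (y := y)
  rw [hm, hm, this]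

theorem lift_unique {F G : Plane → Plane} (hF : Continuous F) (hG : Continuous G)
    (h : ∀ x, cov (F x) = cov (G x)) : ∃ v : Plane, ∀ x, F x = G x + v := by
  have h1 : ∀ x, ∃ m : ℤ, (F x).1 - (G x).1 = m := by
    intro x
    obtain ⟨m, n, e⟩ := cov_eq_iff.mp (h x)
    refine ⟨-m, ?_⟩
    rw [e]
    push_cast
    simp
  have h2 : ∀ x, ∃ m : ℤ, (F x).2 - (G x).2 = m := by
    intro x
    obtain ⟨m, n, e⟩ := cov_eq_iff.mp (h x)
    refine ⟨-n, ?_⟩
    rw [e]
    push_cast
    simp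
  refine ⟨F 0 - G 0, fun x => ?_⟩
  have e1 := int_valued_const (k := fun x => (F x).1 - (G x).1) (by fun_prop) h1 x 0
  have e2 := int_valued_const (k := fun x => (F x).2 - (G x).2) (by fun_prop) h2 x 0
  ext
  · simp only [Prod.fst_add, Prod.fst_sub] at e1 ⊢
    linarith
  · simp only [Prod.snd_add, Prod.snd_sub] at e2 ⊢
    linarith

theorem tderiv_eq_fderiv {h : Torus → Torus} {F : Plane → Plane} (hF : IsLift 1 F h) (x : Plane) :
    tderiv h (cov x) = fderiv ℝ F x := by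
  have H : ∃ F, IsLift 1 F h := ⟨F, hF⟩
  unfold tderiv
  rw [dif_pos H]
  have hG : IsLift 1 H.choose h := H.choose_spec
  generalize H.choose = G at hG ⊢
  have hy : cov (Function.surjInv cov_surjective (cov x)) = cov x := Function.surjInv_eq _ _
  generalize Function.surjInv cov_surjective (cov x) = y at hy ⊢
  obtain ⟨m, n, e⟩ := cov_eq_iff.mp hy
  have hF1 : Continuous F := hF.1.continuous
  have hG1 : Continuous G := hG.1.continuous
  obtain ⟨w, hw⟩ := lift_unique (F := G) (G := fun z => F (z + ((m : ℝ), (n : ℝ)))) hG1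
    (by fun_prop) (fun z => by
      show cov (G z) = cov (F (z + ((m : ℝ), (n : ℝ))))
      rw [hG.2, hF.2]
      congr 1
      exact cov_eq_iff.mpr ⟨m, n, rfl⟩)
  have e2 : G = fun z => F (z + ((m : ℝ), (n : ℝ))) + w := funext hw
  rw [e2, fderiv_add_const, fderiv_comp_add_right, e]

theorem exists_near (x : Plane) (w : Torus) : ∃ x', cov x' = w ∧ ‖x - x'‖ ≤ dist (cov x) w := by
  obtain ⟨y, rfl⟩ := cov_surjective w
  refine ⟨y + ((round (x.1 - y.1) : ℝ), (round (x.2 - y.2) : ℝ)),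
    (cov_eq_iff.mpr ⟨_, _, rfl⟩).symm, ?_⟩
  rw [Prod.norm_def, Prod.dist_eq]
  apply max_le_max
  · show ‖x.1 - (y.1 + (round (x.1 - y.1) : ℝ))‖ ≤ dist (x.1 : UnitAddCircle) (y.1 : UnitAddCircle)
    rw [dist_eq_norm, ← AddCircle.coe_sub, UnitAddCircle.norm_eq, Real.norm_eq_abs]
    apply le_of_eq
    congr 1
    ring
  · show ‖x.2 - (y.2 + (round (x.2 - y.2) : ℝ))‖ ≤ dist (x.2 : UnitAddCircle) (y.2 : UnitAddCircle)
    rw [dist_eq_norm, ← AddCircle.coe_sub, UnitAddCircle.norm_eq, Real.norm_eq_abs]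
    apply le_of_eq
    congr 1
    ring

theorem dist_cov_le (x y : Plane) : dist (cov x) (cov y) ≤ ‖x - y‖ := by
  rw [Prod.norm_def, Prod.dist_eq]
  apply max_le_max
  · show dist (x.1 : UnitAddCircle) (y.1 : UnitAddCircle) ≤ ‖x.1 - y.1‖
    rw [dist_eq_norm, ← AddCircle.coe_sub, UnitAddCircle.norm_eq, Real.norm_eq_abs]
    have := round_le (x.1 - y.1) 0
    simpa using this
  · show dist (x.2 : UnitAddCircle) (y.2 : UnitAddCircle) ≤ ‖x.2 - y.2‖
    rw [dist_eq_norm, ← AddCircle.coe_sub, UnitAddCircle.norm_eq, Real.norm_eq_abs]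
    have := round_le (x.2 - y.2) 0
    simpa using this

theorem continuous_of_lift {r : ℕ} {h : Torus → Torus} {F : Plane → Plane} (hF : IsLift r F h) :
    Continuous h := by
  rw [continuous_iff_continuousAt]
  intro z
  obtain ⟨x, rfl⟩ := cov_surjective z
  rw [Metric.continuousAt_iff]
  intro ε hε
  have hFc : Continuous F := hF.1.continuous
  have := Metric.continuousAt_iff.mp (hFc.continuousAt (x := x)) ε hε
  obtain ⟨δ, hδ, hd⟩ := this
  refine ⟨δ, hδ, fun w hw => ?_⟩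
  obtain ⟨x', rfl, hx'⟩ := exists_near x w
  have h1 : dist x' x < δ := by
    rw [dist_comm, dist_eq_norm]
    refine lt_of_le_of_lt hx' ?_
    rwa [dist_comm]
  have h2 := hd h1
  rw [← hF.2, ← hF.2]
  refine lt_of_le_of_lt (dist_cov_le _ _) ?_
  rwa [← dist_eq_norm]

theorem IsLift.mono {r s : ℕ} {h : Torus → Torus} {F : Plane → Plane} (hF : IsLift r F h)
    (hrs : s ≤ r) : IsLift s F h :=
  ⟨hF.1.of_le (by exact_mod_cast hrs), hF.2⟩

theorem bdd_of_periodic {E : Type*} [NormedAddCommGroup E] {u : Plane → E} (hu : Continuous u)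
    (hp : ∀ (x : Plane) (m n : ℤ), u (x + ((m : ℝ), (n : ℝ))) = u x) :
    ∃ K > 0, ∀ x, ‖u x‖ ≤ K := by
  have hc : IsCompact ((Icc (0 : ℝ) 1) ×ˢ (Icc (0 : ℝ) 1)) := isCompact_Icc.prod isCompact_Icc
  obtain ⟨K, hK⟩ := hc.exists_bound_of_continuousOn hu.continuousOn
  refine ⟨max K 1, by positivity, fun x => ?_⟩
  have hx : x = (Int.fract x.1, Int.fract x.2) + ((⌊x.1⌋ : ℝ), (⌊x.2⌋ : ℝ)) := by
    ext
    · simp
    · simp
  rw [hx, hp]
  refine le_trans (hK _ ?_) (le_max_left _ _)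
  exact ⟨⟨Int.fract_nonneg _, (Int.fract_lt_one _).le⟩, ⟨Int.fract_nonneg _, (Int.fract_lt_one _).le⟩⟩

theorem lip_of_periodic {u : Plane → ℝ} (hu : ContDiff ℝ 1 u)
    (hp : ∀ (x : Plane) (m n : ℤ), u (x + ((m : ℝ), (n : ℝ))) = u x) :
    ∃ K > 0, ∀ x y, |u x - u y| ≤ K * ‖x - y‖ := by
  obtain ⟨K, hK0, hK⟩ := bdd_of_periodic (u := fderiv ℝ u) (hu.continuous_fderiv (by norm_num))
    (fun x m n => by
      have : (fun z => u (z + ((m : ℝ), (n : ℝ)))) = u := funext fun z => hp z m n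
      rw [← fderiv_comp_add_right, this])
  refine ⟨K, hK0, fun x y => ?_⟩
  have := convex_univ.norm_image_sub_le_of_norm_fderiv_le (f := u) (s := univ) (C := K) (x := y)
    (y := x) (𝕜 := ℝ) (fun z _ => (hu.differentiable (by norm_num)) z) (fun z _ => hK z)
    (mem_univ _) (mem_univ _)
  simpa [Real.norm_eq_abs] using this

/-! ### Determinants -/

theorem det_eq (A : Plane →L[ℝ] Plane) :
    A.det = (A (1, 0)).1 * (A (0, 1)).2 - (A (0, 1)).1 * (A (1, 0)).2 := by
  have h := LinearMap.det_toMatrix (Module.Basis.finTwoProd ℝ) (A : Plane →ₗ[ℝ] Plane)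
  rw [ContinuousLinearMap.det, ← h, Matrix.det_fin_two]
  simp [LinearMap.toMatrix_apply]

theorem det_comp (A B : Plane →L[ℝ] Plane) : (A.comp B).det = A.det * B.det := by
  simp only [ContinuousLinearMap.det]
  rw [ContinuousLinearMap.toLinearMap_comp]
  exact LinearMap.det_comp _ _

theorem entry_le (A : Plane →L[ℝ] Plane) :
    |(A (1, 0)).1| ≤ ‖A‖ ∧ |(A (1, 0)).2| ≤ ‖A‖ ∧ |(A (0, 1)).1| ≤ ‖A‖ ∧ |(A (0, 1)).2| ≤ ‖A‖ := by
  have h1 : ‖A (1, 0)‖ ≤ ‖A‖ := by
    have := A.le_opNorm (1, 0)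
    simpa [Prod.norm_def] using this
  have h2 : ‖A (0, 1)‖ ≤ ‖A‖ := by
    have := A.le_opNorm (0, 1)
    simpa [Prod.norm_def] using this
  have e1 := norm_fst_le (A (1, 0))
  have e2 := norm_snd_le (A (1, 0))
  have e3 := norm_fst_le (A (0, 1))
  have e4 := norm_snd_le (A (0, 1))
  rw [Real.norm_eq_abs] at e1 e2 e3 e4
  exact ⟨e1.trans h1, e2.trans h1, e3.trans h2, e4.trans h2⟩

theorem abs_det_sub_le (A B : Plane →L[ℝ] Plane) :
    |A.det - B.det| ≤ 2 * (‖A‖ + ‖B‖) * ‖A - B‖ := by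
  obtain ⟨a1, a2, a3, a4⟩ := entry_le A
  obtain ⟨b1, b2, b3, b4⟩ := entry_le B
  obtain ⟨c1, c2, c3, c4⟩ := entry_le (A - B)
  rw [det_eq, det_eq]
  simp only [sub_apply, Prod.fst_sub, Prod.snd_sub] at c1 c2 c3 c4
  set p := (A (1, 0)).1
  set q := (A (1, 0)).2
  set s := (A (0, 1)).1
  set t := (A (0, 1)).2
  set p' := (B (1, 0)).1
  set q' := (B (1, 0)).2
  set s' := (B (0, 1)).1
  set t' := (B (0, 1)).2
  have e : p * t - s * q - (p' * t' - s' * q') =
      (p * (t - t') + t' * (p - p')) - (s * (q - q') + q' * (s - s')) := by ring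
  rw [e]
  have k1 : |p * (t - t') + t' * (p - p')| ≤ (‖A‖ + ‖B‖) * ‖A - B‖ := by
    refine le_trans (abs_add_le _ _) ?_
    rw [abs_mul, abs_mul, add_mul]
    exact add_le_add (mul_le_mul a1 c4 (abs_nonneg _) (norm_nonneg _))
      (mul_le_mul b4 c1 (abs_nonneg _) (norm_nonneg _))
  have k2 : |s * (q - q') + q' * (s - s')| ≤ (‖A‖ + ‖B‖) * ‖A - B‖ := by
    refine le_trans (abs_add_le _ _) ?_
    rw [abs_mul, abs_mul, add_mul]
    exact add_le_add (mul_le_mul a3 c2 (abs_nonneg _) (norm_nonneg _))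
      (mul_le_mul b2 c3 (abs_nonneg _) (norm_nonneg _))
  refine le_trans (abs_sub _ _) ?_
  linarith

theorem contDiff_det_fderiv {F : Plane → Plane} (hF : ContDiff ℝ 2 F) :
    ContDiff ℝ 1 (fun x => (fderiv ℝ F x).det) := by
  have h1 : ContDiff ℝ 1 (fderiv ℝ F) := hF.fderiv_right (by norm_num)
  have : (fun x => (fderiv ℝ F x).det) = fun x => ((fderiv ℝ F x) (1, 0)).1 *
      ((fderiv ℝ F x) (0, 1)).2 - ((fderiv ℝ F x) (0, 1)).1 * ((fderiv ℝ F x) (1, 0)).2 :=
    funext fun x => det_eq _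
  rw [this]
  have ha : ContDiff ℝ 1 (fun x => (fderiv ℝ F x) ((1, 0) : Plane)) := h1.clm_apply contDiff_const
  have hb : ContDiff ℝ 1 (fun x => (fderiv ℝ F x) ((0, 1) : Plane)) := h1.clm_apply contDiff_const
  exact (ha.fst.mul hb.snd).sub (hb.fst.mul ha.snd)

/-! ### Facts about torus diffeomorphisms -/

theorem fderiv_periodic {h : Torus → Torus} {F : Plane → Plane} (hF : IsLift 1 F h) (x : Plane)
    (m n : ℤ) : fderiv ℝ F (x + ((m : ℝ), (n : ℝ))) = fderiv ℝ F x := by
  rw [← tderiv_eq_fderiv hF, ← tderiv_eq_fderiv hF]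
  congr 1
  exact (cov_eq_iff.mpr ⟨m, n, rfl⟩).symm

theorem det_lipschitz {h : Torus → Torus} {F : Plane → Plane} (hF : IsLift 2 F h) :
    ∃ K > 0, ∀ z w, |(tderiv h z).det - (tderiv h w).det| ≤ K * dist z w := by
  have hF1 := IsLift.mono hF (s := 1) (by norm_num)
  obtain ⟨K, hK0, hK⟩ := lip_of_periodic (contDiff_det_fderiv (F := F) (by exact_mod_cast hF.1))
    (fun x m n => by rw [fderiv_periodic hF1])
  refine ⟨K, hK0, fun z w => ?_⟩
  obtain ⟨x, rfl⟩ := cov_surjective z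
  obtain ⟨y, rfl, hy⟩ := exists_near x w
  rw [tderiv_eq_fderiv hF1, tderiv_eq_fderiv hF1]
  exact (hK x y).trans (mul_le_mul_of_nonneg_left hy hK0.le)

theorem norm_bdd {h : Torus → Torus} {F : Plane → Plane} (hF : IsLift 1 F h) :
    ∃ M > 0, ∀ z, ‖tderiv h z‖ ≤ M := by
  obtain ⟨M, hM0, hM⟩ := bdd_of_periodic (u := fderiv ℝ F)
    (hF.1.continuous_fderiv (by norm_num)) (fun x m n => by rw [fderiv_periodic hF])
  refine ⟨M, hM0, fun z => ?_⟩
  obtain ⟨x, rfl⟩ := cov_surjective z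
  rw [tderiv_eq_fderiv hF]
  exact hM x

theorem tderiv_close {r : ℕ} (hr : 1 ≤ r) {ε : ℝ} (hε : 0 ≤ ε) {h k : Torus → Torus}
    (hc : LiftClose r ε h k) (z : Torus) : ‖tderiv h z - tderiv k z‖ ≤ ε := by
  obtain ⟨F, G, hF, hG, hFG⟩ := hc
  obtain ⟨x, rfl⟩ := cov_surjective z
  rw [tderiv_eq_fderiv (IsLift.mono hF hr), tderiv_eq_fderiv (IsLift.mono hG hr)]
  refine ContinuousLinearMap.opNorm_le_bound _ hε fun v => ?_
  have h1 := hFG 1 hr x
  have h2 := (iteratedFDeriv ℝ 1 F x - iteratedFDeriv ℝ 1 G x).le_opNorm (fun _ => v)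
  simp only [sub_apply, iteratedFDeriv_one_apply, Finset.univ_unique, Finset.prod_const,
    Finset.card_singleton, pow_one] at h2
  refine h2.trans ?_
  exact mul_le_mul_of_nonneg_right h1 (norm_nonneg _)

theorem det_ne_zero {r : ℕ} (hr : 1 ≤ r) (g : TorusDiffeo r) (z : Torus) :
    (tderiv g.perm z).det ≠ 0 := by
  obtain ⟨G, hG⟩ := g.lift
  obtain ⟨G', hG'⟩ := g.lift_symm
  have hG1 := IsLift.mono hG hr
  have hG1' := IsLift.mono hG' hr
  obtain ⟨x, rfl⟩ := cov_surjective z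
  rw [tderiv_eq_fderiv hG1]
  obtain ⟨v, hv⟩ := lift_unique (F := fun x => G' (G x)) (G := id)
    (hG'.1.continuous.comp hG.1.continuous) continuous_id (fun x => by
      show cov (G' (G x)) = cov x
      rw [hG'.2, hG.2]
      exact g.perm.symm_apply_apply _)
  have hd1 : DifferentiableAt ℝ G x := hG1.1.differentiable (by norm_num) x
  have hd2 : DifferentiableAt ℝ G' (G x) := hG1'.1.differentiable (by norm_num) (G x)
  have e1 : fderiv ℝ (fun x => G' (G x)) x = (fderiv ℝ G' (G x)).comp (fderiv ℝ G x) :=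
    fderiv_comp x hd2 hd1
  have e2 : fderiv ℝ (fun x => G' (G x)) x = ContinuousLinearMap.id ℝ Plane := by
    rw [show (fun x => G' (G x)) = fun x => id x + v from funext hv, fderiv_add_const, fderiv_id]
  intro h0
  have e3 := congrArg ContinuousLinearMap.det (e1.symm.trans e2)
  rw [det_comp, h0, mul_zero] at e3
  have : (ContinuousLinearMap.id ℝ Plane).det = 1 := by
    rw [det_eq]; simp
  rw [this] at e3
  exact zero_ne_one e3

/-- The logarithm of the Jacobian. -/
noncomputable def lj (h : Torus → Torus) (z : Torus) : ℝ := Real.log |(tderiv h z).det|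

theorem lj_lipschitz {r : ℕ} (hr : 2 ≤ r) (g : TorusDiffeo r) :
    ∃ K > 0, ∀ z w, |lj g.perm z - lj g.perm w| ≤ K * dist z w := by
  obtain ⟨G, hG⟩ := g.lift
  have hG1 := IsLift.mono hG (s := 1) (by omega)
  have hG2 := IsLift.mono hG hr
  have hne : ∀ x, (fderiv ℝ G x).det ≠ 0 := fun x => by
    rw [← tderiv_eq_fderiv hG1]
    exact det_ne_zero (by omega) g _
  have hc : ContDiff ℝ 1 (fun x => Real.log (fderiv ℝ G x).det) :=
    (contDiff_det_fderiv (F := G) (by exact_mod_cast hG2.1)).log hne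
  obtain ⟨K, hK0, hK⟩ := lip_of_periodic hc (fun x m n => by rw [fderiv_periodic hG1])
  refine ⟨K, hK0, fun z w => ?_⟩
  obtain ⟨x, rfl⟩ := cov_surjective z
  obtain ⟨y, rfl, hy⟩ := exists_near x w
  unfold lj
  rw [tderiv_eq_fderiv hG1, tderiv_eq_fderiv hG1, Real.log_abs, Real.log_abs]
  exact (hK x y).trans (mul_le_mul_of_nonneg_left hy hK0.le)

/-! ### Empirical measures -/

theorem dist_bdd : ∃ B : ℝ, ∀ a b : Torus, dist a b ≤ B := by
  refine ⟨Metric.diam (univ : Set Torus), fun a b => ?_⟩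
  exact Metric.dist_le_diam_of_mem isCompact_univ.isBounded (mem_univ _) (mem_univ _)

theorem avg_diff_le (g : Equiv.Perm Torus) (n : ℕ) (z y : Torus) (φ : Torus → ℝ)
    (hφ : LipschitzWith 1 φ) :
    |(∑ i ∈ Finset.range n, φ ((g ^ i) z)) / n - (∑ i ∈ Finset.range n, φ ((g ^ i) y)) / n| ≤
      (∑ i ∈ Finset.range n, dist ((g ^ i) z) ((g ^ i) y)) / n := by
  rw [← sub_div, ← Finset.sum_sub_distrib, abs_div, Nat.abs_cast]
  apply div_le_div_of_nonneg_right _ (Nat.cast_nonneg n)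
  refine (Finset.abs_sum_le_sum_abs _ _).trans (Finset.sum_le_sum fun i _ => ?_)
  have := hφ.dist_le_mul ((g ^ i) z) ((g ^ i) y)
  simpa [Real.dist_eq] using this

theorem empirical_bddAbove (g : Equiv.Perm Torus) (n : ℕ) (z y : Torus) :
    BddAbove (Set.range fun φ : {φ : Torus → ℝ // LipschitzWith 1 φ} =>
      |(∑ i ∈ Finset.range n, φ.1 ((g ^ i) z)) / n -
        (∑ i ∈ Finset.range n, φ.1 ((g ^ i) y)) / n|) := by
  refine ⟨(∑ i ∈ Finset.range n, dist ((g ^ i) z) ((g ^ i) y)) / n, ?_⟩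
  rintro _ ⟨φ, rfl⟩
  exact avg_diff_le g n z y φ.1 φ.2

theorem empiricalW_nonneg (g : Equiv.Perm Torus) (n : ℕ) (z y : Torus) : 0 ≤ empiricalW g n z y := by
  unfold empiricalW
  exact Real.iSup_nonneg fun φ => abs_nonneg _

theorem empiricalW_le (g : Equiv.Perm Torus) (n : ℕ) (z y : Torus) :
    empiricalW g n z y ≤ (∑ i ∈ Finset.range n, dist ((g ^ i) z) ((g ^ i) y)) / n := by
  unfold empiricalW
  have : Nonempty {φ : Torus → ℝ // LipschitzWith 1 φ} := ⟨⟨fun _ => 0, LipschitzWith.const' 0⟩⟩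
  exact ciSup_le fun φ => avg_diff_le g n z y φ.1 φ.2

theorem lip_avg_le (g : Equiv.Perm Torus) (n : ℕ) (z y : Torus) (φ : Torus → ℝ) (K : ℝ)
    (hK : 0 < K) (hφ : ∀ a b, |φ a - φ b| ≤ K * dist a b) :
    |(∑ i ∈ Finset.range n, φ ((g ^ i) z)) / n - (∑ i ∈ Finset.range n, φ ((g ^ i) y)) / n| ≤
      K * empiricalW g n z y := by
  have hψ : LipschitzWith 1 (fun a => φ a / K) := by
    refine LipschitzWith.of_dist_le_mul fun a b => ?_
    rw [Real.dist_eq, ← sub_div, abs_div, abs_of_pos hK, div_le_iff₀ hK]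
    have := hφ a b
    simp only [NNReal.coe_one, one_mul]
    linarith
  have h1 := le_ciSup (empirical_bddAbove g n z y) ⟨_, hψ⟩
  change _ ≤ empiricalW g n z y at h1
  have h2 : (∑ i ∈ Finset.range n, φ ((g ^ i) z)) / n - (∑ i ∈ Finset.range n, φ ((g ^ i) y)) / n
    = K * ((∑ i ∈ Finset.range n, φ ((g ^ i) z) / K) / n -
      (∑ i ∈ Finset.range n, φ ((g ^ i) y) / K) / n) := by
    rw [← Finset.sum_div, ← Finset.sum_div]
    field_simp
  rw [h2, abs_mul, abs_of_pos hK]
  exact mul_le_mul_of_nonneg_left h1 hK.le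

end Area

theorem StronglyPluripotent.pluripotent {r : ℕ} {f : TorusDiffeo r} {L : Set Torus}
    (h : StronglyPluripotent r f L) : Pluripotent r f L := by
  intro x hx ε hε η hη
  obtain ⟨g, hg, y, hy, D, hD, hlim⟩ := h x hx ε hε η hη
  refine ⟨g, hg, y, hy, D, hD, fun z hz => ?_⟩
  refine squeeze_zero (fun n => Area.empiricalW_nonneg _ _ _ _) (fun n => ?_) hlim
  refine (Area.empiricalW_le _ _ _ _).trans ?_
  apply div_le_div_of_nonneg_right _ (Nat.cast_nonneg n)
  refine Finset.sum_le_sum fun i _ => ?_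
  obtain ⟨B, hB⟩ := Area.dist_bdd
  exact le_ciSup (f := fun z : D => dist ((g.perm ^ i) (z : Torus)) ((g.perm ^ i) y))
    ⟨B, by rintro _ ⟨w, rfl⟩; exact hB _ _⟩ ⟨z, hz⟩

namespace Area

/-! ### Measures -/

theorem volume_le_one_of_injOn_cov {T : Set Plane} (hT : MeasurableSet T) (hinj : InjOn cov T) :
    volume T ≤ 1 := by
  set box : Set Plane := (Ico (0 : ℝ) 1) ×ˢ (Ico (0 : ℝ) 1) with hbox
  have hboxm : MeasurableSet box := measurableSet_Ico.prod measurableSet_Ico
  have hboxv : volume box = 1 := by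
    rw [hbox, Measure.volume_eq_prod, Measure.prod_prod]
    simp
  set τ : ℤ × ℤ → Plane := fun v => ((v.1 : ℝ), (v.2 : ℝ)) with hτ
  set A : ℤ × ℤ → Set Plane := fun v => T ∩ (fun x => x - τ v) ⁻¹' box with hA
  set B : ℤ × ℤ → Set Plane := fun v => (fun x => x + τ v) ⁻¹' T ∩ box with hB
  have hAB : ∀ v, volume (A v) = volume (B v) := by
    intro v
    rw [← measure_preimage_add_right volume (τ v) (A v)]
    congr 1
    ext x
    simp [hA, hB]
  have hBm : ∀ v, MeasurableSet (B v) := fun v =>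
    (hT.preimage (measurable_add_const _)).inter hboxm
  have hcover : T ⊆ ⋃ v, A v := by
    intro x hx
    refine mem_iUnion.mpr ⟨(⌊x.1⌋, ⌊x.2⌋), hx, ?_⟩
    show x - τ (⌊x.1⌋, ⌊x.2⌋) ∈ box
    refine ⟨⟨?_, ?_⟩, ⟨?_, ?_⟩⟩
    · show 0 ≤ x.1 - (⌊x.1⌋ : ℝ)
      linarith [Int.floor_le x.1]
    · show x.1 - (⌊x.1⌋ : ℝ) < 1
      linarith [Int.lt_floor_add_one x.1]
    · show 0 ≤ x.2 - (⌊x.2⌋ : ℝ)
      linarith [Int.floor_le x.2]
    · show x.2 - (⌊x.2⌋ : ℝ) < 1
      linarith [Int.lt_floor_add_one x.2]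
  have hdisj : Pairwise (Function.onFun Disjoint B) := by
    intro v w hvw
    rw [Function.onFun, Set.disjoint_left]
    rintro x ⟨hxv, _⟩ ⟨hxw, _⟩
    apply hvw
    have e : cov (x + τ v) = cov (x + τ w) := by
      rw [← (cov_eq_iff (x := x) (y := x + τ v)).mpr ⟨v.1, v.2, rfl⟩,
        ← (cov_eq_iff (x := x) (y := x + τ w)).mpr ⟨w.1, w.2, rfl⟩]
    have e2 := add_left_cancel (hinj hxv hxw e)
    have e3 := congrArg Prod.fst e2
    have e4 := congrArg Prod.snd e2
    simp only [hτ, Int.cast_inj] at e3 e4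
    exact Prod.ext e3 e4
  calc volume T ≤ volume (⋃ v, A v) := measure_mono hcover
    _ ≤ ∑' v, volume (A v) := measure_iUnion_le _
    _ = ∑' v, volume (B v) := by simp_rw [hAB]
    _ = volume (⋃ v, B v) := (measure_iUnion hdisj hBm).symm
    _ ≤ volume box := measure_mono (iUnion_subset fun v => inter_subset_right)
    _ = 1 := hboxv

theorem measurePreserving_cov : MeasurePreserving cov
    (volume.restrict ((Ioc (0 : ℝ) 1) ×ˢ (Ioc (0 : ℝ) 1))) (volume : Measure Torus) := by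
  have h1 := UnitAddCircle.measurePreserving_mk 0
  rw [zero_add] at h1
  have h2 := h1.prod h1
  rw [Measure.prod_restrict, ← Measure.volume_eq_prod] at h2
  exact h2

theorem volume_preimage_box {S : Set Torus} (hS : MeasurableSet S) :
    volume (cov ⁻¹' S ∩ ((Ioc (0 : ℝ) 1) ×ˢ (Ioc (0 : ℝ) 1))) = volume S := by
  have h := measurePreserving_cov.measure_preimage hS.nullMeasurableSet
  rw [Measure.restrict_apply (cov_continuous.measurable hS)] at h
  exact h

theorem injOn_cov_box : InjOn cov ((Ioc (0 : ℝ) 1) ×ˢ (Ioc (0 : ℝ) 1)) := by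
  rintro x ⟨⟨a1, a2⟩, ⟨a3, a4⟩⟩ y ⟨⟨b1, b2⟩, ⟨b3, b4⟩⟩ h
  obtain ⟨m, n, e⟩ := cov_eq_iff.mp h
  have e1 : y.1 = x.1 + m := by rw [e]; rfl
  have e2 : y.2 = x.2 + n := by rw [e]; rfl
  have hm : m = 0 := by
    have h1 : (m : ℝ) < 1 := by linarith
    have h2 : (-1 : ℝ) < m := by linarith
    have h3 : m < 1 := by exact_mod_cast h1
    have h4 : -1 < m := by exact_mod_cast h2
    omega
  have hn : n = 0 := by
    have h1 : (n : ℝ) < 1 := by linarith
    have h2 : (-1 : ℝ) < n := by linarith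
    have h3 : n < 1 := by exact_mod_cast h1
    have h4 : -1 < n := by exact_mod_cast h2
    omega
  subst hm hn
  rw [e]
  simp

theorem cov_iterate {h : Equiv.Perm Torus} {G : Plane → Plane} (hG : ∀ x, cov (G x) = h (cov x))
    (n : ℕ) (x : Plane) : cov (G^[n] x) = (h ^ n) (cov x) := by
  induction n with
  | zero => simp
  | succ n ih => rw [Function.iterate_succ_apply', hG, ih, pow_succ', Equiv.Perm.mul_apply]

theorem abs_det_iterate {r : ℕ} (hr : 1 ≤ r) (g : TorusDiffeo r) {G : Plane → Plane}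
    (hG : IsLift r G g.perm) (n : ℕ) (x : Plane) :
    |(fderiv ℝ G^[n] x).det| =
      Real.exp (∑ i ∈ Finset.range n, lj g.perm ((g.perm ^ i) (cov x))) := by
  have hG1 := IsLift.mono hG hr
  have hGd : Differentiable ℝ G := hG1.1.differentiable (by norm_num)
  induction n with
  | zero =>
    have : fderiv ℝ G^[0] x = ContinuousLinearMap.id ℝ Plane := by
      rw [Function.iterate_zero, fderiv_id]
    rw [this, det_eq]
    simp
  | succ n ih =>
    rw [Function.iterate_succ', fderiv_comp x (hGd _) ((hGd.iterate n) x), det_comp, abs_mul, ih,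
      Finset.sum_range_succ, Real.exp_add, mul_comm]
    congr 1
    unfold lj
    rw [Real.exp_log (abs_pos.mpr (det_ne_zero hr g _)), ← cov_iterate hG.2,
      tderiv_eq_fderiv hG1]

theorem exp_mul_volume_le {r : ℕ} (hr : 1 ≤ r) (g : TorusDiffeo r) {S : Set Torus}
    (hS : MeasurableSet S) (n : ℕ) (a : ℝ)
    (h : ∀ z ∈ S, a ≤ ∑ i ∈ Finset.range n, lj g.perm ((g.perm ^ i) z)) :
    ENNReal.ofReal (Real.exp a) * volume S ≤ 1 := by
  obtain ⟨G, hG⟩ := g.lift
  have hG1 := IsLift.mono hG hr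
  have hGd : Differentiable ℝ G := hG1.1.differentiable (by norm_num)
  set E : Set Plane := cov ⁻¹' S ∩ ((Ioc (0 : ℝ) 1) ×ˢ (Ioc (0 : ℝ) 1)) with hE
  have hEm : MeasurableSet E :=
    (cov_continuous.measurable hS).inter (measurableSet_Ioc.prod measurableSet_Ioc)
  have hinj1 : InjOn (fun x => cov (G^[n] x)) E := by
    intro x hx y hy hxy
    simp only [cov_iterate hG.2] at hxy
    exact injOn_cov_box hx.2 hy.2 ((g.perm ^ n).injective hxy)
  have hinj : InjOn G^[n] E := fun x hx y hy hxy => hinj1 hx hy (congrArg cov hxy)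
  have hderiv : ∀ x ∈ E, HasFDerivWithinAt G^[n] (fderiv ℝ G^[n] x) E x := fun x _ =>
    ((hGd.iterate n) x).hasFDerivAt.hasFDerivWithinAt
  have h1 := lintegral_abs_det_fderiv_eq_addHaar_image volume hEm hderiv hinj
  have hTm : MeasurableSet (G^[n] '' E) := measurable_image_of_fderivWithin hEm hderiv hinj
  have hcovinj : InjOn cov (G^[n] '' E) := by
    rintro _ ⟨x, hx, rfl⟩ _ ⟨y, hy, rfl⟩ hxy
    rw [hinj1 hx hy hxy]
  have h2 := volume_le_one_of_injOn_cov hTm hcovinj
  calc ENNReal.ofReal (Real.exp a) * volume S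
      = ENNReal.ofReal (Real.exp a) * volume E := by rw [hE, volume_preimage_box hS]
    _ = ∫⁻ _ in E, ENNReal.ofReal (Real.exp a) := by rw [setLIntegral_const]
    _ ≤ ∫⁻ x in E, ENNReal.ofReal |(fderiv ℝ G^[n] x).det| := by
        refine setLIntegral_mono' hEm fun x hx => ?_
        rw [abs_det_iterate hr g hG]
        exact ENNReal.ofReal_le_ofReal (Real.exp_le_exp.mpr (h _ hx.1))
    _ = volume (G^[n] '' E) := h1
    _ ≤ 1 := h2

/-- A diffeomorphism cannot have a set of positive area on which the logarithm of the Jacobian has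
a positive average for all large times. -/
theorem measure_zero_of_expanding {r : ℕ} (hr : 2 ≤ r) (g : TorusDiffeo r) {a : ℝ} (ha : 0 < a)
    (D : Set Torus)
    (h : ∀ z ∈ D, ∀ᶠ n : ℕ in atTop, n * a ≤ ∑ i ∈ Finset.range n, lj g.perm ((g.perm ^ i) z)) :
    volume D = 0 := by
  have hgc : Continuous g.perm := by
    obtain ⟨G, hG⟩ := g.lift
    exact continuous_of_lift hG
  have hgic : ∀ i : ℕ, Continuous (g.perm ^ i : Equiv.Perm Torus) := by
    intro i
    induction i with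
    | zero => exact continuous_id
    | succ i ih =>
      have : ((g.perm ^ (i + 1) : Equiv.Perm Torus) : Torus → Torus) =
          (g.perm ^ i : Equiv.Perm Torus) ∘ g.perm := by
        funext z
        rw [pow_succ, Equiv.Perm.mul_apply]
        rfl
      rw [this]
      exact ih.comp hgc
  have hljc : Continuous (lj g.perm) := by
    obtain ⟨K, hK0, hK⟩ := lj_lipschitz hr g
    have : LipschitzWith ⟨K, hK0.le⟩ (lj g.perm) := LipschitzWith.of_dist_le_mul fun z w => by
      rw [Real.dist_eq]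
      exact hK z w
    exact this.continuous
  set S : ℕ → Set Torus := fun N => ⋂ n ≥ N,
    {z | n * a ≤ ∑ i ∈ Finset.range n, lj g.perm ((g.perm ^ i) z)} with hS
  have hSc : ∀ N, IsClosed (S N) := fun N => isClosed_biInter fun n _ =>
    isClosed_le continuous_const (continuous_finsetSum _ fun i _ => hljc.comp (hgic i))
  have hD : D ⊆ ⋃ N, S N := by
    intro z hz
    obtain ⟨N, hN⟩ := eventually_atTop.mp (h z hz)
    exact mem_iUnion.mpr ⟨N, mem_iInter₂.mpr fun n hn => hN n hn⟩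
  refine measure_mono_null hD (measure_iUnion_null fun N => ?_)
  by_contra hne
  have hbound : ∀ n ≥ N, ENNReal.ofReal (Real.exp (n * a)) * volume (S N) ≤ 1 := by
    intro n hn
    exact exp_mul_volume_le (by omega) g (hSc N).measurableSet n _ fun z hz =>
      (mem_iInter₂.mp hz n hn)
  have htop : Tendsto (fun n : ℕ => ENNReal.ofReal (Real.exp (n * a)) * volume (S N)) atTop
      (𝓝 ⊤) := by
    have h1 : Tendsto (fun n : ℕ => ENNReal.ofReal (Real.exp (n * a))) atTop (𝓝 ⊤) := by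
      refine ENNReal.tendsto_ofReal_nhds_top.mpr ?_
      exact Real.tendsto_exp_atTop.comp (tendsto_natCast_atTop_atTop.atTop_mul_const ha)
    have h2 := ENNReal.Tendsto.mul_const (b := volume (S N)) h1 (Or.inl ENNReal.top_ne_zero)
    rwa [ENNReal.top_mul hne] at h2
  have := (htop.eventually (lt_mem_nhds ENNReal.one_lt_top)).and (eventually_ge_atTop N)
  obtain ⟨n, hn1, hn2⟩ := this.exists
  exact absurd (hbound n hn2) (not_le.mpr hn1)

end Area

theorem not_pluripotent_of_expanding {r : ℕ} (hr : 2 ≤ r) (f : TorusDiffeo r) (L : Set Torus)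
    (x : Torus) (hx : x ∈ L) (c : ℝ) (hc : 0 < c)
    (hexp : ∀ n : ℕ, 1 + c ≤ |(tderiv f.perm ((f.perm ^ n) x)).det|) :
    ¬ Pluripotent r f L := by
  intro hP
  obtain ⟨F, hF⟩ := f.lift
  obtain ⟨K, hK0, hK⟩ := Area.det_lipschitz (Area.IsLift.mono hF hr)
  obtain ⟨M, hM0, hM⟩ := Area.norm_bdd (Area.IsLift.mono hF (show 1 ≤ r by omega))
  set ε : ℝ := min 1 (c / (8 * (2 * M + 1))) with hε
  have hε0 : 0 < ε := by positivity
  have hε1 : ε ≤ 1 := min_le_left _ _
  have hε2 : 2 * (2 * M + 1) * ε ≤ c / 4 := by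
    have : ε ≤ c / (8 * (2 * M + 1)) := min_le_right _ _
    rw [le_div_iff₀ (by positivity)] at this
    linarith
  set η : ℝ := c / (4 * K) with hη
  have hη0 : 0 < η := by positivity
  have hη1 : K * η ≤ c / 4 := by
    rw [hη]
    field_simp
    linarith
  obtain ⟨g, hg, y, hy, D, hD, hlim⟩ := hP x hx ε hε0 η hη0
  have hdet : ∀ n : ℕ, 1 + c / 2 ≤ |(tderiv g.perm ((g.perm ^ n) y)).det| := by
    intro n
    have h1 := hexp n
    have h2 := hK ((f.perm ^ n) x) ((g.perm ^ n) y)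
    have h3 : dist ((f.perm ^ n) x) ((g.perm ^ n) y) ≤ η := by
      rw [dist_comm]
      exact_mod_cast hy n
    have h4 := Area.abs_det_sub_le (tderiv f.perm ((g.perm ^ n) y)) (tderiv g.perm ((g.perm ^ n) y))
    have h5 := Area.tderiv_close (r := r) (by omega) hε0.le hg.1 ((g.perm ^ n) y)
    have h6 : ‖tderiv g.perm ((g.perm ^ n) y)‖ ≤ M + 1 := by
      have := norm_sub_norm_le (tderiv g.perm ((g.perm ^ n) y)) (tderiv f.perm ((g.perm ^ n) y))
      rw [norm_sub_rev] at this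
      linarith [hM ((g.perm ^ n) y)]
    have h7 : 2 * (‖tderiv f.perm ((g.perm ^ n) y)‖ + ‖tderiv g.perm ((g.perm ^ n) y)‖) *
        ‖tderiv f.perm ((g.perm ^ n) y) - tderiv g.perm ((g.perm ^ n) y)‖ ≤
        2 * (2 * M + 1) * ε := by
      apply mul_le_mul _ h5 (norm_nonneg _) (by positivity)
      linarith [hM ((g.perm ^ n) y)]
    have h8 : K * dist ((f.perm ^ n) x) ((g.perm ^ n) y) ≤ K * η :=
      mul_le_mul_of_nonneg_left h3 hK0.le
    have h9 := abs_sub_abs_le_abs_sub (tderiv f.perm ((f.perm ^ n) x)).det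
      (tderiv f.perm ((g.perm ^ n) y)).det
    have h10 := abs_sub_abs_le_abs_sub (tderiv f.perm ((g.perm ^ n) y)).det
      (tderiv g.perm ((g.perm ^ n) y)).det
    linarith
  obtain ⟨K', hK0', hK'⟩ := Area.lj_lipschitz hr g
  set a : ℝ := Real.log (1 + c / 2) / 2 with ha
  have ha0 : 0 < a := by
    have := Real.log_pos (show (1 : ℝ) < 1 + c / 2 by linarith)
    positivity
  have hly : ∀ i : ℕ, 2 * a ≤ Area.lj g.perm ((g.perm ^ i) y) := by
    intro i
    have : 2 * a = Real.log (1 + c / 2) := by rw [ha]; ring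
    rw [this]
    exact Real.log_le_log (by linarith) (hdet i)
  refine hD.ne' (Area.measure_zero_of_expanding hr g ha0 D fun z hz => ?_)
  have h1 : Tendsto (fun n : ℕ => K' * empiricalW g.perm n z y) atTop (𝓝 0) := by
    simpa using (hlim z hz).const_mul K'
  have h2 : ∀ᶠ n : ℕ in atTop, K' * empiricalW g.perm n z y < a := h1.eventually (gt_mem_nhds ha0)
  filter_upwards [h2, eventually_gt_atTop 0] with n hn hn0
  have h3 := Area.lip_avg_le g.perm n z y (Area.lj g.perm) K' hK0' hK'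
  have h4 : 2 * a ≤ (∑ i ∈ Finset.range n, Area.lj g.perm ((g.perm ^ i) y)) / n := by
    rw [le_div_iff₀ (by exact_mod_cast hn0)]
    calc 2 * a * n = ∑ i ∈ Finset.range n, 2 * a := by
          rw [Finset.sum_const, Finset.card_range, nsmul_eq_mul]; ring
      _ ≤ _ := Finset.sum_le_sum fun i _ => hly i
  have h5 : a ≤ (∑ i ∈ Finset.range n, Area.lj g.perm ((g.perm ^ i) z)) / n := by
    have := (abs_le.mp h3).1
    linarith
  rw [le_div_iff₀ (by exact_mod_cast hn0)] at h5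
  linarith

end Pool.Agent.Work.MP_f9d495_an
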