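import Mathlib

namespace Pool.Agent.Work.MP_f9d495_an

/-- `u` is `C^{1,1}`-small on the whole plane: `u`, its partial derivatives `ux, uy` are bounded by
`ε` and Lipschitz with constant `ε`. -/
structure C11 (ε : ℝ) (u ux uy : ℝ → ℝ → ℝ) : Prop where
  bound : ∀ x y, |u x y| ≤ ε
  bx : ∀ x y, |ux x y| ≤ ε
  by' : ∀ x y, |uy x y| ≤ ε
  lip : ∀ x y x' y', |u x' y' - u x y| ≤ ε * (|x' - x| + |y' - y|)
  lipx : ∀ x y x' y', |ux x' y' - ux x y| ≤ ε * (|x' - x| + |y' - y|)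
  lipy : ∀ x y x' y', |uy x' y' - uy x y| ≤ ε * (|x' - x| + |y' - y|)
  taylor : ∀ x y x' y', |u x' y' - u x y - ux x y * (x' - x) - uy x y * (y' - y)| ≤
    ε * (|x' - x| + |y' - y|) ^ 2

end Pool.Agent.Work.MP_f9d495_an
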