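import Pool.Agent.Work.MP_f9d495_an.Shears

/-!
# Block E: the tangencies of the explicit map
-/

open Filter Topology MeasureTheory Set

namespace Pool.Agent.Work.MP_f9d495_an

/-! ### Functions of one variable -/

theorem IsShear.add_int {A : ℝ} {h : ℝ → ℝ} (H : IsShear A h) (x : ℝ) (k : ℤ) :
    h (x + k) = h x := by
  have hp : Function.Periodic h 1 := H.periodic
  have := hp.int_mul k x
  simpa using this

theorem IsShear.eq_zero {A : ℝ} {h : ℝ → ℝ} (H : IsShear A h) {x : ℝ} (k : ℤ)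
    (h1 : k + 1/8 ≤ x) (h2 : x ≤ k + 7/8) : h x = 0 := by
  have := H.add_int (x - k) k
  rw [sub_add_cancel] at this
  rw [this]
  exact H.supp _ (by linarith) (by linarith)

namespace ShearData

variable (S : ShearData)

theorem clS_strictMono : StrictMono S.a :=
  strictMono_of_deriv_pos fun x => by rw [(S.a_deriv x).deriv]; exact S.a_pos x

theorem clS_add_int (x : ℝ) (k : ℤ) : S.a (x + k) = S.a x + k := by
  have hn : ∀ (n : ℕ) (x : ℝ), S.a (x + n) = S.a x + n := by
    intro n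
    induction n with
    | zero => intro x; simp
    | succ n ih =>
      intro x
      have : x + ((n + 1 : ℕ) : ℝ) = (x + n) + 1 := by push_cast; ring
      rw [this, S.a_add, ih]
      push_cast; ring
  obtain ⟨n, rfl | rfl⟩ := k.eq_nat_or_neg
  · simpa using hn n x
  · have := hn n (x + ((-(n : ℤ) : ℤ) : ℝ))
    have e : x + ((-(n : ℤ) : ℤ) : ℝ) + (n : ℝ) = x := by push_cast; ring
    rw [e] at this
    rw [this]; push_cast; ring

theorem clS_zero : S.a 0 = 0 := by
  have := S.a_odd 0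
  simp at this
  linarith

theorem clS_int (k : ℤ) : S.a k = k := by
  have := S.clS_add_int 0 k
  rw [S.clS_zero] at this
  simpa using this

theorem clS_one_sub (x : ℝ) : S.a (1 - x) = 1 - S.a x := by
  have : (1 : ℝ) - x = -x + 1 := by ring
  rw [this, S.a_add, S.a_odd]; ring

theorem clS_deriv_add_int (x : ℝ) (k : ℤ) : S.a' (x + k) = S.a' x := by
  have h1 : HasDerivAt (fun y => S.a (y + k)) (S.a' (x + k)) x := by
    have := (S.a_deriv (x + k)).comp_add_const x (k : ℝ)
    exact this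
  have h2 : HasDerivAt (fun y => S.a y + (k : ℝ)) (S.a' x) x := (S.a_deriv x).add_const _
  have e : (fun y => S.a (y + k)) = fun y => S.a y + (k : ℝ) := funext fun y => S.clS_add_int y k
  rw [e] at h1
  exact h1.unique h2

theorem clS_deriv_lin {x : ℝ} (hx : |x| ≤ 1/4) : S.a' x = S.κ := by
  have hmem : x ∈ Icc (-(1/4) : ℝ) (1/4) := by rw [abs_le] at hx; exact hx
  have h1 : HasDerivWithinAt S.a (S.a' x) (Icc (-(1/4)) (1/4)) x := (S.a_deriv x).hasDerivWithinAt
  have h2 : HasDerivWithinAt S.a S.κ (Icc (-(1/4)) (1/4)) x := by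
    have h3 : HasDerivWithinAt (fun y => S.κ * y) S.κ (Icc (-(1/4)) (1/4)) x := by
      simpa using ((hasDerivAt_id x).const_mul S.κ).hasDerivWithinAt
    refine h3.congr (fun y hy => ?_) ?_
    · exact S.a_lin y (by rw [abs_le]; exact hy)
    · exact S.a_lin x hx
  exact (uniqueDiffOn_Icc (by norm_num) x hmem).eq_deriv _ h1 h2

theorem clS_quarter : S.a (1/4) = S.κ / 4 := by
  rw [S.a_lin _ (by rw [abs_of_pos (by norm_num)])]; ring

theorem clS_three_eighths : S.a (3/8) ≤ 3/8 - S.c := S.a_mid _ (by norm_num) le_rfl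

theorem clS_A_small : S.A ≤ 1/5000 := by
  have h1 := S.hAκ
  have h2 := S.hκ
  linarith

theorem clS_A_c : 3 * S.A ≤ S.c / 2 := by
  have h1 := S.hAc
  have := S.hc
  linarith

theorem clS_A_κ : S.κ / 4 + 3 * S.A ≤ 1/4 := by
  have h1 := S.hAκ
  have := S.hA
  linarith

/-- the strip around `1/2` is expanded -/
theorem clS_strip {x : ℝ} (k : ℤ) (h1 : k + 3/8 < x) (h2 : x < k + 5/8) :
    k + S.κ / 4 < S.a x ∧ S.a x < k + 1 - S.κ / 4 := by
  have e : S.a x = S.a (x - k) + k := by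
    rw [← S.clS_add_int]; congr 1; ring
  have m1 : S.a (1/4) < S.a (x - k) := S.clS_strictMono (by linarith)
  have m2 : S.a (x - k) < S.a (1 - 1/4) := S.clS_strictMono (by linarith)
  rw [S.clS_one_sub] at m2
  rw [S.clS_quarter] at m1 m2
  rw [e]
  constructor <;> linarith

theorem clS_deriv_strip {x : ℝ} (k : ℤ) (h1 : k + 3/8 ≤ x) (h2 : x ≤ k + 5/8) :
    1 + S.c ≤ S.a' x := by
  have e : S.a' x = S.a' (x - k) := by
    rw [← S.clS_deriv_add_int (x - k) k]; congr 1; ring
  rw [e]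
  exact S.a_exp _ (by rw [abs_le]; constructor <;> linarith)

/-- one step towards the sink -/
theorem clS_step {x x' : ℝ} (k : ℤ) (hx : |x - k| ≤ 3/8) (hx' : |x' - S.a x| ≤ 3 * S.A) :
    |x' - k| ≤ max (1/4) (|x - k| - S.c / 2) := by
  set u := x - k with hu
  have e : S.a x = S.a u + k := by
    rw [← S.clS_add_int]; congr 1; rw [hu]; ring
  rw [e] at hx'
  rw [abs_le] at hx'
  have hA := S.hA
  have hAc := S.clS_A_c
  have hAκ := S.clS_A_κ
  have hA5 := S.clS_A_small
  have hκ := S.hκ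
  have hκ1 := S.hκ1
  by_cases h1 : |u| ≤ 1/4
  · refine le_max_of_le_left ?_
    have := S.a_lin u h1
    rw [this] at hx'
    rw [abs_le] at h1 ⊢
    constructor <;> nlinarith [hx'.1, hx'.2]
  · rw [not_le] at h1
    refine le_max_of_le_right ?_
    rcases le_or_gt 0 u with hu0 | hu0
    · rw [abs_of_nonneg hu0] at h1 hx ⊢
      have m := S.a_mid u h1.le hx
      have m1 : S.a (1/4) < S.a u := S.clS_strictMono h1
      rw [S.clS_quarter] at m1
      rw [abs_of_nonneg (by linarith [hx'.1])]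
      linarith [hx'.2]
    · rw [abs_of_neg hu0] at h1 hx ⊢
      have m := S.a_mid (-u) h1.le hx
      have m1 : S.a (1/4) < S.a (-u) := S.clS_strictMono h1
      rw [S.clS_quarter] at m1
      rw [S.a_odd] at m m1
      rw [abs_of_nonpos (by linarith [hx'.2])]
      linarith [hx'.1]

theorem clS_eventually {x : ℕ → ℝ} (hx : ∀ n, |x (n + 1) - S.a (x n)| ≤ 3 * S.A) {N : ℕ} {k : ℤ}
    (h : |x N - k| ≤ 3/8) : ∃ M, ∀ m, M ≤ m → |x m - k| ≤ 1/4 := by
  have hc := S.hc
  have key : ∀ j : ℕ, |x (N + j) - k| ≤ max (1/4) (3/8 - j * (S.c / 2)) := by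
    intro j
    induction j with
    | zero => simp; right; linarith
    | succ j ih =>
      have h38 : |x (N + j) - k| ≤ 3/8 := by
        refine le_trans ih (max_le (by norm_num) ?_)
        have : 0 ≤ (j : ℝ) * (S.c / 2) := by positivity
        linarith
      have := S.clS_step k h38 (hx (N + j))
      refine le_trans this (max_le (le_max_left _ _) ?_)
      rcases le_max_iff.1 ih with h1 | h1
      · exact le_max_of_le_left (by linarith)
      · refine le_max_of_le_right ?_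
        push_cast
        linarith
  obtain ⟨J, hJ⟩ := exists_nat_gt ((1/8) / (S.c / 2))
  rw [div_lt_iff₀ (by linarith)] at hJ
  refine ⟨N + J, fun m hm => ?_⟩
  obtain ⟨i, rfl⟩ := Nat.exists_eq_add_of_le hm
  have h1 := key (J + i)
  rw [← add_assoc] at h1
  refine le_trans h1 (max_le le_rfl ?_)
  push_cast
  have : 0 ≤ (i : ℝ) * (S.c / 2) := by positivity
  nlinarith

/-- Either the sequence ends up near an integer, or it stays in a fixed strip. -/
theorem clS_dichotomy {x : ℕ → ℝ} (hx : ∀ n, |x (n + 1) - S.a (x n)| ≤ 3 * S.A) :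
    (∃ k : ℤ, ∃ M, ∀ m, M ≤ m → |x m - k| ≤ 1/4) ∨
      ∃ k : ℤ, ∀ n, k + 3/8 < x n ∧ x n < k + 5/8 := by
  by_cases H : ∃ N : ℕ, ∃ k : ℤ, |x N - k| ≤ 3/8
  · obtain ⟨N, k, h⟩ := H
    exact Or.inl ⟨k, S.clS_eventually hx h⟩
  · simp only [not_exists, not_le] at H
    right
    have hA := S.hA
    have hA5 := S.clS_A_small
    have hκ := S.hκ
    have gen : ∀ n, ∀ k : ℤ, (k : ℝ) ≤ x n → x n < k + 1 →
        k + 3/8 < x n ∧ x n < k + 5/8 := by
      intro n k h1 h2
      have e1 := H n k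
      have e2 := H n (k + 1)
      rw [abs_of_nonneg (by linarith)] at e1
      push_cast at e2
      rw [abs_of_neg (by linarith)] at e2
      constructor <;> linarith
    refine ⟨⌊x 0⌋, fun n => ?_⟩
    induction n with
    | zero => exact gen 0 _ (Int.floor_le _) (Int.lt_floor_add_one _)
    | succ n ih =>
      obtain ⟨h1, h2⟩ := S.clS_strip _ ih.1 ih.2
      have h3 := hx n
      rw [abs_le] at h3
      exact gen (n + 1) _ (by linarith [h3.1]) (by linarith [h3.2])

/-! ### The map `F` in the two strips -/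

theorem F_fst (z : Plane) : |(S.F z).1 - S.a z.1| ≤ 3 * S.A := by
  simp only [F]
  set y0 := S.a z.2
  set x1 := S.a z.1 + S.h1 y0
  set y1 := y0 + S.v1 x1
  set x2 := x1 + S.h2 y1 with hx2
  set y2 := y1 + S.v2 x2
  have e : x2 + S.h3 y2 - S.a z.1 = S.h1 y0 + S.h2 y1 + S.h3 y2 := by
    rw [hx2]; ring
  rw [e]
  have h1 := S.h1s.amp y0
  have h2 := S.h2s.amp y1
  have h3 := S.h3s.amp y2
  calc |S.h1 y0 + S.h2 y1 + S.h3 y2| ≤ |S.h1 y0 + S.h2 y1| + |S.h3 y2| := abs_add_le _ _
    _ ≤ |S.h1 y0| + |S.h2 y1| + |S.h3 y2| := by gcongr; exact abs_add_le _ _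
    _ ≤ 3 * S.A := by linarith

theorem F_snd (z : Plane) : |(S.F z).2 - S.a z.2| ≤ 3 * S.A := by
  simp only [F]
  set y0 := S.a z.2
  set x1 := S.a z.1 + S.h1 y0
  set y1 := y0 + S.v1 x1 with hy1
  set x2 := x1 + S.h2 y1
  have e : y1 + S.v2 x2 - y0 = S.v1 x1 + S.v2 x2 := by
    rw [hy1]; ring
  rw [e]
  have h1 := S.v1s.amp x1
  have h2 := S.v2s.amp x2
  have hA := S.hA
  calc |S.v1 x1 + S.v2 x2| ≤ |S.v1 x1| + |S.v2 x2| := abs_add_le _ _
    _ ≤ 3 * S.A := by linarith

theorem F_stripX {z : Plane} (k : ℤ) (h1 : k + 3/8 < z.1) (h2 : z.1 < k + 5/8) :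
    S.F z = (S.a z.1 + (S.h1 (S.a z.2) + S.h2 (S.a z.2) + S.h3 (S.a z.2)), S.a z.2) := by
  obtain ⟨b1, b2⟩ := S.clS_strip k h1 h2
  have hA := S.hA
  have hA5 := S.clS_A_small
  have hκ := S.hκ
  have a1 := S.h1s.amp (S.a z.2)
  have a2 := S.h2s.amp (S.a z.2)
  rw [abs_le] at a1 a2
  have e1 : S.v1 (S.a z.1 + S.h1 (S.a z.2)) = 0 :=
    S.v1s.eq_zero k (by linarith [a1.1]) (by linarith [a1.2])
  have e2 : S.v2 (S.a z.1 + S.h1 (S.a z.2) + S.h2 (S.a z.2)) = 0 :=
    S.v2s.eq_zero k (by linarith [a1.1, a2.1]) (by linarith [a1.2, a2.2])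
  simp only [F, e1, add_zero, e2]
  ext
  · simp only; ring
  · rfl

theorem F_stripY {z : Plane} (k : ℤ) (h1 : k + 3/8 < z.2) (h2 : z.2 < k + 5/8) :
    S.F z = (S.a z.1, S.a z.2 + (S.v1 (S.a z.1) + S.v2 (S.a z.1))) := by
  obtain ⟨b1, b2⟩ := S.clS_strip k h1 h2
  have hA := S.hA
  have hA5 := S.clS_A_small
  have hκ := S.hκ
  have a1 := S.v1s.amp (S.a z.1)
  have a2 := S.v2s.amp (S.a z.1)
  rw [abs_le] at a1 a2
  have e1 : S.h1 (S.a z.2) = 0 :=
    S.h1s.eq_zero k (by linarith) (by linarith)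
  have e2 : S.h2 (S.a z.2 + S.v1 (S.a z.1)) = 0 :=
    S.h2s.eq_zero k (by linarith [a1.1]) (by linarith [a1.2])
  have e3 : S.h3 (S.a z.2 + S.v1 (S.a z.1) + S.v2 (S.a z.1)) = 0 :=
    S.h3s.eq_zero k (by linarith [a1.1, a2.1]) (by linarith [a1.2, a2.2])
  simp only [F, e1, add_zero, e2, e3]
  ext
  · rfl
  · simp only; ring

/-! ### Skew products over `a` near the line `x = 1/2` -/

/-- `E` is a diffeomorphism which is a skew product over `a` in the strip around `x = 1/2`. -/
structure Skew (E Ei : Plane → Plane) (g : ℝ → ℝ) : Prop where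
  E_Ei : ∀ z, E (Ei z) = z
  Ei_E : ∀ z, Ei (E z) = z
  diff : Differentiable ℝ E
  diffi : Differentiable ℝ Ei
  gdiff : Differentiable ℝ g
  gamp : ∀ x, |g x| ≤ 3 * S.A
  gsupp : ∀ (k : ℤ) (x : ℝ), k + 1/8 ≤ x → x ≤ k + 7/8 → g x = 0
  form : ∀ (z : Plane) (k : ℤ), k + 3/8 < z.1 → z.1 < k + 5/8 →
    E z = (S.a z.1 + g (S.a z.2), S.a z.2)

variable {S}

/-- the derivative of the skew product -/
noncomputable def skewD (S : ShearData) (γ : ℝ) (z : Plane) : Plane →L[ℝ] Plane :=
  (S.a' z.1 • ContinuousLinearMap.fst ℝ ℝ ℝ + γ • ContinuousLinearMap.snd ℝ ℝ ℝ).prod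
    (S.a' z.2 • ContinuousLinearMap.snd ℝ ℝ ℝ)

theorem skewD_apply (γ : ℝ) (z v : Plane) :
    skewD S γ z v = (S.a' z.1 * v.1 + γ * v.2, S.a' z.2 * v.2) := by
  simp [skewD]

theorem Skew.hasFDerivAt {E Ei : Plane → Plane} {g : ℝ → ℝ} (H : S.Skew E Ei g) {z : Plane}
    (k : ℤ) (h1 : k + 3/8 < z.1) (h2 : z.1 < k + 5/8) :
    HasFDerivAt E (skewD S (deriv g (S.a z.2) * S.a' z.2) z) z := by
  have e1 : HasFDerivAt (fun w : Plane => S.a w.1) (S.a' z.1 • ContinuousLinearMap.fst ℝ ℝ ℝ) z :=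
    (S.a_deriv z.1).comp_hasFDerivAt z hasFDerivAt_fst
  have e2 : HasFDerivAt (fun w : Plane => S.a w.2) (S.a' z.2 • ContinuousLinearMap.snd ℝ ℝ ℝ) z :=
    (S.a_deriv z.2).comp_hasFDerivAt z hasFDerivAt_snd
  have e3 : HasFDerivAt (fun w : Plane => g (S.a w.2))
      ((deriv g (S.a z.2) * S.a' z.2) • ContinuousLinearMap.snd ℝ ℝ ℝ) z := by
    have := (H.gdiff (S.a z.2)).hasDerivAt.comp_hasFDerivAt z e2
    rw [smul_smul] at this
    exact this
  have e4 := (e1.add e3).prodMk e2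
  refine HasFDerivAt.congr_of_eventuallyEq e4 ?_
  have ho : ∀ᶠ w : Plane in 𝓝 z, k + 3/8 < w.1 ∧ w.1 < k + 5/8 :=
    (continuous_fst.continuousAt.eventually_const_lt h1).and
      (continuous_fst.continuousAt.eventually_lt_const h2)
  filter_upwards [ho] with w hw
  exact H.form w k hw.1 hw.2

theorem clS_expand (S : ShearData) {x y : ℝ} (k : ℤ) (h1 : k + 3/8 ≤ x) (h2 : x ≤ k + 5/8)
    (h3 : k + 3/8 ≤ y) (h4 : y ≤ k + 5/8) : (1 + S.c) * |x - y| ≤ |S.a x - S.a y| := by
  wlog hxy : y ≤ x generalizing x y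
  · have := this h3 h4 h1 h2 (le_of_lt (not_le.1 hxy))
    rw [abs_sub_comm x y, abs_sub_comm (S.a x) (S.a y)]
    exact this
  have hc := S.hc
  have hm : S.a y ≤ S.a x := S.clS_strictMono.monotone hxy
  rw [abs_of_nonneg (by linarith), abs_of_nonneg (by linarith)]
  have hd : Differentiable ℝ S.a := fun x => (S.a_deriv x).differentiableAt
  refine Convex.mul_sub_le_image_sub_of_le_deriv (convex_Icc (k + 3/8 : ℝ) (k + 5/8))
    hd.continuous.continuousOn hd.differentiableOn (fun w hw => ?_) y ⟨h3, h4⟩ x ⟨h1, h2⟩ hxy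
  rw [(S.a_deriv w).deriv]
  rw [interior_Icc] at hw
  exact S.clS_deriv_strip k hw.1.le hw.2.le

theorem Skew.fderiv_comp {E Ei : Plane → Plane} {g : ℝ → ℝ} (H : S.Skew E Ei g) (w : Plane) :
    (fderiv ℝ E (Ei w)).comp (fderiv ℝ Ei w) = ContinuousLinearMap.id ℝ Plane := by
  rw [← _root_.fderiv_comp w (H.diff _) (H.diffi _)]
  have : E ∘ Ei = id := funext H.E_Ei
  rw [this, fderiv_id]

theorem Skew.fderiv_comp' {E Ei : Plane → Plane} {g : ℝ → ℝ} (H : S.Skew E Ei g) (w : Plane) :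
    (fderiv ℝ Ei (E w)).comp (fderiv ℝ E w) = ContinuousLinearMap.id ℝ Plane := by
  rw [← _root_.fderiv_comp w (H.diffi _) (H.diff _)]
  have : Ei ∘ E = id := funext H.Ei_E
  rw [this, fderiv_id]

/-- the fixed point on the line `y ∈ ℤ` -/
theorem Skew.fixed {E Ei : Plane → Plane} {g : ℝ → ℝ} (H : S.Skew E Ei g) {z : Plane} {k : ℤ}
    (hz : ∀ n, k + 3/8 < (E^[n] z).1 ∧ (E^[n] z).1 < k + 5/8) {j : ℤ} (hj : z.2 = j) :
    E z = z := by
  have hc := S.hc
  have h2 : ∀ n, (E^[n] z).2 = j := by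
    intro n
    induction n with
    | zero => simpa using hj
    | succ n ih =>
      rw [Function.iterate_succ_apply', H.form _ k (hz n).1 (hz n).2]
      simp only
      rw [ih, S.clS_int]
  have hstep : ∀ n, (E^[n+1] z).1 = S.a (E^[n] z).1 + g j := by
    intro n
    rw [Function.iterate_succ_apply', H.form _ k (hz n).1 (hz n).2]
    simp only
    rw [h2, S.clS_int]
  have hgrow : ∀ n, (1 + S.c) ^ n * |(E z).1 - z.1| ≤ |(E^[n+1] z).1 - (E^[n] z).1| := by
    intro n
    induction n with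
    | zero => simp
    | succ n ih =>
      rw [hstep (n+1), hstep n]
      have e := clS_expand S k (hz (n+1)).1.le (hz (n+1)).2.le (hz n).1.le (hz n).2.le
      rw [hstep n] at e
      have e3 : S.a (S.a (E^[n] z).1 + g j) + g j - (S.a (E^[n] z).1 + g j) =
        S.a (S.a (E^[n] z).1 + g j) - S.a (E^[n] z).1 := by ring
      rw [e3, pow_succ']
      rw [hstep n] at ih
      calc (1 + S.c) * (1 + S.c) ^ n * |(E z).1 - z.1|
          = (1 + S.c) * ((1 + S.c) ^ n * |(E z).1 - z.1|) := by ring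
        _ ≤ (1 + S.c) * |S.a (E^[n] z).1 + g j - (E^[n] z).1| := by
            apply mul_le_mul_of_nonneg_left ih (by linarith)
        _ ≤ _ := e
  have hzero : |(E z).1 - z.1| = 0 := by
    by_contra hne
    have hpos : 0 < |(E z).1 - z.1| := lt_of_le_of_ne (abs_nonneg _) (Ne.symm hne)
    have ht := tendsto_pow_atTop_atTop_of_one_lt (show (1 : ℝ) < 1 + S.c by linarith)
    have := (ht.atTop_mul_const hpos).eventually_gt_atTop 1
    obtain ⟨n, hn⟩ := this.exists
    have h3 := hgrow n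
    have b1 := hz (n+1)
    have b2 := hz n
    have : |(E^[n+1] z).1 - (E^[n] z).1| ≤ 1/4 := by
      rw [abs_le]
      constructor <;> linarith
    linarith
  have e1 : (E z).1 = z.1 := by
    have := abs_eq_zero.1 hzero
    linarith
  have e2 : (E z).2 = z.2 := by
    have := h2 1
    simp only [Function.iterate_one] at this
    rw [this, hj]
  exact Prod.ext e1 e2

theorem Skew.split_fixed {E Ei : Plane → Plane} {g : ℝ → ℝ} (H : S.Skew E Ei g) {z : Plane}
    {k : ℤ} (h1 : k + 3/8 < z.1) (h2 : z.1 < k + 5/8) {j : ℤ} (hj : z.2 = j) (hfix : E z = z)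
    (v : Plane) :
    ∃ v1 v2, v = v1 + v2 ∧ Tendsto (fun n => fderiv ℝ (E^[n]) z v1) atTop (𝓝 0) ∧
      Tendsto (fun n => fderiv ℝ (Ei^[n]) z v2) atTop (𝓝 0) := by
  have hc := S.hc
  have hκ := S.hκ
  have hκ1 := S.hκ1
  have hE := H.hasFDerivAt k h1 h2
  set γ := deriv g (S.a z.2) * S.a' z.2 with hγ
  have hfixi : Ei z = z := by
    have := H.Ei_E z
    rwa [hfix] at this
  set μ := S.a' z.1 with hμ
  have hμ1 : 1 + S.c ≤ μ := S.clS_deriv_strip k h1.le h2.le
  have hκ' : S.a' z.2 = S.κ := by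
    rw [hj]
    have := S.clS_deriv_add_int 0 j
    rw [zero_add] at this
    rw [this]
    exact S.clS_deriv_lin (by simp)
  have hEi : HasFDerivAt Ei (fderiv ℝ Ei z) z := (H.diffi z).hasFDerivAt
  set L := skewD S γ z with hL
  set M := fderiv ℝ Ei z with hM
  have hML : ∀ w, M (L w) = w := by
    intro w
    have := H.fderiv_comp' z
    rw [hfix, hE.fderiv] at this
    have := congrArg (fun T : Plane →L[ℝ] Plane => T w) this
    simpa using this
  have itE : ∀ n, fderiv ℝ (E^[n]) z = L ^ n := fun n => (hE.iterate hfix n).fderiv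
  have itEi : ∀ n, fderiv ℝ (Ei^[n]) z = M ^ n := fun n => (hEi.iterate hfixi n).fderiv
  set t := γ / (S.κ - μ) with ht
  have hne : S.κ - μ ≠ 0 := by
    have : S.κ - μ < 0 := by linarith
    exact this.ne
  have hLt : L (t, 1) = S.κ • ((t, 1) : Plane) := by
    rw [hL, skewD_apply, hκ']
    have : μ * t + γ * 1 = S.κ * t := by
      rw [ht]; field_simp; ring
    ext
    · simp only [Prod.smul_mk, smul_eq_mul]; exact this
    · simp
  have hLn : ∀ n : ℕ, (L ^ n) (t, 1) = S.κ ^ n • ((t, 1) : Plane) := by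
    intro n
    induction n with
    | zero => simp
    | succ n ih =>
      rw [pow_succ']
      change L ((L ^ n) (t, 1)) = _
      rw [ih, map_smul, hLt, smul_smul, pow_succ]
  have hM1 : M (1, 0) = μ⁻¹ • ((1, 0) : Plane) := by
    have e := hML (μ⁻¹ • ((1, 0) : Plane))
    rw [hL, skewD_apply] at e
    have hμ0 : μ ≠ 0 := by
      have : 0 < μ := by linarith
      exact this.ne'
    have e2 : ((S.a' z.1 * (μ⁻¹ • ((1, 0) : Plane)).1 + γ * (μ⁻¹ • ((1, 0) : Plane)).2,
        S.a' z.2 * (μ⁻¹ • ((1, 0) : Plane)).2) : Plane) = (1, 0) := by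
      ext
      · simp only [Prod.smul_mk, smul_eq_mul, mul_one, mul_zero, add_zero]
        rw [← hμ]
        exact mul_inv_cancel₀ hμ0
      · simp
    rw [e2] at e
    exact e
  have hMn : ∀ n : ℕ, (M ^ n) (1, 0) = (μ⁻¹) ^ n • ((1, 0) : Plane) := by
    intro n
    induction n with
    | zero => simp
    | succ n ih =>
      rw [pow_succ']
      change M ((M ^ n) (1, 0)) = _
      rw [ih, map_smul, hM1, smul_smul, pow_succ]
  refine ⟨v.2 • ((t, 1) : Plane), (v.1 - v.2 * t) • ((1, 0) : Plane), ?_, ?_, ?_⟩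
  · ext
    · simp
    · simp
  · have e : (fun n => fderiv ℝ (E^[n]) z (v.2 • ((t, 1) : Plane))) =
        fun n : ℕ => v.2 • (S.κ ^ n • ((t, 1) : Plane)) := by
      funext n
      rw [itE, map_smul, hLn]
    rw [e]
    have h0 := tendsto_pow_atTop_nhds_zero_of_lt_one (show (0 : ℝ) ≤ S.κ by linarith) hκ1
    have := (h0.smul_const ((t, 1) : Plane)).const_smul v.2
    simpa using this
  · have e : (fun n => fderiv ℝ (Ei^[n]) z ((v.1 - v.2 * t) • ((1, 0) : Plane))) =
        fun n : ℕ => (v.1 - v.2 * t) • ((μ⁻¹) ^ n • ((1, 0) : Plane)) := by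
      funext n
      rw [itEi, map_smul, hMn]
    rw [e]
    have hμpos : 0 < μ := by linarith
    have h0 := tendsto_pow_atTop_nhds_zero_of_lt_one (inv_nonneg.2 hμpos.le)
      (inv_lt_one_of_one_lt₀ (by linarith : (1 : ℝ) < μ))
    have := (h0.smul_const ((1, 0) : Plane)).const_smul (v.1 - v.2 * t)
    simpa using this

/-! #### The backward orbit -/

theorem clS_back (S : ShearData) {s : ℕ → ℝ} (h0 : 0 < s 0) (hs : ∀ n, S.a (s (n + 1)) = s n) :
    ∃ N, ∀ n, N ≤ n → 3/8 < s n := by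
  have hc := S.hc
  have hκ := S.hκ
  have hκ1 := S.hκ1
  have hpos : ∀ n, 0 < s n := by
    intro n
    induction n with
    | zero => exact h0
    | succ n ih =>
      rw [← hs n] at ih
      by_contra hle
      rw [not_lt] at hle
      have := S.clS_strictMono.monotone hle
      rw [S.clS_zero] at this
      linarith
  have hex : ∃ N, 3/8 < s N := by
    by_contra hno
    simp only [not_exists, not_lt] at hno
    set d := min S.c ((1 - S.κ) * s 0) with hd
    have hdpos : 0 < d := lt_min hc (mul_pos (by linarith) h0)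
    have hgrow : ∀ n : ℕ, s 0 + n * d ≤ s n := by
      intro n
      induction n with
      | zero => simp
      | succ n ih =>
        have h0n : s 0 ≤ s n := by
          have : 0 ≤ (n : ℝ) * d := by positivity
          linarith
        have hstep : s n + d ≤ s (n + 1) := by
          rcases le_total (s (n + 1)) (1/4) with h | h
          · have e := S.a_lin (s (n + 1)) (by rw [abs_of_pos (hpos _)]; exact h)
            rw [hs n] at e
            have : d ≤ (1 - S.κ) * s 0 := min_le_right _ _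
            have h1 : s n ≤ s (n + 1) := by
              rw [e]; nlinarith [hpos (n+1)]
            nlinarith [hpos (n+1)]
          · have e := S.a_mid _ h (hno _)
            rw [hs n] at e
            have : d ≤ S.c := min_le_left _ _
            linarith
        push_cast
        linarith
    obtain ⟨n, hn⟩ := exists_nat_gt (3/8 / d)
    rw [div_lt_iff₀ hdpos] at hn
    have := hgrow n
    have := hno n
    linarith
  obtain ⟨N, hN⟩ := hex
  refine ⟨N, fun n hn => ?_⟩
  induction n, hn using Nat.le_induction with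
  | base => exact hN
  | succ n _ ih =>
    by_contra hle
    rw [not_lt] at hle
    have := S.clS_strictMono.monotone hle
    rw [hs n] at this
    have := S.clS_three_eighths
    linarith

theorem Skew.back_step {E Ei : Plane → Plane} {g : ℝ → ℝ} (H : S.Skew E Ei g) {w : Plane}
    {k : ℤ} (h1 : k + 3/8 < w.1) (h2 : w.1 < k + 5/8) :
    k + 3/8 < (Ei w).1 ∧ (Ei w).1 < k + 5/8 ∧ S.a (Ei w).2 = w.2 := by
  have hAc := S.clS_A_c
  have hc := S.hc
  obtain ⟨y', hy'⟩ := S.a_bijective.2 w.2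
  obtain ⟨x', hx'⟩ := S.a_bijective.2 (w.1 - g w.2)
  have hg := H.gamp w.2
  rw [abs_le] at hg
  have h38 := S.clS_three_eighths
  have b1 : k + 3/8 < x' := by
    by_contra hle
    rw [not_lt] at hle
    have := S.clS_strictMono.monotone hle
    have e : S.a (k + 3/8) = S.a (3/8) + k := by
      rw [← S.clS_add_int]; congr 1; ring
    rw [hx', e] at this
    linarith [hg.2]
  have b2 : x' < k + 5/8 := by
    by_contra hle
    rw [not_lt] at hle
    have := S.clS_strictMono.monotone hle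
    have e : S.a (k + 5/8) = 1 - S.a (3/8) + k := by
      rw [← S.clS_one_sub, ← S.clS_add_int]; congr 1; ring
    rw [hx', e] at this
    linarith [hg.1]
  have e : E (x', y') = w := by
    rw [H.form (x', y') k b1 b2]
    ext
    · simp only; rw [hx', hy']; ring
    · exact hy'
  have e2 : Ei w = (x', y') := by
    rw [← e, H.Ei_E]
  rw [e2]
  exact ⟨b1, b2, hy'⟩

theorem Skew.split_nonint {E Ei : Plane → Plane} {g : ℝ → ℝ} (H : S.Skew E Ei g) {z : Plane}
    {k : ℤ} (h1 : k + 3/8 < z.1) (h2 : z.1 < k + 5/8) (hj : ∀ j : ℤ, z.2 ≠ j)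
    (v : Plane) : Tendsto (fun n => fderiv ℝ (Ei^[n]) z v) atTop (𝓝 0) := by
  have hc := S.hc
  have hκ := S.hκ
  have hκ1 := S.hκ1
  set w : ℕ → Plane := fun n => Ei^[n] z with hw
  have hw1 : ∀ n, w (n + 1) = Ei (w n) := fun n => Function.iterate_succ_apply' _ _ _
  have hx : ∀ n, k + 3/8 < (w n).1 ∧ (w n).1 < k + 5/8 := by
    intro n
    induction n with
    | zero => exact ⟨h1, h2⟩
    | succ n ih =>
      rw [hw1]
      have := H.back_step ih.1 ih.2
      exact ⟨this.1, this.2.1⟩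
  have hy : ∀ n, S.a (w (n + 1)).2 = (w n).2 := by
    intro n
    rw [hw1]
    exact (H.back_step (hx n).1 (hx n).2).2.2
  set j := ⌊z.2⌋ with hjd
  have hj1 : (j : ℝ) < z.2 := lt_of_le_of_ne (Int.floor_le _) (Ne.symm (hj _))
  have hj2 : z.2 < j + 1 := Int.lt_floor_add_one _
  obtain ⟨N1, hN1⟩ := clS_back S (s := fun n => (w n).2 - j) (by simpa [hw] using hj1) (by
    intro n
    have e := S.clS_add_int ((w (n+1)).2 - j) j
    rw [sub_add_cancel, hy] at e
    linarith)
  obtain ⟨N2, hN2⟩ := clS_back S (s := fun n => 1 - ((w n).2 - j))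
    (by
      have : z.2 - j < 1 := by linarith
      simpa [hw] using this) (by
    intro n
    have e := S.clS_add_int ((w (n+1)).2 - j) j
    rw [sub_add_cancel, hy] at e
    rw [S.clS_one_sub]
    linarith)
  set N := max N1 N2 with hN
  set D : ℕ → Plane := fun n => fderiv ℝ (Ei^[n]) z v with hD
  have hDs : ∀ n, D (n + 1) = fderiv ℝ Ei (w n) (D n) := by
    intro n
    have hdn : DifferentiableAt ℝ (Ei^[n]) z := (H.diffi.iterate n) z
    simp only [hD, Function.iterate_succ']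
    rw [_root_.fderiv_comp z (H.diffi _) hdn]
    rfl
  have hED : ∀ n, fderiv ℝ E (w (n + 1)) (D (n + 1)) = D n := by
    intro n
    rw [hDs, hw1]
    have := congrArg (fun T : Plane →L[ℝ] Plane => T (D n)) (H.fderiv_comp (w n))
    simpa using this
  have hstep : ∀ n, N ≤ n → ‖D (n + 1)‖ ≤ (1 + S.c)⁻¹ * ‖D n‖ := by
    intro n hn
    have c1 := hN1 (n+1) (le_trans (le_max_left _ _) (le_trans hn (Nat.le_succ n)))
    have c2 := hN2 (n+1) (le_trans (le_max_right _ _) (le_trans hn (Nat.le_succ n)))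
    have y1 : j + 3/8 < (w (n+1)).2 := by linarith
    have y2 : (w (n+1)).2 < j + 5/8 := by linarith
    have hfd := H.hasFDerivAt k (hx (n+1)).1 (hx (n+1)).2
    have hg0 : deriv g (S.a (w (n+1)).2) = 0 := by
      obtain ⟨b1, b2⟩ := S.clS_strip j y1 y2
      have hev : g =ᶠ[𝓝 (S.a (w (n+1)).2)] fun _ => (0 : ℝ) := by
        have ho : ∀ᶠ t : ℝ in 𝓝 (S.a (w (n+1)).2), j + 1/8 < t ∧ t < j + 7/8 :=
          (eventually_gt_nhds (by linarith)).and (eventually_lt_nhds (by linarith))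
        filter_upwards [ho] with t ht
        exact H.gsupp j t ht.1.le ht.2.le
      rw [hev.deriv_eq]
      simp
    rw [hg0, zero_mul] at hfd
    have e := hED n
    rw [hfd.fderiv, skewD_apply, zero_mul, add_zero] at e
    have m1 := S.clS_deriv_strip k (hx (n+1)).1.le (hx (n+1)).2.le
    have m2 := S.clS_deriv_strip j y1.le y2.le
    have p1 : |(D (n+1)).1| * (1 + S.c) ≤ |(D n).1| := by
      rw [← e]
      simp only
      rw [abs_mul, abs_of_pos (by linarith : (0:ℝ) < S.a' (w (n+1)).1), mul_comm]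
      exact mul_le_mul_of_nonneg_right m1 (abs_nonneg _)
    have p2 : |(D (n+1)).2| * (1 + S.c) ≤ |(D n).2| := by
      rw [← e]
      simp only
      rw [abs_mul, abs_of_pos (by linarith : (0:ℝ) < S.a' (w (n+1)).2), mul_comm]
      exact mul_le_mul_of_nonneg_right m2 (abs_nonneg _)
    rw [inv_mul_eq_div, le_div_iff₀ (by linarith : (0:ℝ) < 1 + S.c), Prod.norm_def, Prod.norm_def,
      Real.norm_eq_abs, Real.norm_eq_abs, Real.norm_eq_abs, Real.norm_eq_abs,
      max_mul_of_nonneg _ _ (by linarith : (0:ℝ) ≤ 1 + S.c)]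
    exact max_le_max p1 p2
  have hgeo : ∀ i : ℕ, ‖D (N + i)‖ ≤ (1 + S.c)⁻¹ ^ i * ‖D N‖ := by
    intro i
    induction i with
    | zero => simp
    | succ i ih =>
      have hnn : (0 : ℝ) ≤ (1 + S.c)⁻¹ := inv_nonneg.2 (by linarith)
      calc ‖D (N + (i + 1))‖ ≤ (1 + S.c)⁻¹ * ‖D (N + i)‖ := hstep (N + i) (Nat.le_add_right _ _)
        _ ≤ (1 + S.c)⁻¹ * ((1 + S.c)⁻¹ ^ i * ‖D N‖) := mul_le_mul_of_nonneg_left ih hnn
        _ = _ := by ring
  have hlim : Tendsto (fun i : ℕ => D (N + i)) atTop (𝓝 0) := by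
    have h0 := tendsto_pow_atTop_nhds_zero_of_lt_one
      (inv_nonneg.2 (by linarith : (0:ℝ) ≤ 1 + S.c))
      (inv_lt_one_of_one_lt₀ (by linarith : (1 : ℝ) < 1 + S.c))
    have h3 := h0.mul_const ‖D N‖
    rw [zero_mul] at h3
    exact squeeze_zero_norm hgeo h3
  have := (tendsto_add_atTop_iff_nat (f := D) N).1 (by simpa [add_comm] using hlim)
  exact this

/-- Both directions are contracted either in the past or in the future. -/
theorem Skew.split {E Ei : Plane → Plane} {g : ℝ → ℝ} (H : S.Skew E Ei g) {z : Plane}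
    {k : ℤ} (hz : ∀ n, k + 3/8 < (E^[n] z).1 ∧ (E^[n] z).1 < k + 5/8) (v : Plane) :
    ∃ v1 v2, v = v1 + v2 ∧ Tendsto (fun n => fderiv ℝ (E^[n]) z v1) atTop (𝓝 0) ∧
      Tendsto (fun n => fderiv ℝ (Ei^[n]) z v2) atTop (𝓝 0) := by
  by_cases hj : ∃ j : ℤ, z.2 = j
  · obtain ⟨j, hj⟩ := hj
    exact H.split_fixed (hz 0).1 (hz 0).2 hj (H.fixed hz hj) v
  · simp only [not_exists] at hj
    refine ⟨0, v, by simp, by simp, ?_⟩
    exact H.split_nonint (hz 0).1 (hz 0).2 hj v

theorem shear_diff {A : ℝ} {h : ℝ → ℝ} (H : IsShear A h) : Differentiable ℝ h :=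
  H.smooth.differentiable (by simp)

theorem F_differentiable (S : ShearData) : Differentiable ℝ S.F :=
  (S.F_smooth 1).differentiable (by simp)

theorem Fi_differentiable (S : ShearData) : Differentiable ℝ S.Fi :=
  (S.Fi_smooth 1).differentiable (by simp)

theorem skewX (S : ShearData) :
    S.Skew S.F S.Fi (fun y => S.h1 y + S.h2 y + S.h3 y) where
  E_Ei := S.F_Fi
  Ei_E := S.Fi_F
  diff := S.F_differentiable
  diffi := S.Fi_differentiable
  gdiff := ((shear_diff S.h1s).add (shear_diff S.h2s)).add (shear_diff S.h3s)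
  gamp := fun y => by
    have h1 := S.h1s.amp y
    have h2 := S.h2s.amp y
    have h3 := S.h3s.amp y
    calc |S.h1 y + S.h2 y + S.h3 y| ≤ |S.h1 y + S.h2 y| + |S.h3 y| := abs_add_le _ _
      _ ≤ |S.h1 y| + |S.h2 y| + |S.h3 y| := by gcongr; exact abs_add_le _ _
      _ ≤ 3 * S.A := by linarith
  gsupp := fun k x h1 h2 => by
    rw [S.h1s.eq_zero k h1 h2, S.h2s.eq_zero k h1 h2, S.h3s.eq_zero k h1 h2]
    ring
  form := fun z k h1 h2 => S.F_stripX k h1 h2

theorem skewY (S : ShearData) :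
    S.Skew (fun z => (S.F z.swap).swap) (fun z => (S.Fi z.swap).swap)
      (fun x => S.v1 x + S.v2 x) where
  E_Ei := fun z => by simp [S.F_Fi]
  Ei_E := fun z => by simp [S.Fi_F]
  diff := by
    have hs : Differentiable ℝ (Prod.swap : Plane → Plane) :=
      (ContinuousLinearEquiv.prodComm ℝ ℝ ℝ).differentiable
    exact hs.comp (S.F_differentiable.comp hs)
  diffi := by
    have hs : Differentiable ℝ (Prod.swap : Plane → Plane) :=
      (ContinuousLinearEquiv.prodComm ℝ ℝ ℝ).differentiable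
    exact hs.comp (S.Fi_differentiable.comp hs)
  gdiff := (shear_diff S.v1s).add (shear_diff S.v2s)
  gamp := fun x => by
    have h1 := S.v1s.amp x
    have h2 := S.v2s.amp x
    have hA := S.hA
    calc |S.v1 x + S.v2 x| ≤ |S.v1 x| + |S.v2 x| := abs_add_le _ _
      _ ≤ 3 * S.A := by linarith
  gsupp := fun k x h1 h2 => by
    rw [S.v1s.eq_zero k h1 h2, S.v2s.eq_zero k h1 h2]
    ring
  form := fun z k h1 h2 => by
    rw [S.F_stripY k (z := z.swap) h1 h2]
    rfl

theorem iterate_swap (G : Plane → Plane) (n : ℕ) (z : Plane) :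
    (fun z : Plane => (G z.swap).swap)^[n] z = (G^[n] z.swap).swap := by
  induction n with
  | zero => simp
  | succ n ih => rw [Function.iterate_succ_apply', ih, Function.iterate_succ_apply']; simp

theorem fderiv_iterate_swap {G : Plane → Plane} (hG : Differentiable ℝ G) (n : ℕ) (z v : Plane) :
    fderiv ℝ ((fun z : Plane => (G z.swap).swap)^[n]) z.swap v =
      (fderiv ℝ (G^[n]) z v.swap).swap := by
  have e : (fun z : Plane => (G z.swap).swap)^[n] =
      (ContinuousLinearEquiv.prodComm ℝ ℝ ℝ) ∘ (G^[n] ∘ (ContinuousLinearEquiv.prodComm ℝ ℝ ℝ)) := by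
    funext w
    exact iterate_swap G n w
  rw [e]
  have h1 : HasFDerivAt (ContinuousLinearEquiv.prodComm ℝ ℝ ℝ)
      ((ContinuousLinearEquiv.prodComm ℝ ℝ ℝ : Plane ≃L[ℝ] Plane) : Plane →L[ℝ] Plane) z.swap :=
    (ContinuousLinearEquiv.prodComm ℝ ℝ ℝ).hasFDerivAt
  have h2 : HasFDerivAt (G^[n]) (fderiv ℝ (G^[n]) z)
      ((ContinuousLinearEquiv.prodComm ℝ ℝ ℝ : Plane ≃L[ℝ] Plane) z.swap) := by
    have : (ContinuousLinearEquiv.prodComm ℝ ℝ ℝ : Plane ≃L[ℝ] Plane) z.swap = z := by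
      simp [ContinuousLinearEquiv.prodComm]
    rw [this]
    exact ((hG.iterate n) z).hasFDerivAt
  have h3 := h2.comp z.swap h1
  have h4 := ((ContinuousLinearEquiv.prodComm ℝ ℝ ℝ : Plane ≃L[ℝ] Plane).hasFDerivAt
    (x := (G^[n] ∘ (ContinuousLinearEquiv.prodComm ℝ ℝ ℝ)) z.swap)).comp z.swap h3
  rw [h4.fderiv]
  rfl

/-- Either the forward orbit under `F` is eventually near an integer point, or the tangent plane is
spanned by the directions contracted in the past and in the future. -/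
theorem dichotomy (S : ShearData) (z : Plane) :
    (∃ k l : ℤ, ∃ M, ∀ m, M ≤ m → |(S.F^[m] z).1 - k| ≤ 1/4 ∧ |(S.F^[m] z).2 - l| ≤ 1/4) ∨
    ∀ v, ∃ v1 v2, v = v1 + v2 ∧ Tendsto (fun n => fderiv ℝ (S.F^[n]) z v1) atTop (𝓝 0) ∧
      Tendsto (fun n => fderiv ℝ (S.Fi^[n]) z v2) atTop (𝓝 0) := by
  have h1 : ∀ n, |(S.F^[n+1] z).1 - S.a (S.F^[n] z).1| ≤ 3 * S.A := fun n => by
    rw [Function.iterate_succ_apply']
    exact S.F_fst _
  have h2 : ∀ n, |(S.F^[n+1] z).2 - S.a (S.F^[n] z).2| ≤ 3 * S.A := fun n => by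
    rw [Function.iterate_succ_apply']
    exact S.F_snd _
  rcases S.clS_dichotomy (x := fun n => (S.F^[n] z).1) h1 with ⟨k, M1, hM1⟩ | ⟨k, hk⟩
  · rcases S.clS_dichotomy (x := fun n => (S.F^[n] z).2) h2 with ⟨l, M2, hM2⟩ | ⟨l, hl⟩
    · left
      refine ⟨k, l, max M1 M2, fun m hm => ⟨hM1 m (le_trans (le_max_left _ _) hm),
        hM2 m (le_trans (le_max_right _ _) hm)⟩⟩
    · right
      intro v
      have hs := (S.skewY).split (z := z.swap) (k := l) (fun n => by
        rw [iterate_swap S.F n z.swap]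
        simpa using hl n) v.swap
      obtain ⟨v1, v2, hv, t1, t2⟩ := hs
      have hc : Tendsto (Prod.swap : Plane → Plane) (𝓝 0) (𝓝 0) :=
        continuous_swap.tendsto' _ _ rfl
      refine ⟨v1.swap, v2.swap, ?_, ?_, ?_⟩
      · have := congrArg Prod.swap hv
        simpa using this
      · have := hc.comp t1
        refine this.congr fun n => ?_
        simp only [Function.comp_apply]
        rw [fderiv_iterate_swap S.F_differentiable]
        simp
      · have := hc.comp t2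
        refine this.congr fun n => ?_
        simp only [Function.comp_apply]
        rw [fderiv_iterate_swap S.Fi_differentiable]
        simp
  · right
    exact fun v => (S.skewX).split hk v

/-! ### The torus -/

/-- the square `|x|, |y| ≤ 1/4` in the torus -/
def Sq : Set Torus := cov '' (Icc (-(1/4) : ℝ) (1/4) ×ˢ Icc (-(1/4) : ℝ) (1/4))

theorem isClosed_Sq : IsClosed Sq :=
  ((isCompact_Icc.prod isCompact_Icc).image continuous_cov).isClosed

theorem mem_Sq_of {w : Plane} {k l : ℤ} (h1 : |w.1 - k| ≤ 1/4) (h2 : |w.2 - l| ≤ 1/4) :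
    cov w ∈ Sq := by
  refine ⟨w + (((-k : ℤ) : ℝ), ((-l : ℤ) : ℝ)), ?_, cov_add_int _ _ _⟩
  rw [abs_le] at h1 h2
  refine ⟨⟨?_, ?_⟩, ⟨?_, ?_⟩⟩
  · simp only [Prod.fst_add]; push_cast; linarith [h1.1]
  · simp only [Prod.fst_add]; push_cast; linarith [h1.2]
  · simp only [Prod.snd_add]; push_cast; linarith [h2.1]
  · simp only [Prod.snd_add]; push_cast; linarith [h2.2]

theorem det_of_mem_Sq (S : ShearData) {w : Plane} (hw : cov w ∈ Sq) :
    (fderiv ℝ S.F w).det = S.κ ^ 2 := by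
  obtain ⟨u, hu, hc⟩ := hw
  obtain ⟨m, n, rfl⟩ := cov_eq_iff.1 hc
  rw [S.det_fderiv_F]
  simp only [Prod.fst_add, Prod.snd_add]
  rw [S.clS_deriv_add_int, S.clS_deriv_add_int, S.clS_deriv_lin (abs_le.2 hu.1),
    S.clS_deriv_lin (abs_le.2 hu.2)]
  ring

end ShearData

/-- **Block E.** A hyperbolic set of `f` with a homoclinic tangency contains a point along whose
forward orbit `f` expands area. -/
theorem exists_expanding_of_tangency (S : ShearData) (r : ℕ) (hr : 2 ≤ r) (f : TorusDiffeo r)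
    (hf : IsLift r S.Fi f.perm) (hf' : IsLift r S.F f.perm.symm)
    (L : Set Torus) (hL : IsHyperbolicSet f.perm L) (hT : HasHomoclinicTangency f.perm L) :
    ∃ x ∈ L, ∃ c > 0, ∀ n : ℕ, 1 + c ≤ |(tderiv f.perm ((f.perm ^ n) x)).det| := by
  have hf1 : IsLift 1 S.Fi f.perm := hf.mono (by omega)
  have hf1' : IsLift 1 S.F (f.perm⁻¹ : Equiv.Perm Torus) := hf'.mono (by omega)
  obtain ⟨p, hp, q, hq, z, ⟨hzp, hzq⟩, htan⟩ := hT
  obtain ⟨z0, rfl⟩ := cov_surjective z
  -- the forward orbit of `z` under `f⁻¹` is eventually in the square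
  have hev : ∃ M, ∀ m, M ≤ m → (f.perm⁻¹ ^ m : Equiv.Perm Torus) (cov z0) ∈ ShearData.Sq := by
    rcases S.dichotomy z0 with ⟨k, l, M, hM⟩ | H
    · refine ⟨M, fun m hm => ?_⟩
      have e : cov (S.F^[m] z0) = (f.perm⁻¹ ^ m : Equiv.Perm Torus) (cov z0) :=
        (hf1'.pow m).2 z0
      rw [← e]
      exact ShearData.mem_Sq_of (hM m hm).1 (hM m hm).2
    · exfalso
      apply htan
      rw [eq_top_iff]
      intro v _
      obtain ⟨v1, v2, hv, t1, t2⟩ := H v
      rw [hv]
      refine Submodule.add_mem_sup ?_ ?_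
      · change Tendsto (fun n : ℕ => tderiv (f.perm⁻¹ ^ n : Equiv.Perm Torus) (cov z0) v1)
          atTop (𝓝 0)
        refine t1.congr fun n => ?_
        rw [tderiv_eq (hf1'.pow n)]
      · change Tendsto (fun n : ℕ => tderiv (f.perm ^ n : Equiv.Perm Torus) (cov z0) v2)
          atTop (𝓝 0)
        refine t2.congr fun n => ?_
        rw [tderiv_eq (hf1.pow n)]
  obtain ⟨M, hM⟩ := hev
  -- a limit point of the orbit of `p`
  have hLinv : ∀ n : ℕ, ∀ x ∈ L, (f.perm⁻¹ ^ n : Equiv.Perm Torus) x ∈ L := by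
    intro n
    induction n with
    | zero => intro x hx; simpa using hx
    | succ n ih =>
      intro x hx
      rw [pow_succ, Equiv.Perm.mul_apply]
      apply ih
      have : x ∈ f.perm '' L := by rw [hL.invariant]; exact hx
      obtain ⟨y, hy, rfl⟩ := this
      simpa using hy
  obtain ⟨x, hxL, φ, hφ, hlim⟩ := hL.isCompact.tendsto_subseq (fun n => hLinv n p hp)
  have hdist : Tendsto (fun n : ℕ => dist ((f.perm⁻¹ ^ n : Equiv.Perm Torus) (cov z0))
      ((f.perm⁻¹ ^ n : Equiv.Perm Torus) p)) atTop (𝓝 0) := hzp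
  have hlimz : Tendsto (fun n : ℕ => (f.perm⁻¹ ^ (φ n) : Equiv.Perm Torus) (cov z0))
      atTop (𝓝 x) := by
    have h1 := hdist.comp hφ.tendsto_atTop
    rw [tendsto_iff_dist_tendsto_zero] at hlim ⊢
    have h2 := h1.add hlim
    rw [add_zero] at h2
    refine squeeze_zero (fun _ => dist_nonneg) (fun n => ?_) h2
    exact dist_triangle _ _ _
  have hfc : Continuous f.perm := by
    have hq : IsOpenQuotientMap cov := by
      have h1 : IsOpenQuotientMap (QuotientAddGroup.mk : ℝ → UnitAddCircle) :=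
        QuotientAddGroup.isOpenQuotientMap_mk
      exact h1.prodMap h1
    have : (f.perm : Torus → Torus) ∘ cov = cov ∘ S.Fi := by
      funext w
      exact (hf1.2 w).symm
    rw [hq.isQuotientMap.continuous_iff, this]
    exact continuous_cov.comp hf1.continuous
  have hfcn : ∀ n : ℕ, Continuous (f.perm ^ n : Equiv.Perm Torus) := by
    intro n
    induction n with
    | zero => simpa using continuous_id
    | succ n ih =>
      rw [pow_succ']
      exact hfc.comp ih
  have hsq : ∀ m : ℕ, (f.perm ^ m : Equiv.Perm Torus) x ∈ ShearData.Sq := by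
    intro m
    have h1 := ((hfcn m).tendsto x).comp hlimz
    refine ShearData.isClosed_Sq.mem_of_tendsto h1 ?_
    have h2 := hφ.tendsto_atTop.eventually_ge_atTop (M + m)
    filter_upwards [h2] with n hn
    simp only [Function.comp_apply]
    obtain ⟨i, hi⟩ := Nat.exists_eq_add_of_le hn
    have e : (f.perm ^ m : Equiv.Perm Torus) ((f.perm⁻¹ ^ (φ n) : Equiv.Perm Torus) (cov z0)) =
        (f.perm⁻¹ ^ (M + i) : Equiv.Perm Torus) (cov z0) := by
      rw [← Equiv.Perm.mul_apply, hi]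
      congr 1
      rw [show M + m + i = m + (M + i) by ring, pow_add, ← mul_assoc, inv_pow, mul_inv_cancel,
        one_mul]
    rw [e]
    exact hM _ (by omega)
  refine ⟨x, hxL, (S.κ ^ 2)⁻¹ - 1, ?_, fun n => ?_⟩
  · have h1 := S.hκ
    have h2 := S.hκ1
    have h3 : S.κ ^ 2 < 1 := by nlinarith
    have h4 : 1 < (S.κ ^ 2)⁻¹ := (one_lt_inv₀ (by positivity)).2 h3
    linarith
  · obtain ⟨w, hw⟩ := cov_surjective ((f.perm ^ n) x)
    have hmem : cov (S.Fi w) ∈ ShearData.Sq := by
      rw [hf1.2 w, hw]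
      have := hsq (n + 1)
      rwa [pow_succ', Equiv.Perm.mul_apply] at this
    have hd := S.det_of_mem_Sq hmem
    rw [← hw, tderiv_eq hf1]
    have hc := congrArg (fun T : Plane →L[ℝ] Plane => T.det) (S.skewX.fderiv_comp w)
    have hc2 : (fderiv ℝ S.F (S.Fi w)).det * (fderiv ℝ S.Fi w).det = 1 := by
      have e1 : ((fderiv ℝ S.F (S.Fi w)).comp (fderiv ℝ S.Fi w)).det =
          (fderiv ℝ S.F (S.Fi w)).det * (fderiv ℝ S.Fi w).det := by
        simp only [ContinuousLinearMap.det]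
        exact LinearMap.det_comp _ _
      have e2 : (ContinuousLinearMap.id ℝ Plane).det = 1 := by
        simp only [ContinuousLinearMap.det]
        exact LinearMap.det_id
      rw [← e1, ← e2]
      exact hc
    rw [hd] at hc2
    have h1 := S.hκ
    have h5 : (fderiv ℝ S.Fi w).det = (S.κ ^ 2)⁻¹ := by
      have : S.κ ^ 2 ≠ 0 := by positivity
      field_simp
      linarith
    rw [h5, abs_of_pos (by positivity)]
    linarith

end Pool.Agent.Work.MP_f9d495_an
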