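import Pool.Agent.Work.MP_f9d495_an.Pert
import Pool.Agent.Work.MP_f9d495_an.Area

/-!
# Block G1 : the `C^r` neighbourhood of the model map
-/

open Filter Topology Set

namespace Pool.Agent.Work.MP_f9d495_an

/-! ### Triangle inequality for lifts -/

theorem iteratedFDeriv_sub_eq {r j : ℕ} (hj : j ≤ r) {F G : Plane → Plane}
    (hF : ContDiff ℝ r F) (hG : ContDiff ℝ r G) (x : Plane) :
    iteratedFDeriv ℝ j F x - iteratedFDeriv ℝ j G x = iteratedFDeriv ℝ j (fun z => F z - G z) x := by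
  have h1 : ContDiffAt ℝ j F x := (hF.of_le (by exact_mod_cast hj)).contDiffAt
  have h2 : ContDiffAt ℝ j G x := (hG.of_le (by exact_mod_cast hj)).contDiffAt
  have h3 := iteratedFDeriv_sub_apply (𝕜 := ℝ) h1 h2
  rw [← h3]
  rfl

/-- The lifts in `LiftClose` may be replaced: the first one can be prescribed. -/
theorem LiftClose.exists_lift {r : ℕ} {e : ℝ} {h k : Torus → Torus} (hc : LiftClose r e h k)
    {F : Plane → Plane} (hF : IsLift r F h) :
    ∃ G, IsLift r G k ∧ ∀ j ≤ r, ∀ x, ‖iteratedFDeriv ℝ j (fun z => F z - G z) x‖ ≤ e := by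
  obtain ⟨F', G', hF', hG', hle⟩ := hc
  obtain ⟨m, n, hmn⟩ := hF'.eq_add_int hF
  refine ⟨fun x => G' x + ((m : ℝ), (n : ℝ)), hG'.add_const m n, fun j hj x => ?_⟩
  have e1 : (fun z => F z - (G' z + ((m : ℝ), (n : ℝ)))) = fun z => F' z - G' z := by
    funext z
    rw [hmn z]
    abel
  rw [e1, ← iteratedFDeriv_sub_eq hj hF'.1 hG'.1]
  exact hle j hj x

theorem liftClose_of {r : ℕ} {e : ℝ} {h k : Torus → Torus} {F G : Plane → Plane}
    (hF : IsLift r F h) (hG : IsLift r G k)
    (hle : ∀ j ≤ r, ∀ x, ‖iteratedFDeriv ℝ j (fun z => F z - G z) x‖ ≤ e) : LiftClose r e h k := by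
  refine ⟨F, G, hF, hG, fun j hj x => ?_⟩
  rw [iteratedFDeriv_sub_eq hj hF.1 hG.1]
  exact hle j hj x

theorem LiftClose.refl {r : ℕ} {h : Torus → Torus} (hh : ∃ F, IsLift r F h) :
    LiftClose r 0 h h := by
  obtain ⟨F, hF⟩ := hh
  refine ⟨F, F, hF, hF, fun j _ x => ?_⟩
  simp

theorem LiftClose.triangle {r : ℕ} {a b : ℝ} {h k l : Torus → Torus} (h1 : LiftClose r a h k)
    (h2 : LiftClose r b k l) : LiftClose r (a + b) h l := by
  obtain ⟨F, G, hF, hG, hle⟩ := h1
  obtain ⟨H, hH, hle2⟩ := h2.exists_lift hG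
  refine ⟨F, H, hF, hH, fun j hj x => ?_⟩
  have e1 : iteratedFDeriv ℝ j F x - iteratedFDeriv ℝ j H x =
      (iteratedFDeriv ℝ j F x - iteratedFDeriv ℝ j G x) +
        (iteratedFDeriv ℝ j G x - iteratedFDeriv ℝ j H x) := by abel
  rw [e1]
  refine (norm_add_le _ _).trans (add_le_add (hle j hj x) ?_)
  rw [iteratedFDeriv_sub_eq hj hG.1 hH.1]
  exact hle2 j hj x

theorem LiftClose.mono {r : ℕ} {a b : ℝ} (hab : a ≤ b) {h k : Torus → Torus}
    (h1 : LiftClose r a h k) : LiftClose r b h k := by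
  obtain ⟨F, G, hF, hG, hle⟩ := h1
  exact ⟨F, G, hF, hG, fun j hj x => (hle j hj x).trans hab⟩

theorem CrClose.refl {r : ℕ} (f : TorusDiffeo r) : CrClose r 0 f f :=
  ⟨LiftClose.refl f.lift, LiftClose.refl f.lift_symm⟩

theorem CrClose.triangle {r : ℕ} {a b : ℝ} {f g h : TorusDiffeo r} (h1 : CrClose r a f g)
    (h2 : CrClose r b g h) : CrClose r (a + b) f h :=
  ⟨h1.1.triangle h2.1, h1.2.triangle h2.2⟩

theorem CrClose.mono {r : ℕ} {a b : ℝ} (hab : a ≤ b) {f g : TorusDiffeo r}
    (h1 : CrClose r a f g) : CrClose r b f g := ⟨h1.1.mono hab, h1.2.mono hab⟩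

/-- The open ball around `f`. -/
def ballCr (r : ℕ) (e : ℝ) (f : TorusDiffeo r) : Set (TorusDiffeo r) :=
  {g | ∃ e1 < e, CrClose r e1 f g}

theorem isOpenCr_ballCr (r : ℕ) (e : ℝ) (f : TorusDiffeo r) : IsOpenCr r (ballCr r e f) := by
  rintro g ⟨e1, he1, hg⟩
  refine ⟨(e - e1) / 2, by linarith, fun h hh => ?_⟩
  exact ⟨e1 + (e - e1) / 2, by linarith, hg.triangle hh⟩

theorem mem_ballCr_self (r : ℕ) {e : ℝ} (he : 0 < e) (f : TorusDiffeo r) : f ∈ ballCr r e f :=
  ⟨0, he, CrClose.refl f⟩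

/-! ### Small functions -/

/-- `C²` small maps of the plane give `C11` data in the scaled coordinates. -/
theorem exists_C11 {w : Plane → Plane} (hw : ContDiff ℝ 2 w) {e s : ℝ} (hs : 0 < s) (hs1 : s ≤ 1)
    (he : ∀ j ≤ 2, ∀ x, ‖iteratedFDeriv ℝ j w x‖ ≤ e * s) (he0 : 0 ≤ e) :
    ∃ u ux uy v vx vy : ℝ → ℝ → ℝ, C11 e u ux uy ∧ C11 e v vx vy ∧
      ∀ x y, w (s * x, s * y) = (s * u x y, s * v x y) := by
  have h0 : ∀ z, ‖w z‖ ≤ e * s := fun z => by
    have := he 0 (by norm_num) z
    rwa [norm_iteratedFDeriv_zero] at this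
  have hes : e * s ≤ e := by nlinarith
  have h1 : ∀ z, ‖fderiv ℝ w z‖ ≤ e * s := fun z => by
    have := he 1 (by norm_num) z
    rwa [norm_iteratedFDeriv_one] at this
  have h2 : ∀ z, ‖fderiv ℝ (fderiv ℝ w) z‖ ≤ e * s := fun z => by
    have := he 2 le_rfl z
    have e2 : ‖iteratedFDeriv ℝ (1 + 1) w z‖ = ‖iteratedFDeriv ℝ 1 (fderiv ℝ w) z‖ :=
      (norm_iteratedFDeriv_fderiv).symm
    rw [show (2 : ℕ) = 1 + 1 from rfl, e2, norm_iteratedFDeriv_one] at this
    exact this
  have d1 : Differentiable ℝ w := hw.differentiable (by norm_num)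
  have d2 : Differentiable ℝ (fderiv ℝ w) :=
    (hw.fderiv_right (m := 1) (by norm_num)).differentiable (by norm_num)
  have lip0 : ∀ z z', ‖w z' - w z‖ ≤ e * s * ‖z' - z‖ := fun z z' =>
    convex_univ.norm_image_sub_le_of_norm_fderiv_le (fun x _ => d1 x) (fun x _ => h1 x)
      (mem_univ z) (mem_univ z')
  have lip1 : ∀ z z', ‖fderiv ℝ w z' - fderiv ℝ w z‖ ≤ e * s * ‖z' - z‖ := fun z z' =>
    convex_univ.norm_image_sub_le_of_norm_fderiv_le (fun x _ => d2 x) (fun x _ => h2 x)
      (mem_univ z) (mem_univ z')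
  have tay : ∀ z z', ‖w z' - w z - fderiv ℝ w z (z' - z)‖ ≤ e * s * ‖z' - z‖ * ‖z' - z‖ := by
    intro z z'
    refine (convex_closedBall z ‖z' - z‖).norm_image_sub_le_of_norm_fderiv_le'
      (fun x _ => d1 x) (fun x hx => ?_) (Metric.mem_closedBall_self (norm_nonneg _)) ?_
    · refine (lip1 z x).trans ?_
      rw [Metric.mem_closedBall, dist_eq_norm] at hx
      exact mul_le_mul_of_nonneg_left hx (by positivity)
    · rw [Metric.mem_closedBall, dist_eq_norm]
  -- the chart
  have nrm : ∀ x y x' y' : ℝ, ‖((s * x', s * y') : Plane) - (s * x, s * y)‖ ≤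
      s * (|x' - x| + |y' - y|) := by
    intro x y x' y'
    have e1 : ((s * x', s * y') : Plane) - (s * x, s * y) = (s * (x' - x), s * (y' - y)) := by
      ext <;> simp <;> ring
    rw [e1, Prod.norm_def, Real.norm_eq_abs, Real.norm_eq_abs, abs_mul, abs_mul, abs_of_pos hs]
    have := abs_nonneg (x' - x)
    have := abs_nonneg (y' - y)
    apply max_le <;> nlinarith
  have nonn : ∀ x y x' y' : ℝ, 0 ≤ |x' - x| + |y' - y| := fun x y x' y' => by positivity
  -- a linear functional of norm at most one applied to `w`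
  have key : ∀ (π : Plane →L[ℝ] ℝ), (∀ z, |π z| ≤ ‖z‖) →
      C11 e (fun x y => π (w (s * x, s * y)) / s) (fun x y => π (fderiv ℝ w (s * x, s * y) (1, 0)))
        (fun x y => π (fderiv ℝ w (s * x, s * y) (0, 1))) := by
    intro π hπ
    have n10 : ‖((1, 0) : Plane)‖ ≤ 1 := by simp [Prod.norm_def]
    have n01 : ‖((0, 1) : Plane)‖ ≤ 1 := by simp [Prod.norm_def]
    have A1 : ∀ (L : Plane →L[ℝ] Plane) (t : Plane), ‖t‖ ≤ 1 → |π (L t)| ≤ ‖L‖ := by
      intro L t ht
      refine (hπ _).trans ((L.le_opNorm t).trans ?_)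
      have := norm_nonneg L
      nlinarith
    constructor
    · intro x y
      rw [abs_div, abs_of_pos hs, div_le_iff₀ hs]
      exact (hπ _).trans (h0 _)
    · intro x y
      exact ((A1 _ _ n10).trans (h1 _)).trans hes
    · intro x y
      exact ((A1 _ _ n01).trans (h1 _)).trans hes
    · intro x y x' y'
      rw [← sub_div, ← map_sub, abs_div, abs_of_pos hs, div_le_iff₀ hs]
      refine (hπ _).trans ((lip0 _ _).trans ?_)
      have k1 := nrm x y x' y'
      have k2 := nonn x y x' y'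
      calc e * s * ‖((s * x', s * y') : Plane) - (s * x, s * y)‖
          ≤ e * s * (s * (|x' - x| + |y' - y|)) := mul_le_mul_of_nonneg_left k1 (by positivity)
        _ = (s * (e * (|x' - x| + |y' - y|))) * s := by ring
        _ ≤ (1 * (e * (|x' - x| + |y' - y|))) * s := by gcongr
        _ = _ := by ring
    · intro x y x' y'
      rw [← map_sub, ← sub_apply]
      refine (A1 _ _ n10).trans ((lip1 _ _).trans ?_)
      have k1 := nrm x y x' y'
      have k2 := nonn x y x' y'
      calc e * s * ‖((s * x', s * y') : Plane) - (s * x, s * y)‖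
          ≤ e * s * (s * (|x' - x| + |y' - y|)) := mul_le_mul_of_nonneg_left k1 (by positivity)
        _ = (s * s) * (e * (|x' - x| + |y' - y|)) := by ring
        _ ≤ 1 * (e * (|x' - x| + |y' - y|)) := by gcongr; nlinarith
        _ = _ := by ring
    · intro x y x' y'
      rw [← map_sub, ← sub_apply]
      refine (A1 _ _ n01).trans ((lip1 _ _).trans ?_)
      have k1 := nrm x y x' y'
      have k2 := nonn x y x' y'
      calc e * s * ‖((s * x', s * y') : Plane) - (s * x, s * y)‖
          ≤ e * s * (s * (|x' - x| + |y' - y|)) := mul_le_mul_of_nonneg_left k1 (by positivity)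
        _ = (s * s) * (e * (|x' - x| + |y' - y|)) := by ring
        _ ≤ 1 * (e * (|x' - x| + |y' - y|)) := by gcongr; nlinarith
        _ = _ := by ring
    · intro x y x' y'
      have e1 : π (w (s * x', s * y')) / s - π (w (s * x, s * y)) / s -
          π (fderiv ℝ w (s * x, s * y) (1, 0)) * (x' - x) -
          π (fderiv ℝ w (s * x, s * y) (0, 1)) * (y' - y) =
          π (w (s * x', s * y') - w (s * x, s * y) -
            fderiv ℝ w (s * x, s * y) ((s * x', s * y') - (s * x, s * y))) / s := by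
        have e2 : ((s * x', s * y') : Plane) - (s * x, s * y) =
            (s * (x' - x)) • (1, 0) + (s * (y' - y)) • (0, 1) := by
          ext <;> simp <;> ring
        rw [e2]
        simp only [map_sub, map_add, map_smul, smul_eq_mul]
        field_simp
        ring
      rw [e1, abs_div, abs_of_pos hs, div_le_iff₀ hs]
      refine (hπ _).trans ((tay _ _).trans ?_)
      have k1 := nrm x y x' y'
      have k2 := nonn x y x' y'
      have k3 := norm_nonneg (((s * x', s * y') : Plane) - (s * x, s * y))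
      calc e * s * ‖((s * x', s * y') : Plane) - (s * x, s * y)‖ *
            ‖((s * x', s * y') : Plane) - (s * x, s * y)‖
          ≤ e * s * (s * (|x' - x| + |y' - y|)) * (s * (|x' - x| + |y' - y|)) := by gcongr
        _ = (s * s) * (e * (|x' - x| + |y' - y|) ^ 2) * s := by ring
        _ ≤ 1 * (e * (|x' - x| + |y' - y|) ^ 2) * s := by gcongr; nlinarith
        _ = _ := by ring
  refine ⟨_, _, _, _, _, _, key (ContinuousLinearMap.fst ℝ ℝ ℝ) (fun z => norm_fst_le z),
    key (ContinuousLinearMap.snd ℝ ℝ ℝ) (fun z => norm_snd_le z), fun x y => ?_⟩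
  ext
  · simp only [ContinuousLinearMap.coe_fst']
    field_simp
  · simp only [ContinuousLinearMap.coe_snd']
    field_simp

/-! ### The inverse lift -/

theorem inverse_lifts {g : Equiv.Perm Torus} {G G1 : Plane → Plane} (hG : IsLift 1 G g)
    (hG1 : IsLift 1 G1 g.symm) (h0 : ‖G1 (G 0)‖ < 1) :
    (∀ z, G1 (G z) = z) ∧ ∀ z, G (G1 z) = z := by
  have h1 : ∀ x, cov (G1 (G x)) = cov x := by
    intro x
    rw [hG1.2, hG.2]
    exact g.symm_apply_apply _
  have h2 : ∀ x, cov (G (G1 x)) = cov x := by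
    intro x
    rw [hG.2, hG1.2]
    exact g.apply_symm_apply _
  have c1 : Continuous (fun x => G1 (G x)) := hG1.continuous.comp hG.continuous
  have c2 : Continuous (fun x => G (G1 x)) := hG.continuous.comp hG1.continuous
  obtain ⟨m, n, hmn⟩ := eq_add_int_of_cov_eq continuous_id c1 (fun x => (h1 x).symm)
  obtain ⟨m', n', hmn'⟩ := eq_add_int_of_cov_eq continuous_id c2 (fun x => (h2 x).symm)
  have k0 := hmn 0
  simp only [id, zero_add] at k0
  rw [k0, Prod.norm_def] at h0
  have hm : m = 0 := by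
    have := (le_max_left _ _).trans_lt h0
    rw [Real.norm_eq_abs, ← Int.cast_abs, ← Int.cast_one, Int.cast_lt] at this
    exact Int.abs_lt_one_iff.1 this
  have hn : n = 0 := by
    have := (le_max_right _ _).trans_lt h0
    rw [Real.norm_eq_abs, ← Int.cast_abs, ← Int.cast_one, Int.cast_lt] at this
    exact Int.abs_lt_one_iff.1 this
  have A : ∀ z, G1 (G z) = z := by
    intro z
    have := hmn z
    rw [hm, hn] at this
    have e0 : (((0 : ℤ) : ℝ), ((0 : ℤ) : ℝ)) = (0 : Plane) := by ext <;> simp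
    rw [e0, add_zero] at this
    exact this
  refine ⟨A, fun z => ?_⟩
  have B := hmn' (G 0)
  simp only [A, id] at B
  have B1 : (((m' : ℝ), (n' : ℝ)) : Plane) = 0 := by
    have := B.symm
    rwa [add_eq_left] at this
  have := hmn' z
  rw [B1] at this
  simpa using this

/-- Diffeomorphisms close to the model map are described by perturbation data. -/
theorem exists_pert (S : ShearData) (r : ℕ) (hr : 2 ≤ r) : ∃ e > 0, ∀ g : TorusDiffeo r,
    CrClose r e (S.diffeo r) g → ∃ P : Pert S, IsLift 1 P.G g.perm ∧ IsLift 1 P.Gi g.perm.symm := by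
  -- a bound for the derivative of `F`
  have hFl : IsLift 1 S.F (S.diffeo r).perm.symm := S.fperm_symm_lift 1
  obtain ⟨K, hK0, hK⟩ := Area.bdd_of_periodic (u := fderiv ℝ S.F)
    (hFl.1.continuous_fderiv (by norm_num)) (fun x m n => Area.fderiv_periodic hFl x m n)
  have hLip : ∀ z z', ‖S.F z' - S.F z‖ ≤ K * ‖z' - z‖ := fun z z' =>
    convex_univ.norm_image_sub_le_of_norm_fderiv_le
      (fun x _ => hFl.1.differentiable (by norm_num) x) (fun x _ => hK x) (mem_univ z) (mem_univ z')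
  have hs := S.hs
  have hs1 := S.hs1
  refine ⟨min (1/100000 * S.s) (1 / (2 * (K + 1))), by positivity, ?_⟩
  intro g hg
  obtain ⟨G, hG, hGe⟩ := hg.1.exists_lift (S.fperm_lift r)
  obtain ⟨G1, hG1, hG1e⟩ := hg.2.exists_lift (S.fperm_symm_lift r)
  have hG' := hG.mono (show 1 ≤ r by omega)
  have hG1' := hG1.mono (show 1 ≤ r by omega)
  have b0 : ‖G1 (G 0)‖ < 1 := by
    have c1 := hG1e 0 (Nat.zero_le _) (G 0)
    rw [norm_iteratedFDeriv_zero] at c1
    have c2 := hGe 0 (Nat.zero_le _) 0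
    rw [norm_iteratedFDeriv_zero] at c2
    have c3 := hLip (S.Fi 0) (G 0)
    rw [S.F_Fi, sub_zero] at c3
    have c4 : ‖G 0 - S.Fi 0‖ ≤ 1 / (2 * (K + 1)) := by
      rw [norm_sub_rev]; exact c2.trans (min_le_right _ _)
    have c5 : ‖S.F (G 0) - G1 (G 0)‖ ≤ 1 / (2 * (K + 1)) := c1.trans (min_le_right _ _)
    have c6 : K * (1 / (2 * (K + 1))) + 1 / (2 * (K + 1)) = 1 / 2 := by field_simp
    have c7 : ‖G1 (G 0)‖ ≤ ‖S.F (G 0)‖ + ‖S.F (G 0) - G1 (G 0)‖ := by
      have := norm_sub_le (S.F (G 0)) (S.F (G 0) - G1 (G 0))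
      simpa using this
    have c8 : K * ‖G 0 - S.Fi 0‖ ≤ K * (1 / (2 * (K + 1))) :=
      mul_le_mul_of_nonneg_left c4 hK0.le
    linarith
  obtain ⟨A, B⟩ := inverse_lifts hG' hG1' b0
  -- the error terms
  have w1 : ContDiff ℝ 2 (fun z => G z - S.Fi z) :=
    (hG.1.of_le (by exact_mod_cast hr)).sub (S.Fi_smooth 2)
  have w2 : ContDiff ℝ 2 (fun z => G1 z - S.F z) :=
    (hG1.1.of_le (by exact_mod_cast hr)).sub (S.F_smooth 2)
  have neg : ∀ (F H : Plane → Plane) (j : ℕ) (x : Plane),
      ‖iteratedFDeriv ℝ j (fun z => F z - H z) x‖ =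
        ‖iteratedFDeriv ℝ j (fun z => H z - F z) x‖ := by
    intro F H j x
    have : (fun z => F z - H z) = fun z => -(H z - F z) := by funext z; abel
    rw [this]
    have h2 := iteratedFDeriv_neg_apply (𝕜 := ℝ) (i := j) (f := fun z => H z - F z) (x := x)
    have h3 : iteratedFDeriv ℝ j (fun z => -(H z - F z)) x =
        -iteratedFDeriv ℝ j (fun z => H z - F z) x := h2
    rw [h3, norm_neg]
  obtain ⟨u, ux, uy, v, vx, vy, hu, hv, huv⟩ := exists_C11 w1 hs (hs1.trans (by norm_num))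
    (e := 1/100000) (fun j hj x => by
      rw [neg]; exact (hGe j (hj.trans hr) x).trans (min_le_left _ _)) (by norm_num)
  obtain ⟨p, px, py, q, qx, qy, hp, hq, hpq⟩ := exists_C11 w2 hs (hs1.trans (by norm_num))
    (e := 1/100000) (fun j hj x => by
      rw [neg]; exact (hG1e j (hj.trans hr) x).trans (min_le_left _ _)) (by norm_num)
  let P : Pert S :=
    { G := G
      Gi := G1
      Gi_G := A
      G_Gi := B
      ε := 1/100000
      hε0 := by norm_num
      hε1 := le_rfl
      u := u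
      ux := ux
      uy := uy
      v := v
      vx := vx
      vy := vy
      p := p
      px := px
      py := py
      q := q
      qx := qx
      qy := qy
      hG := fun x y => by rw [← huv]; abel
      hGi := fun x y => by rw [← hpq]; abel
      hu := hu
      hv := hv
      hp := hp
      hq := hq }
  exact ⟨P, hG', hG1'⟩

end Pool.Agent.Work.MP_f9d495_an
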