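import Pool.Agent.Work.MP_f9d495_an.NSkew
import Pool.Agent.Work.MP_f9d495_an.Transfer

/-!
# Block E2: the tangencies of all diffeomorphisms near the model map
-/

open Filter Topology MeasureTheory Set

namespace Pool.Agent.Work.MP_f9d495_an

namespace ShearData

variable (S : ShearData)

/-- one step towards the sink -/
theorem cl2_step {x x' : ℝ} (k : ℤ) (hx : |x - k| ≤ 3/8) (hx' : |x' - S.a x| ≤ 4 * S.A) :
    |x' - k| ≤ max (1/4) (|x - k| - S.c / 2) := by
  set u := x - k with hu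
  have e : S.a x = S.a u + k := by
    rw [← S.clS_add_int]; congr 1; rw [hu]; ring
  rw [e] at hx'
  rw [abs_le] at hx'
  have hA := S.hA
  have hAc : 4 * S.A ≤ S.c / 2 := by have := S.hAc; have := S.hc; linarith
  have hAκ : S.κ / 4 + 4 * S.A ≤ 1/4 := by have := S.hAκ; linarith
  have hA5 := S.clS_A_small
  have hκ := S.hκ
  have hκ1 := S.hκ1
  by_cases h1 : |u| ≤ 1/4
  · refine le_max_of_le_left ?_
    have := S.a_lin u h1
    rw [this] at hx'
    rw [abs_le] at h1 ⊢
    constructor <;> nlinarith [hx'.1, hx'.2]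
  · rw [not_le] at h1
    refine le_max_of_le_right ?_
    rcases le_or_gt 0 u with hu0 | hu0
    · rw [abs_of_nonneg hu0] at h1 hx ⊢
      have m := S.a_mid u h1.le hx
      have m1 : S.a (1/4) < S.a u := S.clS_strictMono h1
      rw [S.clS_quarter] at m1
      rw [abs_of_nonneg (by linarith [hx'.1])]
      linarith [hx'.2]
    · rw [abs_of_neg hu0] at h1 hx ⊢
      have m := S.a_mid (-u) h1.le hx
      have m1 : S.a (1/4) < S.a (-u) := S.clS_strictMono h1
      rw [S.clS_quarter] at m1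
      rw [S.a_odd] at m m1
      rw [abs_of_nonpos (by linarith [hx'.2])]
      linarith [hx'.1]

theorem cl2_eventually {x : ℕ → ℝ} (hx : ∀ n, |x (n + 1) - S.a (x n)| ≤ 4 * S.A) {N : ℕ} {k : ℤ}
    (h : |x N - k| ≤ 3/8) : ∃ M, ∀ m, M ≤ m → |x m - k| ≤ 1/4 := by
  have hc := S.hc
  have key : ∀ j : ℕ, |x (N + j) - k| ≤ max (1/4) (3/8 - j * (S.c / 2)) := by
    intro j
    induction j with
    | zero => simp; right; linarith
    | succ j ih =>
      have h38 : |x (N + j) - k| ≤ 3/8 := by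
        refine le_trans ih (max_le (by norm_num) ?_)
        have : 0 ≤ (j : ℝ) * (S.c / 2) := by positivity
        linarith
      have := S.cl2_step k h38 (hx (N + j))
      refine le_trans this (max_le (le_max_left _ _) ?_)
      rcases le_max_iff.1 ih with h1 | h1
      · exact le_max_of_le_left (by linarith)
      · refine le_max_of_le_right ?_
        push_cast
        linarith
  obtain ⟨J, hJ⟩ := exists_nat_gt ((1/8) / (S.c / 2))
  rw [div_lt_iff₀ (by linarith)] at hJ
  refine ⟨N + J, fun m hm => ?_⟩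
  obtain ⟨i, rfl⟩ := Nat.exists_eq_add_of_le hm
  have h1 := key (J + i)
  rw [← add_assoc] at h1
  refine le_trans h1 (max_le le_rfl ?_)
  push_cast
  have : 0 ≤ (i : ℝ) * (S.c / 2) := by positivity
  nlinarith

/-- Either the sequence ends up near an integer, or it stays in a fixed strip. -/
theorem cl2_dichotomy {x : ℕ → ℝ} (hx : ∀ n, |x (n + 1) - S.a (x n)| ≤ 4 * S.A) :
    (∃ k : ℤ, ∃ M, ∀ m, M ≤ m → |x m - k| ≤ 1/4) ∨
      ∃ k : ℤ, ∀ n, k + 3/8 < x n ∧ x n < k + 5/8 := by
  by_cases H : ∃ N : ℕ, ∃ k : ℤ, |x N - k| ≤ 3/8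
  · obtain ⟨N, k, h⟩ := H
    exact Or.inl ⟨k, S.cl2_eventually hx h⟩
  · simp only [not_exists, not_le] at H
    right
    have hA := S.hA
    have hA5 := S.clS_A_small
    have hκ := S.hκ
    have gen : ∀ n, ∀ k : ℤ, (k : ℝ) ≤ x n → x n < k + 1 →
        k + 3/8 < x n ∧ x n < k + 5/8 := by
      intro n k h1 h2
      have e1 := H n k
      have e2 := H n (k + 1)
      rw [abs_of_nonneg (by linarith)] at e1
      push_cast at e2
      rw [abs_of_neg (by linarith)] at e2
      constructor <;> linarith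
    refine ⟨⌊x 0⌋, fun n => ?_⟩
    induction n with
    | zero => exact gen 0 _ (Int.floor_le _) (Int.lt_floor_add_one _)
    | succ n ih =>
      obtain ⟨h1, h2⟩ := S.clS_strip _ ih.1 ih.2
      have h3 := hx n
      rw [abs_le] at h3
      exact gen (n + 1) _ (by linarith [h3.1]) (by linarith [h3.2])

end ShearData

/-! ### Maps close to a skew product -/

theorem opNorm_fst_le (L : Plane →L[ℝ] Plane) (v : Plane) : |(L v).1| ≤ ‖L‖ * ‖v‖ :=
  (norm_fst_le (L v)).trans (L.le_opNorm v)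

theorem opNorm_snd_le (L : Plane →L[ℝ] Plane) (v : Plane) : |(L v).2| ≤ ‖L‖ * ‖v‖ :=
  (norm_snd_le (L v)).trans (L.le_opNorm v)

theorem nskew_of_close {S : ShearData} {E Ei E' Ei' : Plane → Plane} {g : ℝ → ℝ}
    (H : S.Skew E Ei g) (h3 : ∀ z, |(E z).1 - S.a z.1| ≤ 3 * S.A) {K e : ℝ}
    (hK : ∀ z, ‖fderiv ℝ E z‖ ≤ K) (i1 : ∀ z, E' (Ei' z) = z) (i2 : ∀ z, Ei' (E' z) = z)
    (d1 : Differentiable ℝ E') (d2 : Differentiable ℝ Ei') (he : e ≤ S.A)
    (c0 : ∀ z, ‖E z - E' z‖ ≤ e) (c1 : ∀ z, ‖fderiv ℝ E z - fderiv ℝ E' z‖ ≤ e) :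
    NSkew S E' Ei' K e where
  E_Ei := i1
  Ei_E := i2
  diff := d1
  diffi := d2
  fst_all z := by
    have h1 := h3 z
    have h2 : |(E z).1 - (E' z).1| ≤ e := (norm_fst_le (E z - E' z)).trans (c0 z)
    rw [abs_le] at h1 h2 ⊢
    constructor <;> linarith [h1.1, h1.2, h2.1, h2.2]
  snd_strip z k k1 k2 := by
    have h1 := H.form z k k1 k2
    have h2 : |(E z).2 - (E' z).2| ≤ e := (norm_snd_le (E z - E' z)).trans (c0 z)
    rw [h1] at h2
    rw [abs_sub_comm]
    exact h2
  der z k k1 k2 := by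
    have hd := (H.hasFDerivAt k k1 k2).fderiv
    refine ⟨deriv g (S.a z.2) * S.a' z.2, ?_, ?_, fun v => ⟨?_, ?_⟩⟩
    · have h1 := opNorm_fst_le (fderiv ℝ E z) (0, 1)
      rw [hd, ShearData.skewD_apply] at h1
      simp only [mul_zero, mul_one, zero_add] at h1
      have h2 := hK z
      rw [hd] at h2
      have h4 : ‖((0, 1) : Plane)‖ = 1 := by simp [Prod.norm_def]
      rw [h4, mul_one] at h1
      exact h1.trans h2
    · rintro ⟨l, l1, l2⟩
      obtain ⟨s1, s2⟩ := S.clS_strip l l1 l2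
      have hκ := S.hκ
      have h0 : g =ᶠ[𝓝 (S.a z.2)] fun _ => 0 := by
        have o1 : ∀ᶠ t : ℝ in 𝓝 (S.a z.2), (l : ℝ) + 1/8 < t :=
          eventually_gt_nhds (by linarith)
        have o2 : ∀ᶠ t : ℝ in 𝓝 (S.a z.2), t < (l : ℝ) + 7/8 :=
          eventually_lt_nhds (by linarith)
        filter_upwards [o1, o2] with t t1 t2
        exact H.gsupp l t t1.le t2.le
      rw [h0.deriv_eq]
      simp
    · have h1 := opNorm_fst_le (fderiv ℝ E z - fderiv ℝ E' z) v
      rw [sub_apply, hd, ShearData.skewD_apply] at h1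
      have h2 := mul_le_mul_of_nonneg_right (c1 z) (norm_nonneg v)
      rw [hd] at h2
      rw [abs_sub_comm]
      exact h1.trans h2
    · have h1 := opNorm_snd_le (fderiv ℝ E z - fderiv ℝ E' z) v
      rw [sub_apply, hd, ShearData.skewD_apply] at h1
      have h2 := mul_le_mul_of_nonneg_right (c1 z) (norm_nonneg v)
      rw [hd] at h2
      rw [abs_sub_comm]
      exact h1.trans h2

/-- conjugation with the exchange of the coordinates -/
def swapc (G : Plane → Plane) (z : Plane) : Plane := (G z.swap).swap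

theorem norm_swap' (v : Plane) : ‖v.swap‖ = ‖v‖ := by
  simp [Prod.norm_def, max_comm]

theorem differentiable_swapc {G : Plane → Plane} (hG : Differentiable ℝ G) :
    Differentiable ℝ (swapc G) := by
  have hs : Differentiable ℝ (Prod.swap : Plane → Plane) :=
    (ContinuousLinearEquiv.prodComm ℝ ℝ ℝ).differentiable
  exact hs.comp (hG.comp hs)

theorem fderiv_swapc {G : Plane → Plane} (hG : Differentiable ℝ G) (z v : Plane) :
    fderiv ℝ (swapc G) z v = (fderiv ℝ G z.swap v.swap).swap := by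
  have h := ShearData.fderiv_iterate_swap hG 1 z.swap v
  rw [Function.iterate_one, Function.iterate_one, Prod.swap_swap] at h
  exact h

theorem norm_fderiv_swapc_sub {G H : Plane → Plane} (hG : Differentiable ℝ G)
    (hH : Differentiable ℝ H) (z : Plane) :
    ‖fderiv ℝ (swapc G) z - fderiv ℝ (swapc H) z‖ ≤ ‖fderiv ℝ G z.swap - fderiv ℝ H z.swap‖ := by
  refine ContinuousLinearMap.opNorm_le_bound _ (norm_nonneg _) fun v => ?_
  rw [sub_apply, fderiv_swapc hG, fderiv_swapc hH]
  have : (fderiv ℝ G z.swap v.swap).swap - (fderiv ℝ H z.swap v.swap).swap =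
      ((fderiv ℝ G z.swap - fderiv ℝ H z.swap) v.swap).swap := by
    rw [sub_apply]; rfl
  rw [this, norm_swap']
  refine (ContinuousLinearMap.le_opNorm _ _).trans ?_
  rw [norm_swap']

theorem norm_fderiv_swapc {G : Plane → Plane} (hG : Differentiable ℝ G) (z : Plane) :
    ‖fderiv ℝ (swapc G) z‖ ≤ ‖fderiv ℝ G z.swap‖ := by
  refine ContinuousLinearMap.opNorm_le_bound _ (norm_nonneg _) fun v => ?_
  rw [fderiv_swapc hG, norm_swap']
  refine (ContinuousLinearMap.le_opNorm _ _).trans ?_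
  rw [norm_swap']

/-- planar closeness data -/
structure PClose (S : ShearData) (E Ei : Plane → Plane) (e : ℝ) : Prop where
  i1 : ∀ z, E (Ei z) = z
  i2 : ∀ z, Ei (E z) = z
  d1 : Differentiable ℝ E
  d2 : Differentiable ℝ Ei
  c0 : ∀ z, ‖S.F z - E z‖ ≤ e
  c1 : ∀ z, ‖fderiv ℝ S.F z - fderiv ℝ E z‖ ≤ e

/-- The robust form of `ShearData.dichotomy`. -/
theorem dichotomy_near (S : ShearData) {K : ℝ} (hK : ∀ z, ‖fderiv ℝ S.F z‖ ≤ K) :
    ∃ e > 0, ∀ E Ei : Plane → Plane, PClose S E Ei e → ∀ z : Plane,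
    (∃ k l : ℤ, ∃ M, ∀ m, M ≤ m → |(E^[m] z).1 - k| ≤ 1/4 ∧ |(E^[m] z).2 - l| ≤ 1/4) ∨
    ∀ v, ∃ v1 v2, v = v1 + v2 ∧ Tendsto (fun n => fderiv ℝ (E^[n]) z v1) atTop (𝓝 0) ∧
      Tendsto (fun n => fderiv ℝ (Ei^[n]) z v2) atTop (𝓝 0) := by
  have hK0 : 0 ≤ K := (norm_nonneg _).trans (hK 0)
  obtain ⟨e0, he0, hsplit⟩ := NSkew.split S K hK0
  have hA := S.hA
  have mono : ∀ {E Ei : Plane → Plane} {e : ℝ}, e ≤ e0 → NSkew S E Ei K e → NSkew S E Ei K e0 := by
    intro E Ei e hle H
    exact ⟨H.E_Ei, H.Ei_E, H.diff, H.diffi, H.fst_all,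
      fun z k k1 k2 => (H.snd_strip z k k1 k2).trans hle, fun z k k1 k2 => by
        obtain ⟨γ, g1, g2, g3⟩ := H.der z k k1 k2
        exact ⟨γ, g1, g2, fun v => ⟨(g3 v).1.trans (mul_le_mul_of_nonneg_right hle (norm_nonneg v)),
          (g3 v).2.trans (mul_le_mul_of_nonneg_right hle (norm_nonneg v))⟩⟩⟩
  refine ⟨min e0 S.A, by positivity, fun E Ei P z => ?_⟩
  have heA : min e0 S.A ≤ S.A := min_le_right _ _
  have NX : NSkew S E Ei K e0 := mono (min_le_left _ _)
    (nskew_of_close S.skewX S.F_fst hK P.i1 P.i2 P.d1 P.d2 heA P.c0 P.c1)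
  have NY : NSkew S (swapc E) (swapc Ei) K e0 := by
    refine mono (min_le_left e0 S.A) (nskew_of_close S.skewY ?_ ?_ ?_ ?_ ?_ ?_ heA ?_ ?_)
    · intro z; exact S.F_snd z.swap
    · intro z
      exact (norm_fderiv_swapc S.F_differentiable z).trans (hK _)
    · intro z; simp [swapc, P.i1]
    · intro z; simp [swapc, P.i2]
    · exact differentiable_swapc P.d1
    · exact differentiable_swapc P.d2
    · intro z
      have := P.c0 z.swap
      change ‖(S.F z.swap).swap - (E z.swap).swap‖ ≤ _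
      have e2 : (S.F z.swap).swap - (E z.swap).swap = (S.F z.swap - E z.swap).swap := rfl
      rw [e2, norm_swap']
      exact this
    · intro z
      exact (norm_fderiv_swapc_sub S.F_differentiable P.d1 z).trans (P.c1 _)
  have h1 : ∀ n, |(E^[n+1] z).1 - S.a (E^[n] z).1| ≤ 4 * S.A := fun n => by
    rw [Function.iterate_succ_apply']
    exact NX.fst_all _
  have h2 : ∀ n, |(E^[n+1] z).2 - S.a (E^[n] z).2| ≤ 4 * S.A := fun n => by
    rw [Function.iterate_succ_apply']
    have := NY.fst_all (E^[n] z).swap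
    simpa [swapc] using this
  rcases S.cl2_dichotomy (x := fun n => (E^[n] z).1) h1 with ⟨k, M1, hM1⟩ | ⟨k, hk⟩
  · rcases S.cl2_dichotomy (x := fun n => (E^[n] z).2) h2 with ⟨l, M2, hM2⟩ | ⟨l, hl⟩
    · left
      refine ⟨k, l, max M1 M2, fun m hm => ⟨hM1 m (le_trans (le_max_left _ _) hm),
        hM2 m (le_trans (le_max_right _ _) hm)⟩⟩
    · right
      intro v
      have hs := hsplit _ _ NY z.swap l (fun n => by
        change _ < ((fun z : Plane => (E z.swap).swap)^[n] z.swap).1 ∧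
          ((fun z : Plane => (E z.swap).swap)^[n] z.swap).1 < _
        rw [ShearData.iterate_swap E n z.swap]
        simpa using hl n) v.swap
      obtain ⟨v1, v2, hv, t1, t2⟩ := hs
      have hc : Tendsto (Prod.swap : Plane → Plane) (𝓝 0) (𝓝 0) :=
        continuous_swap.tendsto' _ _ rfl
      refine ⟨v1.swap, v2.swap, ?_, ?_, ?_⟩
      · have := congrArg Prod.swap hv
        simpa using this
      · have := hc.comp t1
        refine this.congr fun n => ?_
        simp only [Function.comp_apply]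
        change (fderiv ℝ ((fun z : Plane => (E z.swap).swap)^[n]) z.swap v1).swap = _
        rw [ShearData.fderiv_iterate_swap P.d1]
        simp
      · have := hc.comp t2
        refine this.congr fun n => ?_
        simp only [Function.comp_apply]
        change (fderiv ℝ ((fun z : Plane => (Ei z.swap).swap)^[n]) z.swap v2).swap = _
        rw [ShearData.fderiv_iterate_swap P.d2]
        simp
  · right
    exact fun v => hsplit _ _ NX z k hk v

/-! ### The torus -/

/-- **Block E2.** A hyperbolic set with a homoclinic tangency of a diffeomorphism near the model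
map contains a point along whose forward orbit area is expanded. -/
theorem exists_expanding_of_tangency_near (S : ShearData) (r : ℕ) (hr : 2 ≤ r) :
    ∃ e > 0, ∀ f : TorusDiffeo r, CrClose r e (S.diffeo r) f → ∀ L, IsHyperbolicSet f.perm L →
      HasHomoclinicTangency f.perm L →
      ∃ x ∈ L, ∃ c > 0, ∀ n : ℕ, 1 + c ≤ |(tderiv f.perm ((f.perm ^ n) x)).det| := by
  -- a bound for the derivative of `F`
  have hFl : IsLift 1 S.F (S.diffeo r).perm.symm := S.fperm_symm_lift 1
  obtain ⟨K, hK0, hK⟩ := Area.bdd_of_periodic (u := fderiv ℝ S.F)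
    (hFl.1.continuous_fderiv (by norm_num)) (fun x m n => Area.fderiv_periodic hFl x m n)
  have hLip : ∀ z z', ‖S.F z' - S.F z‖ ≤ K * ‖z' - z‖ := fun z z' =>
    convex_univ.norm_image_sub_le_of_norm_fderiv_le
      (fun x _ => hFl.1.differentiable (by norm_num) x) (fun x _ => hK x) (mem_univ z) (mem_univ z')
  obtain ⟨e0, he0, hdich⟩ := dichotomy_near S hK
  have hκ := S.hκ
  have hκ1 := S.hκ1
  have hκ2 : S.κ ^ 2 < 1 := by nlinarith
  -- the allowed loss of area contraction
  set e1 : ℝ := (1 - S.κ ^ 2) / (4 * (2 * K + 1)) with he1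
  have he1pos : 0 < e1 := by
    rw [he1]; apply div_pos <;> linarith
  refine ⟨min (min e0 e1) (min 1 (1 / (2 * (K + 1)))), by positivity, ?_⟩
  intro f hfc L hL hT
  set e : ℝ := min (min e0 e1) (min 1 (1 / (2 * (K + 1)))) with he
  have hee0 : e ≤ e0 := (min_le_left _ _).trans (min_le_left _ _)
  have hee1 : e ≤ e1 := (min_le_left _ _).trans (min_le_right _ _)
  have hee2 : e ≤ 1 := (min_le_right _ _).trans (min_le_left _ _)
  have hee3 : e ≤ 1 / (2 * (K + 1)) := (min_le_right _ _).trans (min_le_right _ _)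
  obtain ⟨G, hG, hGe⟩ := hfc.1.exists_lift (S.fperm_lift r)
  obtain ⟨E, hE, hEe⟩ := hfc.2.exists_lift (S.fperm_symm_lift r)
  have hf1 : IsLift 1 G f.perm := hG.mono (show 1 ≤ r by omega)
  have hf1' : IsLift 1 E (f.perm⁻¹ : Equiv.Perm Torus) := hE.mono (show 1 ≤ r by omega)
  have b0 : ‖E (G 0)‖ < 1 := by
    have c1 := hEe 0 (Nat.zero_le _) (G 0)
    rw [norm_iteratedFDeriv_zero] at c1
    have c2 := hGe 0 (Nat.zero_le _) 0
    rw [norm_iteratedFDeriv_zero] at c2
    have c3 := hLip (S.Fi 0) (G 0)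
    rw [S.F_Fi, sub_zero] at c3
    have c4 : ‖G 0 - S.Fi 0‖ ≤ 1 / (2 * (K + 1)) := by
      rw [norm_sub_rev]; exact c2.trans hee3
    have c5 : ‖S.F (G 0) - E (G 0)‖ ≤ 1 / (2 * (K + 1)) := c1.trans hee3
    have c6 : K * (1 / (2 * (K + 1))) + 1 / (2 * (K + 1)) = 1 / 2 := by field_simp
    have c7 : ‖E (G 0)‖ ≤ ‖S.F (G 0)‖ + ‖S.F (G 0) - E (G 0)‖ := by
      have := norm_sub_le (S.F (G 0)) (S.F (G 0) - E (G 0))
      simpa using this
    have c8 : K * ‖G 0 - S.Fi 0‖ ≤ K * (1 / (2 * (K + 1))) :=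
      mul_le_mul_of_nonneg_left c4 hK0.le
    linarith
  obtain ⟨EG, GE⟩ := inverse_lifts hf1 hf1' b0
  have dE : Differentiable ℝ E := hf1'.1.differentiable (by norm_num)
  have dG : Differentiable ℝ G := hf1.1.differentiable (by norm_num)
  have c1E : ∀ z, ‖fderiv ℝ S.F z - fderiv ℝ E z‖ ≤ e := by
    intro z
    have h := hEe 1 (by omega) z
    rw [norm_iteratedFDeriv_one] at h
    have h2 : fderiv ℝ (fun z => S.F z - E z) z = fderiv ℝ S.F z - fderiv ℝ E z :=
      fderiv_fun_sub (hFl.1.differentiable (by norm_num) z) (dE z)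
    rwa [h2] at h
  have PC : PClose S E G e0 :=
    { i1 := EG
      i2 := GE
      d1 := dE
      d2 := dG
      c0 := fun z => by
        have h := hEe 0 (Nat.zero_le _) z
        rw [norm_iteratedFDeriv_zero] at h
        exact h.trans hee0
      c1 := fun z => (c1E z).trans hee0 }
  obtain ⟨p, hp, q, hq, z, ⟨hzp, hzq⟩, htan⟩ := hT
  obtain ⟨z0, rfl⟩ := cov_surjective z
  -- the forward orbit of `z` under `f⁻¹` is eventually in the square
  have hev : ∃ M, ∀ m, M ≤ m → (f.perm⁻¹ ^ m : Equiv.Perm Torus) (cov z0) ∈ ShearData.Sq := by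
    rcases hdich E G PC z0 with ⟨k, l, M, hM⟩ | H
    · refine ⟨M, fun m hm => ?_⟩
      have e : cov (E^[m] z0) = (f.perm⁻¹ ^ m : Equiv.Perm Torus) (cov z0) :=
        (hf1'.pow m).2 z0
      rw [← e]
      exact ShearData.mem_Sq_of (hM m hm).1 (hM m hm).2
    · exfalso
      apply htan
      rw [eq_top_iff]
      intro v _
      obtain ⟨v1, v2, hv, t1, t2⟩ := H v
      rw [hv]
      refine Submodule.add_mem_sup ?_ ?_
      · change Tendsto (fun n : ℕ => tderiv (f.perm⁻¹ ^ n : Equiv.Perm Torus) (cov z0) v1)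
          atTop (𝓝 0)
        refine t1.congr fun n => ?_
        rw [tderiv_eq (hf1'.pow n)]
      · change Tendsto (fun n : ℕ => tderiv (f.perm ^ n : Equiv.Perm Torus) (cov z0) v2)
          atTop (𝓝 0)
        refine t2.congr fun n => ?_
        rw [tderiv_eq (hf1.pow n)]
  obtain ⟨M, hM⟩ := hev
  -- a limit point of the orbit of `p`
  have hLinv : ∀ n : ℕ, ∀ x ∈ L, (f.perm⁻¹ ^ n : Equiv.Perm Torus) x ∈ L := by
    intro n
    induction n with
    | zero => intro x hx; simpa using hx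
    | succ n ih =>
      intro x hx
      rw [pow_succ, Equiv.Perm.mul_apply]
      apply ih
      have : x ∈ f.perm '' L := by rw [hL.invariant]; exact hx
      obtain ⟨y, hy, rfl⟩ := this
      simpa using hy
  obtain ⟨x, hxL, φ, hφ, hlim⟩ := hL.isCompact.tendsto_subseq (fun n => hLinv n p hp)
  have hdist : Tendsto (fun n : ℕ => dist ((f.perm⁻¹ ^ n : Equiv.Perm Torus) (cov z0))
      ((f.perm⁻¹ ^ n : Equiv.Perm Torus) p)) atTop (𝓝 0) := hzp
  have hlimz : Tendsto (fun n : ℕ => (f.perm⁻¹ ^ (φ n) : Equiv.Perm Torus) (cov z0))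
      atTop (𝓝 x) := by
    have h1 := hdist.comp hφ.tendsto_atTop
    rw [tendsto_iff_dist_tendsto_zero] at hlim ⊢
    have h2 := h1.add hlim
    rw [add_zero] at h2
    refine squeeze_zero (fun _ => dist_nonneg) (fun n => ?_) h2
    exact dist_triangle _ _ _
  have hfcont : Continuous f.perm := Area.continuous_of_lift hf1
  have hfcn : ∀ n : ℕ, Continuous (f.perm ^ n : Equiv.Perm Torus) := by
    intro n
    induction n with
    | zero => simpa using continuous_id
    | succ n ih =>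
      rw [pow_succ']
      exact hfcont.comp ih
  have hsq : ∀ m : ℕ, (f.perm ^ m : Equiv.Perm Torus) x ∈ ShearData.Sq := by
    intro m
    have h1 := ((hfcn m).tendsto x).comp hlimz
    refine ShearData.isClosed_Sq.mem_of_tendsto h1 ?_
    have h2 := hφ.tendsto_atTop.eventually_ge_atTop (M + m)
    filter_upwards [h2] with n hn
    simp only [Function.comp_apply]
    obtain ⟨i, hi⟩ := Nat.exists_eq_add_of_le hn
    have e : (f.perm ^ m : Equiv.Perm Torus) ((f.perm⁻¹ ^ (φ n) : Equiv.Perm Torus) (cov z0)) =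
        (f.perm⁻¹ ^ (M + i) : Equiv.Perm Torus) (cov z0) := by
      rw [← Equiv.Perm.mul_apply, hi]
      congr 1
      rw [show M + m + i = m + (M + i) by ring, pow_add, ← mul_assoc, inv_pow, mul_inv_cancel,
        one_mul]
    rw [e]
    exact hM _ (by omega)
  -- area contraction of `f⁻¹` in the square
  have hdet : ∀ w : Plane, cov w ∈ ShearData.Sq → |(fderiv ℝ E w).det| ≤ (1 + S.κ ^ 2) / 2 := by
    intro w hw
    have h1 := S.det_of_mem_Sq hw
    have h2 := Area.abs_det_sub_le (fderiv ℝ E w) (fderiv ℝ S.F w)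
    rw [h1] at h2
    have h3 := c1E w
    rw [norm_sub_rev] at h3
    have h4 : ‖fderiv ℝ E w‖ ≤ K + 1 := by
      have := norm_add_le (fderiv ℝ S.F w) (fderiv ℝ E w - fderiv ℝ S.F w)
      rw [add_sub_cancel] at this
      linarith [hK w]
    have h5 : 2 * (‖fderiv ℝ E w‖ + ‖fderiv ℝ S.F w‖) * ‖fderiv ℝ E w - fderiv ℝ S.F w‖ ≤
        2 * (2 * K + 1) * e1 := by
      have := hK w
      have n1 := norm_nonneg (fderiv ℝ E w - fderiv ℝ S.F w)
      have n2 := norm_nonneg (fderiv ℝ E w)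
      have n3 := norm_nonneg (fderiv ℝ S.F w)
      calc _ ≤ 2 * ((K + 1) + K) * e1 := by
            apply mul_le_mul _ (h3.trans hee1) n1 (by positivity)
            linarith
        _ = _ := by ring
    have h6 : 2 * (2 * K + 1) * e1 = (1 - S.κ ^ 2) / 2 := by
      rw [he1]
      field_simp
      ring
    have h7 := abs_le.1 (h2.trans h5)
    have h8 : 0 ≤ S.κ ^ 2 := by positivity
    rw [abs_le]
    constructor <;> linarith [h7.1, h7.2]
  set ρ : ℝ := (1 + S.κ ^ 2) / 2 with hρ
  have hρ0 : 0 < ρ := by positivity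
  have hρ1 : ρ < 1 := by rw [hρ]; linarith
  refine ⟨x, hxL, ρ⁻¹ - 1, ?_, fun n => ?_⟩
  · have h4 : 1 < ρ⁻¹ := (one_lt_inv₀ hρ0).2 hρ1
    linarith
  · obtain ⟨w, hw⟩ := cov_surjective ((f.perm ^ n) x)
    have hmem : cov (G w) ∈ ShearData.Sq := by
      rw [hf1.2 w, hw]
      have := hsq (n + 1)
      rwa [pow_succ', Equiv.Perm.mul_apply] at this
    have hd := hdet _ hmem
    rw [← hw, tderiv_eq hf1]
    have hc : (fderiv ℝ E (G w)).comp (fderiv ℝ G w) = ContinuousLinearMap.id ℝ Plane := by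
      rw [← _root_.fderiv_comp w (dE _) (dG _)]
      have : E ∘ G = id := funext EG
      rw [this, fderiv_id]
    have hc2 : (fderiv ℝ E (G w)).det * (fderiv ℝ G w).det = 1 := by
      rw [← Area.det_comp, hc]
      simp only [ContinuousLinearMap.det]
      exact LinearMap.det_id
    have hc3 : |(fderiv ℝ E (G w)).det| * |(fderiv ℝ G w).det| = 1 := by
      rw [← abs_mul, hc2, abs_one]
    have h9 : ρ⁻¹ ≤ |(fderiv ℝ G w).det| := by
      rw [inv_le_iff_one_le_mul₀ hρ0, ← hc3]
      have := abs_nonneg (fderiv ℝ G w).det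
      nlinarith
    linarith

end Pool.Agent.Work.MP_f9d495_an
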