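import Mathlib

/-!
# Diffeomorphisms of the flat torus, hyperbolic sets, homoclinic tangencies, pluripotency

All definitions used in the statement of the result on `MP_f9d495_an`.
-/

open Filter Topology MeasureTheory Set

namespace Pool.Agent.Work.MP_f9d495_an

/-- The plane `ℝ²`. It is the universal cover of the torus and, since the torus is a group, also
the tangent space at every point of the torus. -/
abbrev Plane := ℝ × ℝ

/-- The flat torus `ℝ²/ℤ²`, a compact smooth Riemannian surface without boundary. -/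
abbrev Torus := UnitAddCircle × UnitAddCircle

/-- The covering map `ℝ² → ℝ²/ℤ²`. -/
def cov (x : Plane) : Torus := ((x.1 : UnitAddCircle), (x.2 : UnitAddCircle))

theorem cov_surjective : Function.Surjective cov := by
  rintro ⟨a, b⟩
  obtain ⟨x, rfl⟩ := QuotientAddGroup.mk_surjective a
  obtain ⟨y, rfl⟩ := QuotientAddGroup.mk_surjective b
  exact ⟨(x, y), rfl⟩

/-- `F` is a `C^r` lift of the torus map `h`. A torus map is of class `C^r` exactly when it has
a `C^r` lift. -/
def IsLift (r : ℕ) (F : Plane → Plane) (h : Torus → Torus) : Prop :=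
  ContDiff ℝ r F ∧ ∀ x, cov (F x) = h (cov x)

/-- A `C^r` diffeomorphism of the torus: a bijection which is of class `C^r` together with its
inverse. -/
structure TorusDiffeo (r : ℕ) where
  /-- the underlying bijection -/
  perm : Equiv.Perm Torus
  lift : ∃ F, IsLift r F perm
  lift_symm : ∃ F, IsLift r F perm.symm

/-- The torus maps `h` and `k` have `C^r` lifts all of whose derivatives of order `≤ r` differ
by at most `ε` everywhere. -/
def LiftClose (r : ℕ) (ε : ℝ) (h k : Torus → Torus) : Prop :=
  ∃ F G : Plane → Plane, IsLift r F h ∧ IsLift r G k ∧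
    ∀ j : ℕ, j ≤ r → ∀ x, ‖iteratedFDeriv ℝ j F x - iteratedFDeriv ℝ j G x‖ ≤ ε

/-- `f` and `g` are `ε`-close in the `C^r` topology of `Diff^r` (the maps and their inverses are
`ε`-close). -/
def CrClose (r : ℕ) (ε : ℝ) (f g : TorusDiffeo r) : Prop :=
  LiftClose r ε f.perm g.perm ∧ LiftClose r ε f.perm.symm g.perm.symm

/-- Open sets of the `C^r` topology on the space of `C^r` diffeomorphisms of the torus. -/
def IsOpenCr (r : ℕ) (N : Set (TorusDiffeo r)) : Prop :=
  ∀ f ∈ N, ∃ ε > 0, ∀ g, CrClose r ε f g → g ∈ N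

open Classical in
/-- The derivative `D_z h : T_z M → T_{h z} M` of a torus map of class `C¹`: the derivative of a
`C¹` lift of `h` at a point above `z` (it does not depend on the choices, see `tderiv_eq`). -/
noncomputable def tderiv (h : Torus → Torus) (z : Torus) : Plane →L[ℝ] Plane :=
  if H : ∃ F, IsLift 1 F h then fderiv ℝ H.choose (Function.surjInv cov_surjective z) else 0

/-- The stable set (stable manifold) `W^s(q)` of `q`. -/
def stableSet (f : Equiv.Perm Torus) (q : Torus) : Set Torus :=
  {z | Tendsto (fun n : ℕ => dist ((f ^ n) z) ((f ^ n) q)) atTop (𝓝 0)}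

/-- The unstable set (unstable manifold) `W^u(p)` of `p`. -/
def unstableSet (f : Equiv.Perm Torus) (p : Torus) : Set Torus := stableSet f⁻¹ p

/-- The space of all tangent vectors at `z` which are contracted to `0` by the iterates of `Df`.
If `z ∈ W^s(q)` with `q` in a hyperbolic set then, by the stable manifold theorem, this is
`T_z W^s(q)`. -/
noncomputable def stableTangent (f : Equiv.Perm Torus) (z : Torus) : Submodule ℝ Plane where
  carrier := {v | Tendsto (fun n : ℕ => tderiv (f ^ n : Equiv.Perm Torus) z v) atTop (𝓝 0)}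
  add_mem' := by
    intro a b ha hb
    have := ha.add hb
    simpa using this
  zero_mem' := by simp
  smul_mem' := by
    intro c a ha
    have := ha.const_smul c
    simpa using this

/-- The space of all tangent vectors at `z` which are contracted to `0` by the iterates of
`Df⁻¹`; it is `T_z W^u(p)` if `z ∈ W^u(p)` with `p` in a hyperbolic set. -/
noncomputable def unstableTangent (f : Equiv.Perm Torus) (z : Torus) : Submodule ℝ Plane :=
  stableTangent f⁻¹ z

/-- Uniformly hyperbolic compact invariant sets. -/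
structure IsHyperbolicSet (f : Equiv.Perm Torus) (L : Set Torus) : Prop where
  nonempty : L.Nonempty
  isCompact : IsCompact L
  invariant : f '' L = L
  splitting : ∃ (Es Eu : Torus → Submodule ℝ Plane) (C lam : ℝ), 0 < C ∧ 0 < lam ∧ lam < 1 ∧
    ∀ z ∈ L, IsCompl (Es z) (Eu z) ∧
      (Es z).map (tderiv f z : Plane →ₗ[ℝ] Plane) = Es (f z) ∧
      (Eu z).map (tderiv f z : Plane →ₗ[ℝ] Plane) = Eu (f z) ∧
      (∀ v ∈ Es z, ∀ n : ℕ, ‖tderiv (f ^ n : Equiv.Perm Torus) z v‖ ≤ C * lam ^ n * ‖v‖) ∧
      (∀ v ∈ Eu z, ∀ n : ℕ, ‖tderiv (f⁻¹ ^ n : Equiv.Perm Torus) z v‖ ≤ C * lam ^ n * ‖v‖)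

/-- The hyperbolic set `L` has a homoclinic tangency: for some `p, q ∈ L` the unstable manifold of
`p` and the stable manifold of `q` meet non-transversally at some point `z`, i.e.
`T_z W^u(p) + T_z W^s(q) ≠ T_z M`. -/
def HasHomoclinicTangency (f : Equiv.Perm Torus) (L : Set Torus) : Prop :=
  ∃ p ∈ L, ∃ q ∈ L, ∃ z ∈ unstableSet f p ∩ stableSet f q,
    unstableTangent f z ⊔ stableTangent f z ≠ ⊤

/-- The set `L` is transitive: some point of `L` has a forward orbit which is dense in `L`. -/
def IsTransitiveSet (f : Equiv.Perm Torus) (L : Set Torus) : Prop :=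
  ∃ z ∈ L, ∀ w ∈ L, w ∈ closure (Set.range fun n : ℕ => (f ^ n) z)

/-- Newhouse domains in `Diff^r` of the torus. -/
def IsNewhouseDomain (r : ℕ) (N : Set (TorusDiffeo r)) : Prop :=
  N.Nonempty ∧ IsOpenCr r N ∧
    ∀ f ∈ N, ∃ L, IsHyperbolicSet f.perm L ∧ HasHomoclinicTangency f.perm L

/-- The `g`-orbit of `y` stays `η`-close to the `f`-orbit of `x`. If `x` lies in a hyperbolic set
of `f`, `η` is small and `g` is close enough to `f`, then there is exactly one such `y`, the
hyperbolic continuation `x_g` of `x`. -/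
def Shadows (η : ℝ) (f g : Equiv.Perm Torus) (x y : Torus) : Prop :=
  ∀ n : ℤ, dist ((g ^ n) y) ((f ^ n) x) ≤ η

/-- `f` is strongly pluripotent for `L`: for every `x ∈ L` and every neighbourhood of `f` there are
`g` in that neighbourhood and a set `D` of positive Lebesgue measure with
`(1/n) ∑_{i<n} sup_{z ∈ D} dist (g^i z, g^i x_g) → 0`. The continuation `x_g` is the point `y`
shadowing `x` with arbitrarily small precision `η`. -/
def StronglyPluripotent (r : ℕ) (f : TorusDiffeo r) (L : Set Torus) : Prop :=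
  ∀ x ∈ L, ∀ ε > 0, ∀ η > 0, ∃ g : TorusDiffeo r, CrClose r ε f g ∧
    ∃ y, Shadows η f.perm g.perm x y ∧
      ∃ D : Set Torus, 0 < volume D ∧
        Tendsto (fun n : ℕ => (∑ i ∈ Finset.range n,
          ⨆ z : D, dist ((g.perm ^ i) (z : Torus)) ((g.perm ^ i) y)) / n) atTop (𝓝 0)

/-- The first Wasserstein distance of the empirical measures `(1/n) ∑_{i<n} δ_{g^i z}` and
`(1/n) ∑_{i<n} δ_{g^i y}`, written through the Kantorovich-Rubinstein formula as the supremum over
all `1`-Lipschitz functions of the difference of the integrals. -/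
noncomputable def empiricalW (g : Equiv.Perm Torus) (n : ℕ) (z y : Torus) : ℝ :=
  ⨆ φ : {φ : Torus → ℝ // LipschitzWith 1 φ},
    |(∑ i ∈ Finset.range n, φ.1 ((g ^ i) z)) / n - (∑ i ∈ Finset.range n, φ.1 ((g ^ i) y)) / n|

/-- `f` is pluripotent for `L` (the weaker notion, through empirical measures). -/
def Pluripotent (r : ℕ) (f : TorusDiffeo r) (L : Set Torus) : Prop :=
  ∀ x ∈ L, ∀ ε > 0, ∀ η > 0, ∃ g : TorusDiffeo r, CrClose r ε f g ∧
    ∃ y, Shadows η f.perm g.perm x y ∧
      ∃ D : Set Torus, 0 < volume D ∧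
        ∀ z ∈ D, Tendsto (fun n : ℕ => empiricalW g.perm n z y) atTop (𝓝 0)

/-! ### The derivative does not depend on the choices -/

theorem cov_eq_iff {x y : Plane} :
    cov x = cov y ↔ ∃ m n : ℤ, y = x + ((m : ℝ), (n : ℝ)) := by
  constructor
  · intro h
    have h1 : ((x.1 : ℝ) : UnitAddCircle) = (y.1 : ℝ) := congrArg Prod.fst h
    have h2 : ((x.2 : ℝ) : UnitAddCircle) = (y.2 : ℝ) := congrArg Prod.snd h
    rw [QuotientAddGroup.eq] at h1 h2
    obtain ⟨m, hm⟩ := h1
    obtain ⟨n, hn⟩ := h2
    refine ⟨m, n, ?_⟩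
    have hm' : (m : ℝ) = -x.1 + y.1 := by simpa using hm
    have hn' : (n : ℝ) = -x.2 + y.2 := by simpa using hn
    ext
    · simp; linarith
    · simp; linarith
  · rintro ⟨m, n, rfl⟩
    have e1 : ((x.1 + (m : ℝ) : ℝ) : UnitAddCircle) = (x.1 : ℝ) := by
      rw [AddCircle.coe_add]
      have : ((m : ℝ) : UnitAddCircle) = 0 := by
        rw [AddCircle.coe_eq_zero_iff]
        exact ⟨m, by simp⟩
      rw [this, add_zero]
    have e2 : ((x.2 + (n : ℝ) : ℝ) : UnitAddCircle) = (x.2 : ℝ) := by
      rw [AddCircle.coe_add]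
      have : ((n : ℝ) : UnitAddCircle) = 0 := by
        rw [AddCircle.coe_eq_zero_iff]
        exact ⟨n, by simp⟩
      rw [this, add_zero]
    simp only [cov, Prod.fst_add, Prod.snd_add, e1, e2]

end Pool.Agent.Work.MP_f9d495_an
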