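import Mathlib

namespace Pool.Agent.Work.MP_f9d495_an

/-- prepend a symbol -/
def cons (b : Bool) (ω : ℕ → Bool) : ℕ → Bool := fun n => Nat.casesOn n b (fun m => ω m)

/-- drop the first symbol -/
def tail (ω : ℕ → Bool) : ℕ → Bool := fun n => ω (n + 1)

/-- prepend a word -/
def app (u : List Bool) (ω : ℕ → Bool) : ℕ → Bool := u.foldr cons ω

abbrev zeros : ℕ → Bool := fun _ => false
abbrev ones : ℕ → Bool := fun _ => true

@[simp] theorem cons_zero (b : Bool) (ω : ℕ → Bool) : cons b ω 0 = b := rfl
@[simp] theorem cons_succ (b : Bool) (ω : ℕ → Bool) (n : ℕ) : cons b ω (n + 1) = ω n := rfl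
@[simp] theorem tail_cons (b : Bool) (ω : ℕ → Bool) : tail (cons b ω) = ω := rfl
theorem cons_tail (ω : ℕ → Bool) : cons (ω 0) (tail ω) = ω := by
  funext n; cases n <;> rfl
@[simp] theorem app_nil (ω : ℕ → Bool) : app [] ω = ω := rfl
@[simp] theorem app_cons (b : Bool) (u : List Bool) (ω : ℕ → Bool) :
    app (b :: u) ω = cons b (app u ω) := rfl
@[simp] theorem tail_zeros : tail zeros = zeros := rfl
@[simp] theorem tail_ones : tail ones = ones := rfl
theorem cons_false_zeros : cons false zeros = zeros := by
  funext n; cases n <;> rfl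
theorem cons_true_ones : cons true ones = ones := by
  funext n; cases n <;> rfl
theorem app_append (u v : List Bool) (ω : ℕ → Bool) : app (u ++ v) ω = app u (app v ω) := by
  induction u with
  | nil => rfl
  | cons b u ih => simp [ih]

end Pool.Agent.Work.MP_f9d495_an
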