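import Mathlib
import Pool.Agent.Work.MP_f9d495_an.Words

/-!
# Block A : an abstract gap lemma on two copies of the Cantor space
-/

open Filter Topology Set

namespace Pool.Agent.Work.MP_f9d495_an

theorem app_snoc (u : List Bool) (b : Bool) (ω : ℕ → Bool) :
    app (u ++ [b]) ω = app u (cons b ω) := by
  rw [app_append]; rfl

theorem cons_eta (ω : ℕ → Bool) : cons (ω 0) (fun n => ω (n + 1)) = ω := by
  funext n; cases n <;> rfl

/-- Every sequence is a word of a given length followed by a sequence, and sequences with the same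
first `n` symbols have the same word. -/
theorem exists_app_eq (n : ℕ) : ∀ ω ω' : ℕ → Bool, (∀ i < n, ω i = ω' i) →
    ∃ (u : List Bool) (ρ ρ' : ℕ → Bool), u.length = n ∧ ω = app u ρ ∧ ω' = app u ρ' := by
  induction n with
  | zero => intro ω ω' _; exact ⟨[], ω, ω', rfl, rfl, rfl⟩
  | succ n ih =>
    intro ω ω' h
    obtain ⟨u, ρ, ρ', hu, h1, h2⟩ := ih (fun k => ω (k + 1)) (fun k => ω' (k + 1))
      (fun i hi => h (i + 1) (by omega))
    refine ⟨ω 0 :: u, ρ, ρ', by simp [hu], ?_, ?_⟩
    · rw [app_cons, ← h1]; exact (cons_eta ω).symm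
    · rw [app_cons, ← h2, h 0 (by omega)]; exact (cons_eta ω').symm

/-- `D` is continuous. -/
theorem gap_continuous (D : (ℕ → Bool) → (ℕ → Bool) → ℝ) (C θ : ℝ) (hθ0 : 0 ≤ θ) (hθ1 : θ < 1)
    (osc1 : ∀ u ω ω' b, |D (app u ω) b - D (app u ω') b| ≤ C * θ ^ u.length)
    (osc2 : ∀ a u ω ω', |D a (app u ω) - D a (app u ω')| ≤ C * θ ^ u.length) :
    Continuous (fun p : (ℕ → Bool) × (ℕ → Bool) => D p.1 p.2) := by
  have hlim : Tendsto (fun n : ℕ => C * θ ^ n) atTop (𝓝 0) := by
    have := (tendsto_pow_atTop_nhds_zero_of_lt_one hθ0 hθ1).const_mul C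
    simpa using this
  rw [continuous_iff_continuousAt]
  rintro ⟨a, b⟩
  rw [ContinuousAt, Metric.tendsto_nhds]
  intro ε hε
  obtain ⟨n, hn⟩ := ((tendsto_order.1 hlim).2 (ε / 2) (by linarith)).exists
  have hopen : IsOpen {p : (ℕ → Bool) × (ℕ → Bool) | ∀ i < n, p.1 i = a i ∧ p.2 i = b i} := by
    have : {p : (ℕ → Bool) × (ℕ → Bool) | ∀ i < n, p.1 i = a i ∧ p.2 i = b i} =
        ⋂ i ∈ Finset.range n, ({p | p.1 i = a i} ∩ {p | p.2 i = b i}) := by
      ext p; simp
    rw [this]
    refine isOpen_biInter_finset (fun i _ => IsOpen.inter ?_ ?_)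
    · exact (isOpen_discrete {a i}).preimage
        (f := fun p : (ℕ → Bool) × (ℕ → Bool) => p.1 i)
        ((continuous_apply (A := fun _ : ℕ => Bool) i).comp continuous_fst)
    · exact (isOpen_discrete {b i}).preimage
        (f := fun p : (ℕ → Bool) × (ℕ → Bool) => p.2 i)
        ((continuous_apply (A := fun _ : ℕ => Bool) i).comp continuous_snd)
  filter_upwards [hopen.mem_nhds (show (a, b) ∈ _ from fun i _ => ⟨rfl, rfl⟩)]
  rintro ⟨a', b'⟩ hab
  replace hab : ∀ i < n, a' i = a i ∧ b' i = b i := hab
  obtain ⟨u, ρ, ρ', hu, h1, h2⟩ := exists_app_eq n a' a (fun i hi => (hab i hi).1)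
  obtain ⟨v, σ, σ', hv, h3, h4⟩ := exists_app_eq n b' b (fun i hi => (hab i hi).2)
  have e1 : |D a' b' - D a b'| ≤ C * θ ^ n := by
    rw [h1, h2, ← hu]; exact osc1 u ρ ρ' b'
  have e2 : |D a b' - D a b| ≤ C * θ ^ n := by
    rw [h3, h4, ← hv]; exact osc2 a v σ σ'
  rw [Real.dist_eq]
  calc |D a' b' - D a b| = |(D a' b' - D a b') + (D a b' - D a b)| := by ring_nf
    _ ≤ |D a' b' - D a b'| + |D a b' - D a b| := abs_add_le _ _
    _ < ε := by linarith

/-- Locating a sign change across a gap. -/
theorem gap_locate (E : (ℕ → Bool) → ℝ) (C θ c : ℝ)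
    (osc : ∀ u ω ω', |E (app u ω) - E (app u ω')| ≤ C * θ ^ u.length)
    (hne : ∀ a, c ≤ |E a|) (hc : 0 < c) (N : ℕ) (hN : ∀ n ≥ N, C * θ ^ n < 2 * c) :
    ∀ (k : ℕ) (w : List Bool), N ≤ w.length + k → 0 < E (app w zeros) → E (app w ones) < 0 →
      ∃ w' : List Bool, 0 < E (app (w ++ w') (cons false ones)) ∧
        E (app (w ++ w') (cons true zeros)) < 0 := by
  intro k
  induction k with
  | zero =>
    intro w hw h1 h2
    exfalso
    have e1 := osc w zeros ones
    have e2 := hN w.length (by simpa using hw)
    have e3 := hne (app w zeros)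
    have e4 := hne (app w ones)
    rw [abs_of_pos h1] at e3
    rw [abs_of_neg h2] at e4
    rw [abs_of_pos (by linarith)] at e1
    linarith
  | succ k ih =>
    intro w hw h1 h2
    by_cases hG1 : 0 < E (app w (cons false ones))
    · by_cases hG2 : E (app w (cons true zeros)) < 0
      · exact ⟨[], by simpa using hG1, by simpa using hG2⟩
      · have hG2' : 0 < E (app w (cons true zeros)) := by
          rcases lt_or_eq_of_le (not_lt.1 hG2) with h | h
          · exact h
          · exfalso
            have := hne (app w (cons true zeros))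
            rw [← h, abs_zero] at this
            linarith
        obtain ⟨w', e1, e2⟩ := ih (w ++ [true]) (by simp; omega)
          (by rw [app_snoc]; exact hG2')
          (by rw [app_snoc, cons_true_ones]; exact h2)
        refine ⟨true :: w', ?_, ?_⟩
        · simpa using e1
        · simpa using e2
    · have hG1' : E (app w (cons false ones)) < 0 := by
        rcases lt_or_eq_of_le (not_lt.1 hG1) with h | h
        · exact h
        · exfalso
          have := hne (app w (cons false ones))
          rw [h, abs_zero] at this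
          linarith
      obtain ⟨w', e1, e2⟩ := ih (w ++ [false]) (by simp; omega)
        (by rw [app_snoc, cons_false_zeros]; exact h1)
        (by rw [app_snoc]; exact hG1')
      refine ⟨false :: w', ?_, ?_⟩
      · simpa using e1
      · simpa using e2

/-- Linked pairs of type 1. -/
def Linked1 (D : (ℕ → Bool) → (ℕ → Bool) → ℝ) (u v : List Bool) : Prop :=
  0 < D (app u (cons false ones)) (app v (cons false ones)) ∧
  D (app u (cons true zeros)) (app v (cons false ones)) < 0 ∧
  D (app u (cons false ones)) (app v (cons true zeros)) < 0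

/-- Linked pairs of type 2. -/
def Linked2 (D : (ℕ → Bool) → (ℕ → Bool) → ℝ) (u v : List Bool) : Prop :=
  D (app u (cons true zeros)) (app v (cons true zeros)) < 0 ∧
  0 < D (app u (cons false ones)) (app v (cons true zeros)) ∧
  0 < D (app u (cons true zeros)) (app v (cons false ones))

/-- From type 1 to type 2, extending the first word. -/
theorem gap_step12 (D : (ℕ → Bool) → (ℕ → Bool) → ℝ) (C θ c : ℝ)
    (osc1 : ∀ u ω ω' b, |D (app u ω) b - D (app u ω') b| ≤ C * θ ^ u.length)
    (mono1 : ∀ u ω b, D (app u ones) b ≤ D (app u ω) b ∧ D (app u ω) b ≤ D (app u zeros) b)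
    (left1 : ∀ u b b', 2 * (D (app u (cons false ones)) b' - D (app u (cons true zeros)) b')
      ≤ D (app u zeros) b - D (app u (cons false ones)) b)
    (hne : ∀ a b, c ≤ |D a b|) (hc : 0 < c) (N : ℕ) (hN : ∀ n ≥ N, C * θ ^ n < 2 * c)
    (u v : List Bool) (hl : Linked1 D u v)
    (hGH : D (app u (cons false ones)) (app v (cons false ones)) -
        D (app u (cons false ones)) (app v (cons true zeros)) ≤
      D (app u (cons false ones)) (app v (cons false ones)) -
        D (app u (cons true zeros)) (app v (cons false ones))) :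
    ∃ w, Linked2 D (u ++ w) v ∧ 0 < w.length := by
  obtain ⟨l1, l2, l3⟩ := hl
  have hL := left1 u (app v (cons true zeros)) (app v (cons false ones))
  have hpos : 0 < D (app u zeros) (app v (cons true zeros)) := by linarith
  obtain ⟨w', e1, e2⟩ := gap_locate (fun a => D a (app v (cons true zeros))) C θ c
    (fun u ω ω' => osc1 u ω ω' _) (fun a => hne a _) hc N hN N (u ++ [false]) (by omega)
    (by rw [app_snoc, cons_false_zeros]; exact hpos) (by rw [app_snoc]; exact l3)
  refine ⟨false :: w', ⟨?_, ?_, ?_⟩, by simp⟩
  · simpa using e2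
  · simpa using e1
  · have := (mono1 (u ++ [false]) (app w' (cons true zeros)) (app v (cons false ones))).1
    rw [← app_append, app_snoc] at this
    simp only [List.append_assoc, List.singleton_append] at this
    linarith

/-- From type 2 to type 1, extending the first word. -/
theorem gap_step21 (D : (ℕ → Bool) → (ℕ → Bool) → ℝ) (C θ c : ℝ)
    (osc1 : ∀ u ω ω' b, |D (app u ω) b - D (app u ω') b| ≤ C * θ ^ u.length)
    (mono1 : ∀ u ω b, D (app u ones) b ≤ D (app u ω) b ∧ D (app u ω) b ≤ D (app u zeros) b)
    (right1 : ∀ u b b', 2 * (D (app u (cons false ones)) b' - D (app u (cons true zeros)) b')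
      ≤ D (app u (cons true zeros)) b - D (app u ones) b)
    (hne : ∀ a b, c ≤ |D a b|) (hc : 0 < c) (N : ℕ) (hN : ∀ n ≥ N, C * θ ^ n < 2 * c)
    (u v : List Bool) (hl : Linked2 D u v)
    (hGH : D (app u (cons true zeros)) (app v (cons false ones)) -
        D (app u (cons true zeros)) (app v (cons true zeros)) ≤
      D (app u (cons false ones)) (app v (cons true zeros)) -
        D (app u (cons true zeros)) (app v (cons true zeros))) :
    ∃ w, Linked1 D (u ++ w) v ∧ 0 < w.length := by
  obtain ⟨l1, l2, l3⟩ := hl
  have hR := right1 u (app v (cons false ones)) (app v (cons true zeros))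
  have hneg : D (app u ones) (app v (cons false ones)) < 0 := by linarith
  obtain ⟨w', e1, e2⟩ := gap_locate (fun a => D a (app v (cons false ones))) C θ c
    (fun u ω ω' => osc1 u ω ω' _) (fun a => hne a _) hc N hN N (u ++ [true]) (by omega)
    (by rw [app_snoc]; exact l3) (by rw [app_snoc, cons_true_ones]; exact hneg)
  refine ⟨true :: w', ⟨?_, ?_, ?_⟩, by simp⟩
  · simpa using e1
  · simpa using e2
  · have := (mono1 (u ++ [true]) (app w' (cons false ones)) (app v (cons true zeros))).2
    rw [← app_append, app_snoc] at this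
    simp only [List.append_assoc, List.singleton_append] at this
    linarith

/-- Abstract gap lemma. `D` is decreasing in both variables for the lexicographic order.
The cylinder of a word `u` is `{app u ω}`; its gap is between `app u (cons false ones)` and
`app u (cons true zeros)`; left bridge `[app u zeros, app u (cons false ones)]`, right bridge
`[app u (cons true zeros), app u ones]`; both bridges are at least twice the gap. -/
theorem gap_lemma (D : (ℕ → Bool) → (ℕ → Bool) → ℝ) (C θ : ℝ) (hθ0 : 0 ≤ θ) (hθ1 : θ < 1)
    (osc1 : ∀ u ω ω' b, |D (app u ω) b - D (app u ω') b| ≤ C * θ ^ u.length)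
    (osc2 : ∀ a u ω ω', |D a (app u ω) - D a (app u ω')| ≤ C * θ ^ u.length)
    (mono1 : ∀ u ω b, D (app u ones) b ≤ D (app u ω) b ∧ D (app u ω) b ≤ D (app u zeros) b)
    (mono2 : ∀ a u ω, D a (app u ones) ≤ D a (app u ω) ∧ D a (app u ω) ≤ D a (app u zeros))
    (left1 : ∀ u b b', 2 * (D (app u (cons false ones)) b' - D (app u (cons true zeros)) b')
      ≤ D (app u zeros) b - D (app u (cons false ones)) b)
    (right1 : ∀ u b b', 2 * (D (app u (cons false ones)) b' - D (app u (cons true zeros)) b')
      ≤ D (app u (cons true zeros)) b - D (app u ones) b)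
    (left2 : ∀ v a a', 2 * (D a' (app v (cons false ones)) - D a' (app v (cons true zeros)))
      ≤ D a (app v zeros) - D a (app v (cons false ones)))
    (right2 : ∀ v a a', 2 * (D a' (app v (cons false ones)) - D a' (app v (cons true zeros)))
      ≤ D a (app v (cons true zeros)) - D a (app v ones))
    (h11 : 0 < D (cons false ones) (cons false ones))
    (h12 : D (cons false ones) (cons true zeros) < 0)
    (h21 : D (cons true zeros) (cons false ones) < 0) :
    ∃ a b, D a b = 0 := by
  by_contra hcon
  push Not at hcon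
  have hcont := gap_continuous D C θ hθ0 hθ1 osc1 osc2
  obtain ⟨⟨a0, b0⟩, -, hmin⟩ := (isCompact_univ (X := (ℕ → Bool) × (ℕ → Bool))).exists_isMinOn
    Set.univ_nonempty (f := fun p => |D p.1 p.2|) (hcont.abs.continuousOn)
  set c := |D a0 b0| with hcdef
  have hc : 0 < c := abs_pos.2 (hcon a0 b0)
  have hne : ∀ a b, c ≤ |D a b| := fun a b => hmin (Set.mem_univ (a, b))
  have hlim : Tendsto (fun n : ℕ => C * θ ^ n) atTop (𝓝 0) := by
    have := (tendsto_pow_atTop_nhds_zero_of_lt_one hθ0 hθ1).const_mul C
    simpa using this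
  obtain ⟨N, hN⟩ := Filter.eventually_atTop.1 ((tendsto_order.1 hlim).2 (2 * c) (by linarith))
  -- lengths of linked pairs are bounded
  have bound1 : ∀ u v, Linked1 D u v → u.length < N ∧ v.length < N := by
    rintro u v ⟨l1, l2, l3⟩
    constructor
    · by_contra hle
      have e1 := hN u.length (by omega)
      have e2 := osc1 u (cons false ones) (cons true zeros) (app v (cons false ones))
      have e3 := hne (app u (cons false ones)) (app v (cons false ones))
      have e4 := hne (app u (cons true zeros)) (app v (cons false ones))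
      rw [abs_of_pos l1] at e3
      rw [abs_of_neg l2] at e4
      rw [abs_of_pos (by linarith)] at e2
      linarith
    · by_contra hle
      have e1 := hN v.length (by omega)
      have e2 := osc2 (app u (cons false ones)) v (cons false ones) (cons true zeros)
      have e3 := hne (app u (cons false ones)) (app v (cons false ones))
      have e4 := hne (app u (cons false ones)) (app v (cons true zeros))
      rw [abs_of_pos l1] at e3
      rw [abs_of_neg l3] at e4
      rw [abs_of_pos (by linarith)] at e2
      linarith
  have swapHne : ∀ a b, c ≤ |(fun b a => D a b) a b| := fun a b => hne b a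
  have key : ∀ (k : ℕ) (u v : List Bool), 2 * N ≤ u.length + v.length + k → ¬ Linked1 D u v := by
    intro k
    induction k using Nat.strong_induction_on with
    | _ k ih =>
      intro u v hk hl
      have hb := bound1 u v hl
      have hkpos : 0 < k := by omega
      -- step to type 2
      have step2 : ∃ u2 v2, Linked2 D u2 v2 ∧ u.length + v.length < u2.length + v2.length := by
        rcases le_total (D (app u (cons false ones)) (app v (cons false ones)) -
            D (app u (cons false ones)) (app v (cons true zeros)))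
          (D (app u (cons false ones)) (app v (cons false ones)) -
            D (app u (cons true zeros)) (app v (cons false ones))) with h | h
        · obtain ⟨w, hw, hw'⟩ := gap_step12 D C θ c osc1 mono1 left1 hne hc N hN u v hl h
          exact ⟨u ++ w, v, hw, by simp; omega⟩
        · obtain ⟨w, ⟨m1, m2, m3⟩, hw'⟩ := gap_step12 (fun b a => D a b) C θ c
            (fun v ω ω' a => osc2 a v ω ω') (fun v ω a => mono2 a v ω)
            (fun v a a' => left2 v a a') (fun a b => hne b a) hc N hN v u
            ⟨hl.1, hl.2.2, hl.2.1⟩ h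
          exact ⟨u, v ++ w, ⟨m1, m3, m2⟩, by simp; omega⟩
      obtain ⟨u2, v2, hl2, hlen2⟩ := step2
      have step1 : ∃ u3 v3, Linked1 D u3 v3 ∧ u2.length + v2.length < u3.length + v3.length := by
        rcases le_total (D (app u2 (cons true zeros)) (app v2 (cons false ones)) -
            D (app u2 (cons true zeros)) (app v2 (cons true zeros)))
          (D (app u2 (cons false ones)) (app v2 (cons true zeros)) -
            D (app u2 (cons true zeros)) (app v2 (cons true zeros))) with h | h
        · obtain ⟨w, hw, hw'⟩ := gap_step21 D C θ c osc1 mono1 right1 hne hc N hN u2 v2 hl2 h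
          exact ⟨u2 ++ w, v2, hw, by simp; omega⟩
        · obtain ⟨w, ⟨m1, m2, m3⟩, hw'⟩ := gap_step21 (fun b a => D a b) C θ c
            (fun v ω ω' a => osc2 a v ω ω') (fun v ω a => mono2 a v ω)
            (fun v a a' => right2 v a a') (fun a b => hne b a) hc N hN v2 u2
            ⟨hl2.1, hl2.2.2, hl2.2.1⟩ h
          exact ⟨u2, v2 ++ w, ⟨m1, m3, m2⟩, by simp; omega⟩
      obtain ⟨u3, v3, hl3, hlen3⟩ := step1
      exact ih (k - 1) (by omega) u3 v3 (by omega) hl3
  exact key (2 * N) [] [] (by simp) ⟨by simpa using h11, by simpa using h21, by simpa using h12⟩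

end Pool.Agent.Work.MP_f9d495_an
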