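import Pool.Agent.Work.MP_f9d495_an.Pert
import Pool.Agent.Work.MP_f9d495_an.GapLemma

/-!
# Block F : the image of an unstable leaf under the fold is tangent to a stable leaf
-/

open Filter Topology Set

namespace Pool.Agent.Work.MP_f9d495_an

/-- maximum over `[-1/25,1/25]` -/
noncomputable def mx (f : ℝ → ℝ) : ℝ := sSup (f '' Icc (-(1/25 : ℝ)) (1/25))

theorem mx_spec {f : ℝ → ℝ} (hf : Continuous f) : ∃ w ∈ Icc (-(1/25 : ℝ)) (1/25), mx f = f w ∧
    ∀ w' ∈ Icc (-(1/25 : ℝ)) (1/25), f w' ≤ f w := by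
  obtain ⟨w, hw, h1, h2⟩ := isCompact_Icc.exists_sSup_image_eq_and_ge
    (nonempty_Icc.2 (show -(1/25 : ℝ) ≤ 1/25 by norm_num)) hf.continuousOn
  exact ⟨w, hw, h1, h2⟩

theorem mx_sub {f g : ℝ → ℝ} (hf : Continuous f) (hg : Continuous g) :
    ∃ w ∈ Icc (-(1/25 : ℝ)) (1/25), mx f - mx g ≤ f w - g w := by
  obtain ⟨w, hw, h1, _⟩ := mx_spec hf
  obtain ⟨w', _, h1', h2'⟩ := mx_spec hg
  exact ⟨w, hw, by rw [h1, h1']; linarith [h2' w hw]⟩

theorem C11.hasFDerivAt_pair {ε : ℝ} {u ux uy : ℝ → ℝ → ℝ} (h : C11 ε u ux uy) (p : ℝ × ℝ) :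
    HasFDerivAt (fun p : ℝ × ℝ => u p.1 p.2)
      (ux p.1 p.2 • ContinuousLinearMap.fst ℝ ℝ ℝ + uy p.1 p.2 • ContinuousLinearMap.snd ℝ ℝ ℝ)
      p := by
  have hε : 0 ≤ ε := (abs_nonneg _).trans (h.bound 0 0)
  refine HasFDerivAt.of_isLittleO ?_
  rw [Asymptotics.isLittleO_iff]
  intro c hc
  have hball : ∀ᶠ p' in 𝓝 p, ‖p' - p‖ < c / (4 * ε + 1) := by
    have := Metric.ball_mem_nhds p (show 0 < c / (4 * ε + 1) by positivity)
    filter_upwards [this] with p' hp'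
    rwa [Metric.mem_ball, dist_eq_norm] at hp'
  filter_upwards [hball] with p' hp'
  have ht := h.taylor p.1 p.2 p'.1 p'.2
  have e : u p'.1 p'.2 - u p.1 p.2 - (ux p.1 p.2 • ContinuousLinearMap.fst ℝ ℝ ℝ +
      uy p.1 p.2 • ContinuousLinearMap.snd ℝ ℝ ℝ) (p' - p) =
      u p'.1 p'.2 - u p.1 p.2 - ux p.1 p.2 * (p'.1 - p.1) - uy p.1 p.2 * (p'.2 - p.2) := by
    simp
    ring
  rw [e, Real.norm_eq_abs]
  have h1 : |p'.1 - p.1| ≤ ‖p' - p‖ := norm_fst_le (p' - p)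
  have h2 : |p'.2 - p.2| ≤ ‖p' - p‖ := norm_snd_le (p' - p)
  have h3 : (|p'.1 - p.1| + |p'.2 - p.2|) ^ 2 ≤ (2 * ‖p' - p‖) ^ 2 := by
    apply pow_le_pow_left₀ (by positivity); linarith
  have h4 : ε * (|p'.1 - p.1| + |p'.2 - p.2|) ^ 2 ≤ ε * (2 * ‖p' - p‖) ^ 2 :=
    mul_le_mul_of_nonneg_left h3 hε
  have h5 : (4 * ε + 1) * ‖p' - p‖ < c := by
    rw [lt_div_iff₀ (by positivity)] at hp'
    linarith
  have h0 : 0 ≤ ‖p' - p‖ := norm_nonneg _
  calc _ ≤ _ := ht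
    _ ≤ _ := h4
    _ = (4 * ε * ‖p' - p‖) * ‖p' - p‖ := by ring
    _ ≤ c * ‖p' - p‖ := by
      apply mul_le_mul_of_nonneg_right _ h0
      nlinarith

theorem C11.hasDerivAt {ε : ℝ} {u ux uy : ℝ → ℝ → ℝ} (h : C11 ε u ux uy) {f g : ℝ → ℝ}
    {f' g' t : ℝ} (hf : HasDerivAt f f' t) (hg : HasDerivAt g g' t) :
    HasDerivAt (fun t => u (f t) (g t)) (ux (f t) (g t) * f' + uy (f t) (g t) * g') t := by
  have h1 := (h.hasFDerivAt_pair (f t, g t)).comp_hasDerivAt t (hf.prodMk hg)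
  exact h1.congr_deriv (by simp)

namespace Pert
variable {S : ShearData} (P : Pert S)

/-- abscissa of the image of the point of the unstable leaf `a` at height `1/2 + w` -/
noncomputable def FX (a : ℕ → Bool) (w : ℝ) : ℝ :=
  S.lam * (13/20 + P.T'.Φ a (1/2 + w) + w / (10 * S.nu) + w^2) + P.u (P.T'.Φ a (1/2 + w)) (1/2 + w)

/-- height of the image -/
noncomputable def FY (a : ℕ → Bool) (w : ℝ) : ℝ :=
  10 * (S.lam + 1/20 - P.T'.Φ a (1/2 + w) - w^2) + P.v (P.T'.Φ a (1/2 + w)) (1/2 + w)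

/-- derivative of `FX a` -/
noncomputable def FX' (a : ℕ → Bool) (w : ℝ) : ℝ :=
  S.lam * (P.T'.S a (1/2 + w) + 1 / (10 * S.nu) + 2 * w) +
    P.ux (P.T'.Φ a (1/2 + w)) (1/2 + w) * P.T'.S a (1/2 + w) + P.uy (P.T'.Φ a (1/2 + w)) (1/2 + w)

/-- derivative of `FY a` -/
noncomputable def FY' (a : ℕ → Bool) (w : ℝ) : ℝ :=
  10 * (- P.T'.S a (1/2 + w) - 2 * w) +
    P.vx (P.T'.Φ a (1/2 + w)) (1/2 + w) * P.T'.S a (1/2 + w) + P.vy (P.T'.Φ a (1/2 + w)) (1/2 + w)

theorem hasDerivAt_Ψ (a : ℕ → Bool) (w : ℝ) :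
    HasDerivAt (fun w => P.T'.Φ a (1/2 + w)) (P.T'.S a (1/2 + w)) w :=
  (P.T'.hasDerivAt_Φ a (1/2 + w)).comp_const_add (1/2) w

theorem hasDerivAt_FX (a : ℕ → Bool) (w : ℝ) : HasDerivAt (P.FX a) (P.FX' a w) w := by
  have h1 := P.hasDerivAt_Ψ a w
  have h2 : HasDerivAt (fun w : ℝ => 1/2 + w) 1 w := (hasDerivAt_id w).const_add _
  have h3 := P.hu.hasDerivAt h1 h2
  have h4 : HasDerivAt (fun w : ℝ => w ^ 2) (2 * w) w := by
    simpa using hasDerivAt_pow 2 w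
  have h5 : HasDerivAt (fun w : ℝ => w / (10 * S.nu)) (1 / (10 * S.nu)) w :=
    (hasDerivAt_id w).div_const _
  have h6 := ((((h1.const_add (13/20)).add h5).add h4).const_mul S.lam).add h3
  exact h6.congr_deriv (by unfold FX'; ring)

theorem hasDerivAt_FY (a : ℕ → Bool) (w : ℝ) : HasDerivAt (P.FY a) (P.FY' a w) w := by
  have h1 := P.hasDerivAt_Ψ a w
  have h2 : HasDerivAt (fun w : ℝ => 1/2 + w) 1 w := (hasDerivAt_id w).const_add _
  have h3 := P.hv.hasDerivAt h1 h2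
  have h4 : HasDerivAt (fun w : ℝ => w ^ 2) (2 * w) w := by
    simpa using hasDerivAt_pow 2 w
  have h6 := ((((hasDerivAt_const w (S.lam + 1/20)).sub h1).sub h4).const_mul 10).add h3
  exact h6.congr_deriv (by unfold FY'; ring)

/-- height of the image above the stable leaf `b` -/
noncomputable def H (a b : ℕ → Bool) (w : ℝ) : ℝ := P.FY a w - P.T.Φ b (P.FX a w)

theorem hasDerivAt_H (a b : ℕ → Bool) (w : ℝ) :
    HasDerivAt (P.H a b) (P.FY' a w - P.T.S b (P.FX a w) * P.FX' a w) w :=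
  (P.hasDerivAt_FY a w).sub ((P.T.hasDerivAt_Φ b (P.FX a w)).comp w (P.hasDerivAt_FX a w))

theorem continuous_H (a b : ℕ → Bool) : Continuous (P.H a b) :=
  continuous_iff_continuousAt.2 fun w => (P.hasDerivAt_H a b w).continuousAt

/-- the offset function -/
noncomputable def D (a b : ℕ → Bool) : ℝ := mx (P.H a b)

theorem H_sub_left (a a' b : ℕ → Bool) (w : ℝ) :
    |P.H a b w - P.H a' b w - 10 * (P.T'.Φ a' (1/2 + w) - P.T'.Φ a (1/2 + w))| ≤
      1/1000 * |P.T'.Φ a' (1/2 + w) - P.T'.Φ a (1/2 + w)| := by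
  have hε := P.hε0
  have hε1 := P.hε1
  have hl := S.lam_bounds
  set A := P.T'.Φ a (1/2 + w) with hA
  set A' := P.T'.Φ a' (1/2 + w) with hA'
  have hv := P.hv.lip A (1/2 + w) A' (1/2 + w)
  have hu := P.hu.lip A (1/2 + w) A' (1/2 + w)
  rw [sub_self, abs_zero, add_zero] at hv hu
  have hX : |P.FX a' w - P.FX a w| ≤ |A' - A| := by
    have e : P.FX a' w - P.FX a w = S.lam * (A' - A) + (P.u A' (1/2 + w) - P.u A (1/2 + w)) := by
      simp only [FX, ← hA, ← hA']; ring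
    rw [e]
    have h1 : |S.lam * (A' - A)| ≤ 1/2 * |A' - A| := by
      rw [abs_mul, abs_of_pos S.lam_pos]
      apply mul_le_mul_of_nonneg_right _ (abs_nonneg _)
      linarith [hl.2]
    have h2 : P.ε * |A' - A| ≤ 1/2 * |A' - A| :=
      mul_le_mul_of_nonneg_right (by linarith) (abs_nonneg _)
    calc _ ≤ _ := abs_add_le _ _
      _ ≤ 1/2 * |A' - A| + 1/2 * |A' - A| := add_le_add h1 (hu.trans h2)
      _ = _ := by ring
  have hΦ := P.T.Φ_lip b (P.FX a w) (P.FX a' w)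
  rw [T_ε] at hΦ
  have e : P.H a b w - P.H a' b w - 10 * (A' - A) =
      -(P.v A' (1/2 + w) - P.v A (1/2 + w)) + (P.T.Φ b (P.FX a' w) - P.T.Φ b (P.FX a w)) := by
    simp only [H, FY, ← hA, ← hA']; ring
  rw [e]
  have h0 := abs_nonneg (A' - A)
  calc _ ≤ _ := abs_add_le _ _
    _ ≤ P.ε * |A' - A| + 4 * P.ε * |A' - A| := by
      rw [abs_neg]
      exact add_le_add hv (hΦ.trans (mul_le_mul_of_nonneg_left hX (by positivity)))
    _ = (5 * P.ε) * |A' - A| := by ring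
    _ ≤ _ := mul_le_mul_of_nonneg_right (by linarith) h0

theorem H_sub_right (a b b' : ℕ → Bool) (w : ℝ) :
    P.H a b w - P.H a b' w = P.T.Φ b' (P.FX a w) - P.T.Φ b (P.FX a w) := by
  unfold H; ring

/-- comparison of `D` for two unstable leaves -/
theorem D_sub_left (a a' b : ℕ → Bool) (h : ∀ x, P.T'.Φ a x ≤ P.T'.Φ a' x) :
    ∃ x, |x - 1/2| ≤ 1/25 ∧
      P.D a b - P.D a' b ≤ (10 + 1/1000) * (P.T'.Φ a' x - P.T'.Φ a x) := by
  obtain ⟨w, hw, h1⟩ := mx_sub (P.continuous_H a b) (P.continuous_H a' b)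
  refine ⟨1/2 + w, by rw [add_sub_cancel_left]; exact abs_le.2 hw, ?_⟩
  have h2 := P.H_sub_left a a' b w
  rw [abs_of_nonneg (sub_nonneg.2 (h (1/2 + w)))] at h2
  have h3 := (abs_le.1 h2).2
  unfold D
  linarith

theorem D_sub_left' (a a' b : ℕ → Bool) (h : ∀ x, P.T'.Φ a x ≤ P.T'.Φ a' x) :
    ∃ x, |x - 1/2| ≤ 1/25 ∧
      (10 - 1/1000) * (P.T'.Φ a' x - P.T'.Φ a x) ≤ P.D a b - P.D a' b := by
  obtain ⟨w, hw, h1⟩ := mx_sub (P.continuous_H a' b) (P.continuous_H a b)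
  refine ⟨1/2 + w, by rw [add_sub_cancel_left]; exact abs_le.2 hw, ?_⟩
  have h2 := P.H_sub_left a a' b w
  rw [abs_of_nonneg (sub_nonneg.2 (h (1/2 + w)))] at h2
  have h3 := (abs_le.1 h2).1
  unfold D
  linarith

theorem FX_bound (a : ℕ → Bool) {w : ℝ} (hw : w ∈ Icc (-(1/25 : ℝ)) (1/25)) :
    0 ≤ P.FX a w ∧ P.FX a w ≤ 2 := by
  have hε := P.hε0
  have hε1 := P.hε1
  have hl := S.lam_bounds
  have hn := S.nu_bounds
  have hn0 : 0 < S.nu := by linarith
  have h1 := P.T'.Φ_mem a (1/2 + w)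
  rw [T'_ε] at h1
  have h2 := abs_le.1 (P.hu.bound (P.T'.Φ a (1/2 + w)) (1/2 + w))
  obtain ⟨hw0, hw1⟩ := hw
  have h3 : w / (10 * S.nu) ≤ 1/100 := by
    rw [div_le_iff₀ (by positivity)]; nlinarith
  have h4 : -(1/100) ≤ w / (10 * S.nu) := by
    rw [le_div_iff₀ (by positivity)]; nlinarith
  have h5 : w ^ 2 ≤ 1/625 := by nlinarith
  have h6 := sq_nonneg w
  unfold FX
  constructor
  · have : 0 ≤ S.lam * (13/20 + P.T'.Φ a (1/2 + w) + w / (10 * S.nu) + w^2 - 1/2) :=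
      mul_nonneg S.lam_pos.le (by linarith)
    nlinarith
  · have : S.lam * (13/20 + P.T'.Φ a (1/2 + w) + w / (10 * S.nu) + w^2) ≤ 1 / 2 * 2 :=
      mul_le_mul (by linarith) (by linarith) (by linarith) (by norm_num)
    linarith

/-- comparison of `D` for two stable leaves -/
theorem D_sub_right (a b b' : ℕ → Bool) : ∃ x, 0 ≤ x ∧ x ≤ 2 ∧
      P.D a b - P.D a b' ≤ P.T.Φ b' x - P.T.Φ b x := by
  obtain ⟨w, hw, h1⟩ := mx_sub (P.continuous_H a b) (P.continuous_H a b')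
  rw [H_sub_right] at h1
  exact ⟨P.FX a w, (P.FX_bound a hw).1, (P.FX_bound a hw).2, h1⟩

theorem D_sub_right' (a b b' : ℕ → Bool) : ∃ x, 0 ≤ x ∧ x ≤ 2 ∧
      P.T.Φ b' x - P.T.Φ b x ≤ P.D a b - P.D a b' := by
  obtain ⟨x, h0, h1, h2⟩ := P.D_sub_right a b' b
  exact ⟨x, h0, h1, by linarith⟩

theorem D_mono_left (a a' b : ℕ → Bool) (h : Lex a a') : P.D a' b ≤ P.D a b := by
  obtain ⟨x, _, h2⟩ := P.D_sub_left' a a' b (fun x => P.T'.mono h x)
  have := P.T'.mono h x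
  nlinarith

theorem D_mono_right (a b b' : ℕ → Bool) (h : Lex b b') : P.D a b' ≤ P.D a b := by
  obtain ⟨x, _, _, h2⟩ := P.D_sub_right' a b b'
  have := P.T.mono h x
  linarith

theorem exists_D_eq_zero : ∃ a b, P.D a b = 0 := by
  have hε := P.hε0
  have hε1 := P.hε1
  have hl := S.lam_bounds
  have hn := S.nu_bounds
  refine gap_lemma P.D 30 (1/2) (by norm_num) (by norm_num) ?_ ?_ ?_ ?_ ?_ ?_ ?_ ?_ ?_ ?_ ?_
  · -- osc1
    have key : ∀ u ω ω' b, P.D (app u ω) b - P.D (app u ω') b ≤ 30 * (1/2) ^ u.length := by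
      intro u ω ω' b
      obtain ⟨w, hw, h1⟩ := mx_sub (P.continuous_H (app u ω) b) (P.continuous_H (app u ω') b)
      have h2 := P.H_sub_left (app u ω) (app u ω') b w
      have h3 := P.T'.size u ω ω' (1/2 + w)
      have h4 := (abs_le.1 h2).2
      have h5 := le_abs_self (P.T'.Φ (app u ω') (1/2 + w) - P.T'.Φ (app u ω) (1/2 + w))
      have h6 : (0:ℝ) < (1/2) ^ u.length := by positivity
      unfold D
      linarith
    intro u ω ω' b
    rw [abs_le]
    constructor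
    · linarith [key u ω' ω b]
    · exact key u ω ω' b
  · -- osc2
    have key : ∀ a u ω ω', P.D a (app u ω) - P.D a (app u ω') ≤ 30 * (1/2) ^ u.length := by
      intro a u ω ω'
      obtain ⟨x, _, _, h1⟩ := P.D_sub_right a (app u ω) (app u ω')
      have h3 := P.T.size u ω ω' x
      have h5 := le_abs_self (P.T.Φ (app u ω') x - P.T.Φ (app u ω) x)
      have h6 : (0:ℝ) < (1/2) ^ u.length := by positivity
      linarith
    intro a u ω ω'
    rw [abs_le]
    constructor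
    · linarith [key a u ω' ω]
    · exact key a u ω ω'
  · intro u ω b
    exact ⟨P.D_mono_left _ _ b ((Lex.ones ω).app u), P.D_mono_left _ _ b ((Lex.zeros ω).app u)⟩
  · intro a u ω
    exact ⟨P.D_mono_right a _ _ ((Lex.ones ω).app u), P.D_mono_right a _ _ ((Lex.zeros ω).app u)⟩
  · -- left1
    intro u b b'
    obtain ⟨x, hx, h1⟩ := P.D_sub_left (app u (cons false ones)) (app u (cons true zeros)) b'
      (fun x => P.T'.mono ((Lex.false_true _ _).app u) x)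
    obtain ⟨y, hy, h2⟩ := P.D_sub_left' (app u zeros) (app u (cons false ones)) b
      (fun x => P.T'.mono ((Lex.zeros _).app u) x)
    have h3 := (P.T'.bridge_far u y x (by
      have := abs_le.1 hx; have := abs_le.1 hy; rw [abs_le]; constructor <;> linarith)).2
    have h4 := P.T'.gap_nonneg u x
    unfold Leaf.gap at h3 h4
    unfold Leaf.lbr at h3
    linarith
  · -- right1
    intro u b b'
    obtain ⟨x, hx, h1⟩ := P.D_sub_left (app u (cons false ones)) (app u (cons true zeros)) b'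
      (fun x => P.T'.mono ((Lex.false_true _ _).app u) x)
    obtain ⟨y, hy, h2⟩ := P.D_sub_left' (app u (cons true zeros)) (app u ones) b
      (fun x => P.T'.mono ((Lex.ones _).app u) x)
    have h3 := (P.T'.bridge_far u y x (by
      have := abs_le.1 hx; have := abs_le.1 hy; rw [abs_le]; constructor <;> linarith)).1
    have h4 := P.T'.gap_nonneg u x
    unfold Leaf.gap at h3 h4
    unfold Leaf.rbr at h3
    linarith
  · -- left2
    intro v a a'
    obtain ⟨x, hx0, hx1, h1⟩ := P.D_sub_right a' (app v (cons false ones)) (app v (cons true zeros))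
    obtain ⟨y, hy0, hy1, h2⟩ := P.D_sub_right' a (app v zeros) (app v (cons false ones))
    have h3 := (P.T.bridge_far v y x (by rw [abs_le]; constructor <;> linarith)).2
    have h4 := P.T.gap_nonneg v x
    unfold Leaf.gap at h3 h4
    unfold Leaf.lbr at h3
    linarith
  · -- right2
    intro v a a'
    obtain ⟨x, hx0, hx1, h1⟩ := P.D_sub_right a' (app v (cons false ones)) (app v (cons true zeros))
    obtain ⟨y, hy0, hy1, h2⟩ := P.D_sub_right' a (app v (cons true zeros)) (app v ones)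
    have h3 := (P.T.bridge_far v y x (by rw [abs_le]; constructor <;> linarith)).1
    have h4 := P.T.gap_nonneg v x
    unfold Leaf.gap at h3 h4
    unfold Leaf.rbr at h3
    linarith
  · -- h11
    obtain ⟨w, hw, h1, h2⟩ := mx_spec (P.continuous_H (cons false ones) (cons false ones))
    have h3 := h2 0 ⟨by norm_num, by norm_num⟩
    unfold D
    rw [h1]
    refine lt_of_lt_of_le ?_ h3
    have h4 := abs_le.1 (P.T.false_ones_near (P.FX (cons false ones) 0))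
    have h5 := abs_le.1 (P.T'.false_ones_near (1/2 + 0))
    have h6 := abs_le.1 (P.hv.bound (P.T'.Φ (cons false ones) (1/2 + 0)) (1/2 + 0))
    simp only [T_m, T_ε, T'_m, T'_ε] at h4 h5
    unfold H FY
    linarith [h4.1, h4.2, h5.1, h5.2, h6.1, h6.2]
  · -- h12
    obtain ⟨w, hw, h1, _⟩ := mx_spec (P.continuous_H (cons false ones) (cons true zeros))
    unfold D
    rw [h1]
    have h4 := abs_le.1 (P.T.true_zeros_near (P.FX (cons false ones) w))
    have h5 := abs_le.1 (P.T'.false_ones_near (1/2 + w))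
    have h6 := abs_le.1 (P.hv.bound (P.T'.Φ (cons false ones) (1/2 + w)) (1/2 + w))
    simp only [T_m, T_ε, T'_m, T'_ε] at h4 h5
    unfold H FY
    nlinarith [h4.1, h4.2, h5.1, h5.2, h6.1, h6.2, sq_nonneg w]
  · -- h21
    obtain ⟨w, hw, h1, _⟩ := mx_spec (P.continuous_H (cons true zeros) (cons false ones))
    unfold D
    rw [h1]
    have h4 := abs_le.1 (P.T.false_ones_near (P.FX (cons true zeros) w))
    have h5 := abs_le.1 (P.T'.true_zeros_near (1/2 + w))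
    have h6 := abs_le.1 (P.hv.bound (P.T'.Φ (cons true zeros) (1/2 + w)) (1/2 + w))
    simp only [T_m, T_ε, T'_m, T'_ε] at h4 h5
    unfold H FY
    nlinarith [h4.1, h4.2, h5.1, h5.2, h6.1, h6.2, sq_nonneg w]

/-- The maximum of `H a b` is not attained at the ends. -/
theorem H_end_lt (a b : ℕ → Bool) {w : ℝ} (hw : |w| = 1/25) : P.H a b w < P.H a b 0 := by
  have hε := P.hε0
  have hε1 := P.hε1
  have hl := S.lam_bounds
  have hn := S.nu_bounds
  have hn0 : 0 < S.nu := by linarith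
  have hw' : w ∈ Icc (-(1/25 : ℝ)) (1/25) := abs_le.1 hw.le
  have h0' : (0:ℝ) ∈ Icc (-(1/25 : ℝ)) (1/25) := ⟨by norm_num, by norm_num⟩
  have hsq : w ^ 2 = 1/625 := by rw [← sq_abs, hw]; norm_num
  have h1 := P.T'.Φ_lip a (1/2 + 0) (1/2 + w)
  have e1 : (1/2 + w) - (1/2 + 0) = w := by ring
  rw [e1, hw, T'_ε] at h1
  have h2 := P.hv.lip (P.T'.Φ a (1/2 + 0)) (1/2 + 0) (P.T'.Φ a (1/2 + w)) (1/2 + w)
  rw [e1, hw] at h2
  have h3 := P.T.Φ_lip b (P.FX a 0) (P.FX a w)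
  rw [T_ε] at h3
  have h4 : |P.FX a w - P.FX a 0| ≤ 2 := by
    have h5 := P.FX_bound a hw'
    have h6 := P.FX_bound a h0'
    rw [abs_le]; constructor <;> linarith
  have h7 : 4 * P.ε * |P.FX a w - P.FX a 0| ≤ 4 * P.ε * 2 :=
    mul_le_mul_of_nonneg_left h4 (by positivity)
  have h8 : P.ε * (|P.T'.Φ a (1/2 + w) - P.T'.Φ a (1/2 + 0)| + 1/25) ≤ P.ε * (1 + 1/25) := by
    apply mul_le_mul_of_nonneg_left _ hε.le
    linarith
  have e : P.H a b 0 - P.H a b w = 10 * w ^ 2 +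
      10 * (P.T'.Φ a (1/2 + w) - P.T'.Φ a (1/2 + 0)) -
      (P.v (P.T'.Φ a (1/2 + w)) (1/2 + w) - P.v (P.T'.Φ a (1/2 + 0)) (1/2 + 0)) +
      (P.T.Φ b (P.FX a w) - P.T.Φ b (P.FX a 0)) := by
    unfold H FY; ring
  have g1 := (abs_le.1 h1).1
  have g2 := (abs_le.1 (h2.trans h8)).2
  have g3 := (abs_le.1 (h3.trans h7)).1
  rw [hsq] at e
  linarith

/-- BLOCK F. -/
theorem exists_fold_tangency : ∃ (a b : ℕ → Bool) (w : ℝ), |w| < 1/25 ∧
    P.FY a w = P.T.Φ b (P.FX a w) ∧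
    P.FY' a w = P.T.S b (P.FX a w) * P.FX' a w ∧
    S.lam + 1/20 - 11/100 < P.T'.Φ a (1/2 + w) ∧ P.T'.Φ a (1/2 + w) < S.lam + 1/20 + 1/100 ∧
    0 ≤ P.FX a w ∧ P.FX a w ≤ 1 := by
  obtain ⟨a, b, hD⟩ := P.exists_D_eq_zero
  have hε := P.hε0
  have hε1 := P.hε1
  have hl := S.lam_bounds
  have hn := S.nu_bounds
  have hn0 : 0 < S.nu := by linarith
  obtain ⟨w, hw, h1, h2⟩ := mx_spec (P.continuous_H a b)
  have hH : P.H a b w = 0 := by rw [← h1]; exact hD
  have hwlt : |w| < 1/25 := by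
    refine lt_of_le_of_ne (abs_le.2 hw) fun he => ?_
    have h3 := P.H_end_lt a b he
    have h4 := h2 0 ⟨by norm_num, by norm_num⟩
    linarith
  have hmax : IsLocalMax (P.H a b) w := by
    have hnh : Icc (-(1/25 : ℝ)) (1/25) ∈ 𝓝 w :=
      Icc_mem_nhds (abs_lt.1 hwlt).1 (abs_lt.1 hwlt).2
    filter_upwards [hnh] with w' hw'
    exact h2 w' hw'
  have hder := hmax.hasDerivAt_eq_zero (P.hasDerivAt_H a b w)
  have hFY : P.FY a w = P.T.Φ b (P.FX a w) := by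
    unfold H at hH; linarith
  have h5 := P.T.Φ_mem b (P.FX a w)
  rw [← hFY, T_ε] at h5
  have h6 := abs_le.1 (P.hv.bound (P.T'.Φ a (1/2 + w)) (1/2 + w))
  have h7 : w ^ 2 ≤ 1/625 := by have := hw.1; have := hw.2; nlinarith
  have h8 := sq_nonneg w
  have h9 : S.lam + 1/20 - 11/100 < P.T'.Φ a (1/2 + w) := by
    have := h5.2
    unfold FY at this
    linarith
  have h10 : P.T'.Φ a (1/2 + w) < S.lam + 1/20 + 1/100 := by
    have := h5.1
    unfold FY at this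
    linarith
  refine ⟨a, b, w, hwlt, hFY, by linarith, h9, h10, (P.FX_bound a hw).1, ?_⟩
  have h3 : w / (10 * S.nu) ≤ 1/100 := by
    rw [div_le_iff₀ (by positivity)]; have := hw.2; nlinarith
  have h11 := abs_le.1 (P.hu.bound (P.T'.Φ a (1/2 + w)) (1/2 + w))
  unfold FX
  have h12 : 0 ≤ 13/20 + P.T'.Φ a (1/2 + w) + w / (10 * S.nu) + w^2 := by
    have h4 : -(1/100) ≤ w / (10 * S.nu) := by
      rw [le_div_iff₀ (by positivity)]; have := hw.1; nlinarith
    linarith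
  have : S.lam * (13/20 + P.T'.Φ a (1/2 + w) + w / (10 * S.nu) + w^2) ≤ 1 / 2 * (3/2) :=
    mul_le_mul (by linarith) (by linarith) h12 (by norm_num)
  linarith

end Pert

end Pool.Agent.Work.MP_f9d495_an
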