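import Pool.Agent.Work.MP_f9d495_an.Pert

/-!
# Block I: the maximal invariant set in the boxes
-/

open Filter Topology Set

namespace Pool.Agent.Work.MP_f9d495_an

theorem perm_continuous {G : Plane → Plane} {g : Equiv.Perm Torus} (hG : IsLift 1 G g) :
    Continuous g := by
  rw [continuous_iff_continuousAt]
  intro z
  obtain ⟨x, rfl⟩ := cov_surjective z
  rw [Metric.continuousAt_iff]
  intro ε hε
  obtain ⟨δ, hδ, hd⟩ := Metric.continuousAt_iff.mp (hG.continuous.continuousAt (x := x)) ε hε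
  refine ⟨δ, hδ, fun {w} hw => ?_⟩
  obtain ⟨y, rfl, hy⟩ := exists_cov_dist_eq x w
  have h1 : dist y x < δ := by
    rw [dist_comm, hy, dist_comm]
    exact hw
  rw [← hG.2, ← hG.2]
  exact lt_of_le_of_lt (dist_cov_le _ _) (hd h1)

theorem pow_continuous {g : Equiv.Perm Torus} (hg : Continuous g) (n : ℕ) :
    Continuous (g ^ n : Equiv.Perm Torus) := by
  induction n with
  | zero => exact continuous_id
  | succ n ih =>
    have : ((g ^ (n + 1) : Equiv.Perm Torus) : Torus → Torus) = (g ^ n : Equiv.Perm Torus) ∘ g := by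
      funext z
      rw [pow_succ, Equiv.Perm.mul_apply]
      rfl
    rw [this]
    exact ih.comp hg

theorem zpow_continuous {g : Equiv.Perm Torus} (hg : Continuous g) (hg' : Continuous g.symm)
    (n : ℤ) : Continuous (g ^ n : Equiv.Perm Torus) := by
  obtain ⟨m, rfl | rfl⟩ := n.eq_nat_or_neg
  · rw [zpow_natCast]
    exact pow_continuous hg m
  · rw [zpow_neg, zpow_natCast, ← inv_pow]
    exact pow_continuous hg' m

namespace Leaf

variable (T : Leaf)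

theorem Box.big {T : Leaf} {i : Bool} {x y : ℝ} (h : T.Box i x y) : T.BigBox i x y := by
  obtain ⟨h1, h2, h3, h4⟩ := h
  exact ⟨by linarith, by linarith, by linarith, by linarith⟩

/-- coordinates in a box are in `[-1/1000, 1 + 1/1000]` -/
theorem Box.bounds {T : Leaf} {i : Bool} {x y : ℝ} (h : T.Box i x y) :
    -(1/1000) ≤ x ∧ x ≤ 1 + 1/1000 ∧ -(1/1000) ≤ y ∧ y ≤ 1 + 1/1000 := by
  obtain ⟨h1, h2, h3, h4⟩ := h
  have := T.dd_nonneg i
  have := T.dd_le i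
  exact ⟨h1, h2, by linarith, by linarith⟩

/-- the image of a box in the vertical direction -/
theorem ny_box {i : Bool} {x y : ℝ} (h : T.Box i x y) :
    -(4/1000) ≤ T.ny i x y ∧ T.ny i x y ≤ 1 + 4/1000 := by
  obtain ⟨h1, h2, h3, h4⟩ := h
  have hv := abs_le.1 (T.hv.bound x y)
  have hm0 := T.hm0
  have hm1 := T.hm1
  have hε1 := T.hε1
  have hm : 0 < T.m := by linarith
  unfold ny
  have e1 : -(3/1000) ≤ (y - T.dd i) / T.m := by
    rw [le_div_iff₀ hm]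
    nlinarith
  have e2 : (y - T.dd i) / T.m ≤ 1 + 3/1000 := by
    rw [div_le_iff₀ hm]
    nlinarith
  constructor <;> linarith [hv.1, hv.2]

/-- the graph equation characterises the leaf -/
theorem prepend (b : Bool) (a : ℕ → Bool) (x y : ℝ)
    (h : T.ny b x y = T.Φ a (T.nx b x y)) : y = T.Φ (cons b a) x := by
  have h1 := T.ny_leaf (cons b a) x
  simp only [cons_zero, tail_cons] at h1
  set φ := T.Φ (cons b a) x with hφ
  unfold ny at h h1
  have hm0 := T.hm0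
  have hm1 := T.hm1
  have hε0 := T.hε0
  have hε1 := T.hε1
  have hm : 0 < T.m := by linarith
  have h2 := T.Φ_lip a (T.nx b x y) (T.nx b x φ)
  have h3 := T.nx_sub_le b x x y φ
  have h4 := T.hv.lip x y x φ
  simp only [sub_self, abs_zero, mul_zero, zero_add] at h3 h4
  have h5 : (φ - y) / T.m = (T.Φ a (T.nx b x φ) - T.Φ a (T.nx b x y)) - (T.v x φ - T.v x y) := by
    rw [← h, ← h1]
    field_simp
    ring
  have h6 : |(φ - y) / T.m| ≤ 4 * T.ε * (T.ε * |φ - y|) + T.ε * |φ - y| := by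
    rw [h5]
    refine (abs_sub _ _).trans (add_le_add ?_ h4)
    exact h2.trans (mul_le_mul_of_nonneg_left h3 (by positivity))
  rw [abs_div, abs_of_pos hm, div_le_iff₀ hm] at h6
  have h7 : 0 ≤ |φ - y| := abs_nonneg _
  have h8 : |φ - y| ≤ (1/2) * |φ - y| := by
    refine h6.trans ?_
    have e : (4 * T.ε * (T.ε * |φ - y|) + T.ε * |φ - y|) * T.m =
        ((4 * T.ε * T.ε + T.ε) * T.m) * |φ - y| := by ring
    rw [e]
    apply mul_le_mul_of_nonneg_right _ h7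
    have q1 : 4 * T.ε * T.ε + T.ε ≤ 1/1000 := by nlinarith
    calc (4 * T.ε * T.ε + T.ε) * T.m ≤ (1/1000) * 1 :=
          mul_le_mul q1 (by linarith) hm.le (by norm_num)
      _ ≤ 1/2 := by norm_num
  have h9 : |φ - y| = 0 := by linarith
  linarith [abs_eq_zero.1 h9]

end Leaf

namespace Pert
variable {S : ShearData} (P : Pert S)

/-- the union of the two boxes, in the torus -/
def boxes : Set Torus := {z | ∃ i x y, P.T.Box i x y ∧ z = cov (S.s * x, S.s * y)}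

/-- the points whose whole orbit stays in the boxes -/
def Lam (g : Equiv.Perm Torus) : Set Torus := {z | ∀ n : ℤ, (g ^ n) z ∈ P.boxes}

theorem isCompact_boxes : IsCompact P.boxes := by
  have h : P.boxes = ⋃ i : Bool, (fun p : ℝ × ℝ => cov (S.s * p.1, S.s * p.2)) ''
      (Icc (-(1/1000)) (1 + 1/1000) ×ˢ Icc (P.T.dd i - 1/1000) (P.T.dd i + P.T.m + 1/1000)) := by
    ext z
    simp only [boxes, mem_iUnion, mem_image, Set.mem_ofPred_eq]
    constructor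
    · rintro ⟨i, x, y, ⟨h1, h2, h3, h4⟩, rfl⟩
      exact ⟨i, (x, y), ⟨⟨h1, h2⟩, ⟨h3, h4⟩⟩, rfl⟩
    · rintro ⟨i, ⟨x, y⟩, ⟨⟨h1, h2⟩, ⟨h3, h4⟩⟩, rfl⟩
      exact ⟨i, x, y, ⟨h1, h2, h3, h4⟩, rfl⟩
  rw [h]
  refine isCompact_iUnion fun i => (isCompact_Icc.prod isCompact_Icc).image ?_
  exact continuous_cov.comp (by fun_prop)

theorem isCompact_Lam {g : Equiv.Perm Torus} (hg : IsLift 1 P.G g) (hg' : IsLift 1 P.Gi g.symm) :
    IsCompact (P.Lam g) := by
  have h : P.Lam g = ⋂ n : ℤ, (g ^ n : Equiv.Perm Torus) ⁻¹' P.boxes := by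
    ext z
    simp [Lam]
  rw [h]
  refine (isClosed_iInter fun n => ?_).isCompact
  exact P.isCompact_boxes.isClosed.preimage
    (zpow_continuous (perm_continuous hg) (perm_continuous hg') n)

theorem image_Lam {g : Equiv.Perm Torus} (_hg : IsLift 1 P.G g) (_hg' : IsLift 1 P.Gi g.symm) :
    g '' (P.Lam g) = P.Lam g := by
  ext z
  constructor
  · rintro ⟨w, hw, rfl⟩ n
    have := hw (n + 1)
    rwa [zpow_add_one, Equiv.Perm.mul_apply] at this
  · intro hz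
    refine ⟨g.symm z, fun n => ?_, by simp⟩
    have := hz (n - 1)
    rwa [zpow_sub_one, Equiv.Perm.mul_apply] at this

theorem eq_of_cov_eq {x y x' y' : ℝ} (hx : |x| ≤ 2) (hy : |y| ≤ 2) (hx' : |x'| ≤ 2)
    (hy' : |y'| ≤ 2) (h : cov (S.s * x, S.s * y) = cov (S.s * x', S.s * y')) :
    x = x' ∧ y = y' := by
  have hs := S.hs
  have hs1 := S.hs1
  obtain ⟨m, n, e⟩ := cov_eq_iff.mp h
  have e1 : S.s * x' = S.s * x + m := congrArg Prod.fst e
  have e2 : S.s * y' = S.s * y + n := congrArg Prod.snd e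
  have key : ∀ t t' : ℝ, ∀ k : ℤ, |t| ≤ 2 → |t'| ≤ 2 → S.s * t' = S.s * t + k → t = t' := by
    intro t t' k ht ht' he
    have h1 : |S.s * t| ≤ 1/4 := by
      rw [abs_mul, abs_of_pos hs]
      nlinarith [abs_nonneg t]
    have h2 : |S.s * t'| ≤ 1/4 := by
      rw [abs_mul, abs_of_pos hs]
      nlinarith [abs_nonneg t']
    rw [abs_le] at h1 h2
    have h3 : (k : ℝ) < 1 := by linarith [h1.1, h2.2]
    have h4 : (-1 : ℝ) < k := by linarith [h1.2, h2.1]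
    have h5 : k < 1 := by exact_mod_cast h3
    have h6 : -1 < k := by exact_mod_cast h4
    have h7 : k = 0 := by omega
    rw [h7, Int.cast_zero, add_zero] at he
    exact (mul_left_cancel₀ hs.ne' he).symm
  exact ⟨key x x' m hx hx' e1, key y y' n hy hy' e2⟩

/-- one step forward in the boxes -/
theorem G_step {i : Bool} {x y : ℝ} (h : P.T.Box i x y) :
    P.G (S.s * x, S.s * y) = (S.s * P.T.nx i x y, S.s * P.T.ny i x y) := P.G_box i h.big

theorem bigbox' {i : Bool} {x y : ℝ} (hx0 : -(1/1000) ≤ x) (hx1 : x ≤ 1 + 1/1000)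
    (hy0 : -(1/1000) ≤ P.T.ny i x y) (hy1 : P.T.ny i x y ≤ 1 + 1/1000) :
    P.T'.BigBox i (P.T.ny i x y) (P.T.nx i x y) := by
  have hu := abs_le.1 (P.hu.bound x y)
  have hl := S.lam_bounds
  have hε := P.hε1
  refine ⟨by linarith, by linarith, ?_, ?_⟩
  · rw [T'_dd]
    unfold Leaf.nx
    rw [T_cc, T_l]
    have : P.T.u x y = P.u x y := rfl
    rw [this]
    nlinarith [hu.1]
  · rw [T'_dd, T'_m]
    unfold Leaf.nx
    rw [T_cc, T_l]
    have : P.T.u x y = P.u x y := rfl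
    rw [this]
    nlinarith [hu.2]

theorem bigbox {i : Bool} {x y : ℝ} (hy0 : -(1/1000) ≤ y) (hy1 : y ≤ 1 + 1/1000)
    (hx0 : -(1/1000) ≤ P.T'.ny i y x) (hx1 : P.T'.ny i y x ≤ 1 + 1/1000) :
    P.T.BigBox i (P.T'.ny i y x) (P.T'.nx i y x) := by
  have hu := abs_le.1 (P.hq.bound x y)
  have hl := S.nu_bounds
  have hε := P.hε1
  refine ⟨by linarith, by linarith, ?_, ?_⟩
  · rw [T_dd]
    unfold Leaf.nx
    rw [T'_cc, T'_l]
    have : P.T'.u y x = P.q x y := rfl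
    rw [this]
    nlinarith [hu.1]
  · rw [T_dd, T_m]
    unfold Leaf.nx
    rw [T'_cc, T'_l]
    have : P.T'.u y x = P.q x y := rfl
    rw [this]
    nlinarith [hu.2]

/-- backward step after a forward step -/
theorem back_of_fwd {i : Bool} {x y : ℝ} (h : P.T.Box i x y)
    (hy0 : -(1/1000) ≤ P.T.ny i x y) (hy1 : P.T.ny i x y ≤ 1 + 1/1000) :
    x = P.T'.ny i (P.T.ny i x y) (P.T.nx i x y) ∧ y = P.T'.nx i (P.T.ny i x y) (P.T.nx i x y) := by
  have h1 := P.G_step h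
  have h2 := P.Gi_box i (P.bigbox' h.1 h.2.1 hy0 hy1)
  rw [← h1, P.Gi_G] at h2
  have hs := S.hs
  constructor
  · exact mul_left_cancel₀ hs.ne' (congrArg Prod.fst h2)
  · exact mul_left_cancel₀ hs.ne' (congrArg Prod.snd h2)

theorem exists_code {g : Equiv.Perm Torus} (hg : IsLift 1 P.G g) (_hg' : IsLift 1 P.Gi g.symm)
    {z : Torus} (hz : z ∈ P.Lam g) : ∃ (a ω : ℕ → Bool) (x y : ℝ),
      -(1/1000) ≤ x ∧ x ≤ 1 + 1/1000 ∧ -(1/1000) ≤ y ∧ y ≤ 1 + 1/1000 ∧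
      x = P.T'.Φ a y ∧ y = P.T.Φ ω x ∧ z = cov (S.s * x, S.s * y) := by
  choose i x y hbox hcov using hz
  have hb : ∀ n, |x n| ≤ 2 ∧ |y n| ≤ 2 := by
    intro n
    obtain ⟨h1, h2, h3, h4⟩ := (hbox n).bounds
    exact ⟨abs_le.2 ⟨by linarith, by linarith⟩, abs_le.2 ⟨by linarith, by linarith⟩⟩
  have hstep : ∀ n : ℤ, P.T.nx (i n) (x n) (y n) = x (n + 1) ∧
      P.T.ny (i n) (x n) (y n) = y (n + 1) := by
    intro n
    have h1 := hcov (n + 1)
    rw [add_comm n 1, zpow_add, zpow_one, Equiv.Perm.mul_apply, hcov n, ← hg.2,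
      P.G_step (hbox n)] at h1
    have h2 := P.T.nx_mem (i n) (y n) (hbox n).1 (hbox n).2.1
    have h3 := P.T.ny_box (hbox n)
    rw [add_comm n 1]
    exact eq_of_cov_eq (abs_le.2 ⟨by linarith [h2.1], by linarith [h2.2]⟩)
      (abs_le.2 ⟨by linarith [h3.1], by linarith [h3.2]⟩) (hb _).1 (hb _).2 h1
  obtain ⟨h1, h2, h3, h4⟩ := (hbox 0).bounds
  refine ⟨fun k => i (-(k : ℤ) - 1), fun k => i k, x 0, y 0, h1, h2, h3, h4, ?_, ?_, ?_⟩
  · -- backward
    refine P.T'.Φ_unique 2 (fun k => i (-(k : ℤ) - 1)) (fun k => y (-(k : ℤ)))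
      (fun k => x (-(k : ℤ))) (fun k => (hb _).1) (fun k => ?_) (fun k => ?_)
    · have hs := hstep (-(k : ℤ) - 1)
      rw [sub_add_cancel] at hs
      have hbd := (hbox (-(k : ℤ))).bounds
      have hbk := P.back_of_fwd (hbox (-(k : ℤ) - 1)) (by rw [hs.2]; exact hbd.2.2.1)
        (by rw [hs.2]; exact hbd.2.2.2)
      rw [hs.1, hs.2] at hbk
      have e : (-((k + 1 : ℕ) : ℤ)) = -(k : ℤ) - 1 := by push_cast; ring
      show y (-((k + 1 : ℕ) : ℤ)) = _
      rw [e]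
      exact hbk.2
    · have hs := hstep (-(k : ℤ) - 1)
      rw [sub_add_cancel] at hs
      have hbd := (hbox (-(k : ℤ))).bounds
      have hbk := P.back_of_fwd (hbox (-(k : ℤ) - 1)) (by rw [hs.2]; exact hbd.2.2.1)
        (by rw [hs.2]; exact hbd.2.2.2)
      rw [hs.1, hs.2] at hbk
      have e : (-((k + 1 : ℕ) : ℤ)) = -(k : ℤ) - 1 := by push_cast; ring
      show x (-((k + 1 : ℕ) : ℤ)) = _
      rw [e]
      exact hbk.1
  · refine P.T.Φ_unique 2 (fun k => i k) (fun k => x k) (fun k => y k) (fun k => (hb _).2)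
      (fun k => ?_) (fun k => ?_)
    · have hs := hstep (k : ℤ)
      show x ((k + 1 : ℕ) : ℤ) = _
      push_cast
      exact hs.1.symm
    · have hs := hstep (k : ℤ)
      show y ((k + 1 : ℕ) : ℤ) = _
      push_cast
      exact hs.2.symm
  · have := hcov 0
    simpa using this

/-! ### All codes are realised -/

/-- the point with coordinates `(x, y)` is the intersection of the leaves `a`, `ω` -/
def IsPt (a ω : ℕ → Bool) (x y : ℝ) : Prop := x = P.T'.Φ a y ∧ y = P.T.Φ ω x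

theorem IsPt.bounds {a ω : ℕ → Bool} {x y : ℝ} (h : P.IsPt a ω x y) :
    -(1/1000) ≤ x ∧ x ≤ 1 + 1/1000 ∧ -(1/1000) ≤ y ∧ y ≤ 1 + 1/1000 := by
  obtain ⟨h1, h2⟩ := h
  have e1 := P.T'.Φ_mem a y
  have e2 := P.T.Φ_mem ω x
  rw [← h1] at e1
  rw [← h2] at e2
  have hε := P.hε1
  simp only [T_ε, T'_ε] at e1 e2
  refine ⟨?_, ?_, ?_, ?_⟩ <;> linarith [e1.1, e1.2, e2.1, e2.2]

theorem IsPt.box {a ω : ℕ → Bool} {x y : ℝ} (h : P.IsPt a ω x y) : P.T.Box (ω 0) x y := by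
  obtain ⟨b1, b2, _, _⟩ := h.bounds
  have := P.T.box_leaf ω b1 b2
  rwa [← h.2] at this

theorem IsPt.box' {a ω : ℕ → Bool} {x y : ℝ} (h : P.IsPt a ω x y) : P.T'.Box (a 0) y x := by
  obtain ⟨_, _, b3, b4⟩ := h.bounds
  have := P.T'.box_leaf a b3 b4
  rwa [← h.1] at this

theorem IsPt.fwd {a ω : ℕ → Bool} {x y : ℝ} (h : P.IsPt a ω x y) :
    P.G (S.s * x, S.s * y) = (S.s * P.T.nx (ω 0) x y, S.s * P.T.ny (ω 0) x y) ∧
    P.IsPt (cons (ω 0) a) (tail ω) (P.T.nx (ω 0) x y) (P.T.ny (ω 0) x y) := by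
  refine ⟨P.G_step h.box, ?_⟩
  have hy : P.T.ny (ω 0) x y = P.T.Φ (tail ω) (P.T.nx (ω 0) x y) := by
    have := P.T.ny_leaf ω x
    rwa [← h.2] at this
  have hb := P.T.Φ_mem (tail ω) (P.T.nx (ω 0) x y)
  rw [← hy] at hb
  have hε := P.hε1
  simp only [T_ε] at hb
  obtain ⟨r1, r2⟩ := P.back_of_fwd h.box (by linarith [hb.1]) (by linarith [hb.2])
  refine ⟨?_, hy⟩
  apply P.T'.prepend
  rw [← r1, ← r2]
  exact h.1

theorem IsPt.bwd {a ω : ℕ → Bool} {x y : ℝ} (h : P.IsPt a ω x y) :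
    P.Gi (S.s * x, S.s * y) = (S.s * P.T'.ny (a 0) y x, S.s * P.T'.nx (a 0) y x) ∧
    P.IsPt (tail a) (cons (a 0) ω) (P.T'.ny (a 0) y x) (P.T'.nx (a 0) y x) := by
  have h1 := P.Gi_box (a 0) h.box'.big
  refine ⟨h1, ?_⟩
  have hx : P.T'.ny (a 0) y x = P.T'.Φ (tail a) (P.T'.nx (a 0) y x) := by
    have := P.T'.ny_leaf a y
    rwa [← h.1] at this
  have hb := P.T'.Φ_mem (tail a) (P.T'.nx (a 0) y x)
  rw [← hx] at hb
  have hε := P.hε1
  simp only [T'_ε] at hb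
  obtain ⟨_, _, b3, b4⟩ := h.bounds
  have h2 := P.G_box (a 0) (P.bigbox (i := a 0) (x := x) (y := y) b3 b4 (by linarith [hb.1])
    (by linarith [hb.2]))
  rw [← h1, P.G_Gi] at h2
  have hs := S.hs
  have r1 : x = P.T.nx (a 0) (P.T'.ny (a 0) y x) (P.T'.nx (a 0) y x) :=
    mul_left_cancel₀ hs.ne' (congrArg Prod.fst h2)
  have r2 : y = P.T.ny (a 0) (P.T'.ny (a 0) y x) (P.T'.nx (a 0) y x) :=
    mul_left_cancel₀ hs.ne' (congrArg Prod.snd h2)
  refine ⟨hx, ?_⟩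
  apply P.T.prepend
  rw [← r1, ← r2]
  exact h.2

theorem exists_isPt (a ω : ℕ → Bool) : ∃ x y, P.IsPt a ω x y := by
  have hε0 := P.hε0
  have hε1 := P.hε1
  set f : ℝ → ℝ := fun x => P.T'.Φ a (P.T.Φ ω x) with hf
  have hlip : LipschitzWith (1/2 : NNReal) f := by
    refine LipschitzWith.of_dist_le_mul fun x x' => ?_
    rw [Real.dist_eq, Real.dist_eq, hf]
    have h1 := P.T'.Φ_lip a (P.T.Φ ω x') (P.T.Φ ω x)
    have h2 := P.T.Φ_lip ω x' x
    simp only [T_ε, T'_ε] at h1 h2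
    have h3 : 4 * P.ε * |P.T.Φ ω x - P.T.Φ ω x'| ≤ 4 * P.ε * (4 * P.ε * |x - x'|) :=
      mul_le_mul_of_nonneg_left h2 (by positivity)
    have h4 : 4 * P.ε * (4 * P.ε * |x - x'|) ≤ (1/2) * |x - x'| := by
      have e : 4 * P.ε * (4 * P.ε * |x - x'|) = (4 * P.ε * (4 * P.ε)) * |x - x'| := by ring
      rw [e]
      apply mul_le_mul_of_nonneg_right _ (abs_nonneg _)
      nlinarith
    have e : ((1/2 : NNReal) : ℝ) = 1/2 := by norm_num
    rw [e]
    exact h1.trans (h3.trans h4)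
  have hc : ContractingWith (1/2 : NNReal) f := ⟨by
    rw [← NNReal.coe_lt_coe]; norm_num, hlip⟩
  have hfix := hc.fixedPoint_isFixedPt
  refine ⟨hc.fixedPoint f, P.T.Φ ω (hc.fixedPoint f), ?_, rfl⟩
  exact hfix.symm

theorem isPt_mem_Lam {g : Equiv.Perm Torus} (hg : IsLift 1 P.G g) (hg' : IsLift 1 P.Gi g.symm)
    {a ω : ℕ → Bool} {x y : ℝ} (h : P.IsPt a ω x y) : cov (S.s * x, S.s * y) ∈ P.Lam g := by
  have key : ∀ n : ℤ, ∃ a' ω' x' y', P.IsPt a' ω' x' y' ∧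
      (g ^ n) (cov (S.s * x, S.s * y)) = cov (S.s * x', S.s * y') := by
    intro n
    induction n using Int.induction_on with
    | zero => exact ⟨a, ω, x, y, h, rfl⟩
    | succ n ih =>
      obtain ⟨a', ω', x', y', h1, h2⟩ := ih
      obtain ⟨h3, h4⟩ := h1.fwd
      refine ⟨_, _, _, _, h4, ?_⟩
      rw [add_comm, zpow_add, zpow_one, Equiv.Perm.mul_apply, h2, ← hg.2, h3]
    | pred n ih =>
      obtain ⟨a', ω', x', y', h1, h2⟩ := ih
      obtain ⟨h3, h4⟩ := h1.bwd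
      refine ⟨_, _, _, _, h4, ?_⟩
      rw [sub_eq_neg_add, zpow_add, zpow_neg_one, Equiv.Perm.mul_apply, h2]
      show g.symm _ = _
      rw [← hg'.2, h3]
  intro n
  obtain ⟨a', ω', x', y', h1, h2⟩ := key n
  exact ⟨ω' 0, x', y', h1.box, h2⟩

theorem exists_point {g : Equiv.Perm Torus} (hg : IsLift 1 P.G g) (hg' : IsLift 1 P.Gi g.symm)
    (a ω : ℕ → Bool) : ∃ (x y : ℝ),
      -(1/1000) ≤ x ∧ x ≤ 1 + 1/1000 ∧ -(1/1000) ≤ y ∧ y ≤ 1 + 1/1000 ∧
      x = P.T'.Φ a y ∧ y = P.T.Φ ω x ∧ cov (S.s * x, S.s * y) ∈ P.Lam g := by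
  obtain ⟨x, y, h⟩ := P.exists_isPt a ω
  obtain ⟨b1, b2, b3, b4⟩ := h.bounds
  exact ⟨x, y, b1, b2, b3, b4, h.1, h.2, P.isPt_mem_Lam hg hg' h⟩

end Pert

end Pool.Agent.Work.MP_f9d495_an
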