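import Pool.Agent.Work.MP_f9d495_an.Words
import Pool.Agent.Work.MP_f9d495_an.C11

/-!
# Stable leaves of a perturbed affine horseshoe: existence

`A_i (x,y) = (cc i + l x + u x y, (y - dd i)/m + v x y)`, `i ∈ {0,1}`.
-/

open Filter Topology

namespace Pool.Agent.Work.MP_f9d495_an

structure Leaf where
  (l m ε : ℝ)
  (u ux uy v vx vy : ℝ → ℝ → ℝ)
  hl0 : 43/100 ≤ l
  hl1 : l ≤ 46/100
  hm0 : 43/100 ≤ m
  hm1 : m ≤ 46/100
  hε0 : 0 < ε
  hε1 : ε ≤ 1/100000
  hu : C11 ε u ux uy
  hv : C11 ε v vx vy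

namespace Leaf

variable (T : Leaf)

/-- offset of branch `i` in the contracting coordinate -/
noncomputable def cc (i : Bool) : ℝ := if i then 1 - T.l else 0
/-- offset of branch `i` in the expanding coordinate -/
noncomputable def dd (i : Bool) : ℝ := if i then 1 - T.m else 0

theorem cc_nonneg (i : Bool) : 0 ≤ T.cc i := by
  unfold cc; split_ifs <;> linarith [T.hl1]
theorem cc_le (i : Bool) : T.cc i ≤ 1 - T.l := by
  unfold cc; split_ifs <;> linarith [T.hl1]
theorem dd_nonneg (i : Bool) : 0 ≤ T.dd i := by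
  unfold dd; split_ifs <;> linarith [T.hm1]
theorem dd_le (i : Bool) : T.dd i ≤ 1 - T.m := by
  unfold dd; split_ifs <;> linarith [T.hm1]

/-- abscissa of the image under branch `i` -/
noncomputable def nx (i : Bool) (x y : ℝ) : ℝ := T.cc i + T.l * x + T.u x y

theorem nx_sub_le (i : Bool) (x x' y y' : ℝ) :
    |T.nx i x' y' - T.nx i x y| ≤ (T.l + T.ε) * |x' - x| + T.ε * |y' - y| := by
  have h := T.hu.lip x y x' y'
  have : T.nx i x' y' - T.nx i x y = T.l * (x' - x) + (T.u x' y' - T.u x y) := by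
    unfold nx; ring
  rw [this]
  have h2 : |T.l * (x' - x)| = T.l * |x' - x| := by
    rw [abs_mul, abs_of_nonneg (by linarith [T.hl0])]
  calc _ ≤ |T.l * (x' - x)| + |T.u x' y' - T.u x y| := abs_add_le _ _
    _ ≤ _ := by rw [h2]; linarith

/-- the graph transform -/
noncomputable def gt (φ : (ℕ → Bool) → ℝ → ℝ) (ω : ℕ → Bool) (x : ℝ) : ℝ :=
  T.dd (ω 0) + T.m * (φ (tail ω) (T.nx (ω 0) x (φ ω x)) - T.v x (φ ω x))

/-- approximations of the leaf functions -/
noncomputable def app' : ℕ → (ℕ → Bool) → ℝ → ℝ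
  | 0 => fun _ _ => 0
  | n + 1 => T.gt (app' n)

theorem app'_mem (n : ℕ) : ∀ ω x, -(2 * T.ε) ≤ T.app' n ω x ∧ T.app' n ω x ≤ 1 + 2 * T.ε := by
  induction n with
  | zero =>
    intro ω x
    have := T.hε0
    simp only [app']
    constructor <;> linarith
  | succ n ih =>
    intro ω x
    simp only [app', gt]
    set X := T.nx (ω 0) x (T.app' n ω x)
    have h1 := ih (tail ω) X
    have h2 := abs_le.1 (T.hv.bound x (T.app' n ω x))
    have h3 := T.dd_nonneg (ω 0)
    have h4 := T.dd_le (ω 0)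
    have hm0 := T.hm0
    have hm1 := T.hm1
    have hε := T.hε0
    constructor
    · have : T.m * (-(3 * T.ε)) ≤ T.m * (T.app' n (tail ω) X - T.v x (T.app' n ω x)) :=
        mul_le_mul_of_nonneg_left (by linarith [h1.1, h2.2]) (by linarith)
      nlinarith
    · have : T.m * (T.app' n (tail ω) X - T.v x (T.app' n ω x)) ≤ T.m * (1 + 3 * T.ε) :=
        mul_le_mul_of_nonneg_left (by linarith [h1.2, h2.1]) (by linarith)
      nlinarith

theorem app'_lip (n : ℕ) : ∀ ω x x', |T.app' n ω x' - T.app' n ω x| ≤ 4 * T.ε * |x' - x| := by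
  induction n with
  | zero =>
    intro ω x x'
    have := T.hε0
    simp only [app', sub_self, abs_zero]
    positivity
  | succ n ih =>
    intro ω x x'
    simp only [app', gt]
    set y := T.app' n ω x
    set y' := T.app' n ω x'
    set X := T.nx (ω 0) x y
    set X' := T.nx (ω 0) x' y'
    have hm0 := T.hm0
    have hm1 := T.hm1
    have hl0 := T.hl0
    have hl1 := T.hl1
    have hε := T.hε0
    have hε1 := T.hε1
    have h1 := ih (tail ω) X X'
    have h2 : |X' - X| ≤ _ := T.nx_sub_le (ω 0) x x' y y'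
    have h3 : |y' - y| ≤ 4 * T.ε * |x' - x| := ih ω x x'
    have h4 := T.hv.lip x y x' y'
    have ha : 0 ≤ |x' - x| := abs_nonneg _
    have hX : |X' - X| ≤ (1/2) * |x' - x| := by
      have e1 : T.ε * |y' - y| ≤ T.ε * (4 * T.ε * |x' - x|) := mul_le_mul_of_nonneg_left h3 hε.le
      have e2 : (T.l + T.ε) * |x' - x| ≤ (47/100) * |x' - x| :=
        mul_le_mul_of_nonneg_right (by linarith) ha
      have e3 : T.ε * (4 * T.ε * |x' - x|) ≤ (1/100) * |x' - x| := by
        have : T.ε * (4 * T.ε * |x' - x|) = (T.ε * (4 * T.ε)) * |x' - x| := by ring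
        rw [this]
        exact mul_le_mul_of_nonneg_right (by nlinarith) ha
      linarith
    have hy : |y' - y| ≤ |x' - x| := by nlinarith
    have hv' : |T.v x' y' - T.v x y| ≤ 2 * T.ε * |x' - x| := by nlinarith
    have hΦ : |T.app' n (tail ω) X' - T.app' n (tail ω) X| ≤ 2 * T.ε * |x' - x| := by
      nlinarith
    have e : T.dd (ω 0) + T.m * (T.app' n (tail ω) X' - T.v x' y') -
        (T.dd (ω 0) + T.m * (T.app' n (tail ω) X - T.v x y)) =
        T.m * ((T.app' n (tail ω) X' - T.app' n (tail ω) X) - (T.v x' y' - T.v x y)) := by ring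
    rw [e, abs_mul, abs_of_nonneg (by linarith : 0 ≤ T.m)]
    have h5 : |(T.app' n (tail ω) X' - T.app' n (tail ω) X) - (T.v x' y' - T.v x y)| ≤
        4 * T.ε * |x' - x| := by
      calc _ ≤ |T.app' n (tail ω) X' - T.app' n (tail ω) X| + |T.v x' y' - T.v x y| := abs_sub _ _
        _ ≤ _ := by linarith
    calc T.m * _ ≤ 1 * (4 * T.ε * |x' - x|) :=
          mul_le_mul (by linarith) h5 (abs_nonneg _) zero_le_one
      _ = _ := by ring

theorem app'_cauchy (n : ℕ) : ∀ ω x, |T.app' (n + 1) ω x - T.app' n ω x| ≤ 2 * (1/2) ^ n := by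
  induction n with
  | zero =>
    intro ω x
    have h := T.app'_mem 1 ω x
    have := T.hε1
    have := T.hε0
    simp only [app', sub_zero, pow_zero, mul_one]
    rw [abs_le]
    simp only [app'] at h
    constructor <;> linarith [h.1, h.2]
  | succ n ih =>
    intro ω x
    change |T.gt (T.app' (n + 1)) ω x - T.gt (T.app' n) ω x| ≤ _
    simp only [gt]
    set y := T.app' n ω x
    set y' := T.app' (n + 1) ω x
    set X := T.nx (ω 0) x y
    set X' := T.nx (ω 0) x y'
    have hm0 := T.hm0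
    have hm1 := T.hm1
    have hε := T.hε0
    have hε1 := T.hε1
    set d : ℝ := 2 * (1/2) ^ n with hd
    have hd0 : 0 < d := by positivity
    have h1 : |y' - y| ≤ d := ih ω x
    have h2 : |X' - X| ≤ T.ε * d := by
      have := T.nx_sub_le (ω 0) x x y y'
      simp only [sub_self, abs_zero, mul_zero, zero_add] at this
      calc |X' - X| ≤ _ := this
        _ ≤ _ := mul_le_mul_of_nonneg_left h1 hε.le
    have h3 : |T.app' (n + 1) (tail ω) X' - T.app' n (tail ω) X'| ≤ d := ih _ _
    have h4 := T.app'_lip n (tail ω) X X'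
    have h5 : |T.v x y' - T.v x y| ≤ T.ε * d := by
      have := T.hv.lip x y x y'
      simp only [sub_self, abs_zero, zero_add] at this
      exact this.trans (mul_le_mul_of_nonneg_left h1 hε.le)
    have e : T.dd (ω 0) + T.m * (T.app' (n + 1) (tail ω) X' - T.v x y') -
        (T.dd (ω 0) + T.m * (T.app' n (tail ω) X - T.v x y)) =
        T.m * ((T.app' (n + 1) (tail ω) X' - T.app' n (tail ω) X') +
          ((T.app' n (tail ω) X' - T.app' n (tail ω) X) - (T.v x y' - T.v x y))) := by ring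
    rw [e, abs_mul, abs_of_nonneg (by linarith : 0 ≤ T.m)]
    have h6 : |(T.app' (n + 1) (tail ω) X' - T.app' n (tail ω) X') +
          ((T.app' n (tail ω) X' - T.app' n (tail ω) X) - (T.v x y' - T.v x y))| ≤
          d + (4 * T.ε * (T.ε * d) + T.ε * d) := by
      refine (abs_add_le _ _).trans (add_le_add h3 ?_)
      refine (abs_sub _ _).trans (add_le_add ?_ h5)
      refine h4.trans (mul_le_mul_of_nonneg_left h2 (by positivity))
    have h7 : d + (4 * T.ε * (T.ε * d) + T.ε * d) ≤ (1 + 1/100) * d := by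
      have : 4 * T.ε * T.ε ≤ 1/1000 := by nlinarith
      nlinarith
    calc T.m * _ ≤ (46/100) * ((1 + 1/100) * d) :=
          mul_le_mul hm1 (h6.trans h7) (abs_nonneg _) (by norm_num)
      _ ≤ 2 * (1/2) ^ (n + 1) := by rw [hd, pow_succ]; nlinarith [hd0]

/-- The leaf functions: `{(x, Φ ω x)}` is the stable leaf with forward itinerary `ω`. -/
noncomputable def Φ (ω : ℕ → Bool) (x : ℝ) : ℝ := limUnder atTop (fun n => T.app' n ω x)

theorem tendsto_app' (ω : ℕ → Bool) (x : ℝ) :
    Tendsto (fun n => T.app' n ω x) atTop (𝓝 (T.Φ ω x)) := by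
  have : CauchySeq (fun n => T.app' n ω x) := by
    refine cauchySeq_of_le_geometric (1/2) 2 (by norm_num) (fun n => ?_)
    rw [dist_comm, Real.dist_eq]
    exact T.app'_cauchy n ω x
  exact this.tendsto_limUnder

theorem Φ_mem (ω : ℕ → Bool) (x : ℝ) : -(2 * T.ε) ≤ T.Φ ω x ∧ T.Φ ω x ≤ 1 + 2 * T.ε :=
  ⟨ge_of_tendsto' (T.tendsto_app' ω x) (fun n => (T.app'_mem n ω x).1),
    le_of_tendsto' (T.tendsto_app' ω x) (fun n => (T.app'_mem n ω x).2)⟩

theorem Φ_lip (ω : ℕ → Bool) (x x' : ℝ) : |T.Φ ω x' - T.Φ ω x| ≤ 4 * T.ε * |x' - x| :=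
  le_of_tendsto' ((T.tendsto_app' ω x').sub (T.tendsto_app' ω x)).abs
    (fun n => T.app'_lip n ω x x')

/-- Invariance of the leaves. -/
theorem Φ_eq (ω : ℕ → Bool) (x : ℝ) :
    T.Φ ω x = T.dd (ω 0) + T.m * (T.Φ (tail ω) (T.nx (ω 0) x (T.Φ ω x)) - T.v x (T.Φ ω x)) := by
  have h1 := T.tendsto_app' ω x
  have h2 : Tendsto (fun n => T.app' (n + 1) ω x) atTop (𝓝 (T.Φ ω x)) :=
    h1.comp (tendsto_add_atTop_nat 1)
  refine tendsto_nhds_unique h2 ?_
  change Tendsto (fun n => T.dd (ω 0) + T.m * (T.app' n (tail ω) (T.nx (ω 0) x (T.app' n ω x)) -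
    T.v x (T.app' n ω x))) atTop _
  refine tendsto_const_nhds.add (tendsto_const_nhds.mul (Tendsto.sub ?_ ?_))
  · have h3 := T.tendsto_app' (tail ω) (T.nx (ω 0) x (T.Φ ω x))
    have h4 : Tendsto (fun n => T.app' n (tail ω) (T.nx (ω 0) x (T.app' n ω x)) -
        T.app' n (tail ω) (T.nx (ω 0) x (T.Φ ω x))) atTop (𝓝 0) := by
      have h5 : Tendsto (fun n => 4 * T.ε * (T.ε * |T.app' n ω x - T.Φ ω x|)) atTop (𝓝 0) := by
        have := (h1.sub (tendsto_const_nhds (x := T.Φ ω x))).abs
        simp only [sub_self, abs_zero] at this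
        have := (this.const_mul T.ε).const_mul (4 * T.ε)
        simpa using this
      refine squeeze_zero_norm (fun n => ?_) h5
      rw [Real.norm_eq_abs]
      refine (T.app'_lip n (tail ω) _ _).trans (mul_le_mul_of_nonneg_left ?_ (by linarith [T.hε0]))
      have := T.nx_sub_le (ω 0) x x (T.Φ ω x) (T.app' n ω x)
      simpa using this
    have := h4.add h3
    simpa using this
  · have h5 : Tendsto (fun n => T.ε * |T.app' n ω x - T.Φ ω x|) atTop (𝓝 0) := by
      have := (h1.sub (tendsto_const_nhds (x := T.Φ ω x))).abs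
      simp only [sub_self, abs_zero] at this
      have := this.const_mul T.ε
      simpa using this
    have h6 : Tendsto (fun n => T.v x (T.app' n ω x) - T.v x (T.Φ ω x)) atTop (𝓝 0) := by
      refine squeeze_zero_norm (fun n => ?_) h5
      rw [Real.norm_eq_abs]
      have := T.hv.lip x (T.Φ ω x) x (T.app' n ω x)
      simpa using this
    have := h6.add (tendsto_const_nhds (x := T.v x (T.Φ ω x)))
    simpa using this

/-- The image of a leaf is a leaf, expanding form. -/
theorem Φ_image (ω : ℕ → Bool) (x : ℝ) :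
    T.Φ (tail ω) (T.nx (ω 0) x (T.Φ ω x)) = (T.Φ ω x - T.dd (ω 0)) / T.m + T.v x (T.Φ ω x) := by
  have h := T.Φ_eq ω x
  have hm : T.m ≠ 0 := by linarith [T.hm0] |> ne_of_gt
  field_simp
  linarith

end Leaf

end Pool.Agent.Work.MP_f9d495_an
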