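import Pool.Agent.Work.MP_f9d495_an.Leaf1

/-!
# Uniqueness and differentiability of the leaves
-/

open Filter Topology

namespace Pool.Agent.Work.MP_f9d495_an

namespace Leaf

variable (T : Leaf)

/-- Bounded forward orbits lie on leaves. -/
theorem Φ_unique_aux (M : ℝ) (n : ℕ) : ∀ (ω : ℕ → Bool) (x y : ℕ → ℝ), (∀ k, |y k| ≤ M) →
    (∀ k, x (k + 1) = T.nx (ω k) (x k) (y k)) →
    (∀ k, y (k + 1) = (y k - T.dd (ω k)) / T.m + T.v (x k) (y k)) →
    |y 0 - T.Φ ω (x 0)| ≤ (M + 2) * (1/2) ^ n := by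
  induction n with
  | zero =>
    intro ω x y hM _ _
    have h1 := T.Φ_mem ω (x 0)
    have h2 := abs_le.1 (hM 0)
    have hε1 := T.hε1
    have hε0 := T.hε0
    rw [pow_zero, mul_one, abs_le]
    constructor <;> linarith [h1.1, h1.2, h2.1, h2.2]
  | succ n ih =>
    intro ω x y hM hx hy
    have h1 := ih (tail ω) (fun k => x (k + 1)) (fun k => y (k + 1)) (fun k => hM _)
      (fun k => hx _) (fun k => hy _)
    simp only [zero_add] at h1
    have hm0 := T.hm0
    have hm1 := T.hm1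
    have hε := T.hε0
    have hε1 := T.hε1
    set Y := T.Φ ω (x 0)
    have e1 := T.Φ_eq ω (x 0)
    have e2 := hy 0
    have e3 := hx 0
    simp only [zero_add] at e2 e3
    have e2' : y 0 = T.dd (ω 0) + T.m * (y 1 - T.v (x 0) (y 0)) := by
      rw [e2]; field_simp; ring
    set X' := T.nx (ω 0) (x 0) Y
    have h2 := T.Φ_lip (tail ω) X' (x 1)
    have h3 : |x 1 - X'| ≤ T.ε * |y 0 - Y| := by
      rw [e3]
      have := T.nx_sub_le (ω 0) (x 0) (x 0) Y (y 0)
      simpa using this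
    have h4 : |T.v (x 0) (y 0) - T.v (x 0) Y| ≤ T.ε * |y 0 - Y| := by
      have := T.hv.lip (x 0) Y (x 0) (y 0)
      simpa using this
    have e : y 0 - Y = T.m * ((y 1 - T.Φ (tail ω) (x 1)) +
        ((T.Φ (tail ω) (x 1) - T.Φ (tail ω) X') - (T.v (x 0) (y 0) - T.v (x 0) Y))) := by
      have e1' : Y = T.dd (ω 0) + T.m * (T.Φ (tail ω) X' - T.v (x 0) Y) := e1
      calc y 0 - Y = (T.dd (ω 0) + T.m * (y 1 - T.v (x 0) (y 0))) -
            (T.dd (ω 0) + T.m * (T.Φ (tail ω) X' - T.v (x 0) Y)) := by rw [← e2', ← e1']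
        _ = _ := by ring
    have hd : 0 ≤ |y 0 - Y| := abs_nonneg _
    have h50 := congrArg abs e
    rw [abs_mul, abs_of_nonneg (by linarith : 0 ≤ T.m)] at h50
    have h5 : |y 0 - Y| ≤ T.m * ((M + 2) * (1/2) ^ n + (4 * T.ε * (T.ε * |y 0 - Y|) +
        T.ε * |y 0 - Y|)) := by
      refine h50.le.trans (mul_le_mul_of_nonneg_left ?_ (by linarith))
      refine (abs_add_le _ _).trans (add_le_add h1 ?_)
      refine (abs_sub _ _).trans (add_le_add ?_ h4)
      exact h2.trans (mul_le_mul_of_nonneg_left h3 (by positivity))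
    have hM0 : 0 ≤ (M + 2) * (1/2 : ℝ) ^ n := (abs_nonneg _).trans h1
    have h6 : T.m * (4 * T.ε * (T.ε * |y 0 - Y|) + T.ε * |y 0 - Y|) ≤ (1/100) * |y 0 - Y| := by
      have e6 : T.m * (4 * T.ε * (T.ε * |y 0 - Y|) + T.ε * |y 0 - Y|) =
        (T.m * (4 * T.ε * T.ε + T.ε)) * |y 0 - Y| := by ring
      rw [e6]
      refine mul_le_mul_of_nonneg_right ?_ hd
      have h61 : 4 * T.ε * T.ε + T.ε ≤ 1/100 := by nlinarith
      calc T.m * (4 * T.ε * T.ε + T.ε) ≤ 1 * (1/100) :=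
            mul_le_mul (by linarith) h61 (by positivity) zero_le_one
        _ = 1/100 := one_mul _
    have h7 : T.m * ((M + 2) * (1/2) ^ n) ≤ (46/100) * ((M + 2) * (1/2) ^ n) :=
      mul_le_mul_of_nonneg_right hm1 hM0
    rw [pow_succ]
    nlinarith

theorem Φ_unique (M : ℝ) (ω : ℕ → Bool) (x y : ℕ → ℝ) (hM : ∀ k, |y k| ≤ M)
    (hx : ∀ k, x (k + 1) = T.nx (ω k) (x k) (y k))
    (hy : ∀ k, y (k + 1) = (y k - T.dd (ω k)) / T.m + T.v (x k) (y k)) :
    y 0 = T.Φ ω (x 0) := by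
  have h := fun n => T.Φ_unique_aux M n ω x y hM hx hy
  have h2 : Tendsto (fun n : ℕ => (M + 2) * (1/2 : ℝ) ^ n) atTop (𝓝 0) := by
    have := (tendsto_pow_atTop_nhds_zero_of_lt_one (r := (1/2 : ℝ)) (by norm_num)
      (by norm_num)).const_mul (M + 2)
    simpa using this
  have h3 : |y 0 - T.Φ ω (x 0)| ≤ 0 := ge_of_tendsto' h2 h
  have h4 : |y 0 - T.Φ ω (x 0)| = 0 := le_antisymm h3 (abs_nonneg _)
  linarith [abs_eq_zero.1 h4]

/-! ### slopes -/

/-- slope transform: the slope at `(x,y)` whose image has slope `s`. -/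
noncomputable def R (x y s : ℝ) : ℝ :=
  T.m * (s * (T.l + T.ux x y) - T.vx x y) / (1 + T.m * (T.vy x y - s * T.uy x y))

theorem den_ge (x y s : ℝ) (hs : |s| ≤ 1) : 99/100 ≤ 1 + T.m * (T.vy x y - s * T.uy x y) := by
  have h1 := abs_le.1 (T.hv.by' x y)
  have h2 := T.hu.by' x y
  have h3 : |s * T.uy x y| ≤ T.ε := by
    rw [abs_mul]
    calc |s| * |T.uy x y| ≤ 1 * T.ε := mul_le_mul hs h2 (abs_nonneg _) zero_le_one
      _ = T.ε := one_mul _
  have h4 := abs_le.1 h3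
  have hm0 := T.hm0
  have hm1 := T.hm1
  have hε := T.hε0
  have hε1 := T.hε1
  nlinarith

theorem den_le (x y s : ℝ) (hs : |s| ≤ 1) : 1 + T.m * (T.vy x y - s * T.uy x y) ≤ 101/100 := by
  have h1 := abs_le.1 (T.hv.by' x y)
  have h2 := T.hu.by' x y
  have h3 : |s * T.uy x y| ≤ T.ε := by
    rw [abs_mul]
    calc |s| * |T.uy x y| ≤ 1 * T.ε := mul_le_mul hs h2 (abs_nonneg _) zero_le_one
      _ = T.ε := one_mul _
  have h4 := abs_le.1 h3
  have hm0 := T.hm0
  have hm1 := T.hm1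
  have hε := T.hε0
  have hε1 := T.hε1
  nlinarith

theorem R_bound (x y s : ℝ) (hs : |s| ≤ 2 * T.ε) : |T.R x y s| ≤ 2 * T.ε := by
  have hε := T.hε0
  have hε1 := T.hε1
  have hm0 := T.hm0
  have hm1 := T.hm1
  have hl0 := T.hl0
  have hl1 := T.hl1
  have hs1 : |s| ≤ 1 := hs.trans (by linarith)
  have hD := T.den_ge x y s hs1
  have hN : |T.m * (s * (T.l + T.ux x y) - T.vx x y)| ≤ T.ε := by
    rw [abs_mul, abs_of_nonneg (by linarith : 0 ≤ T.m)]
    have h1 : |s * (T.l + T.ux x y)| ≤ 2 * T.ε * (1/2) := by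
      rw [abs_mul]
      refine mul_le_mul hs ?_ (abs_nonneg _) (by linarith)
      have := abs_le.1 (T.hu.bx x y)
      rw [abs_le]; constructor <;> linarith [this.1, this.2]
    have h2 := T.hv.bx x y
    have h3 : |s * (T.l + T.ux x y) - T.vx x y| ≤ 2 * T.ε := by
      refine (abs_sub _ _).trans ?_
      linarith
    calc T.m * _ ≤ (1/2) * (2 * T.ε) := mul_le_mul (by linarith) h3 (abs_nonneg _) (by norm_num)
      _ = T.ε := by ring
  unfold R
  rw [abs_div, div_le_iff₀ (abs_pos.2 (by linarith))]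
  have : 99/100 ≤ |1 + T.m * (T.vy x y - s * T.uy x y)| := hD.trans (le_abs_self _)
  nlinarith

theorem ratio_diff {N D N' D' : ℝ} (hD : D ≠ 0) (hD' : D' ≠ 0) :
    N' / D' - N / D = ((N' - N) - (N / D) * (D' - D)) / D' := by
  field_simp
  ring

theorem R_lip_pt (x y x' y' s' : ℝ) (hs' : |s'| ≤ 2 * T.ε) :
    |T.R x' y' s' - T.R x y s'| ≤ T.ε * (|x' - x| + |y' - y|) := by
  have hε := T.hε0
  have hε1 := T.hε1
  have hm0 := T.hm0
  have hm1 := T.hm1
  have hs1' : |s'| ≤ 1 := hs'.trans (by linarith)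
  have hRb := T.R_bound x y s' hs'
  have hD := T.den_ge x y s' hs1'
  have hD' := T.den_ge x' y' s' hs1'
  have g1 := T.hu.lipx x y x' y'
  have g2 := T.hv.lipx x y x' y'
  have g3 := T.hv.lipy x y x' y'
  have g4 := T.hu.lipy x y x' y'
  have hd0 : 0 ≤ |x' - x| + |y' - y| := by positivity
  generalize |x' - x| + |y' - y| = d at *
  have hN : |T.m * (s' * (T.l + T.ux x' y') - T.vx x' y') -
      T.m * (s' * (T.l + T.ux x y) - T.vx x y)| ≤ (47/100) * (T.ε * d) := by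
    have e1 : T.m * (s' * (T.l + T.ux x' y') - T.vx x' y') -
      T.m * (s' * (T.l + T.ux x y) - T.vx x y) =
      T.m * (s' * (T.ux x' y' - T.ux x y) - (T.vx x' y' - T.vx x y)) := by ring
    rw [e1, abs_mul, abs_of_nonneg (by linarith : 0 ≤ T.m)]
    have h1 : |s' * (T.ux x' y' - T.ux x y) - (T.vx x' y' - T.vx x y)| ≤
        (1 + 2 * T.ε) * (T.ε * d) := by
      refine (abs_sub _ _).trans ?_
      rw [abs_mul]
      have : |s'| * |T.ux x' y' - T.ux x y| ≤ 2 * T.ε * (T.ε * d) :=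
        mul_le_mul hs' g1 (abs_nonneg _) (by linarith)
      linarith
    have hεd : 0 ≤ T.ε * d := by positivity
    calc T.m * _ ≤ (46/100) * ((1 + 2 * T.ε) * (T.ε * d)) :=
          mul_le_mul hm1 h1 (abs_nonneg _) (by norm_num)
      _ = ((46/100) * (1 + 2 * T.ε)) * (T.ε * d) := by ring
      _ ≤ _ := mul_le_mul_of_nonneg_right (by linarith) hεd
  have hDD : |(1 + T.m * (T.vy x' y' - s' * T.uy x' y')) -
      (1 + T.m * (T.vy x y - s' * T.uy x y))| ≤ T.ε * d := by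
    have e1 : (1 + T.m * (T.vy x' y' - s' * T.uy x' y')) -
      (1 + T.m * (T.vy x y - s' * T.uy x y)) =
      T.m * ((T.vy x' y' - T.vy x y) - s' * (T.uy x' y' - T.uy x y)) := by ring
    rw [e1, abs_mul, abs_of_nonneg (by linarith : 0 ≤ T.m)]
    have h1 : |(T.vy x' y' - T.vy x y) - s' * (T.uy x' y' - T.uy x y)| ≤ 2 * (T.ε * d) := by
      refine (abs_sub _ _).trans ?_
      rw [abs_mul]
      have : |s'| * |T.uy x' y' - T.uy x y| ≤ 1 * (T.ε * d) :=
        mul_le_mul hs1' g4 (abs_nonneg _) (by linarith)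
      linarith
    calc T.m * _ ≤ (1/2) * (2 * (T.ε * d)) :=
          mul_le_mul (by linarith) h1 (abs_nonneg _) (by norm_num)
      _ = _ := by ring
  unfold R at hRb ⊢
  rw [ratio_diff (by linarith) (by linarith)]
  generalize T.m * (s' * (T.l + T.ux x y) - T.vx x y) = N at *
  generalize T.m * (s' * (T.l + T.ux x' y') - T.vx x' y') = N' at *
  generalize (1 + T.m * (T.vy x y - s' * T.uy x y)) = D at *
  generalize (1 + T.m * (T.vy x' y' - s' * T.uy x' y')) = D' at *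
  rw [abs_div, div_le_iff₀ (abs_pos.2 (by linarith))]
  have hDa : 99/100 ≤ |D'| := hD'.trans (le_abs_self _)
  have hεd : 0 ≤ T.ε * d := by positivity
  have h8 : |(N' - N) - N / D * (D' - D)| ≤ (48/100) * (T.ε * d) := by
    refine (abs_sub _ _).trans ?_
    rw [abs_mul]
    have h9 : |N / D| * |D' - D| ≤ (2 * T.ε) * (T.ε * d) :=
      mul_le_mul hRb hDD (abs_nonneg _) (by linarith)
    have h11 : (2 * T.ε) * (T.ε * d) ≤ (1/100) * (T.ε * d) :=
      mul_le_mul_of_nonneg_right (by linarith) hεd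
    linarith
  calc _ ≤ (48/100) * (T.ε * d) := h8
    _ ≤ T.ε * d * (99/100) := by linarith
    _ ≤ _ := mul_le_mul_of_nonneg_left hDa hεd

theorem R_lip (x y s x' y' s' : ℝ) (hs : |s| ≤ 2 * T.ε) (hs' : |s'| ≤ 2 * T.ε) :
    |T.R x' y' s' - T.R x y s| ≤ (1/4) * |s' - s| + T.ε * (|x' - x| + |y' - y|) := by
  have hε := T.hε0
  have hε1 := T.hε1
  have hm0 := T.hm0
  have hm1 := T.hm1
  have hl0 := T.hl0
  have hl1 := T.hl1
  have hs1 : |s| ≤ 1 := hs.trans (by linarith)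
  have hs1' : |s'| ≤ 1 := hs'.trans (by linarith)
  -- first change `s`
  have hA : |T.R x y s' - T.R x y s| ≤ (1/4) * |s' - s| := by
    have hD := T.den_ge x y s hs1
    have hD' := T.den_ge x y s' hs1'
    have e : T.R x y s' - T.R x y s = T.m * ((T.l + T.ux x y) * (1 + T.m * T.vy x y) -
        T.m * T.vx x y * T.uy x y) * (s' - s) /
        ((1 + T.m * (T.vy x y - s' * T.uy x y)) * (1 + T.m * (T.vy x y - s * T.uy x y))) := by
      unfold R
      rw [div_sub_div _ _ (by linarith) (by linarith)]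
      congr 1
      ring
    have hDD : 98/100 ≤ (1 + T.m * (T.vy x y - s' * T.uy x y)) *
        (1 + T.m * (T.vy x y - s * T.uy x y)) := by nlinarith
    have h1 := abs_le.1 (T.hu.bx x y)
    have h2 := abs_le.1 (T.hv.by' x y)
    have h3 := abs_le.1 (T.hv.bx x y)
    have h4 := abs_le.1 (T.hu.by' x y)
    have hc : |T.m * ((T.l + T.ux x y) * (1 + T.m * T.vy x y) - T.m * T.vx x y * T.uy x y)| ≤
        46/100 * (48/100) := by
      rw [abs_mul, abs_of_nonneg (by linarith : 0 ≤ T.m)]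
      refine mul_le_mul hm1 ?_ (abs_nonneg _) (by norm_num)
      have a1 : |(T.l + T.ux x y) * (1 + T.m * T.vy x y)| ≤ (461/1000) * (101/100) := by
        rw [abs_mul]
        refine mul_le_mul ?_ ?_ (abs_nonneg _) (by norm_num)
        · rw [abs_le]; constructor <;> linarith [h1.1, h1.2]
        · rw [abs_le]; constructor <;> nlinarith [h2.1, h2.2]
      have a2 : |T.m * T.vx x y * T.uy x y| ≤ 1/100 := by
        rw [abs_mul, abs_mul, abs_of_nonneg (by linarith : 0 ≤ T.m)]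
        calc T.m * |T.vx x y| * |T.uy x y| ≤ 1 * T.ε * T.ε := by
              refine mul_le_mul (mul_le_mul (by linarith) (T.hv.bx x y) (abs_nonneg _) zero_le_one)
                (T.hu.by' x y) (abs_nonneg _) (by linarith)
          _ ≤ 1/100 := by nlinarith
      refine (abs_sub _ _).trans ?_
      linarith
    rw [e, abs_div, abs_mul, div_le_iff₀ (abs_pos.2 (by linarith))]
    have hDa : 98/100 ≤ |(1 + T.m * (T.vy x y - s' * T.uy x y)) *
        (1 + T.m * (T.vy x y - s * T.uy x y))| := hDD.trans (le_abs_self _)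
    have hss : 0 ≤ |s' - s| := abs_nonneg _
    calc _ ≤ 46/100 * (48/100) * |s' - s| := mul_le_mul_of_nonneg_right hc hss
      _ ≤ 1/4 * |s' - s| * (98/100) := by nlinarith
      _ ≤ _ := mul_le_mul_of_nonneg_left hDa (by positivity)
  -- then change the point
  have hB := T.R_lip_pt x y x' y' s' hs'
  calc |T.R x' y' s' - T.R x y s| = |(T.R x' y' s' - T.R x y s') + (T.R x y s' - T.R x y s)| := by
        congr 1; ring
    _ ≤ _ := (abs_add_le _ _).trans (by linarith)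

/-- approximate slopes -/
noncomputable def sl' : ℕ → (ℕ → Bool) → ℝ → ℝ
  | 0 => fun _ _ => 0
  | n + 1 => fun ω x => T.R x (T.Φ ω x) (sl' n (tail ω) (T.nx (ω 0) x (T.Φ ω x)))

theorem sl'_bound (n : ℕ) : ∀ ω x, |T.sl' n ω x| ≤ 2 * T.ε := by
  induction n with
  | zero => intro ω x; simp only [sl', abs_zero]; linarith [T.hε0]
  | succ n ih => intro ω x; exact T.R_bound _ _ _ (ih _ _)

theorem sl'_cauchy (n : ℕ) : ∀ ω x, |T.sl' (n + 1) ω x - T.sl' n ω x| ≤ 2 * T.ε * (1/4) ^ n := by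
  induction n with
  | zero =>
    intro ω x
    have := T.sl'_bound 1 ω x
    simpa [sl'] using this
  | succ n ih =>
    intro ω x
    have h := T.R_lip x (T.Φ ω x) (T.sl' n (tail ω) (T.nx (ω 0) x (T.Φ ω x))) x (T.Φ ω x)
      (T.sl' (n + 1) (tail ω) (T.nx (ω 0) x (T.Φ ω x))) (T.sl'_bound _ _ _) (T.sl'_bound _ _ _)
    simp only [sub_self, abs_zero, add_zero, mul_zero] at h
    have h2 := ih (tail ω) (T.nx (ω 0) x (T.Φ ω x))
    change |T.R x (T.Φ ω x) (T.sl' (n + 1) (tail ω) (T.nx (ω 0) x (T.Φ ω x))) -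
      T.R x (T.Φ ω x) (T.sl' n (tail ω) (T.nx (ω 0) x (T.Φ ω x)))| ≤ _
    refine h.trans ?_
    rw [pow_succ]
    linarith

/-- slope (derivative) of the leaf -/
noncomputable def S (ω : ℕ → Bool) (x : ℝ) : ℝ := limUnder atTop (fun n => T.sl' n ω x)

theorem tendsto_sl' (ω : ℕ → Bool) (x : ℝ) :
    Tendsto (fun n => T.sl' n ω x) atTop (𝓝 (T.S ω x)) := by
  have : CauchySeq (fun n => T.sl' n ω x) := by
    refine cauchySeq_of_le_geometric (1/4) (2 * T.ε) (by norm_num) (fun n => ?_)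
    rw [dist_comm, Real.dist_eq]
    exact T.sl'_cauchy n ω x
  exact this.tendsto_limUnder

theorem S_bound (ω : ℕ → Bool) (x : ℝ) : |T.S ω x| ≤ 2 * T.ε :=
  le_of_tendsto' (T.tendsto_sl' ω x).abs (fun n => T.sl'_bound n ω x)

theorem S_eq (ω : ℕ → Bool) (x : ℝ) :
    T.S ω x = T.R x (T.Φ ω x) (T.S (tail ω) (T.nx (ω 0) x (T.Φ ω x))) := by
  have h2 : Tendsto (fun n => T.sl' (n + 1) ω x) atTop (𝓝 (T.S ω x)) :=
    (T.tendsto_sl' ω x).comp (tendsto_add_atTop_nat 1)
  refine tendsto_nhds_unique h2 ?_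
  have h3 := T.tendsto_sl' (tail ω) (T.nx (ω 0) x (T.Φ ω x))
  have h5 : Tendsto (fun n => (1/4) * |T.sl' n (tail ω) (T.nx (ω 0) x (T.Φ ω x)) -
      T.S (tail ω) (T.nx (ω 0) x (T.Φ ω x))|) atTop (𝓝 0) := by
    have := (h3.sub (tendsto_const_nhds (x := T.S (tail ω) (T.nx (ω 0) x (T.Φ ω x))))).abs
    simp only [sub_self, abs_zero] at this
    have := this.const_mul (1/4)
    simpa using this
  have h6 : Tendsto (fun n => T.sl' (n + 1) ω x -
      T.R x (T.Φ ω x) (T.S (tail ω) (T.nx (ω 0) x (T.Φ ω x)))) atTop (𝓝 0) := by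
    refine squeeze_zero_norm (fun n => ?_) h5
    rw [Real.norm_eq_abs]
    have := T.R_lip x (T.Φ ω x) (T.S (tail ω) (T.nx (ω 0) x (T.Φ ω x))) x (T.Φ ω x)
      (T.sl' n (tail ω) (T.nx (ω 0) x (T.Φ ω x))) (T.S_bound _ _) (T.sl'_bound _ _ _)
    simpa [sl'] using this
  have := h6.add (tendsto_const_nhds
    (x := T.R x (T.Φ ω x) (T.S (tail ω) (T.nx (ω 0) x (T.Φ ω x)))))
  simpa using this

end Leaf

end Pool.Agent.Work.MP_f9d495_an
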