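import Pool.Agent.Work.MP_f9d495_an.Leaf2

/-!
# Leaves are `C^{1,1}`, ordered, and have a Lipschitz transverse structure
-/

open Filter Topology

namespace Pool.Agent.Work.MP_f9d495_an

namespace Leaf

variable (T : Leaf)

theorem quad_alg {m l a b c d s1 h δ k E1 ru rv : ℝ}
    (hδ : δ = m * ((s1 * k + E1) - (c * h + d * δ + rv))) (hk : k = l * h + a * h + b * δ + ru)
    (hD : 1 + m * (d - s1 * b) ≠ 0) :
    δ - m * (s1 * (l + a) - c) / (1 + m * (d - s1 * b)) * h =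
      m * (s1 * ru + E1 - rv) / (1 + m * (d - s1 * b)) := by
  rw [eq_div_iff hD, sub_mul, div_mul_eq_mul_div, div_mul_cancel₀ _ hD]
  subst hk
  linear_combination hδ

theorem quad_aux (n : ℕ) : ∀ (ω : ℕ → Bool) (x h : ℝ),
    |T.Φ ω (x + h) - T.Φ ω x - T.S ω x * h| ≤ ((1/2) ^ n + 4 * T.ε * |h|) * |h| := by
  induction n with
  | zero =>
    intro ω x h
    have h1 := T.Φ_lip ω x (x + h)
    have h2 := T.S_bound ω x
    have hε := T.hε0
    have hε1 := T.hε1
    have hh : 0 ≤ |h| := abs_nonneg _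
    rw [add_sub_cancel_left] at h1
    have h3 : |T.S ω x * h| ≤ 2 * T.ε * |h| := by
      rw [abs_mul]; exact mul_le_mul_of_nonneg_right h2 hh
    refine (abs_sub _ _).trans ?_
    rw [pow_zero]
    have : 0 ≤ 4 * T.ε * |h| * |h| := by positivity
    have h4 : (4 * T.ε + 2 * T.ε) * |h| ≤ 1 * |h| := mul_le_mul_of_nonneg_right (by linarith) hh
    nlinarith
  | succ n ih =>
    intro ω x h
    have hε := T.hε0
    have hε1 := T.hε1
    have hm0 := T.hm0
    have hm1 := T.hm1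
    have hl0 := T.hl0
    have hl1 := T.hl1
    have hh : 0 ≤ |h| := abs_nonneg _
    have e1 := T.Φ_eq ω x
    have e2 := T.Φ_eq ω (x + h)
    have hΦ := T.Φ_lip ω x (x + h)
    rw [add_sub_cancel_left] at hΦ
    have hδ : |T.Φ ω (x + h) - T.Φ ω x| ≤ |h| := by nlinarith
    have hS := T.S_eq ω x
    have hnx := T.nx_sub_le (ω 0) x (x + h) (T.Φ ω x) (T.Φ ω (x + h))
    rw [add_sub_cancel_left] at hnx
    have hknx : T.nx (ω 0) (x + h) (T.Φ ω (x + h)) - T.nx (ω 0) x (T.Φ ω x) =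
        T.l * h + (T.u (x + h) (T.Φ ω (x + h)) - T.u x (T.Φ ω x)) := by unfold nx; ring
    have tu := T.hu.taylor x (T.Φ ω x) (x + h) (T.Φ ω (x + h))
    have tv := T.hv.taylor x (T.Φ ω x) (x + h) (T.Φ ω (x + h))
    rw [add_sub_cancel_left] at tu tv
    generalize T.Φ ω (x + h) = y' at *
    generalize T.Φ ω x = y at *
    generalize hX' : T.nx (ω 0) (x + h) y' = X' at *
    generalize hX : T.nx (ω 0) x y = X at *
    have s1b := T.S_bound (tail ω) X
    have hE := ih (tail ω) X (X' - X)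
    rw [add_sub_cancel] at hE
    generalize hE1 : T.Φ (tail ω) X' - T.Φ (tail ω) X - T.S (tail ω) X * (X' - X) = E1 at *
    generalize T.S (tail ω) X = s1 at *
    have hk : |X' - X| ≤ (1/2) * |h| := by
      have a1 : (T.l + T.ε) * |h| ≤ (47/100) * |h| := mul_le_mul_of_nonneg_right (by linarith) hh
      have a2 : T.ε * |y' - y| ≤ (1/100) * |h| := by
        calc T.ε * |y' - y| ≤ T.ε * |h| := mul_le_mul_of_nonneg_left hδ hε.le
          _ ≤ _ := mul_le_mul_of_nonneg_right (by linarith) hh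
      linarith
    have hk0 : 0 ≤ |X' - X| := abs_nonneg _
    generalize X' - X = k at *
    -- remainders
    have hsq : (|h| + |y' - y|) ^ 2 ≤ 4 * |h| ^ 2 := by nlinarith [abs_nonneg (y' - y)]
    have hru : |T.u (x + h) y' - T.u x y - T.ux x y * h - T.uy x y * (y' - y)| ≤
        4 * T.ε * |h| ^ 2 := tu.trans (by nlinarith)
    have hrv : |T.v (x + h) y' - T.v x y - T.vx x y * h - T.vy x y * (y' - y)| ≤
        4 * T.ε * |h| ^ 2 := tv.trans (by nlinarith)
    have hs1 : |s1| ≤ 1 := s1b.trans (by linarith)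
    have hD := T.den_ge x y s1 hs1
    have key := quad_alg (m := T.m) (l := T.l) (a := T.ux x y) (b := T.uy x y) (c := T.vx x y)
      (d := T.vy x y) (s1 := s1) (h := h) (δ := y' - y) (k := k) (E1 := E1)
      (ru := T.u (x + h) y' - T.u x y - T.ux x y * h - T.uy x y * (y' - y))
      (rv := T.v (x + h) y' - T.v x y - T.vx x y * h - T.vy x y * (y' - y))
      (by linear_combination e2 - e1 + T.m * hE1) (by rw [hknx]; ring) (by linarith)
    have hS' : T.S ω x = T.m * (s1 * (T.l + T.ux x y) - T.vx x y) /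
      (1 + T.m * (T.vy x y - s1 * T.uy x y)) := hS
    rw [hS', key]
    generalize T.u (x + h) y' - T.u x y - T.ux x y * h - T.uy x y * (y' - y) = ru at *
    generalize T.v (x + h) y' - T.v x y - T.vx x y * h - T.vy x y * (y' - y) = rv at *
    generalize 1 + T.m * (T.vy x y - s1 * T.uy x y) = D at *
    have hDa : 99/100 ≤ |D| := hD.trans (le_abs_self _)
    rw [abs_div, div_le_iff₀ (by linarith), abs_mul, abs_of_nonneg (by linarith : 0 ≤ T.m)]
    have hE2 : |E1| ≤ ((1/2) ^ n + 2 * T.ε * |h|) * ((1/2) * |h|) := by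
      refine hE.trans (mul_le_mul ?_ hk hk0 (by positivity))
      have : 4 * T.ε * |k| ≤ 4 * T.ε * ((1/2) * |h|) := mul_le_mul_of_nonneg_left hk (by linarith)
      linarith
    have hsum : |s1 * ru + E1 - rv| ≤ ((1/2) ^ n + 2 * T.ε * |h|) * ((1/2) * |h|) +
        (41/10) * T.ε * |h| ^ 2 := by
      have a1 : |s1 * ru| ≤ (2 * T.ε) * (4 * T.ε * |h| ^ 2) := by
        rw [abs_mul]
        exact mul_le_mul s1b hru (abs_nonneg _) (by linarith)
      have a2 : (2 * T.ε) * (4 * T.ε * |h| ^ 2) ≤ (1/10) * T.ε * |h| ^ 2 := by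
        have : (2 * T.ε) * (4 * T.ε * |h| ^ 2) = (8 * T.ε) * (T.ε * |h| ^ 2) := by ring
        rw [this]
        have : (1/10) * T.ε * |h| ^ 2 = (1/10) * (T.ε * |h| ^ 2) := by ring
        rw [this]
        exact mul_le_mul_of_nonneg_right (by linarith) (by positivity)
      calc |s1 * ru + E1 - rv| ≤ |s1 * ru + E1| + |rv| := abs_sub _ _
        _ ≤ |s1 * ru| + |E1| + |rv| := by linarith [abs_add_le (s1 * ru) E1]
        _ ≤ _ := by linarith
    have hP : 0 ≤ (1/2 : ℝ) ^ n * |h| := by positivity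
    have hQ : 0 ≤ T.ε * |h| ^ 2 := by positivity
    calc T.m * |s1 * ru + E1 - rv| ≤ (46/100) * (((1/2) ^ n + 2 * T.ε * |h|) * ((1/2) * |h|) +
        (41/10) * T.ε * |h| ^ 2) := mul_le_mul hm1 hsum (abs_nonneg _) (by norm_num)
      _ = (46/100) * (1/2) * ((1/2 : ℝ) ^ n * |h|) + (46/100) * (51/10) * (T.ε * |h| ^ 2) := by ring
      _ ≤ (99/100) * (1/2) * ((1/2 : ℝ) ^ n * |h|) + (99/100) * 4 * (T.ε * |h| ^ 2) := by linarith
      _ = ((1/2) ^ (n + 1) + 4 * T.ε * |h|) * |h| * (99/100) := by ring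
      _ ≤ _ := mul_le_mul_of_nonneg_left hDa (by positivity)

theorem quad (ω : ℕ → Bool) (x h : ℝ) :
    |T.Φ ω (x + h) - T.Φ ω x - T.S ω x * h| ≤ 4 * T.ε * |h| ^ 2 := by
  have h2 : Tendsto (fun n : ℕ => ((1/2 : ℝ) ^ n + 4 * T.ε * |h|) * |h|) atTop
      (𝓝 ((0 + 4 * T.ε * |h|) * |h|)) :=
    ((tendsto_pow_atTop_nhds_zero_of_lt_one (by norm_num) (by norm_num)).add_const _).mul_const _
  have := ge_of_tendsto' h2 (fun n => T.quad_aux n ω x h)
  linarith

theorem quad' (ω : ℕ → Bool) (x x' : ℝ) :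
    |T.Φ ω x' - T.Φ ω x - T.S ω x * (x' - x)| ≤ 4 * T.ε * |x' - x| ^ 2 := by
  have := T.quad ω x (x' - x)
  rwa [add_sub_cancel] at this

theorem hasDerivAt_Φ (ω : ℕ → Bool) (x : ℝ) : HasDerivAt (T.Φ ω) (T.S ω x) x := by
  rw [hasDerivAt_iff_isLittleO]
  rw [Asymptotics.isLittleO_iff]
  intro c hc
  have hε := T.hε0
  have : ∀ᶠ x' in 𝓝 x, |x' - x| < c / (4 * T.ε) := by
    have := Metric.ball_mem_nhds x (show 0 < c / (4 * T.ε) by positivity)
    filter_upwards [this] with y hy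
    rwa [Metric.mem_ball, Real.dist_eq] at hy
  filter_upwards [this] with x' hx'
  rw [Real.norm_eq_abs, Real.norm_eq_abs, smul_eq_mul]
  have h1 := T.quad' ω x x'
  have h2 : (x' - x) * T.S ω x = T.S ω x * (x' - x) := mul_comm _ _
  rw [h2]
  refine h1.trans ?_
  rw [lt_div_iff₀ (by positivity)] at hx'
  nlinarith [abs_nonneg (x' - x)]

theorem S_lip (ω : ℕ → Bool) (x x' : ℝ) : |T.S ω x' - T.S ω x| ≤ 8 * T.ε * |x' - x| := by
  rcases eq_or_ne x' x with rfl | hne
  · simp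
  have h1 := T.quad' ω x x'
  have h2 := T.quad' ω x' x
  have h3 : |(T.S ω x' - T.S ω x) * (x' - x)| ≤ 8 * T.ε * |x' - x| ^ 2 := by
    have e : (T.S ω x' - T.S ω x) * (x' - x) = (T.Φ ω x' - T.Φ ω x - T.S ω x * (x' - x)) +
      (T.Φ ω x - T.Φ ω x' - T.S ω x' * (x - x')) := by ring
    rw [e]
    have h4 : |x - x'| = |x' - x| := abs_sub_comm _ _
    rw [h4] at h2
    refine (abs_add_le _ _).trans ?_
    linarith
  have hpos : 0 < |x' - x| := abs_pos.2 (sub_ne_zero.2 hne)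
  rw [abs_mul] at h3
  have h5 : |T.S ω x' - T.S ω x| * |x' - x| ≤ (8 * T.ε * |x' - x|) * |x' - x| := by
    rw [mul_assoc _ |x' - x|, ← sq]; exact h3
  exact le_of_mul_le_mul_right h5 hpos

/-! ### position and order of the leaves -/

theorem Φ_mem' (ω : ℕ → Bool) (x : ℝ) :
    T.dd (ω 0) - 2 * T.ε ≤ T.Φ ω x ∧ T.Φ ω x ≤ T.dd (ω 0) + T.m + 2 * T.ε := by
  have h := T.Φ_eq ω x
  have h1 := T.Φ_mem (tail ω) (T.nx (ω 0) x (T.Φ ω x))
  have h2 := abs_le.1 (T.hv.bound x (T.Φ ω x))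
  have hm0 := T.hm0
  have hm1 := T.hm1
  have hε := T.hε0
  constructor
  · have : T.m * (-(3 * T.ε)) ≤
        T.m * (T.Φ (tail ω) (T.nx (ω 0) x (T.Φ ω x)) - T.v x (T.Φ ω x)) :=
      mul_le_mul_of_nonneg_left (by linarith [h1.1, h2.2]) (by linarith)
    nlinarith
  · have : T.m * (T.Φ (tail ω) (T.nx (ω 0) x (T.Φ ω x)) - T.v x (T.Φ ω x)) ≤
        T.m * (1 + 3 * T.ε) :=
      mul_le_mul_of_nonneg_left (by linarith [h1.2, h2.1]) (by linarith)
    nlinarith

/-- comparison of two leaves in the same strip with their images. -/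
theorem pair (i : Bool) (ω ω' : ℕ → Bool) (x : ℝ) :
    |(T.Φ (cons i ω') x - T.Φ (cons i ω) x) -
      T.m * (T.Φ ω' (T.nx i x (T.Φ (cons i ω') x)) - T.Φ ω (T.nx i x (T.Φ (cons i ω') x)))| ≤
      T.ε * |T.Φ (cons i ω') x - T.Φ (cons i ω) x| := by
  have e1 := T.Φ_eq (cons i ω) x
  have e2 := T.Φ_eq (cons i ω') x
  simp only [cons_zero, tail_cons] at e1 e2
  have hε := T.hε0
  have hε1 := T.hε1
  have hm0 := T.hm0
  have hm1 := T.hm1
  generalize T.Φ (cons i ω') x = y' at *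
  generalize T.Φ (cons i ω) x = y at *
  have hX := T.nx_sub_le i x x y y'
  have hv := T.hv.lip x y x y'
  simp only [sub_self, abs_zero, mul_zero, zero_add] at hX hv
  have hΦ := T.Φ_lip ω (T.nx i x y) (T.nx i x y')
  have e : (y' - y) - T.m * (T.Φ ω' (T.nx i x y') - T.Φ ω (T.nx i x y')) =
      T.m * ((T.Φ ω (T.nx i x y') - T.Φ ω (T.nx i x y)) - (T.v x y' - T.v x y)) := by
    linear_combination e2 - e1
  rw [e, abs_mul, abs_of_nonneg (by linarith : 0 ≤ T.m)]
  have h1 : |(T.Φ ω (T.nx i x y') - T.Φ ω (T.nx i x y)) - (T.v x y' - T.v x y)| ≤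
      4 * T.ε * (T.ε * |y' - y|) + T.ε * |y' - y| := by
    refine (abs_sub _ _).trans (add_le_add ?_ hv)
    exact hΦ.trans (mul_le_mul_of_nonneg_left hX (by linarith))
  have h2 : 4 * T.ε * (T.ε * |y' - y|) + T.ε * |y' - y| ≤ 2 * (T.ε * |y' - y|) := by
    have : 4 * T.ε * (T.ε * |y' - y|) ≤ 1 * (T.ε * |y' - y|) :=
      mul_le_mul_of_nonneg_right (by linarith) (by positivity)
    linarith
  calc T.m * _ ≤ (1/2) * (2 * (T.ε * |y' - y|)) :=
        mul_le_mul (by linarith) (h1.trans h2) (abs_nonneg _) (by norm_num)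
    _ = _ := by ring

theorem order_aux (n : ℕ) : ∀ (ω ω' : ℕ → Bool) (x : ℝ), (∀ k < n, ω k = ω' k) →
    ω n = false → ω' n = true → T.Φ ω x < T.Φ ω' x := by
  induction n with
  | zero =>
    intro ω ω' x _ h0 h1
    have a := (T.Φ_mem' ω x).2
    have b := (T.Φ_mem' ω' x).1
    rw [h0] at a
    rw [h1] at b
    simp only [dd, Bool.false_eq_true, if_false, if_true] at a b
    linarith [T.hm1, T.hε1, T.hε0]
  | succ n ih =>
    intro ω ω' x hk h0 h1
    have hω0 : ω 0 = ω' 0 := hk 0 (Nat.succ_pos n)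
    have e1 : ω = cons (ω 0) (tail ω) := (cons_tail ω).symm
    have e2 : ω' = cons (ω 0) (tail ω') := by rw [hω0]; exact (cons_tail ω').symm
    have hp := T.pair (ω 0) (tail ω) (tail ω') x
    rw [← e1, ← e2] at hp
    have hlt := ih (tail ω) (tail ω') (T.nx (ω 0) x (T.Φ ω' x))
      (fun k hk' => hk (k + 1) (Nat.succ_lt_succ hk')) h0 h1
    have hε := T.hε0
    have hε1 := T.hε1
    have hm0 := T.hm0
    generalize T.Φ ω' x = y' at *
    generalize T.Φ ω x = y at *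
    generalize T.Φ (tail ω') (T.nx (ω 0) x y') = a' at *
    generalize T.Φ (tail ω) (T.nx (ω 0) x y') = a at *
    by_contra hc
    push Not at hc
    have h2 : |y' - y| = y - y' := by rw [abs_sub_comm]; exact abs_of_nonneg (by linarith)
    rw [h2, abs_le] at hp
    have h3 : 0 < T.m * (a' - a) := mul_pos (by linarith) (by linarith)
    nlinarith [hp.1, hp.2]

theorem order (ω ω' : ℕ → Bool) (x : ℝ) (n : ℕ) (h : ∀ k < n, ω k = ω' k)
    (h0 : ω n = false) (h1 : ω' n = true) : T.Φ ω x < T.Φ ω' x := T.order_aux n ω ω' x h h0 h1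

end Leaf

end Pool.Agent.Work.MP_f9d495_an
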