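import Pool.Agent.Work.MP_f9d495_an.Leaf3

/-!
# Bounded distortion of the lamination by stable leaves
-/

open Filter Topology

namespace Pool.Agent.Work.MP_f9d495_an

namespace Leaf

variable (T : Leaf)

theorem K_aux (n : ℕ) : ∀ (ω ω' : ℕ → Bool) (x : ℝ), (∀ k < n, ω k = ω' k) → ω n ≠ ω' n →
    |T.S ω' x - T.S ω x| ≤ 100 * T.ε * |T.Φ ω' x - T.Φ ω x| := by
  induction n with
  | zero =>
    intro ω ω' x _ hne
    have hε := T.hε0
    have hε1 := T.hε1
    have hm1 := T.hm1
    have a := T.Φ_mem' ω x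
    have b := T.Φ_mem' ω' x
    have hd : 7/100 ≤ |T.Φ ω' x - T.Φ ω x| := by
      rcases h0 : ω 0 with _ | _ <;> rcases h1 : ω' 0 with _ | _
      · exact absurd (h0.trans h1.symm) hne
      · rw [h0] at a
        rw [h1] at b
        simp only [dd, Bool.false_eq_true, if_false, if_true] at a b
        refine le_trans ?_ (le_abs_self _)
        linarith [a.1, a.2, b.1, b.2]
      · rw [h0] at a
        rw [h1] at b
        simp only [dd, Bool.false_eq_true, if_false, if_true] at a b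
        rw [abs_sub_comm]
        refine le_trans ?_ (le_abs_self _)
        linarith [a.1, a.2, b.1, b.2]
      · exact absurd (h0.trans h1.symm) hne
    have h1 := T.S_bound ω x
    have h2 := T.S_bound ω' x
    have h3 : |T.S ω' x - T.S ω x| ≤ 4 * T.ε := (abs_sub _ _).trans (by linarith)
    nlinarith
  | succ n ih =>
    intro ω ω' x hk hne
    have hω0 : ω 0 = ω' 0 := hk 0 (Nat.succ_pos n)
    have e1 : ω = cons (ω 0) (tail ω) := (cons_tail ω).symm
    have e2 : ω' = cons (ω 0) (tail ω') := by rw [hω0]; exact (cons_tail ω').symm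
    have hp := T.pair (ω 0) (tail ω) (tail ω') x
    rw [← e1, ← e2] at hp
    have hih := ih (tail ω) (tail ω') (T.nx (ω 0) x (T.Φ ω' x))
      (fun k hk' => hk (k + 1) (Nat.succ_lt_succ hk')) hne
    have s1 := T.S_eq ω x
    have s2 := T.S_eq ω' x
    rw [← hω0] at s2
    have hε := T.hε0
    have hε1 := T.hε1
    have hm0 := T.hm0
    have hX := T.nx_sub_le (ω 0) x x (T.Φ ω x) (T.Φ ω' x)
    simp only [sub_self, abs_zero, mul_zero, zero_add] at hX
    have hSl := T.S_lip (tail ω) (T.nx (ω 0) x (T.Φ ω x)) (T.nx (ω 0) x (T.Φ ω' x))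
    have hR := T.R_lip x (T.Φ ω x) (T.S (tail ω) (T.nx (ω 0) x (T.Φ ω x))) x (T.Φ ω' x)
      (T.S (tail ω') (T.nx (ω 0) x (T.Φ ω' x))) (T.S_bound _ _) (T.S_bound _ _)
    rw [← s1, ← s2] at hR
    simp only [sub_self, abs_zero, zero_add] at hR
    generalize T.Φ ω' x = y' at *
    generalize T.Φ ω x = y at *
    generalize T.Φ (tail ω') (T.nx (ω 0) x y') - T.Φ (tail ω) (T.nx (ω 0) x y') = Δ at *
    generalize T.S (tail ω') (T.nx (ω 0) x y') = t' at *
    generalize T.S (tail ω) (T.nx (ω 0) x y') = t'' at *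
    generalize T.S (tail ω) (T.nx (ω 0) x y) = t at *
    have hδ : 0 ≤ |y' - y| := abs_nonneg _
    have hmΔ : T.m * |Δ| ≤ (1 + T.ε) * |y' - y| := by
      have h1 : T.m * |Δ| = |T.m * Δ| := by rw [abs_mul, abs_of_nonneg (by linarith : 0 ≤ T.m)]
      rw [h1]
      calc |T.m * Δ| = |(y' - y) - ((y' - y) - T.m * Δ)| := by congr 1; ring
        _ ≤ |y' - y| + |(y' - y) - T.m * Δ| := abs_sub _ _
        _ ≤ _ := by linarith
    have hΔ : |Δ| ≤ (24/10) * |y' - y| := by
      have h1 : (43/100) * |Δ| ≤ T.m * |Δ| := mul_le_mul_of_nonneg_right hm0 (abs_nonneg _)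
      nlinarith
    have ht : |t' - t| ≤ 241 * T.ε * |y' - y| := by
      have a1 : |t' - t''| ≤ 240 * T.ε * |y' - y| := by
        refine hih.trans ?_
        have := mul_le_mul_of_nonneg_left hΔ (by linarith : 0 ≤ 100 * T.ε)
        linarith
      have a2 : |t'' - t| ≤ T.ε * |y' - y| := by
        refine hSl.trans ?_
        calc 8 * T.ε * _ ≤ 8 * T.ε * (T.ε * |y' - y|) :=
              mul_le_mul_of_nonneg_left hX (by linarith)
          _ ≤ 1 * (T.ε * |y' - y|) := mul_le_mul_of_nonneg_right (by linarith) (by positivity)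
          _ = _ := one_mul _
      calc |t' - t| = |(t' - t'') + (t'' - t)| := by congr 1; ring
        _ ≤ |t' - t''| + |t'' - t| := abs_add_le _ _
        _ ≤ _ := by linarith
    have : T.ε * |y' - y| ≥ 0 := by positivity
    nlinarith

theorem K (ω ω' : ℕ → Bool) (x : ℝ) :
    |T.S ω' x - T.S ω x| ≤ 100 * T.ε * |T.Φ ω' x - T.Φ ω x| := by
  by_cases h : ω = ω'
  · subst h; simp
  · have hex : ∃ n, ω n ≠ ω' n := by
      by_contra hc
      push Not at hc
      exact h (funext hc)
    classical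
    refine T.K_aux (Nat.find hex) ω ω' x (fun k hk => ?_) (Nat.find_spec hex)
    exact not_not.1 (Nat.find_min hex hk)

/-- weak order -/
theorem le_of_first {ω ω' : ℕ → Bool} (h : ω = ω' ∨ ∃ n, (∀ k < n, ω k = ω' k) ∧ ω n = false ∧
    ω' n = true) (x : ℝ) : T.Φ ω x ≤ T.Φ ω' x := by
  rcases h with rfl | ⟨n, h1, h2, h3⟩
  · exact le_rfl
  · exact (T.order ω ω' x n h1 h2 h3).le

/-- `Δ` does not vary much along the leaves -/
theorem spread_le (ω ω' : ℕ → Bool) (h : ∀ x, T.Φ ω x ≤ T.Φ ω' x) (x x' : ℝ) :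
    (1 - 100 * T.ε * |x' - x|) * (T.Φ ω' x - T.Φ ω x) ≤ T.Φ ω' x' - T.Φ ω x' := by
  set K := 100 * T.ε with hK
  have hK0 : 0 ≤ K := by have := T.hε0; positivity
  have hd : ∀ t, HasDerivAt (fun t => T.Φ ω' t - T.Φ ω t) (T.S ω' t - T.S ω t) t :=
    fun t => (T.hasDerivAt_Φ ω' t).sub (T.hasDerivAt_Φ ω t)
  have hKt : ∀ t, |T.S ω' t - T.S ω t| ≤ K * (T.Φ ω' t - T.Φ ω t) := by
    intro t
    have := T.K ω ω' t
    rwa [abs_of_nonneg (sub_nonneg.2 (h t))] at this
  have hnn : ∀ t, 0 ≤ T.Φ ω' t - T.Φ ω t := fun t => sub_nonneg.2 (h t)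
  have main : Real.exp (-(K * |x' - x|)) * (T.Φ ω' x - T.Φ ω x) ≤ T.Φ ω' x' - T.Φ ω x' := by
    rcases le_total x x' with hx | hx
    · have hmono : Monotone (fun t => Real.exp (K * t) * (T.Φ ω' t - T.Φ ω t)) := by
        refine monotone_of_deriv_nonneg ?_ ?_
        · intro t
          exact ((Real.hasDerivAt_exp _).comp t ((hasDerivAt_id t).const_mul K)).mul (hd t)
            |>.differentiableAt
        · intro t
          have h1 : HasDerivAt (fun t => Real.exp (K * t)) (Real.exp (K * t) * (K * 1)) t :=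
            (Real.hasDerivAt_exp (K * t)).comp t ((hasDerivAt_id t).const_mul K)
          have h5 : HasDerivAt (fun t => Real.exp (K * t) * (T.Φ ω' t - T.Φ ω t))
            (Real.exp (K * t) * (K * 1) * (T.Φ ω' t - T.Φ ω t) +
              Real.exp (K * t) * (T.S ω' t - T.S ω t)) t := h1.mul (hd t)
          rw [h5.deriv]
          have h2 := abs_le.1 (hKt t)
          have h3 := Real.exp_pos (K * t)
          have : Real.exp (K * t) * (K * 1) * (T.Φ ω' t - T.Φ ω t) +
            Real.exp (K * t) * (T.S ω' t - T.S ω t) = Real.exp (K * t) *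
            (K * (T.Φ ω' t - T.Φ ω t) + (T.S ω' t - T.S ω t)) := by ring
          rw [this]
          exact mul_nonneg h3.le (by linarith [h2.1])
      have h4 := hmono hx
      simp only at h4
      rw [abs_of_nonneg (sub_nonneg.2 hx)]
      have e : Real.exp (-(K * (x' - x))) = Real.exp (K * x) / Real.exp (K * x') := by
        rw [← Real.exp_sub]; congr 1; ring
      rw [e, div_mul_eq_mul_div, div_le_iff₀ (Real.exp_pos _)]
      linarith
    · have hmono : Antitone (fun t => Real.exp (-K * t) * (T.Φ ω' t - T.Φ ω t)) := by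
        refine antitone_of_deriv_nonpos ?_ ?_
        · intro t
          exact ((Real.hasDerivAt_exp _).comp t ((hasDerivAt_id t).const_mul (-K))).mul (hd t)
            |>.differentiableAt
        · intro t
          have h1 : HasDerivAt (fun t => Real.exp (-K * t)) (Real.exp (-K * t) * (-K * 1)) t :=
            (Real.hasDerivAt_exp (-K * t)).comp t ((hasDerivAt_id t).const_mul (-K))
          have h5 : HasDerivAt (fun t => Real.exp (-K * t) * (T.Φ ω' t - T.Φ ω t))
            (Real.exp (-K * t) * (-K * 1) * (T.Φ ω' t - T.Φ ω t) +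
              Real.exp (-K * t) * (T.S ω' t - T.S ω t)) t := h1.mul (hd t)
          rw [h5.deriv]
          have h2 := abs_le.1 (hKt t)
          have h3 := Real.exp_pos (-K * t)
          have : Real.exp (-K * t) * (-K * 1) * (T.Φ ω' t - T.Φ ω t) +
            Real.exp (-K * t) * (T.S ω' t - T.S ω t) = Real.exp (-K * t) *
            (-(K * (T.Φ ω' t - T.Φ ω t)) + (T.S ω' t - T.S ω t)) := by ring
          rw [this]
          exact mul_nonpos_of_nonneg_of_nonpos h3.le (by linarith [h2.2])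
      have h4 := hmono hx
      simp only at h4
      rw [abs_of_nonpos (sub_nonpos.2 hx)]
      have e : Real.exp (-(K * -(x' - x))) = Real.exp (-K * x) / Real.exp (-K * x') := by
        rw [← Real.exp_sub]; congr 1; ring
      rw [e, div_mul_eq_mul_div, div_le_iff₀ (Real.exp_pos _)]
      linarith
  refine le_trans (mul_le_mul_of_nonneg_right ?_ (hnn x)) main
  have := Real.add_one_le_exp (-(K * |x' - x|))
  linarith

/-- exact comparison of two leaves in the same strip with their images -/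
theorem pair_exact (i : Bool) (ω ω' : ℕ → Bool) (x : ℝ) :
    |(T.Φ (cons i ω') x - T.Φ (cons i ω) x) *
      (1 + T.m * (T.vy x (T.Φ (cons i ω) x) - T.S ω (T.nx i x (T.Φ (cons i ω) x)) *
        T.uy x (T.Φ (cons i ω) x))) -
      T.m * (T.Φ ω' (T.nx i x (T.Φ (cons i ω') x)) - T.Φ ω (T.nx i x (T.Φ (cons i ω') x)))| ≤
      2 * T.ε * |T.Φ (cons i ω') x - T.Φ (cons i ω) x| ^ 2 := by
  have e1 := T.Φ_eq (cons i ω) x
  have e2 := T.Φ_eq (cons i ω') x
  simp only [cons_zero, tail_cons] at e1 e2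
  have hε := T.hε0
  have hε1 := T.hε1
  have hm0 := T.hm0
  have hm1 := T.hm1
  generalize T.Φ (cons i ω') x = y' at *
  generalize T.Φ (cons i ω) x = y at *
  have hX := T.nx_sub_le i x x y y'
  have tu := T.hu.taylor x y x y'
  have tv := T.hv.taylor x y x y'
  simp only [sub_self, abs_zero, mul_zero, zero_add, sub_zero] at hX tu tv
  have hq := T.quad' ω (T.nx i x y) (T.nx i x y')
  have hs := T.S_bound ω (T.nx i x y)
  have hXe : T.nx i x y' - T.nx i x y = T.u x y' - T.u x y := by unfold nx; ring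
  generalize T.Φ ω (T.nx i x y') = a' at *
  generalize T.Φ ω (T.nx i x y) = a at *
  generalize T.S ω (T.nx i x y) = s at *
  generalize T.Φ ω' (T.nx i x y') = b' at *
  rw [hXe] at hq hX
  have e : (y' - y) * (1 + T.m * (T.vy x y - s * T.uy x y)) - T.m * (b' - a') =
      T.m * ((a' - a - s * (T.u x y' - T.u x y)) + s * (T.u x y' - T.u x y - T.uy x y * (y' - y)) -
        (T.v x y' - T.v x y - T.vy x y * (y' - y))) := by
    linear_combination e2 - e1
  rw [e, abs_mul, abs_of_nonneg (by linarith : 0 ≤ T.m)]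
  have hδ : 0 ≤ |y' - y| ^ 2 := by positivity
  have h1 : 4 * T.ε * |T.u x y' - T.u x y| ^ 2 ≤ T.ε * |y' - y| ^ 2 := by
    have : |T.u x y' - T.u x y| ^ 2 ≤ (T.ε * |y' - y|) ^ 2 :=
      pow_le_pow_left₀ (abs_nonneg _) hX 2
    have h12 : (T.ε * |y' - y|) ^ 2 = T.ε * T.ε * |y' - y| ^ 2 := by ring
    have h13 : T.ε * T.ε * |y' - y| ^ 2 ≤ (1/4) * |y' - y| ^ 2 :=
      mul_le_mul_of_nonneg_right (by nlinarith) hδ
    nlinarith
  have h2 : |s * (T.u x y' - T.u x y - T.uy x y * (y' - y))| ≤ T.ε * |y' - y| ^ 2 := by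
    rw [abs_mul]
    calc |s| * _ ≤ 1 * (T.ε * |y' - y| ^ 2) :=
          mul_le_mul (hs.trans (by linarith)) tu (abs_nonneg _) zero_le_one
      _ = _ := one_mul _
  have h3 : |(a' - a - s * (T.u x y' - T.u x y)) + s * (T.u x y' - T.u x y - T.uy x y * (y' - y)) -
        (T.v x y' - T.v x y - T.vy x y * (y' - y))| ≤ 3 * (T.ε * |y' - y| ^ 2) := by
    refine (abs_sub _ _).trans ?_
    have := abs_add_le (a' - a - s * (T.u x y' - T.u x y))
      (s * (T.u x y' - T.u x y - T.uy x y * (y' - y)))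
    linarith
  have h4 : 0 ≤ T.ε * |y' - y| ^ 2 := by positivity
  calc T.m * _ ≤ (1/2) * (3 * (T.ε * |y' - y| ^ 2)) :=
        mul_le_mul (by linarith) h3 (abs_nonneg _) (by norm_num)
    _ ≤ _ := by linarith

/-- the factors in `pair_exact` are nearly the same for nearby leaves. -/
theorem factor_sub (i : Bool) (ω ω' : ℕ → Bool) (x : ℝ) :
    |(1 + T.m * (T.vy x (T.Φ (cons i ω') x) - T.S ω' (T.nx i x (T.Φ (cons i ω') x)) *
        T.uy x (T.Φ (cons i ω') x))) -
      (1 + T.m * (T.vy x (T.Φ (cons i ω) x) - T.S ω (T.nx i x (T.Φ (cons i ω) x)) *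
        T.uy x (T.Φ (cons i ω) x)))| ≤ T.ε * |T.Φ (cons i ω') x - T.Φ (cons i ω) x| := by
  have hp := T.pair i ω ω' x
  have hK := T.K ω ω' (T.nx i x (T.Φ (cons i ω') x))
  have hε := T.hε0
  have hε1 := T.hε1
  have hm0 := T.hm0
  have hm1 := T.hm1
  generalize T.Φ (cons i ω') x = y' at *
  generalize T.Φ (cons i ω) x = y at *
  have hX := T.nx_sub_le i x x y y'
  have g1 := T.hv.lipy x y x y'
  have g2 := T.hu.lipy x y x y'
  simp only [sub_self, abs_zero, mul_zero, zero_add] at hX g1 g2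
  have hSl := T.S_lip ω (T.nx i x y) (T.nx i x y')
  have hs' := T.S_bound ω' (T.nx i x y')
  have huy := T.hu.by' x y
  generalize T.Φ ω' (T.nx i x y') - T.Φ ω (T.nx i x y') = Δ at *
  generalize T.S ω' (T.nx i x y') = t' at *
  generalize T.S ω (T.nx i x y') = t'' at *
  generalize T.S ω (T.nx i x y) = t at *
  have hδ : 0 ≤ |y' - y| := abs_nonneg _
  have hmΔ : T.m * |Δ| ≤ (1 + T.ε) * |y' - y| := by
    have h1 : T.m * |Δ| = |T.m * Δ| := by rw [abs_mul, abs_of_nonneg (by linarith : 0 ≤ T.m)]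
    rw [h1]
    calc |T.m * Δ| = |(y' - y) - ((y' - y) - T.m * Δ)| := by congr 1; ring
      _ ≤ |y' - y| + |(y' - y) - T.m * Δ| := abs_sub _ _
      _ ≤ _ := by linarith
  have hΔ : |Δ| ≤ (24/10) * |y' - y| := by
    have h1 : (43/100) * |Δ| ≤ T.m * |Δ| := mul_le_mul_of_nonneg_right hm0 (abs_nonneg _)
    nlinarith
  have ht : |t' - t| ≤ (1/2) * |y' - y| := by
    have a1 : |t' - t''| ≤ 240 * T.ε * |y' - y| := by
      refine hK.trans ?_
      have := mul_le_mul_of_nonneg_left hΔ (by linarith : 0 ≤ 100 * T.ε)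
      linarith
    have a2 : |t'' - t| ≤ T.ε * |y' - y| := by
      refine hSl.trans ?_
      calc 8 * T.ε * _ ≤ 8 * T.ε * (T.ε * |y' - y|) :=
            mul_le_mul_of_nonneg_left hX (by linarith)
        _ ≤ 1 * (T.ε * |y' - y|) := mul_le_mul_of_nonneg_right (by linarith) (by positivity)
        _ = _ := one_mul _
    calc |t' - t| = |(t' - t'') + (t'' - t)| := by congr 1; ring
      _ ≤ |t' - t''| + |t'' - t| := abs_add_le _ _
      _ ≤ 241 * T.ε * |y' - y| := by linarith
      _ ≤ _ := mul_le_mul_of_nonneg_right (by linarith) hδ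
  have e : (1 + T.m * (T.vy x y' - t' * T.uy x y')) - (1 + T.m * (T.vy x y - t * T.uy x y)) =
      T.m * ((T.vy x y' - T.vy x y) - (t' * (T.uy x y' - T.uy x y) + (t' - t) * T.uy x y)) := by
    ring
  rw [e, abs_mul, abs_of_nonneg (by linarith : 0 ≤ T.m)]
  have h1 : |(T.vy x y' - T.vy x y) - (t' * (T.uy x y' - T.uy x y) + (t' - t) * T.uy x y)| ≤
      2 * (T.ε * |y' - y|) := by
    refine (abs_sub _ _).trans ?_
    have a1 : |t' * (T.uy x y' - T.uy x y)| ≤ (1/2) * (T.ε * |y' - y|) := by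
      rw [abs_mul]
      exact mul_le_mul (hs'.trans (by linarith)) g2 (abs_nonneg _) (by norm_num)
    have a2 : |(t' - t) * T.uy x y| ≤ (1/2) * (T.ε * |y' - y|) := by
      rw [abs_mul]
      calc |t' - t| * |T.uy x y| ≤ ((1/2) * |y' - y|) * T.ε :=
            mul_le_mul ht huy (abs_nonneg _) (by positivity)
        _ = _ := by ring
    have a3 := abs_add_le (t' * (T.uy x y' - T.uy x y)) ((t' - t) * T.uy x y)
    linarith
  calc T.m * _ ≤ (1/2) * (2 * (T.ε * |y' - y|)) :=
        mul_le_mul (by linarith) h1 (abs_nonneg _) (by norm_num)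
    _ = _ := by ring

end Leaf

end Pool.Agent.Work.MP_f9d495_an
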