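import Pool.Agent.Work.MP_f9d495_an.Leaf4

/-!
# Gaps and bridges of the lamination by stable leaves
-/

open Filter Topology

namespace Pool.Agent.Work.MP_f9d495_an

/-- lexicographic order (non strict) -/
def Lex (ω ω' : ℕ → Bool) : Prop :=
  ω = ω' ∨ ∃ n, (∀ k < n, ω k = ω' k) ∧ ω n = false ∧ ω' n = true

theorem Lex.cons {ω ω' : ℕ → Bool} (h : Lex ω ω') (b : Bool) :
    Lex (MP_f9d495_an.cons b ω) (MP_f9d495_an.cons b ω') := by
  rcases h with rfl | ⟨n, h1, h2, h3⟩
  · exact Or.inl rfl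
  · refine Or.inr ⟨n + 1, fun k hk => ?_, h2, h3⟩
    cases k with
    | zero => rfl
    | succ k => exact h1 k (Nat.lt_of_succ_lt_succ hk)

theorem Lex.app {ω ω' : ℕ → Bool} (h : Lex ω ω') (u : List Bool) :
    Lex (MP_f9d495_an.app u ω) (MP_f9d495_an.app u ω') := by
  induction u with
  | nil => exact h
  | cons b u ih => exact ih.cons b

theorem Lex.zeros (ω : ℕ → Bool) : Lex zeros ω := by
  by_cases h : ∃ n, ω n = true
  · classical
    refine Or.inr ⟨Nat.find h, fun k hk => ?_, rfl, Nat.find_spec h⟩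
    have := Nat.find_min h hk
    simp only [Bool.not_eq_true] at this
    exact this.symm
  · left
    funext n
    push Not at h
    have := h n
    simp only [ne_eq, Bool.not_eq_true] at this
    exact this.symm

theorem Lex.ones (ω : ℕ → Bool) : Lex ω ones := by
  by_cases h : ∃ n, ω n = false
  · classical
    refine Or.inr ⟨Nat.find h, fun k hk => ?_, Nat.find_spec h, rfl⟩
    have := Nat.find_min h hk
    simp only [Bool.not_eq_false] at this
    exact this
  · left
    funext n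
    push Not at h
    have := h n
    simp only [ne_eq, Bool.not_eq_false] at this
    exact this

theorem Lex.false_true (ω ω' : ℕ → Bool) :
    Lex (MP_f9d495_an.cons false ω) (MP_f9d495_an.cons true ω') :=
  Or.inr ⟨0, fun k hk => absurd hk (Nat.not_lt_zero k), rfl, rfl⟩

namespace Leaf

variable (T : Leaf)

theorem mono {ω ω' : ℕ → Bool} (h : Lex ω ω') (x : ℝ) : T.Φ ω x ≤ T.Φ ω' x :=
  T.le_of_first h x

theorem size (u : List Bool) : ∀ (ω ω' : ℕ → Bool) (x : ℝ),
    |T.Φ (app u ω') x - T.Φ (app u ω) x| ≤ 2 * (1/2) ^ u.length := by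
  induction u with
  | nil =>
    intro ω ω' x
    have a := T.Φ_mem ω x
    have b := T.Φ_mem ω' x
    have := T.hε1
    simp only [app_nil, List.length_nil, pow_zero, mul_one]
    rw [abs_le]; constructor <;> linarith [a.1, a.2, b.1, b.2]
  | cons i u ih =>
    intro ω ω' x
    have hp := T.pair i (app u ω) (app u ω') x
    have h1 := ih ω ω' (T.nx i x (T.Φ (cons i (app u ω')) x))
    simp only [app_cons, List.length_cons]
    have hε := T.hε0
    have hε1 := T.hε1
    have hm0 := T.hm0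
    have hm1 := T.hm1
    generalize T.Φ (cons i (app u ω')) x - T.Φ (cons i (app u ω)) x = δ at *
    generalize T.Φ (app u ω') _ - T.Φ (app u ω) _ = Δ at *
    have h2 : |δ| ≤ T.m * |Δ| + T.ε * |δ| := by
      have h3 : T.m * |Δ| = |T.m * Δ| := by
        rw [abs_mul, abs_of_nonneg (by linarith : 0 ≤ T.m)]
      rw [h3]
      calc |δ| = |T.m * Δ + (δ - T.m * Δ)| := by congr 1; ring
        _ ≤ |T.m * Δ| + |δ - T.m * Δ| := abs_add_le _ _
        _ ≤ _ := by linarith
    have h4 : T.m * |Δ| ≤ (46/100) * (2 * (1/2) ^ u.length) :=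
      mul_le_mul hm1 h1 (abs_nonneg _) (by norm_num)
    have h5 : 0 < (1/2 : ℝ) ^ u.length := by positivity
    have h6 : 0 ≤ |δ| := abs_nonneg _
    have h7 : T.ε * |δ| ≤ (1/100) * |δ| := mul_le_mul_of_nonneg_right (by linarith) h6
    rw [pow_succ]
    linarith

theorem cons_nonneg (i : Bool) (a b : ℕ → Bool) (x : ℝ) (h : ∀ X, T.Φ a X ≤ T.Φ b X) :
    T.Φ (cons i a) x ≤ T.Φ (cons i b) x := by
  have hp := T.pair i a b x
  have h1 := h (T.nx i x (T.Φ (cons i b) x))
  have hε := T.hε0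
  have hε1 := T.hε1
  have hm0 := T.hm0
  generalize T.Φ (cons i b) x = y' at *
  generalize T.Φ (cons i a) x = y at *
  by_contra hc
  push Not at hc
  have h2 : |y' - y| = y - y' := by rw [abs_sub_comm]; exact abs_of_nonneg (by linarith)
  rw [h2, abs_le] at hp
  have h3 : 0 ≤ T.m * (T.Φ b (T.nx i x y') - T.Φ a (T.nx i x y')) :=
    mul_nonneg (by linarith) (by linarith)
  nlinarith [hp.1, hp.2]

theorem ratio_step (i : Bool) (a b c d : ℕ → Bool) (x ρ D : ℝ) (hρ : 0 ≤ ρ) (hD0 : 0 ≤ D)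
    (hD1 : D ≤ 2) (hab : ∀ X, T.Φ a X ≤ T.Φ b X) (hcd : ∀ X, T.Φ c X ≤ T.Φ d X)
    (hIH : ∀ X, ρ * (T.Φ d X - T.Φ c X) ≤ T.Φ b X - T.Φ a X)
    (Dab : |T.Φ (cons i b) x - T.Φ (cons i a) x| ≤ D)
    (Dcd : |T.Φ (cons i d) x - T.Φ (cons i c) x| ≤ D)
    (Dac : |T.Φ (cons i a) x - T.Φ (cons i c) x| ≤ D)
    (Dbd : |T.Φ (cons i b) x - T.Φ (cons i d) x| ≤ D) :
    ρ * (1 - 8 * (T.ε * D)) * (T.Φ (cons i d) x - T.Φ (cons i c) x) ≤
      T.Φ (cons i b) x - T.Φ (cons i a) x := by
  have hA0 := T.cons_nonneg i a b x hab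
  have hB0 := T.cons_nonneg i c d x hcd
  have Qa := T.pair_exact i a b x
  have Qc := T.pair_exact i c d x
  have Fq := T.factor_sub i c a x
  have hqa := T.den_ge x (T.Φ (cons i a) x) (T.S a (T.nx i x (T.Φ (cons i a) x)))
    ((T.S_bound _ _).trans (by linarith [T.hε1]))
  have hsp := T.spread_le c d hcd (T.nx i x (T.Φ (cons i d) x)) (T.nx i x (T.Φ (cons i b) x))
  have hX := T.nx_sub_le i x x (T.Φ (cons i d) x) (T.Φ (cons i b) x)
  simp only [sub_self, abs_zero, mul_zero, zero_add] at hX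
  have hih := hIH (T.nx i x (T.Φ (cons i b) x))
  have hcdX := hcd (T.nx i x (T.Φ (cons i d) x))
  have hε := T.hε0
  have hε1 := T.hε1
  have hm0 := T.hm0
  generalize 1 + T.m * (T.vy x (T.Φ (cons i a) x) - T.S a (T.nx i x (T.Φ (cons i a) x)) *
        T.uy x (T.Φ (cons i a) x)) = qa at *
  generalize 1 + T.m * (T.vy x (T.Φ (cons i c) x) - T.S c (T.nx i x (T.Φ (cons i c) x)) *
        T.uy x (T.Φ (cons i c) x)) = qc at *
  generalize T.nx i x (T.Φ (cons i b) x) = Xb at *
  generalize T.nx i x (T.Φ (cons i d) x) = Xd at *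
  generalize T.Φ (cons i a) x = ya at *
  generalize T.Φ (cons i b) x = yb at *
  generalize T.Φ (cons i c) x = yc at *
  generalize T.Φ (cons i d) x = yd at *
  generalize T.Φ b Xb - T.Φ a Xb = ΔA at *
  generalize T.Φ d Xb - T.Φ c Xb = ΔB at *
  have hΔB' : 0 ≤ T.Φ d Xd - T.Φ c Xd := by linarith
  generalize T.Φ d Xd - T.Φ c Xd = ΔB' at *
  have hδA : 0 ≤ yb - ya := by linarith
  have hδB : 0 ≤ yd - yc := by linarith
  generalize yb - ya = δA at *
  generalize yd - yc = δB at *
  rw [abs_of_nonneg hδA] at Dab Qa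
  rw [abs_of_nonneg hδB] at Dcd Qc
  set t := T.ε * D with ht
  have ht0 : 0 ≤ t := by positivity
  have ht1 : t ≤ 1/1000 := by nlinarith
  have a1 : δA * qa - T.m * ΔA ≥ -(2 * t * δA) := by
    have h1 := (abs_le.1 Qa).1
    have h2 : 2 * T.ε * δA ^ 2 ≤ 2 * t * δA := by
      rw [ht, sq]
      have : T.ε * (δA * δA) ≤ T.ε * (D * δA) :=
        mul_le_mul_of_nonneg_left (mul_le_mul_of_nonneg_right Dab hδA) hε.le
      linarith
    linarith
  have a2 : δB * qc - T.m * ΔB' ≤ 2 * t * δB := by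
    have h1 := (abs_le.1 Qc).2
    have h2 : 2 * T.ε * δB ^ 2 ≤ 2 * t * δB := by
      rw [ht, sq]
      have : T.ε * (δB * δB) ≤ T.ε * (D * δB) :=
        mul_le_mul_of_nonneg_left (mul_le_mul_of_nonneg_right Dcd hδB) hε.le
      linarith
    linarith
  have a3 : (1 - t) * ΔB' ≤ ΔB := by
    refine le_trans ?_ hsp
    refine mul_le_mul_of_nonneg_right ?_ hΔB'
    have h1 : 100 * T.ε * |Xb - Xd| ≤ 1 * t := by
      refine mul_le_mul (by linarith) ?_ (abs_nonneg _) zero_le_one
      exact hX.trans (mul_le_mul_of_nonneg_left Dbd hε.le)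
    linarith
  have a4 : |qa - qc| ≤ t := Fq.trans (mul_le_mul_of_nonneg_left Dac hε.le)
  have a5 := (abs_le.1 a4).2
  -- combine
  have b1 : ρ * ((1 - t) * ΔB') ≤ ΔA := (mul_le_mul_of_nonneg_left a3 hρ).trans hih
  have b2 : (qa - 3 * t) * δB ≤ T.m * ΔB' := by
    have : (qa - 3 * t) * δB ≤ (qc - 2 * t) * δB :=
      mul_le_mul_of_nonneg_right (by linarith) hδB
    linarith
  have b3 : ρ * ((1 - t) * ((qa - 3 * t) * δB)) ≤ T.m * ΔA := by
    have h1 : (1 - t) * ((qa - 3 * t) * δB) ≤ (1 - t) * (T.m * ΔB') :=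
      mul_le_mul_of_nonneg_left b2 (by linarith)
    have h2 := mul_le_mul_of_nonneg_left h1 hρ
    have h3 := mul_le_mul_of_nonneg_left b1 (by linarith : 0 ≤ T.m)
    linarith
  have b4 : T.m * ΔA ≤ (qa + 2 * t) * δA := by linarith
  have b5 : (1 - 8 * t) * (qa + 2 * t) ≤ (1 - t) * (qa - 3 * t) := by nlinarith
  have b6 : ρ * ((1 - 8 * t) * (qa + 2 * t)) * δB ≤ (qa + 2 * t) * δA := by
    have h1 : ρ * ((1 - 8 * t) * (qa + 2 * t)) * δB ≤ ρ * ((1 - t) * (qa - 3 * t)) * δB :=
      mul_le_mul_of_nonneg_right (mul_le_mul_of_nonneg_left b5 hρ) hδB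
    linarith
  have hq : 0 < qa + 2 * t := by linarith
  refine le_of_mul_le_mul_left ?_ hq
  calc (qa + 2 * t) * (ρ * (1 - 8 * t) * δB) = ρ * ((1 - 8 * t) * (qa + 2 * t)) * δB := by ring
    _ ≤ _ := b6

theorem ones_near (x : ℝ) : |T.Φ ones x - 1| ≤ T.ε := by
  have hε := T.hε0
  have hε1 := T.hε1
  have hm0 := T.hm0
  have hm1 := T.hm1
  have h : ∀ n : ℕ, ∀ x, |T.Φ ones x - 1| ≤ 3 * (1/2) ^ n + T.ε := by
    intro n
    induction n with
    | zero =>
      intro x
      have := T.Φ_mem ones x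
      rw [abs_le]; constructor <;> linarith [this.1, this.2]
    | succ n ih =>
      intro x
      have h1 := T.Φ_eq ones x
      have h2 := ih (T.nx true x (T.Φ ones x))
      have h3 := T.hv.bound x (T.Φ ones x)
      simp only [tail_ones] at h1
      have e : T.Φ ones x - 1 = T.m * ((T.Φ ones (T.nx true x (T.Φ ones x)) - 1) -
          T.v x (T.Φ ones x)) := by
        have : T.dd (ones 0) = 1 - T.m := rfl
        rw [this] at h1
        linear_combination h1
      rw [e, abs_mul, abs_of_nonneg (by linarith : 0 ≤ T.m)]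
      have h4 : |(T.Φ ones (T.nx true x (T.Φ ones x)) - 1) - T.v x (T.Φ ones x)| ≤
        3 * (1/2) ^ n + T.ε + T.ε := (abs_sub _ _).trans (by linarith)
      have h5 : 0 ≤ (1/2 : ℝ) ^ n := by positivity
      calc T.m * _ ≤ (46/100) * (3 * (1/2) ^ n + T.ε + T.ε) :=
            mul_le_mul hm1 h4 (abs_nonneg _) (by norm_num)
        _ ≤ _ := by rw [pow_succ]; linarith
  have h2 : Tendsto (fun n : ℕ => 3 * (1/2 : ℝ) ^ n + T.ε) atTop (𝓝 (3 * 0 + T.ε)) :=
    ((tendsto_pow_atTop_nhds_zero_of_lt_one (by norm_num) (by norm_num)).const_mul 3).add_const _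
  have := ge_of_tendsto' h2 (fun n => h n x)
  linarith

theorem zeros_near (x : ℝ) : |T.Φ zeros x| ≤ T.ε := by
  have hε := T.hε0
  have hε1 := T.hε1
  have hm0 := T.hm0
  have hm1 := T.hm1
  have h : ∀ n : ℕ, ∀ x, |T.Φ zeros x| ≤ 3 * (1/2) ^ n + T.ε := by
    intro n
    induction n with
    | zero =>
      intro x
      have := T.Φ_mem zeros x
      rw [abs_le]; constructor <;> linarith [this.1, this.2]
    | succ n ih =>
      intro x
      have h1 := T.Φ_eq zeros x
      have h2 := ih (T.nx false x (T.Φ zeros x))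
      have h3 := T.hv.bound x (T.Φ zeros x)
      simp only [tail_zeros] at h1
      have e : T.Φ zeros x = T.m * (T.Φ zeros (T.nx false x (T.Φ zeros x)) -
          T.v x (T.Φ zeros x)) := by
        have : T.dd (zeros 0) = 0 := rfl
        rw [this] at h1
        linear_combination h1
      rw [e, abs_mul, abs_of_nonneg (by linarith : 0 ≤ T.m)]
      have h4 : |T.Φ zeros (T.nx false x (T.Φ zeros x)) - T.v x (T.Φ zeros x)| ≤
        3 * (1/2) ^ n + T.ε + T.ε := (abs_sub _ _).trans (by linarith)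
      have h5 : 0 ≤ (1/2 : ℝ) ^ n := by positivity
      calc T.m * _ ≤ (46/100) * (3 * (1/2) ^ n + T.ε + T.ε) :=
            mul_le_mul hm1 h4 (abs_nonneg _) (by norm_num)
        _ ≤ _ := by rw [pow_succ]; linarith
  have h2 : Tendsto (fun n : ℕ => 3 * (1/2 : ℝ) ^ n + T.ε) atTop (𝓝 (3 * 0 + T.ε)) :=
    ((tendsto_pow_atTop_nhds_zero_of_lt_one (by norm_num) (by norm_num)).const_mul 3).add_const _
  have := ge_of_tendsto' h2 (fun n => h n x)
  linarith

theorem true_zeros_near (x : ℝ) : |T.Φ (cons true zeros) x - (1 - T.m)| ≤ T.ε := by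
  have hε := T.hε0
  have hm0 := T.hm0
  have hm1 := T.hm1
  have h1 := T.Φ_eq (cons true zeros) x
  simp only [tail_cons, cons_zero] at h1
  have h2 := T.zeros_near (T.nx true x (T.Φ (cons true zeros) x))
  have h3 := T.hv.bound x (T.Φ (cons true zeros) x)
  have e : T.Φ (cons true zeros) x - (1 - T.m) =
      T.m * (T.Φ zeros (T.nx true x (T.Φ (cons true zeros) x)) -
        T.v x (T.Φ (cons true zeros) x)) := by
    have : T.dd true = 1 - T.m := rfl
    rw [this] at h1
    linear_combination h1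
  rw [e, abs_mul, abs_of_nonneg (by linarith : 0 ≤ T.m)]
  have h4 := abs_sub (T.Φ zeros (T.nx true x (T.Φ (cons true zeros) x)))
    (T.v x (T.Φ (cons true zeros) x))
  calc T.m * _ ≤ (1/2) * (2 * T.ε) :=
        mul_le_mul (by linarith) (by linarith) (abs_nonneg _) (by norm_num)
    _ = _ := by ring

theorem false_ones_near (x : ℝ) : |T.Φ (cons false ones) x - T.m| ≤ T.ε := by
  have hε := T.hε0
  have hm0 := T.hm0
  have hm1 := T.hm1
  have h1 := T.Φ_eq (cons false ones) x
  simp only [tail_cons, cons_zero] at h1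
  have h2 := T.ones_near (T.nx false x (T.Φ (cons false ones) x))
  have h3 := T.hv.bound x (T.Φ (cons false ones) x)
  have e : T.Φ (cons false ones) x - T.m =
      T.m * ((T.Φ ones (T.nx false x (T.Φ (cons false ones) x)) - 1) -
        T.v x (T.Φ (cons false ones) x)) := by
    have : T.dd false = 0 := rfl
    rw [this] at h1
    linear_combination h1
  rw [e, abs_mul, abs_of_nonneg (by linarith : 0 ≤ T.m)]
  have h4 := abs_sub (T.Φ ones (T.nx false x (T.Φ (cons false ones) x)) - 1)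
    (T.v x (T.Φ (cons false ones) x))
  calc T.m * _ ≤ (1/2) * (2 * T.ε) :=
        mul_le_mul (by linarith) (by linarith) (abs_nonneg _) (by norm_num)
    _ = _ := by ring

/-- gap of the cylinder `u` at abscissa `x` -/
noncomputable def gap (u : List Bool) (x : ℝ) : ℝ :=
  T.Φ (app u (cons true zeros)) x - T.Φ (app u (cons false ones)) x
/-- right bridge -/
noncomputable def rbr (u : List Bool) (x : ℝ) : ℝ :=
  T.Φ (app u ones) x - T.Φ (app u (cons true zeros)) x
/-- left bridge -/
noncomputable def lbr (u : List Bool) (x : ℝ) : ℝ :=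
  T.Φ (app u (cons false ones)) x - T.Φ (app u zeros) x

theorem gap_nonneg (u : List Bool) (x : ℝ) : 0 ≤ T.gap u x :=
  sub_nonneg.2 (T.mono ((Lex.false_true _ _).app u) x)

theorem bridge (u : List Bool) : ∀ x, (5/2 + (1/2) ^ (u.length + 1)) * T.gap u x ≤ T.rbr u x ∧
    (5/2 + (1/2) ^ (u.length + 1)) * T.gap u x ≤ T.lbr u x := by
  induction u with
  | nil =>
    intro x
    have hε := T.hε0
    have hε1 := T.hε1
    have hm0 := T.hm0
    have a1 := abs_le.1 (T.ones_near x)
    have a2 := abs_le.1 (T.zeros_near x)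
    have a3 := abs_le.1 (T.true_zeros_near x)
    have a4 := abs_le.1 (T.false_ones_near x)
    simp only [gap, rbr, lbr, app_nil, List.length_nil]
    norm_num
    constructor <;> linarith [a1.1, a1.2, a2.1, a2.2, a3.1, a3.2, a4.1, a4.2]
  | cons i u ih =>
    intro x
    have hε := T.hε0
    have hε1 := T.hε1
    have hD0 : 0 ≤ (1/2 : ℝ) ^ u.length := by positivity
    have hD1 : (1/2 : ℝ) ^ u.length ≤ 1 := pow_le_one₀ (by norm_num) (by norm_num)
    have hsz : ∀ ω ω' : ℕ → Bool, |T.Φ (cons i (app u ω')) x - T.Φ (cons i (app u ω)) x| ≤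
        (1/2) ^ u.length := by
      intro ω ω'
      have := T.size (i :: u) ω ω' x
      simp only [app_cons, List.length_cons, pow_succ] at this
      linarith
    have hρ : (0:ℝ) ≤ 5/2 + (1/2) ^ (u.length + 1) := by positivity
    have hgap := T.gap_nonneg (i :: u) x
    have num : 5/2 + (1/2 : ℝ) ^ (u.length + 1 + 1) ≤
        (5/2 + (1/2) ^ (u.length + 1)) * (1 - 8 * (T.ε * (1/2) ^ u.length)) := by
      rw [pow_succ, pow_succ]
      set D := (1/2 : ℝ) ^ u.length
      have : T.ε * D ≤ (1/100000) * D := mul_le_mul_of_nonneg_right hε1 hD0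
      nlinarith
    constructor
    · have h := T.ratio_step i (app u (cons true zeros)) (app u ones) (app u (cons false ones))
        (app u (cons true zeros)) x _ ((1/2) ^ u.length) hρ hD0 (by linarith)
        (fun X => T.mono ((Lex.ones _).app u) X)
        (fun X => T.mono ((Lex.false_true _ _).app u) X) (fun X => (ih X).1)
        (hsz _ _) (hsz _ _) (hsz _ _) (hsz _ _)
      refine le_trans ?_ h
      exact mul_le_mul_of_nonneg_right num hgap
    · have h := T.ratio_step i (app u zeros) (app u (cons false ones)) (app u (cons false ones))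
        (app u (cons true zeros)) x _ ((1/2) ^ u.length) hρ hD0 (by linarith)
        (fun X => T.mono ((Lex.zeros _).app u) X)
        (fun X => T.mono ((Lex.false_true _ _).app u) X) (fun X => (ih X).2)
        (hsz _ _) (hsz _ _) (hsz _ _) (hsz _ _)
      refine le_trans ?_ h
      exact mul_le_mul_of_nonneg_right num hgap

/-- Bounded distortion: bridges are at least `9/4` times the gap, also if they are measured at
different places. -/
theorem bridge_far (u : List Bool) (x x' : ℝ) (h : |x' - x| ≤ 40) :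
    (9/4) * T.gap u x' ≤ T.rbr u x ∧ (9/4) * T.gap u x' ≤ T.lbr u x := by
  have hb := T.bridge u x
  have hsp := T.spread_le (app u (cons false ones)) (app u (cons true zeros))
    (fun X => T.mono ((Lex.false_true _ _).app u) X) x' x
  have hg' := T.gap_nonneg u x'
  have hg := T.gap_nonneg u x
  have hε := T.hε0
  have hε1 := T.hε1
  have h1 : (1 - 100 * T.ε * |x - x'|) * T.gap u x' ≤ T.gap u x := hsp
  have h2 : 96/100 ≤ 1 - 100 * T.ε * |x - x'| := by
    rw [abs_sub_comm]
    nlinarith [abs_nonneg (x' - x)]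
  have h3 : (96/100) * T.gap u x' ≤ T.gap u x :=
    (mul_le_mul_of_nonneg_right h2 hg').trans h1
  have h4 : (0:ℝ) ≤ (1/2) ^ (u.length + 1) := by positivity
  have h5 : (5/2) * T.gap u x ≤ (5/2 + (1/2) ^ (u.length + 1)) * T.gap u x :=
    mul_le_mul_of_nonneg_right (by linarith) hg
  constructor <;> linarith [hb.1, hb.2]

end Leaf

end Pool.Agent.Work.MP_f9d495_an
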