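import Pool.Agent.Work.MP_f9d495_an.Pert

/-!
# Dynamics along the leaves
-/

open Filter Topology Set

namespace Pool.Agent.Work.MP_f9d495_an

/-- the tangent spaces are invariant (general fact) -/
theorem map_stableTangent {G Gi : Plane → Plane} {g : Equiv.Perm Torus} (hG : IsLift 1 G g)
    (hGi : IsLift 1 Gi g.symm) (z : Torus) :
    (stableTangent g z).map (tderiv g z : Plane →ₗ[ℝ] Plane) = stableTangent g (g z) := by
  ext w
  rw [Submodule.mem_map]
  constructor
  · rintro ⟨v, hv, rfl⟩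
    change Tendsto (fun n : ℕ => tderiv (g ^ n : Equiv.Perm Torus) (g z) (tderiv g z v)) atTop (𝓝 0)
    have hv' : Tendsto (fun n : ℕ => tderiv (g ^ n : Equiv.Perm Torus) z v) atTop (𝓝 0) := hv
    have h2 := (tendsto_add_atTop_iff_nat 1).2 hv'
    refine h2.congr (fun n => ?_)
    rw [tderiv_pow_succ' hG]
    rfl
  · intro hw
    refine ⟨tderiv g.symm (g z) w, ?_, ?_⟩
    · change Tendsto (fun n : ℕ => tderiv (g ^ n : Equiv.Perm Torus) z (tderiv g.symm (g z) w))
        atTop (𝓝 0)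
      rw [← tendsto_add_atTop_iff_nat 1]
      have hw' : Tendsto (fun n : ℕ => tderiv (g ^ n : Equiv.Perm Torus) (g z) w) atTop (𝓝 0) := hw
      refine hw'.congr (fun n => ?_)
      rw [tderiv_pow_succ' hG]
      have := congrArg (fun L : Plane →L[ℝ] Plane => L w) (tderiv_comp_inv hG hGi z)
      simp only [ContinuousLinearMap.comp_apply, ContinuousLinearMap.id_apply] at this
      rw [ContinuousLinearMap.comp_apply, this]
    · have := congrArg (fun L : Plane →L[ℝ] Plane => L w) (tderiv_comp_inv hG hGi z)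
      simpa using this

theorem map_unstableTangent {G Gi : Plane → Plane} {g : Equiv.Perm Torus} (hG : IsLift 1 G g)
    (hGi : IsLift 1 Gi g.symm) (z : Torus) :
    (unstableTangent g z).map (tderiv g z : Plane →ₗ[ℝ] Plane) = unstableTangent g (g z) := by
  have hinv : g⁻¹ = g.symm := rfl
  have hGi' : IsLift 1 Gi (g⁻¹ : Equiv.Perm Torus) := hGi
  have hG' : IsLift 1 G (g⁻¹ : Equiv.Perm Torus).symm := by
    rw [hinv, Equiv.symm_symm]; exact hG
  have h := map_stableTangent hGi' hG' (g z)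
  have e : (g⁻¹ : Equiv.Perm Torus) (g z) = z := by simp
  rw [e] at h
  rw [unstableTangent, unstableTangent, ← h, ← Submodule.map_comp]
  have e2 : (tderiv g z : Plane →ₗ[ℝ] Plane) ∘ₗ
      (tderiv (g⁻¹ : Equiv.Perm Torus) (g z) : Plane →ₗ[ℝ] Plane) = LinearMap.id := by
    refine LinearMap.ext fun v => ?_
    exact congrArg (fun L : Plane →L[ℝ] Plane => L v) (tderiv_comp_inv hG hGi z)
  rw [e2, Submodule.map_id]

namespace C11

/-- A `C11` function is differentiable. -/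
theorem hasFDerivAt {ε : ℝ} {u ux uy : ℝ → ℝ → ℝ} (h : C11 ε u ux uy) (x y : ℝ) :
    HasFDerivAt (fun z : Plane => u z.1 z.2)
      (ux x y • ContinuousLinearMap.fst ℝ ℝ ℝ + uy x y • ContinuousLinearMap.snd ℝ ℝ ℝ) (x, y) := by
  rw [hasFDerivAt_iff_isLittleO, Asymptotics.isLittleO_iff]
  intro c hc
  have hε : 0 ≤ ε := le_trans (abs_nonneg _) (h.bound 0 0)
  have hpos : 0 < c / (4 * (ε + 1)) := by positivity
  filter_upwards [Metric.ball_mem_nhds ((x, y) : Plane) hpos] with z hz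
  rw [Metric.mem_ball, dist_eq_norm] at hz
  have ht := h.taylor x y z.1 z.2
  have h1 : |z.1 - x| ≤ ‖z - (x, y)‖ := norm_fst_le (z - ((x, y) : Plane))
  have h2 : |z.2 - y| ≤ ‖z - (x, y)‖ := norm_snd_le (z - ((x, y) : Plane))
  have h0 : 0 ≤ ‖z - ((x, y) : Plane)‖ := norm_nonneg _
  have hsq : (|z.1 - x| + |z.2 - y|) ^ 2 ≤ (2 * ‖z - ((x, y) : Plane)‖) ^ 2 := by
    apply pow_le_pow_left₀ (by positivity)
    linarith
  have e : u z.1 z.2 - u ((x, y) : Plane).1 ((x, y) : Plane).2 -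
      (ux x y • ContinuousLinearMap.fst ℝ ℝ ℝ + uy x y • ContinuousLinearMap.snd ℝ ℝ ℝ)
        (z - (x, y)) = u z.1 z.2 - u x y - ux x y * (z.1 - x) - uy x y * (z.2 - y) := by
    simp; ring
  rw [e, Real.norm_eq_abs]
  rw [lt_div_iff₀ (by positivity)] at hz
  calc _ ≤ ε * (|z.1 - x| + |z.2 - y|) ^ 2 := ht
    _ ≤ ε * (2 * ‖z - ((x, y) : Plane)‖) ^ 2 := mul_le_mul_of_nonneg_left hsq hε
    _ = (‖z - ((x, y) : Plane)‖ * (4 * ε)) * ‖z - ((x, y) : Plane)‖ := by ring
    _ ≤ c * ‖z - ((x, y) : Plane)‖ := by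
        apply mul_le_mul_of_nonneg_right _ h0
        nlinarith

end C11

namespace Leaf
variable (T : Leaf)

theorem Box.big {T : Leaf} {i : Bool} {x y : ℝ} (h : T.Box i x y) : T.BigBox i x y := by
  obtain ⟨h0, h1, h2, h3⟩ := h
  exact ⟨by linarith, by linarith, by linarith, by linarith⟩

/-- boxes are in the interior of the big boxes -/
theorem Box.eventually_big {T : Leaf} {i : Bool} {x y : ℝ} (h : T.Box i x y) :
    ∀ᶠ z : Plane in 𝓝 (x, y), T.BigBox i z.1 z.2 := by
  obtain ⟨h0, h1, h2, h3⟩ := h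
  filter_upwards [Metric.ball_mem_nhds ((x, y) : Plane) (show (0:ℝ) < 1/2000 by norm_num)]
    with z hz
  rw [Metric.mem_ball, dist_eq_norm] at hz
  have h1' : |z.1 - x| ≤ ‖z - (x, y)‖ := norm_fst_le (z - ((x, y) : Plane))
  have h2' : |z.2 - y| ≤ ‖z - (x, y)‖ := norm_snd_le (z - ((x, y) : Plane))
  rw [abs_le] at h1' h2'
  exact ⟨by linarith, by linarith, by linarith, by linarith⟩

/-- slope relation along the leaf -/
theorem slope_rel (ω : ℕ → Bool) (x : ℝ) :
    T.vx x (T.Φ ω x) + (1 / T.m + T.vy x (T.Φ ω x)) * T.S ω x =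
      (T.l + T.ux x (T.Φ ω x) + T.uy x (T.Φ ω x) * T.S ω x) *
        T.S (tail ω) (T.nx (ω 0) x (T.Φ ω x)) := by
  have hS := T.S_eq ω x
  have hs1 : |T.S (tail ω) (T.nx (ω 0) x (T.Φ ω x))| ≤ 1 :=
    (T.S_bound _ _).trans (by linarith [T.hε1])
  have hD := T.den_ge x (T.Φ ω x) _ hs1
  unfold R at hS
  rw [eq_div_iff (by linarith)] at hS
  have hm : T.m ≠ 0 := by have := T.hm0; intro h; linarith
  generalize T.S (tail ω) (T.nx (ω 0) x (T.Φ ω x)) = s at *
  generalize T.Φ ω x = y at *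
  generalize T.S ω x = S at *
  have : T.m * (T.vx x y + (1 / T.m + T.vy x y) * S) =
      T.m * ((T.l + T.ux x y + T.uy x y * S) * s) := by
    have e : T.m * (T.vx x y + (1 / T.m + T.vy x y) * S) =
      T.m * T.vx x y + S + T.m * T.vy x y * S := by field_simp; ring
    rw [e]
    linear_combination hS
  exact mul_left_cancel₀ hm this

end Leaf

namespace LeafMap
variable {T : Leaf} {g : Equiv.Perm Torus} {E : Plane →L[ℝ] Plane} (M : LeafMap T g E)
include M

/-- one step in a box -/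
theorem apply_box (i : Bool) {x y : ℝ} (h : T.Box i x y) :
    g (cov (E (x, y))) = cov (E (T.nx i x y, T.ny i x y)) := by
  rw [← M.loc i x y h.big, M.lift.2]

/-- derivative in a box: the columns are `(l + ux, vx)` and `(uy, 1/m + vy)` -/
theorem tderiv_box (i : Bool) {x y : ℝ} (h : T.Box i x y) (v : Plane) :
    tderiv g (cov (E (x, y))) (E v) =
      E ((T.l + T.ux x y) * v.1 + T.uy x y * v.2, T.vx x y * v.1 + (1 / T.m + T.vy x y) * v.2) := by
  rw [tderiv_eq M.lift]
  have hd := M.lift.differentiableAt le_rfl (E (x, y))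
  have h1 : HasFDerivAt (fun z : Plane => M.G (E z)) ((fderiv ℝ M.G (E (x, y))).comp E) (x, y) :=
    hd.hasFDerivAt.comp (x, y) E.hasFDerivAt
  have hu := T.hu.hasFDerivAt x y
  have hv := T.hv.hasFDerivAt x y
  have hf : HasFDerivAt (fun z : Plane => z.1) (ContinuousLinearMap.fst ℝ ℝ ℝ) (x, y) :=
    hasFDerivAt_fst
  have hs : HasFDerivAt (fun z : Plane => z.2) (ContinuousLinearMap.snd ℝ ℝ ℝ) (x, y) :=
    hasFDerivAt_snd
  have hnx := ((hf.const_mul T.l).const_add (T.cc i)).add hu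
  have hny := ((hs.sub_const (T.dd i)).mul_const (1 / T.m)).add hv
  have hp := hnx.prodMk hny
  have hE2 : ∀ q : Plane, HasFDerivAt E E q := fun q => E.hasFDerivAt
  have h2 := (hE2 _).comp (x, y) hp
  have h3 : (fun z : Plane => M.G (E z)) =ᶠ[𝓝 (x, y)]
      (fun z : Plane => E (T.nx i z.1 z.2, T.ny i z.1 z.2)) := by
    filter_upwards [h.eventually_big] with z hz
    exact M.loc i z.1 z.2 hz
  have h4 := h1.congr_of_eventuallyEq h3.symm
  have h5 := h2.congr_of_eventuallyEq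
    (f₁ := fun z : Plane => E (T.nx i z.1 z.2, T.ny i z.1 z.2)) (Eventually.of_forall fun z => by
      simp only [Function.comp_apply, Leaf.nx, Leaf.ny, Pi.add_apply]
      congr 2
      ring)
  have h6 := h4.unique h5
  have h7 := congrArg (fun L : Plane →L[ℝ] Plane => L v) h6
  simp only [ContinuousLinearMap.comp_apply] at h7
  rw [h7]
  congr 1
  simp
  constructor <;> ring

theorem apply_leaf (ω : ℕ → Bool) {x : ℝ} (h0 : -(1/1000) ≤ x) (h1 : x ≤ 1 + 1/1000) :
    g (cov (E (x, T.Φ ω x))) =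
      cov (E (T.nx (ω 0) x (T.Φ ω x), T.Φ (tail ω) (T.nx (ω 0) x (T.Φ ω x)))) := by
  rw [M.apply_box (ω 0) (T.box_leaf ω h0 h1), T.ny_leaf]

theorem dist_cov_E_le (z z' : Plane) : dist (cov (E z)) (cov (E z')) ≤ M.s * ‖z - z'‖ := by
  refine (dist_cov_le _ _).trans ?_
  rw [dist_eq_norm, ← map_sub, M.hE]

theorem dist_pow_le (n : ℕ) : ∀ (ω : ℕ → Bool) (x x' : ℝ), -(1/1000) ≤ x → x ≤ 1 + 1/1000 →
    -(1/1000) ≤ x' → x' ≤ 1 + 1/1000 →
    dist ((g ^ n) (cov (E (x, T.Φ ω x)))) ((g ^ n) (cov (E (x', T.Φ ω x')))) ≤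
      M.s * ((1/2) ^ n * |x - x'|) := by
  induction n with
  | zero =>
    intro ω x x' _ _ _ _
    simp only [pow_zero, Equiv.Perm.coe_one, id_eq, one_mul]
    refine (M.dist_cov_E_le _ _).trans ?_
    refine mul_le_mul_of_nonneg_left ?_ M.hs.le
    have h := T.Φ_lip ω x' x
    have hε := T.hε0
    have hε1 := T.hε1
    rw [Prod.norm_def]
    refine max_le ?_ ?_
    · simp
    · simp only [Prod.snd_sub, Real.norm_eq_abs]
      refine h.trans ?_
      nlinarith [abs_nonneg (x - x')]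
  | succ n ih =>
    intro ω x x' h0 h1 h0' h1'
    rw [pow_succ, Equiv.Perm.mul_apply, Equiv.Perm.mul_apply, M.apply_leaf ω h0 h1,
      M.apply_leaf ω h0' h1']
    have m1 := T.nx_mem (ω 0) (T.Φ ω x) h0 h1
    have m2 := T.nx_mem (ω 0) (T.Φ ω x') h0' h1'
    refine (ih (tail ω) _ _ m1.1 m1.2 m2.1 m2.2).trans ?_
    refine mul_le_mul_of_nonneg_left ?_ M.hs.le
    have hn := T.nx_sub_le (ω 0) x' x (T.Φ ω x') (T.Φ ω x)
    have h := T.Φ_lip ω x' x
    have hε := T.hε0
    have hε1 := T.hε1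
    have hl1 := T.hl1
    have ha := abs_nonneg (x - x')
    have hk : |T.nx (ω 0) x (T.Φ ω x) - T.nx (ω 0) x' (T.Φ ω x')| ≤ (1/2) * |x - x'| := by
      have e1 : T.ε * |T.Φ ω x - T.Φ ω x'| ≤ T.ε * (4 * T.ε * |x - x'|) :=
        mul_le_mul_of_nonneg_left h hε.le
      have e2 : T.ε * (4 * T.ε * |x - x'|) ≤ (1/100) * |x - x'| := by
        have : T.ε * (4 * T.ε * |x - x'|) = (T.ε * (4 * T.ε)) * |x - x'| := by ring
        rw [this]
        exact mul_le_mul_of_nonneg_right (by nlinarith) ha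
      have e3 : (T.l + T.ε) * |x - x'| ≤ (47/100) * |x - x'| :=
        mul_le_mul_of_nonneg_right (by linarith) ha
      linarith
    have : (0:ℝ) ≤ (1/2) ^ n := by positivity
    rw [pow_succ]
    calc (1/2) ^ n * |T.nx (ω 0) x (T.Φ ω x) - T.nx (ω 0) x' (T.Φ ω x')| ≤
        (1/2) ^ n * ((1/2) * |x - x'|) := mul_le_mul_of_nonneg_left hk this
      _ = _ := by ring

/-- points on the same leaf are forward asymptotic -/
theorem mem_stableSet (ω : ℕ → Bool) {x x' : ℝ} (h0 : -(1/1000) ≤ x) (h1 : x ≤ 1 + 1/1000)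
    (h0' : -(1/1000) ≤ x') (h1' : x' ≤ 1 + 1/1000) :
    cov (E (x, T.Φ ω x)) ∈ stableSet g (cov (E (x', T.Φ ω x'))) := by
  change Tendsto _ _ _
  have hlim : Tendsto (fun n : ℕ => M.s * ((1/2 : ℝ) ^ n * |x - x'|)) atTop (𝓝 0) := by
    have := ((tendsto_pow_atTop_nhds_zero_of_lt_one (by norm_num : (0:ℝ) ≤ 1/2)
      (by norm_num)).mul_const |x - x'|).const_mul M.s
    simpa using this
  exact squeeze_zero (fun n => dist_nonneg) (fun n => M.dist_pow_le n ω x x' h0 h1 h0' h1') hlim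

/-- the tangent vector of the leaf is mapped to a small multiple of the tangent vector -/
theorem tderiv_leaf (ω : ℕ → Bool) {x : ℝ} (h0 : -(1/1000) ≤ x) (h1 : x ≤ 1 + 1/1000) :
    tderiv g (cov (E (x, T.Φ ω x))) (E (1, T.S ω x)) =
      (T.l + T.ux x (T.Φ ω x) + T.uy x (T.Φ ω x) * T.S ω x) •
        E (1, T.S (tail ω) (T.nx (ω 0) x (T.Φ ω x))) := by
  rw [M.tderiv_box (ω 0) (T.box_leaf ω h0 h1), ← map_smul]
  congr 1
  have h := T.slope_rel ω x
  ext
  · simp
  · simp only [Prod.smul_snd, smul_eq_mul, mul_one]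
    linarith

theorem norm_tan (ω : ℕ → Bool) (x : ℝ) : ‖E (1, T.S ω x)‖ = M.s := by
  rw [M.hE, Prod.norm_def]
  have h1 := T.S_bound ω x
  have h2 := T.hε1
  have : max ‖((1 : ℝ), T.S ω x).1‖ ‖((1 : ℝ), T.S ω x).2‖ = 1 := by
    simp only [norm_one, Real.norm_eq_abs]
    exact max_eq_left (by linarith)
  rw [this, mul_one]

/-- the tangent vectors of the leaves are contracted -/
theorem tderiv_pow_leaf (ω : ℕ → Bool) {x : ℝ} (h0 : -(1/1000) ≤ x) (h1 : x ≤ 1 + 1/1000)
    (n : ℕ) : ‖tderiv (g ^ n : Equiv.Perm Torus) (cov (E (x, T.Φ ω x))) (E (1, T.S ω x))‖ ≤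
      (1/2) ^ n * ‖E (1, T.S ω x)‖ := by
  induction n generalizing ω x with
  | zero =>
    rw [tderiv_pow_zero]
    simp
  | succ n ih =>
    have m1 := T.nx_mem (ω 0) (T.Φ ω x) h0 h1
    have := ih (tail ω) m1.1 m1.2
    rw [tderiv_pow_succ' M.lift, ContinuousLinearMap.comp_apply, M.tderiv_leaf ω h0 h1, map_smul,
      norm_smul, M.apply_leaf ω h0 h1]
    rw [M.norm_tan] at this ⊢
    have hux := abs_le.1 (T.hu.bx x (T.Φ ω x))
    have huy := T.hu.by' x (T.Φ ω x)
    have hS := T.S_bound ω x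
    have hε := T.hε0
    have hε1 := T.hε1
    have hl0 := T.hl0
    have hl1 := T.hl1
    have h3 : |T.uy x (T.Φ ω x) * T.S ω x| ≤ 1/100 := by
      rw [abs_mul]
      calc _ ≤ T.ε * (2 * T.ε) := mul_le_mul huy hS (abs_nonneg _) hε.le
        _ ≤ 1/100 := by nlinarith
    have h4 : ‖T.l + T.ux x (T.Φ ω x) + T.uy x (T.Φ ω x) * T.S ω x‖ ≤ 1/2 := by
      rw [Real.norm_eq_abs, abs_le]
      have := abs_le.1 h3
      constructor <;> linarith [this.1, this.2, hux.1, hux.2]
    calc _ ≤ (1/2) * ((1/2) ^ n * M.s) := mul_le_mul h4 this (norm_nonneg _) (by norm_num)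
      _ = _ := by rw [pow_succ]; ring

/-- the transverse component is expanded -/
theorem le_tderiv_pow (n : ℕ) : ∀ (ω : ℕ → Bool) (x : ℝ), -(1/1000) ≤ x → x ≤ 1 + 1/1000 →
    ∀ w : Plane, M.s / 2 * (2 ^ n * |w.2 - T.S ω x * w.1|) ≤
      ‖tderiv (g ^ n : Equiv.Perm Torus) (cov (E (x, T.Φ ω x))) (E w)‖ := by
  induction n with
  | zero =>
    intro ω x _ _ w
    rw [tderiv_pow_zero]
    simp only [pow_zero, one_mul, ContinuousLinearMap.id_apply, M.hE]
    have hS := T.S_bound ω x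
    have hε1 := T.hε1
    have h1 : |w.1| ≤ ‖w‖ := norm_fst_le w
    have h2 : |w.2| ≤ ‖w‖ := norm_snd_le w
    have h3 : |T.S ω x * w.1| ≤ ‖w‖ := by
      rw [abs_mul]
      calc _ ≤ 1 * ‖w‖ := mul_le_mul (by linarith) h1 (abs_nonneg _) zero_le_one
        _ = _ := one_mul _
    have h4 := abs_sub w.2 (T.S ω x * w.1)
    have hs := M.hs
    nlinarith
  | succ n ih =>
    intro ω x h0 h1 w
    have m1 := T.nx_mem (ω 0) (T.Φ ω x) h0 h1
    rw [tderiv_pow_succ' M.lift, ContinuousLinearMap.comp_apply,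
      M.tderiv_box (ω 0) (T.box_leaf ω h0 h1), M.apply_leaf ω h0 h1]
    refine le_trans ?_ (ih (tail ω) _ m1.1 m1.2 _)
    simp only
    have hrel := T.slope_rel ω x
    have hS' := T.S_bound (tail ω) (T.nx (ω 0) x (T.Φ ω x))
    have huy := T.hu.by' x (T.Φ ω x)
    have hvy := abs_le.1 (T.hv.by' x (T.Φ ω x))
    generalize T.S (tail ω) (T.nx (ω 0) x (T.Φ ω x)) = s' at *
    generalize T.Φ ω x = y at *
    generalize T.S ω x = S at *
    have e : T.vx x y * w.1 + (1 / T.m + T.vy x y) * w.2 -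
        s' * ((T.l + T.ux x y) * w.1 + T.uy x y * w.2) =
        (1 / T.m + T.vy x y - s' * T.uy x y) * (w.2 - S * w.1) := by
      linear_combination (w.1) * hrel
    rw [e, abs_mul]
    have hε := T.hε0
    have hε1 := T.hε1
    have hm0 := T.hm0
    have hm1 := T.hm1
    have h3 : |s' * T.uy x y| ≤ 1/100 := by
      rw [abs_mul]
      calc _ ≤ (2 * T.ε) * T.ε := mul_le_mul hS' huy (abs_nonneg _) (by linarith)
        _ ≤ 1/100 := by nlinarith
    have h4 := abs_le.1 h3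
    have h5 : 100/46 ≤ 1 / T.m := by
      rw [le_div_iff₀ (by linarith)]
      linarith
    have h6 : 2 ≤ |1 / T.m + T.vy x y - s' * T.uy x y| := by
      refine le_trans ?_ (le_abs_self _)
      linarith [h4.1, h4.2, hvy.1, hvy.2]
    have hs := M.hs
    have h7 : 0 ≤ |w.2 - S * w.1| := abs_nonneg _
    refine mul_le_mul_of_nonneg_left ?_ (by linarith)
    rw [pow_succ, mul_assoc]
    exact mul_le_mul_of_nonneg_left (mul_le_mul_of_nonneg_right h6 h7) (by positivity)

theorem E_surjective : Function.Surjective E := by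
  have hinj : Function.Injective (E : Plane →ₗ[ℝ] Plane) := by
    rw [← LinearMap.ker_eq_bot, LinearMap.ker_eq_bot']
    intro z hz
    have h := M.hE z
    have hz' : E z = 0 := hz
    rw [hz', norm_zero] at h
    have hs := M.hs
    have : ‖z‖ = 0 := by
      rcases mul_eq_zero.1 h.symm with h | h
      · linarith
      · exact h
    exact norm_eq_zero.1 this
  exact (LinearMap.injective_iff_surjective.1 hinj)

/-- only multiples of `(1,S)` are contracted. -/
theorem stableTangent_eq (ω : ℕ → Bool) {x : ℝ} (h0 : -(1/1000) ≤ x) (h1 : x ≤ 1 + 1/1000) :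
    stableTangent g (cov (E (x, T.Φ ω x))) = Submodule.span ℝ {E (1, T.S ω x)} := by
  apply le_antisymm
  · intro v hv
    have hv' : Tendsto (fun n : ℕ => tderiv (g ^ n : Equiv.Perm Torus)
      (cov (E (x, T.Φ ω x))) v) atTop (𝓝 0) := hv
    obtain ⟨w, rfl⟩ := M.E_surjective v
    rw [Submodule.mem_span_singleton]
    refine ⟨w.1, ?_⟩
    rw [← map_smul]
    congr 1
    have ht : |w.2 - T.S ω x * w.1| = 0 := by
      by_contra hne
      have hpos : 0 < |w.2 - T.S ω x * w.1| := lt_of_le_of_ne (abs_nonneg _) (Ne.symm hne)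
      have h2 := hv'.norm
      rw [norm_zero] at h2
      have hs := M.hs
      have h3 : ∀ n : ℕ, M.s / 2 * |w.2 - T.S ω x * w.1| ≤
          ‖tderiv (g ^ n : Equiv.Perm Torus) (cov (E (x, T.Φ ω x))) (E w)‖ := by
        intro n
        refine le_trans ?_ (M.le_tderiv_pow n ω x h0 h1 w)
        refine mul_le_mul_of_nonneg_left ?_ (by linarith)
        have : (1:ℝ) ≤ 2 ^ n := one_le_pow₀ (by norm_num)
        nlinarith
      have h4 := ge_of_tendsto' h2 h3
      have : 0 < M.s / 2 * |w.2 - T.S ω x * w.1| := by positivity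
      linarith
    rw [abs_eq_zero] at ht
    ext
    · simp
    · simp only [Prod.smul_snd, smul_eq_mul]
      linarith
  · rw [Submodule.span_singleton_le_iff_mem]
    change Tendsto (fun n : ℕ => tderiv (g ^ n : Equiv.Perm Torus)
      (cov (E (x, T.Φ ω x))) (E (1, T.S ω x))) atTop (𝓝 0)
    have hlim : Tendsto (fun n : ℕ => (1/2 : ℝ) ^ n * ‖E (1, T.S ω x)‖) atTop (𝓝 0) := by
      have := (tendsto_pow_atTop_nhds_zero_of_lt_one (by norm_num : (0:ℝ) ≤ 1/2)
        (by norm_num)).mul_const ‖E (1, T.S ω x)‖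
      simpa using this
    exact squeeze_zero_norm (fun n => M.tderiv_pow_leaf ω h0 h1 n) hlim

end LeafMap

end Pool.Agent.Work.MP_f9d495_an
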