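import Pool.Agent.Work.MP_f9d495_an.Pert

/-!
# Block T: the hyperbolic set is transitive (it has a dense forward orbit)
-/

open Filter Topology Set

namespace Pool.Agent.Work.MP_f9d495_an

/-! ### A sequence containing all words -/

/-- A sequence in which every finite word occurs. -/
theorem exists_universal : ∃ ω : ℕ → Bool, ∀ (N : ℕ) (u : ℕ → Bool), ∃ n, ∀ j < N, ω (n + j) = u j := by
  let f : ℕ → List Bool := fun c => ((Encodable.decode (α := List Bool) c).getD [])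
  let ω : ℕ → Bool := fun n =>
    (f (Nat.unpair (Nat.sqrt n)).1).getD (n - Nat.sqrt n * Nat.sqrt n) false
  refine ⟨ω, fun N u => ?_⟩
  let w : List Bool := (List.range N).map u
  have hw : w.length = N := by simp [w]
  let k := Nat.pair (Encodable.encode w) N
  have hk : N ≤ k := Nat.right_le_pair _ _
  refine ⟨k * k, fun j hj => ?_⟩
  have hs : Nat.sqrt (k * k + j) = k := Nat.sqrt_add_eq k (by omega)
  have hu : (Nat.unpair k).1 = Encodable.encode w := by
    simp [k]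
  have hf : f (Encodable.encode w) = w := by
    simp [f]
  simp only [ω, hs, hu, hf]
  have e : k * k + j - k * k = j := by omega
  rw [e, List.getD_eq_getElem _ _ (by omega)]
  simp [w]

/-! ### Codes agreeing on a long initial segment -/

/-- the first `N` symbols -/
def takeW : ℕ → (ℕ → Bool) → List Bool
  | 0, _ => []
  | N + 1, ω => ω 0 :: takeW N (tail ω)

/-- drop `N` symbols -/
def dropW : ℕ → (ℕ → Bool) → (ℕ → Bool)
  | 0, ω => ω
  | N + 1, ω => dropW N (tail ω)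

theorem takeW_length (N : ℕ) : ∀ ω, (takeW N ω).length = N := by
  induction N with
  | zero => intro ω; rfl
  | succ N ih => intro ω; simp [takeW, ih]

theorem app_takeW (N : ℕ) : ∀ ω, app (takeW N ω) (dropW N ω) = ω := by
  induction N with
  | zero => intro ω; rfl
  | succ N ih =>
    intro ω
    simp only [takeW, dropW, app_cons, ih]
    exact cons_tail ω

theorem takeW_congr (N : ℕ) : ∀ ω ω', (∀ k < N, ω k = ω' k) → takeW N ω = takeW N ω' := by
  induction N with
  | zero => intro ω ω' _; rfl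
  | succ N ih =>
    intro ω ω' h
    simp only [takeW]
    rw [h 0 (Nat.succ_pos N), ih (tail ω) (tail ω') (fun k hk => h (k + 1) (by omega))]

theorem Leaf.size' (T : Leaf) (N : ℕ) {ω ω' : ℕ → Bool} (h : ∀ k < N, ω k = ω' k) (x : ℝ) :
    |T.Φ ω' x - T.Φ ω x| ≤ 2 * (1/2) ^ N := by
  have h1 := T.size (takeW N ω) (dropW N ω) (dropW N ω') x
  rw [app_takeW, takeW_length, takeW_congr N ω ω' h, app_takeW] at h1
  exact h1

/-! ### The intersection point of two leaves -/

namespace Pert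
variable {S : ShearData} (P : Pert S)

/-- `(x, y)` is the intersection point of the unstable leaf `a` and the stable leaf `ω` -/
def IsPtx (a ω : ℕ → Bool) (x y : ℝ) : Prop :=
  -(1/1000) ≤ x ∧ x ≤ 1 + 1/1000 ∧ -(1/1000) ≤ y ∧ y ≤ 1 + 1/1000 ∧
      x = P.T'.Φ a y ∧ y = P.T.Φ ω x

/-- intersection points depend continuously on the codes -/
theorem isPt_close (N : ℕ) {a ω a' ω' : ℕ → Bool} {x y x' y' : ℝ} (h : P.IsPtx a ω x y)
    (h' : P.IsPtx a' ω' x' y') (ha : ∀ k < N, a k = a' k) (hω : ∀ k < N, ω k = ω' k) :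
    |x' - x| ≤ 5 * (1/2) ^ N ∧ |y' - y| ≤ 5 * (1/2) ^ N := by
  obtain ⟨-, -, -, -, h1, h2⟩ := h
  obtain ⟨-, -, -, -, h3, h4⟩ := h'
  have e1 := P.T'.size' N ha y'
  have e2 := P.T'.Φ_lip a y y'
  have e3 := P.T.size' N hω x'
  have e4 := P.T.Φ_lip ω x x'
  rw [← h3] at e1
  rw [← h1] at e2
  rw [← h4] at e3
  rw [← h2] at e4
  have hε0 := P.hε0
  have hε1 := P.hε1
  have f1 : |x' - x| ≤ 2 * (1/2) ^ N + 4 * P.ε * |y' - y| := by
    have : x' - x = (x' - P.T'.Φ a y') + (P.T'.Φ a y' - x) := by ring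
    rw [this]
    exact (abs_add_le _ _).trans (add_le_add e1 e2)
  have f2 : |y' - y| ≤ 2 * (1/2) ^ N + 4 * P.ε * |x' - x| := by
    have : y' - y = (y' - P.T.Φ ω x') + (P.T.Φ ω x' - y) := by ring
    rw [this]
    exact (abs_add_le _ _).trans (add_le_add e3 e4)
  have hp : (0:ℝ) < (1/2) ^ N := by positivity
  have g1 : 4 * P.ε * |y' - y| ≤ 1/10 * |y' - y| :=
    mul_le_mul_of_nonneg_right (by linarith) (abs_nonneg _)
  have g2 : 4 * P.ε * |x' - x| ≤ 1/10 * |x' - x| :=
    mul_le_mul_of_nonneg_right (by linarith) (abs_nonneg _)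
  constructor <;> nlinarith [abs_nonneg (x' - x), abs_nonneg (y' - y)]

/-- The image of the intersection point of the leaves `a`, `ω` is the intersection point of the
leaves `cons (ω 0) a`, `tail ω`. -/
theorem isPt_image {g : Equiv.Perm Torus} (hg : IsLift 1 P.G g) {a ω : ℕ → Bool} {x y : ℝ}
    (h : P.IsPtx a ω x y) : ∃ x' y', P.IsPtx (cons (ω 0) a) (tail ω) x' y' ∧
      g (cov (S.s * x, S.s * y)) = cov (S.s * x', S.s * y') := by
  obtain ⟨h1, h2, h3, h4, h5, h6⟩ := h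
  have hε0 := P.hε0
  have hε1 := P.hε1
  have hbox : P.T.Box (ω 0) x y := by
    rw [h6]
    exact P.T.box_leaf ω h1 h2
  have hbig : P.T.BigBox (ω 0) x y := by
    obtain ⟨q1, q2, q3, q4⟩ := hbox
    exact ⟨by linarith, by linarith, by linarith, by linarith⟩
  have hG := P.G_box (ω 0) hbig
  set x' := P.T.nx (ω 0) x y with hx'
  set y' := P.T.ny (ω 0) x y with hy'
  have hy2 : y' = P.T.Φ (tail ω) x' := by
    rw [hy', hx', h6]
    have := P.T.ny_leaf ω x
    exact this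
  have hx0 := P.T.nx_mem (ω 0) y h1 h2
  have hy0 := P.T.Φ_mem (tail ω) x'
  rw [← hy2] at hy0
  rw [P.T_ε] at hy0
  have hu := abs_le.1 (P.hu.bound x y)
  have hl := S.lam_bounds
  have hxe : x' = S.cc (ω 0) + S.lam * x + P.u x y := rfl
  have hbig' : P.T'.BigBox (ω 0) y' x' := by
    refine ⟨by linarith [hy0.1], by linarith [hy0.2], ?_, ?_⟩
    · rw [T'_dd, hxe]
      nlinarith [hu.1]
    · rw [T'_dd, T'_m, hxe]
      nlinarith [hu.2]
  have hGi := P.Gi_box (ω 0) hbig'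
  rw [← hG, P.Gi_G] at hGi
  have hs := S.hs
  have k1 : x = P.T'.ny (ω 0) y' x' := by
    have := congrArg Prod.fst hGi
    exact mul_left_cancel₀ hs.ne' this
  have k2 : y = P.T'.nx (ω 0) y' x' := by
    have := congrArg Prod.snd hGi
    exact mul_left_cancel₀ hs.ne' this
  refine ⟨x', y', ⟨hx0.1, hx0.2, by linarith [hy0.1], by linarith [hy0.2], ?_, hy2⟩, ?_⟩
  · -- both sides solve the same fixed point equation
    set Z := P.T'.Φ (cons (ω 0) a) y' with hZ
    have e1 : Z = P.T'.dd (ω 0) + P.T'.m * (P.T'.Φ a (P.T'.nx (ω 0) y' Z) - P.T'.v y' Z) := by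
      have := P.T'.Φ_eq (cons (ω 0) a) y'
      rw [cons_zero, tail_cons, ← hZ] at this
      exact this
    have hm : P.T'.m ≠ 0 := by
      have := P.T'.hm0
      exact (by linarith : (0:ℝ) < P.T'.m).ne'
    have e2 : x' = P.T'.dd (ω 0) + P.T'.m * (P.T'.Φ a (P.T'.nx (ω 0) y' x') - P.T'.v y' x') := by
      rw [← k2, ← h5, k1]
      unfold Leaf.ny
      field_simp
      ring
    have e3 := P.T'.Φ_lip a (P.T'.nx (ω 0) y' Z) (P.T'.nx (ω 0) y' x')
    have e4 := P.T'.nx_sub_le (ω 0) y' y' Z x'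
    rw [sub_self, abs_zero, mul_zero, zero_add] at e4
    have e5 := P.T'.hv.lip y' Z y' x'
    rw [sub_self, abs_zero, zero_add] at e5
    rw [T'_ε] at e3 e4 e5
    have hm1 := P.T'.hm1
    have hm0 := P.T'.hm0
    have e6 : |x' - Z| ≤ 1/2 * |x' - Z| := by
      have q : x' - Z = P.T'.m * ((P.T'.Φ a (P.T'.nx (ω 0) y' x') - P.T'.Φ a (P.T'.nx (ω 0) y' Z)) -
          (P.T'.v y' x' - P.T'.v y' Z)) := by
        calc x' - Z = (P.T'.dd (ω 0) + P.T'.m * (P.T'.Φ a (P.T'.nx (ω 0) y' x') - P.T'.v y' x'))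
              - (P.T'.dd (ω 0) + P.T'.m * (P.T'.Φ a (P.T'.nx (ω 0) y' Z) - P.T'.v y' Z)) := by
                rw [← e1, ← e2]
          _ = _ := by ring
      have q1 : |(P.T'.Φ a (P.T'.nx (ω 0) y' x') - P.T'.Φ a (P.T'.nx (ω 0) y' Z)) -
          (P.T'.v y' x' - P.T'.v y' Z)| ≤ 4 * P.ε * (P.ε * |x' - Z|) + P.ε * |x' - Z| := by
        refine (abs_sub _ _).trans (add_le_add (e3.trans ?_) e5)
        exact mul_le_mul_of_nonneg_left e4 (by positivity)
      have q2 : |x' - Z| = P.T'.m * |(P.T'.Φ a (P.T'.nx (ω 0) y' x') -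
          P.T'.Φ a (P.T'.nx (ω 0) y' Z)) - (P.T'.v y' x' - P.T'.v y' Z)| := by
        conv_lhs => rw [q]
        rw [abs_mul, abs_of_pos (by linarith : (0:ℝ) < P.T'.m)]
      rw [q2]
      rw [← q2]
      have q3 : 4 * P.ε * (P.ε * |x' - Z|) + P.ε * |x' - Z| ≤ 1/2 * |x' - Z| := by
        have : 4 * P.ε * (P.ε * |x' - Z|) + P.ε * |x' - Z| = (4 * P.ε * P.ε + P.ε) * |x' - Z| := by
          ring
        rw [this]
        refine mul_le_mul_of_nonneg_right ?_ (abs_nonneg _)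
        nlinarith
      nlinarith [abs_nonneg (x' - Z), abs_nonneg ((P.T'.Φ a (P.T'.nx (ω 0) y' x') -
          P.T'.Φ a (P.T'.nx (ω 0) y' Z)) - (P.T'.v y' x' - P.T'.v y' Z))]
    have e7 : |x' - Z| = 0 := by
      have := abs_nonneg (x' - Z)
      linarith
    linarith [abs_eq_zero.1 e7]
  · rw [← hg.2, hG]

/-- the backward code after `n` steps -/
def back (a ω : ℕ → Bool) : ℕ → (ℕ → Bool)
  | 0 => a
  | n + 1 => cons (ω n) (back a ω n)

theorem back_apply (a ω : ℕ → Bool) (n : ℕ) : ∀ k < n, back a ω n k = ω (n - 1 - k) := by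
  induction n with
  | zero => intro k hk; omega
  | succ n ih =>
    intro k hk
    cases k with
    | zero => simp [back]
    | succ k =>
      simp only [back, cons_succ]
      rw [ih k (by omega)]
      congr 1
      omega

theorem isPt_iterate {g : Equiv.Perm Torus} (hg : IsLift 1 P.G g) {a ω : ℕ → Bool} {x y : ℝ}
    (h : P.IsPtx a ω x y) (n : ℕ) : ∃ x' y', P.IsPtx (back a ω n) (fun k => ω (n + k)) x' y' ∧
      (g ^ n) (cov (S.s * x, S.s * y)) = cov (S.s * x', S.s * y') := by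
  induction n with
  | zero => exact ⟨x, y, by simpa [back] using h, rfl⟩
  | succ n ih =>
    obtain ⟨x1, y1, h1, h2⟩ := ih
    obtain ⟨x2, y2, h3, h4⟩ := P.isPt_image hg h1
    refine ⟨x2, y2, ?_, ?_⟩
    · have e : (fun k => ω (n + 1 + k)) = tail (fun k => ω (n + k)) := by
        funext k
        simp only [tail]
        congr 1
        omega
      rw [e]
      exact h3
    · rw [pow_succ', Equiv.Perm.mul_apply, h2, h4]

/-- Any set of points coded by pairs of sequences, in which all pairs are realised, has a dense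
forward orbit. -/
theorem exists_dense_orbit {g : Equiv.Perm Torus} (hg : IsLift 1 P.G g) {L : Set Torus}
    (hcode : ∀ z ∈ L, ∃ (a ω : ℕ → Bool) (x y : ℝ),
      -(1/1000) ≤ x ∧ x ≤ 1 + 1/1000 ∧ -(1/1000) ≤ y ∧ y ≤ 1 + 1/1000 ∧
      x = P.T'.Φ a y ∧ y = P.T.Φ ω x ∧ z = cov (S.s * x, S.s * y))
    (hpt : ∀ a ω : ℕ → Bool, ∃ (x y : ℝ),
      -(1/1000) ≤ x ∧ x ≤ 1 + 1/1000 ∧ -(1/1000) ≤ y ∧ y ≤ 1 + 1/1000 ∧
      x = P.T'.Φ a y ∧ y = P.T.Φ ω x ∧ cov (S.s * x, S.s * y) ∈ L) :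
    ∃ z ∈ L, ∀ w ∈ L, w ∈ closure (Set.range fun n : ℕ => (g ^ n) z) := by
  obtain ⟨ω, hω⟩ := exists_universal
  obtain ⟨x, y, h1, h2, h3, h4, h5, h6, h7⟩ := hpt zeros ω
  refine ⟨_, h7, fun w hw => ?_⟩
  obtain ⟨b, τ, X, Y, k1, k2, k3, k4, k5, k6, rfl⟩ := hcode w hw
  rw [Metric.mem_closure_iff]
  intro δ hδ
  have hs := S.hs
  have hlim : Tendsto (fun N : ℕ => S.s * (5 * (1/2 : ℝ) ^ N)) atTop (𝓝 (S.s * (5 * 0))) :=
    ((tendsto_pow_atTop_nhds_zero_of_lt_one (by norm_num) (by norm_num)).const_mul 5).const_mul _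
  rw [mul_zero, mul_zero] at hlim
  obtain ⟨N, hN⟩ := (hlim.eventually (gt_mem_nhds hδ)).exists
  obtain ⟨n, hn⟩ := hω (N + N) (fun j => if j < N then b (N - 1 - j) else τ (j - N))
  obtain ⟨x', y', p1, p2⟩ := P.isPt_iterate hg (a := zeros) (ω := ω) (x := x) (y := y)
    ⟨h1, h2, h3, h4, h5, h6⟩ (n + N)
  have hX : P.IsPtx b τ X Y := ⟨k1, k2, k3, k4, k5, k6⟩
  have hc := P.isPt_close N hX p1 ?_ ?_
  · refine ⟨_, ⟨n + N, rfl⟩, ?_⟩
    simp only [p2]
    refine (dist_cov_le _ _).trans_lt (lt_of_le_of_lt ?_ hN)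
    rw [dist_eq_norm, Prod.norm_def]
    refine max_le ?_ ?_
    · simp only [Prod.fst_sub, ← mul_sub, Real.norm_eq_abs, abs_mul, abs_of_pos hs]
      rw [abs_sub_comm]
      exact mul_le_mul_of_nonneg_left hc.1 hs.le
    · simp only [Prod.snd_sub, ← mul_sub, Real.norm_eq_abs, abs_mul, abs_of_pos hs]
      rw [abs_sub_comm]
      exact mul_le_mul_of_nonneg_left hc.2 hs.le
  · intro k hk
    rw [back_apply _ _ _ k (by omega)]
    have := hn (N - 1 - k) (by omega)
    rw [if_pos (by omega)] at this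
    have e : n + (N - 1 - k) = n + N - 1 - k := by omega
    rw [e] at this
    rw [this]
    congr 1
    omega
  · intro k hk
    have := hn (N + k) (by omega)
    rw [if_neg (by omega)] at this
    have e : n + (N + k) = n + N + k := by omega
    rw [e] at this
    rw [this]
    congr 1
    omega

end Pert

end Pool.Agent.Work.MP_f9d495_an
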