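import Pool.Agent.Work.MP_f9d495_an.Tangency
import Pool.Agent.Work.MP_f9d495_an.Transitive
import Pool.Agent.Work.MP_f9d495_an.Transfer
import Pool.Agent.Work.MP_f9d495_an.Classify
import Pool.Agent.Work.MP_f9d495_an.Area

/-!
# A Newhouse domain of the torus without (strongly) pluripotent elements
-/

open Filter Topology Set

namespace Pool.Agent.Work.MP_f9d495_an

/-- Every diffeomorphism close to the model map has a transitive hyperbolic set with a homoclinic
tangency. -/
theorem exists_transitive_of_pert {S : ShearData} (P : Pert S) {g : Equiv.Perm Torus}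
    (hg : IsLift 1 P.G g) (hg' : IsLift 1 P.Gi g.symm) :
    ∃ L, IsHyperbolicSet g L ∧ IsTransitiveSet g L ∧ HasHomoclinicTangency g L :=
  ⟨P.Lam g, P.isHyperbolicSet_Lam hg hg',
    P.exists_dense_orbit hg (fun _ hz => P.exists_code hg hg' hz) (P.exists_point hg hg'),
    P.hasHomoclinicTangency_Lam hg hg'⟩

theorem main_weak (r : ℕ) (hr : 2 ≤ r) : ∃ N : Set (TorusDiffeo r), IsNewhouseDomain r N ∧
    (∀ f ∈ N, ∃ L, IsHyperbolicSet f.perm L ∧ IsTransitiveSet f.perm L ∧
      HasHomoclinicTangency f.perm L) ∧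
    ∃ f ∈ N, ∀ L, IsHyperbolicSet f.perm L → HasHomoclinicTangency f.perm L →
      ¬ StronglyPluripotent r f L ∧ ¬ Pluripotent r f L := by
  obtain ⟨S⟩ := exists_shearData
  obtain ⟨e, he, hP⟩ := exists_pert S r hr
  have key : ∀ f ∈ ballCr r e (S.diffeo r), ∃ L, IsHyperbolicSet f.perm L ∧
      IsTransitiveSet f.perm L ∧ HasHomoclinicTangency f.perm L := by
    rintro f ⟨e1, he1, hf⟩
    obtain ⟨P, h1, h2⟩ := hP f (hf.mono he1.le)
    exact exists_transitive_of_pert P h1 h2
  refine ⟨ballCr r e (S.diffeo r), ⟨⟨_, mem_ballCr_self r he _⟩, isOpenCr_ballCr r e _, ?_⟩, key,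
    S.diffeo r, mem_ballCr_self r he _, ?_⟩
  · intro f hf
    obtain ⟨L, h1, -, h3⟩ := key f hf
    exact ⟨L, h1, h3⟩
  · intro L hL hT
    obtain ⟨x, hx, c, hc, hexp⟩ := exists_expanding_of_tangency S r hr (S.diffeo r)
      (S.fperm_lift r) (S.fperm_symm_lift r) L hL hT
    have := not_pluripotent_of_expanding hr (S.diffeo r) L x hx c hc hexp
    exact ⟨fun h => this h.pluripotent, this⟩

end Pool.Agent.Work.MP_f9d495_an
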