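import Pool.Agent.Work.MP_f9d495_an.Main
import Pool.Agent.Work.MP_f9d495_an.Classify2

/-!
# A Newhouse domain of the torus without (strongly) pluripotent elements
-/

open Filter Topology Set

namespace Pool.Agent.Work.MP_f9d495_an

/-- There is a Newhouse domain of the torus no element of which is (strongly) pluripotent for a
hyperbolic set with a homoclinic tangency. -/
theorem main_strong (r : ℕ) (hr : 2 ≤ r) : ∃ N : Set (TorusDiffeo r), IsNewhouseDomain r N ∧
    ∀ f ∈ N, (∃ L, IsHyperbolicSet f.perm L ∧ IsTransitiveSet f.perm L ∧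
      HasHomoclinicTangency f.perm L) ∧
    ∀ L, IsHyperbolicSet f.perm L → HasHomoclinicTangency f.perm L →
      ¬ StronglyPluripotent r f L ∧ ¬ Pluripotent r f L := by
  obtain ⟨S⟩ := exists_shearData
  obtain ⟨e1, he1, hP⟩ := exists_pert S r hr
  obtain ⟨e2, he2, hC⟩ := exists_expanding_of_tangency_near S r hr
  have key : ∀ f ∈ ballCr r (min e1 e2) (S.diffeo r), ∃ L, IsHyperbolicSet f.perm L ∧
      IsTransitiveSet f.perm L ∧ HasHomoclinicTangency f.perm L := by
    rintro f ⟨e, he, hf⟩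
    obtain ⟨P, h1, h2⟩ := hP f (hf.mono (he.le.trans (min_le_left _ _)))
    exact exists_transitive_of_pert P h1 h2
  refine ⟨ballCr r (min e1 e2) (S.diffeo r),
    ⟨⟨_, mem_ballCr_self r (lt_min he1 he2) _⟩, isOpenCr_ballCr r _ _, ?_⟩, ?_⟩
  · intro f hf
    obtain ⟨L, h1, -, h3⟩ := key f hf
    exact ⟨L, h1, h3⟩
  · intro f hf
    refine ⟨key f hf, fun L hL hT => ?_⟩
    obtain ⟨e, he, hfc⟩ := hf
    obtain ⟨x, hx, c, hc, hexp⟩ := hC f (hfc.mono (he.le.trans (min_le_right _ _))) L hL hT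
    have := not_pluripotent_of_expanding hr f L x hx c hc hexp
    exact ⟨fun h => this h.pluripotent, this⟩

end Pool.Agent.Work.MP_f9d495_an
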