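import Pool.Agent.Work.MP_f9d495_an.Classify

/-!
# Block E2, planar part: nearly skew products over `a`
-/

open Filter Topology Set

namespace Pool.Agent.Work.MP_f9d495_an

/-- `E` (with inverse `Ei`) is close to a skew product over `a` in the strips around
`x ∈ 1/2 + ℤ`. -/
structure NSkew (S : ShearData) (E Ei : Plane → Plane) (B e : ℝ) : Prop where
  E_Ei : ∀ z, E (Ei z) = z
  Ei_E : ∀ z, Ei (E z) = z
  diff : Differentiable ℝ E
  diffi : Differentiable ℝ Ei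
  fst_all : ∀ z, |(E z).1 - S.a z.1| ≤ 4 * S.A
  snd_strip : ∀ (z : Plane) (k : ℤ), k + 3/8 < z.1 → z.1 < k + 5/8 → |(E z).2 - S.a z.2| ≤ e
  der : ∀ (z : Plane) (k : ℤ), k + 3/8 < z.1 → z.1 < k + 5/8 → ∃ γ : ℝ, |γ| ≤ B ∧
    ((∃ l : ℤ, l + 3/8 < z.2 ∧ z.2 < l + 5/8) → γ = 0) ∧
    ∀ v : Plane, |(fderiv ℝ E z v).1 - (S.a' z.1 * v.1 + γ * v.2)| ≤ e * ‖v‖ ∧
      |(fderiv ℝ E z v).2 - S.a' z.2 * v.2| ≤ e * ‖v‖

theorem fderiv_iterate_succ_apply {G : Plane → Plane} (hG : Differentiable ℝ G) (n : ℕ)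
    (z v : Plane) :
    fderiv ℝ (G^[n + 1]) z v = fderiv ℝ G (G^[n] z) (fderiv ℝ (G^[n]) z v) := by
  rw [Function.iterate_succ', fderiv_comp z (hG _) ((hG.iterate n) z)]
  rfl

theorem fderiv_rinv {G Gi : Plane → Plane} (hG : Differentiable ℝ G) (hGi : Differentiable ℝ Gi)
    (h : ∀ z, G (Gi z) = z) (w v : Plane) : fderiv ℝ G (Gi w) (fderiv ℝ Gi w v) = v := by
  have h1 : fderiv ℝ (G ∘ Gi) w = (fderiv ℝ G (Gi w)).comp (fderiv ℝ Gi w) :=
    fderiv_comp w (hG _) (hGi _)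
  have h2 : G ∘ Gi = id := funext h
  rw [h2, fderiv_id] at h1
  have := congrArg (fun L : Plane →L[ℝ] Plane => L v) h1
  exact this.symm

theorem iterate_rinv {G Gi : Plane → Plane} (h : ∀ z, G (Gi z) = z) (n : ℕ) :
    ∀ z, G^[n] (Gi^[n] z) = z :=
  (Function.RightInverse.iterate (show Function.RightInverse Gi G from h) n)

/-- A nested sequence of conditions `T n v` is in the closed cone `C` has a common nonzero
solution. -/
theorem exists_cone (T : ℕ → Plane →L[ℝ] Plane) (C : Set Plane) (hC : IsClosed C)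
    (hsm : ∀ (t : ℝ) (v : Plane), v ∈ C → t • v ∈ C) (hne : ∀ n, ∃ v, v ≠ 0 ∧ T n v ∈ C)
    (hnest : ∀ n v, T (n + 1) v ∈ C → T n v ∈ C) : ∃ v, v ≠ 0 ∧ ∀ n, T n v ∈ C := by
  have hcl : ∀ n, IsClosed {v : Plane | v ∈ Metric.sphere (0 : Plane) 1 ∧ T n v ∈ C} := fun n =>
    Metric.isClosed_sphere.inter (hC.preimage (T n).continuous)
  obtain ⟨v, hv⟩ := IsCompact.nonempty_iInter_of_sequence_nonempty_isCompact_isClosed
    (fun n => {v : Plane | v ∈ Metric.sphere (0 : Plane) 1 ∧ T n v ∈ C})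
    (fun n v hv => ⟨hv.1, hnest n v hv.2⟩)
    (fun n => by
      obtain ⟨v, hv, hv2⟩ := hne n
      refine ⟨‖v‖⁻¹ • v, ?_, ?_⟩
      · rw [mem_sphere_zero_iff_norm, norm_smul, norm_inv, norm_norm,
          inv_mul_cancel₀ (norm_ne_zero_iff.2 hv)]
      · rw [map_smul]; exact hsm _ _ hv2)
    ((isCompact_sphere (0 : Plane) 1).of_isClosed_subset (hcl 0) (fun v hv => hv.1)) hcl
  rw [mem_iInter] at hv
  refine ⟨v, fun h0 => ?_, fun n => (hv n).2⟩
  have h1 := (hv 0).1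
  rw [mem_sphere_zero_iff_norm, h0, norm_zero] at h1
  exact zero_ne_one h1

theorem norm_plane (v : Plane) : ‖v‖ = max |v.1| |v.2| := rfl

theorem tendsto_of_geom {s : ℕ → ℝ} {q : ℝ} (hq0 : 0 ≤ q) (hq1 : q < 1) {N : ℕ}
    (h0 : ∀ n, 0 ≤ s n) (h : ∀ n, N ≤ n → s (n + 1) ≤ q * s n) : Tendsto s atTop (𝓝 0) := by
  have h1 : ∀ n, s (N + n) ≤ q ^ n * s N := by
    intro n
    induction n with
    | zero => simp
    | succ n ih =>
      calc s (N + (n + 1)) ≤ q * s (N + n) := h (N + n) (Nat.le_add_right _ _)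
        _ ≤ q * (q ^ n * s N) := mul_le_mul_of_nonneg_left ih hq0
        _ = q ^ (n + 1) * s N := by ring
  have h2 : Tendsto (fun n => q ^ n * s N) atTop (𝓝 0) := by
    simpa using (tendsto_pow_atTop_nhds_zero_of_lt_one hq0 hq1).mul_const (s N)
  have h3 : Tendsto (fun n => s (N + n)) atTop (𝓝 0) :=
    squeeze_zero (fun n => h0 _) h1 h2
  have h4 : (fun n => s (N + n)) = fun n => s (n + N) := by
    funext n; rw [add_comm]
  rw [h4] at h3
  exact (tendsto_add_atTop_iff_nat N).1 h3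

/-! ### one-dimensional estimates -/

theorem nsk_low (S : ShearData) {m x : ℝ} (hm1 : m ≤ S.c) (hm2 : m ≤ (1 - S.κ) / 8)
    (h0 : 1/8 ≤ x) (h1 : x ≤ 3/8) : S.a x ≤ x - m := by
  have hκ := S.hκ1
  rcases le_total x (1/4) with h | h
  · rw [S.a_lin x (by rw [abs_le]; constructor <;> linarith)]
    nlinarith
  · linarith [S.a_mid x h h1]

theorem nsk_height (S : ShearData) {m : ℝ} (hm1 : m ≤ S.c) (hm2 : m ≤ (1 - S.κ) / 8) (y : ℝ)
    (l : ℤ) (h0 : 1/8 ≤ |y - l - 1/2|) (h1 : |y - l - 1/2| ≤ 3/8) :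
    |y - l - 1/2| + m ≤ |S.a y - l - 1/2| := by
  have e : S.a y = S.a (y - l) + l := by
    rw [← S.clS_add_int]; congr 1; ring
  rcases le_total (y - l) (1/2) with h | h
  · rw [abs_of_nonpos (by linarith)] at h0 h1 ⊢
    have h2 := nsk_low S hm1 hm2 (x := y - l) (by linarith) (by linarith)
    have h3 := neg_le_abs (S.a y - l - 1/2)
    rw [e] at h3 ⊢
    linarith
  · rw [abs_of_nonneg (by linarith)] at h0 h1 ⊢
    have h2 := nsk_low S hm1 hm2 (x := 1 - (y - l)) (by linarith) (by linarith)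
    rw [S.clS_one_sub] at h2
    have h3 := le_abs_self (S.a y - l - 1/2)
    rw [e] at h3 ⊢
    linarith

theorem nsk_height' (S : ShearData) {m : ℝ} (hm1 : m ≤ S.c) (hm2 : m ≤ (1 - S.κ) / 8) (y : ℝ)
    (l : ℤ) (h0 : 3/8 ≤ |y - l - 1/2|) : 3/8 + m ≤ |S.a y - l - 1/2| := by
  have e : S.a y = S.a (y - l) + l := by
    rw [← S.clS_add_int]; congr 1; ring
  have h8 := nsk_low S hm1 hm2 (x := 1/8) le_rfl (by norm_num)
  rcases le_total (y - l) (1/2) with h | h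
  · rw [abs_of_nonpos (by linarith)] at h0
    have h2 : S.a (y - l) ≤ S.a (1/8) := S.clS_strictMono.monotone (by linarith)
    have h3 := neg_le_abs (S.a y - l - 1/2)
    rw [e] at h3 ⊢
    linarith
  · rw [abs_of_nonneg (by linarith)] at h0
    have h2 : S.a (1 - (y - l)) ≤ S.a (1/8) := S.clS_strictMono.monotone (by linarith)
    rw [S.clS_one_sub] at h2
    have h3 := le_abs_self (S.a y - l - 1/2)
    rw [e] at h3 ⊢
    linarith

theorem nsk_far (S : ShearData) {m e : ℝ} (hm0 : 0 < m) (hm1 : m ≤ S.c)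
    (hm2 : m ≤ (1 - S.κ) / 8) (he : e ≤ m / 2) {y : ℕ → ℝ} (hy : ∀ n, |y n - S.a (y (n + 1))| ≤ e)
    (l : ℤ) (h0 : |y 0 - l - 1/2| ≤ 3/8) : ∃ N : ℕ, ∀ n, N ≤ n → |y n - l - 1/2| < 1/8 := by
  have key : ∀ n : ℕ, |y n - l - 1/2| < 1/8 ∨ |y n - l - 1/2| ≤ 3/8 - n * (m / 2) := by
    intro n
    induction n with
    | zero => right; simpa using h0
    | succ n ih =>
      have hn0 : (0:ℝ) ≤ n * (m / 2) := by positivity
      have hle : |y n - l - 1/2| ≤ 3/8 := by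
        rcases ih with h | h <;> linarith
      have htri : |S.a (y (n + 1)) - l - 1/2| ≤ |y n - l - 1/2| + e := by
        have h1 := hy n
        have e1 : S.a (y (n + 1)) - l - 1/2 = (y n - l - 1/2) - (y n - S.a (y (n + 1))) := by ring
        rw [e1]
        exact (abs_sub _ _).trans (by linarith)
      rcases lt_or_ge |y (n + 1) - l - 1/2| (1/8) with hlt | hge
      · exact Or.inl hlt
      rcases le_total |y (n + 1) - l - 1/2| (3/8) with h3 | h3
      · have h4 := nsk_height S hm1 hm2 (y (n + 1)) l hge h3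
        rcases ih with h | h
        · linarith
        · right
          push_cast
          linarith
      · have h4 := nsk_height' S hm1 hm2 (y (n + 1)) l h3
        linarith
  obtain ⟨N, hN⟩ := exists_nat_gt ((1:ℝ) / m)
  refine ⟨N, fun n hn => ?_⟩
  rcases key n with h | h
  · exact h
  · have h1 : (N : ℝ) ≤ n := by exact_mod_cast hn
    have h2 : 1 < n * m := by
      rw [div_lt_iff₀ hm0] at hN
      nlinarith
    linarith

/-! ### cones -/

section cones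
variable {c κ B e Θ θ α γ : ℝ} {L : Plane → Plane}

theorem cone_i (hc : 0 < c) (hκ0 : 0 ≤ κ) (hκ1 : κ ≤ 1) (_he : 0 ≤ e) (hΘ1 : 1 ≤ Θ)
    (hBΘ : B ≤ c / 4 * Θ) (h3 : e * (1 + Θ) ≤ c / 2) (hα : 1 + c ≤ α) (hγ : |γ| ≤ B) {v : Plane}
    (hL1 : |(L v).1 - (α * v.1 + γ * v.2)| ≤ e * ‖v‖) (hL2 : |(L v).2 - κ * v.2| ≤ e * ‖v‖)
    (hv : |(L v).1| ≤ Θ * |(L v).2|) : |v.1| ≤ Θ * |v.2| := by
  by_contra hcon
  push Not at hcon
  have ha := abs_nonneg v.1
  have hb := abs_nonneg v.2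
  have hlt : |v.2| ≤ |v.1| := by nlinarith
  have hn : ‖v‖ = |v.1| := by rw [norm_plane]; exact max_eq_left hlt
  rw [hn] at hL1 hL2
  have hvpos : 0 < |v.1| := by nlinarith
  have h1 : α * |v.1| - B * |v.2| - e * |v.1| ≤ |(L v).1| := by
    have e1 : α * v.1 = (L v).1 - ((L v).1 - (α * v.1 + γ * v.2)) - γ * v.2 := by ring
    have e2 : |α * v.1| = α * |v.1| := by rw [abs_mul, abs_of_nonneg (by linarith)]
    have e3 : |γ * v.2| ≤ B * |v.2| := by
      rw [abs_mul]; exact mul_le_mul_of_nonneg_right hγ hb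
    have e4 : |α * v.1| ≤ |(L v).1| + |(L v).1 - (α * v.1 + γ * v.2)| + |γ * v.2| := by
      conv_lhs => rw [e1]
      exact (abs_sub _ _).trans (by gcongr; exact abs_sub _ _)
    linarith
  have h2 : |(L v).2| ≤ κ * |v.2| + e * |v.1| := by
    have e1 : (L v).2 = ((L v).2 - κ * v.2) + κ * v.2 := by ring
    have e2 : |κ * v.2| = κ * |v.2| := by rw [abs_mul, abs_of_nonneg hκ0]
    rw [e1]
    exact (abs_add_le _ _).trans (by rw [e2]; linarith)
  have h4 : B * |v.2| ≤ c / 4 * |v.1| := by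
    calc B * |v.2| ≤ c / 4 * Θ * |v.2| := mul_le_mul_of_nonneg_right hBΘ hb
      _ = c / 4 * (Θ * |v.2|) := by ring
      _ ≤ c / 4 * |v.1| := mul_le_mul_of_nonneg_left hcon.le (by positivity)
  have h5 : Θ * |(L v).2| ≤ |v.1| + Θ * e * |v.1| := by
    calc Θ * |(L v).2| ≤ Θ * (κ * |v.2| + e * |v.1|) := mul_le_mul_of_nonneg_left h2 (by linarith)
      _ = κ * (Θ * |v.2|) + Θ * e * |v.1| := by ring
      _ ≤ 1 * |v.1| + Θ * e * |v.1| := by
        gcongr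
      _ = _ := by ring
  have h6 : (1 + c) * |v.1| ≤ α * |v.1| := mul_le_mul_of_nonneg_right hα ha
  nlinarith

theorem cone_ii (hc : 0 < c) (hκ0 : 0 ≤ κ) (hκ1 : κ ≤ 1) (_he : 0 ≤ e) (hθ0 : 0 < θ)
    (hθ1 : θ ≤ 1) (hB : 0 ≤ B) (hBθ : B * θ ≤ c / 8) (h4 : e ≤ θ * c / 4) (hα : 1 + c ≤ α)
    (hγ : |γ| ≤ B) {v : Plane}
    (hL1 : |(L v).1 - (α * v.1 + γ * v.2)| ≤ e * ‖v‖) (hL2 : |(L v).2 - κ * v.2| ≤ e * ‖v‖)
    (hv : |v.2| ≤ θ * |v.1|) :
    |(L v).2| ≤ θ * |(L v).1| ∧ (1 + c / 2) * |v.1| ≤ |(L v).1| := by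
  have ha := abs_nonneg v.1
  have hb := abs_nonneg v.2
  have hlt : |v.2| ≤ |v.1| := by nlinarith
  have hn : ‖v‖ = |v.1| := by rw [norm_plane]; exact max_eq_left hlt
  rw [hn] at hL1 hL2
  have h1 : α * |v.1| - B * |v.2| - e * |v.1| ≤ |(L v).1| := by
    have e1 : α * v.1 = (L v).1 - ((L v).1 - (α * v.1 + γ * v.2)) - γ * v.2 := by ring
    have e2 : |α * v.1| = α * |v.1| := by rw [abs_mul, abs_of_nonneg (by linarith)]
    have e3 : |γ * v.2| ≤ B * |v.2| := by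
      rw [abs_mul]; exact mul_le_mul_of_nonneg_right hγ hb
    have e4 : |α * v.1| ≤ |(L v).1| + |(L v).1 - (α * v.1 + γ * v.2)| + |γ * v.2| := by
      conv_lhs => rw [e1]
      exact (abs_sub _ _).trans (by gcongr; exact abs_sub _ _)
    linarith
  have h2 : |(L v).2| ≤ κ * |v.2| + e * |v.1| := by
    have e1 : (L v).2 = ((L v).2 - κ * v.2) + κ * v.2 := by ring
    have e2 : |κ * v.2| = κ * |v.2| := by rw [abs_mul, abs_of_nonneg hκ0]
    rw [e1]
    exact (abs_add_le _ _).trans (by rw [e2]; linarith)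
  have h5 : B * |v.2| ≤ c / 8 * |v.1| := by
    calc B * |v.2| ≤ B * (θ * |v.1|) := mul_le_mul_of_nonneg_left hv hB
      _ = B * θ * |v.1| := by ring
      _ ≤ c / 8 * |v.1| := mul_le_mul_of_nonneg_right hBθ ha
  have h6 : (1 + c) * |v.1| ≤ α * |v.1| := mul_le_mul_of_nonneg_right hα ha
  have h7 : e * |v.1| ≤ c / 4 * |v.1| := by
    apply mul_le_mul_of_nonneg_right _ ha
    nlinarith
  have h8 : (1 + c / 2) * |v.1| ≤ |(L v).1| := by nlinarith
  refine ⟨?_, h8⟩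
  calc |(L v).2| ≤ κ * |v.2| + e * |v.1| := h2
    _ ≤ 1 * (θ * |v.1|) + θ * c / 4 * |v.1| := by gcongr
    _ ≤ θ * ((1 + c / 2) * |v.1|) := by nlinarith [mul_nonneg hθ0.le (mul_nonneg hc.le ha)]
    _ ≤ θ * |(L v).1| := mul_le_mul_of_nonneg_left h8 hθ0.le

theorem cone_iii (hκ0 : 0 ≤ κ) (he : 0 ≤ e) (hΘ1 : 1 ≤ Θ) {v : Plane}
    (hL2 : |(L v).2 - κ * v.2| ≤ e * ‖v‖) (hv : |v.1| ≤ Θ * |v.2|) :
    |(L v).2| ≤ (κ + e * Θ) * |v.2| := by
  have hb := abs_nonneg v.2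
  have hn : ‖v‖ ≤ Θ * |v.2| := by
    rw [norm_plane]; exact max_le hv (by nlinarith)
  have e1 : (L v).2 = ((L v).2 - κ * v.2) + κ * v.2 := by ring
  have e2 : |κ * v.2| = κ * |v.2| := by rw [abs_mul, abs_of_nonneg hκ0]
  rw [e1]
  have h3 : e * ‖v‖ ≤ e * (Θ * |v.2|) := mul_le_mul_of_nonneg_left hn he
  exact (abs_add_le _ _).trans (by rw [e2]; linarith)

end cones

namespace NSkew
variable {S : ShearData} {E Ei : Plane → Plane} {B e : ℝ}

theorem back_strip (H : NSkew S E Ei B e) {z : Plane} {k : ℤ} (h0 : k + 3/8 < z.1)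
    (h1 : z.1 < k + 5/8) (n : ℕ) :
    k + 3/8 < (Ei^[n] z).1 ∧ (Ei^[n] z).1 < k + 5/8 := by
  have hc := S.hc
  have hAc := S.hAc
  have hA := S.hA
  have h38 := S.clS_three_eighths
  induction n with
  | zero => exact ⟨h0, h1⟩
  | succ n ih =>
    have hs : E (Ei^[n + 1] z) = Ei^[n] z := by
      rw [Function.iterate_succ_apply', H.E_Ei]
    have hf := abs_le.1 (H.fst_all (Ei^[n + 1] z))
    rw [hs] at hf
    obtain ⟨ih0, ih1⟩ := ih
    constructor
    · by_contra hcon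
      push Not at hcon
      have h2 : S.a (Ei^[n + 1] z).1 ≤ S.a (3/8 + k) :=
        S.clS_strictMono.monotone (by linarith)
      rw [S.clS_add_int] at h2
      linarith
    · by_contra hcon
      push Not at hcon
      have h2 : S.a (1 - 3/8 + k) ≤ S.a (Ei^[n + 1] z).1 :=
        S.clS_strictMono.monotone (by linarith)
      rw [S.clS_add_int, S.clS_one_sub] at h2
      linarith

theorem fderiv_back (H : NSkew S E Ei B e) (z v : Plane) (n : ℕ) :
    fderiv ℝ E (Ei^[n + 1] z) (fderiv ℝ (Ei^[n + 1]) z v) = fderiv ℝ (Ei^[n]) z v := by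
  rw [fderiv_iterate_succ_apply H.diffi, Function.iterate_succ_apply']
  exact fderiv_rinv H.diff H.diffi H.E_Ei _ _

/-- both coordinates in the middle strips: everything is expanded -/
theorem expand (H : NSkew S E Ei B e) (he : e ≤ S.c / 2) {w : Plane} {k l : ℤ}
    (h0 : k + 3/8 < w.1) (h1 : w.1 < k + 5/8) (h2 : l + 3/8 < w.2) (h3 : w.2 < l + 5/8)
    (v : Plane) : (1 + S.c / 2) * ‖v‖ ≤ ‖fderiv ℝ E w v‖ := by
  obtain ⟨γ, _, hγ0, hd⟩ := H.der w k h0 h1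
  obtain ⟨d1, d2⟩ := hd v
  rw [hγ0 ⟨l, h2, h3⟩, zero_mul, add_zero] at d1
  have a1 := S.clS_deriv_strip k h0.le h1.le
  have a2 := S.clS_deriv_strip l h2.le h3.le
  have hc := S.hc
  have hn := norm_nonneg v
  rcases le_total |v.2| |v.1| with h | h
  · have hnv : ‖v‖ = |v.1| := by rw [norm_plane]; exact max_eq_left h
    have h4 : |(fderiv ℝ E w v).1| ≤ ‖fderiv ℝ E w v‖ := by rw [norm_plane]; exact le_max_left _ _
    have e1 : S.a' w.1 * v.1 = (fderiv ℝ E w v).1 - ((fderiv ℝ E w v).1 - S.a' w.1 * v.1) := by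
      ring
    have e2 : |S.a' w.1 * v.1| = S.a' w.1 * |v.1| := by
      rw [abs_mul, abs_of_nonneg (by linarith)]
    have e3 : |S.a' w.1 * v.1| ≤ |(fderiv ℝ E w v).1| + e * ‖v‖ := by
      conv_lhs => rw [e1]
      exact (abs_sub _ _).trans (by linarith)
    rw [e2, ← hnv] at e3
    nlinarith
  · have hnv : ‖v‖ = |v.2| := by rw [norm_plane]; exact max_eq_right h
    have h4 : |(fderiv ℝ E w v).2| ≤ ‖fderiv ℝ E w v‖ := by rw [norm_plane]; exact le_max_right _ _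
    have e1 : S.a' w.2 * v.2 = (fderiv ℝ E w v).2 - ((fderiv ℝ E w v).2 - S.a' w.2 * v.2) := by
      ring
    have e2 : |S.a' w.2 * v.2| = S.a' w.2 * |v.2| := by
      rw [abs_mul, abs_of_nonneg (by linarith)]
    have e3 : |S.a' w.2 * v.2| ≤ |(fderiv ℝ E w v).2| + e * ‖v‖ := by
      conv_lhs => rw [e1]
      exact (abs_sub _ _).trans (by linarith)
    rw [e2, ← hnv] at e3
    nlinarith

theorem back_height (H : NSkew S E Ei B e) {z : Plane} {k : ℤ} (h0 : k + 3/8 < z.1)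
    (h1 : z.1 < k + 5/8) (n : ℕ) : |(Ei^[n] z).2 - S.a (Ei^[n + 1] z).2| ≤ e := by
  obtain ⟨h2, h3⟩ := H.back_strip h0 h1 (n + 1)
  have := H.snd_strip _ k h2 h3
  rwa [Function.iterate_succ_apply', H.E_Ei, ← Function.iterate_succ_apply' Ei n z] at this

/-- case (2): the height of some backward iterate is far from the integers -/
theorem split_far (H : NSkew S E Ei B e) {m : ℝ} (hm0 : 0 < m) (hm1 : m ≤ S.c)
    (hm2 : m ≤ (1 - S.κ) / 8) (he : e ≤ m / 2) {z : Plane} {k : ℤ}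
    (h0 : k + 3/8 < z.1) (h1 : z.1 < k + 5/8) {n₀ : ℕ} {l : ℤ}
    (hl : |(Ei^[n₀] z).2 - l - 1/2| ≤ 3/8) (v : Plane) :
    Tendsto (fun n => fderiv ℝ (Ei^[n]) z v) atTop (𝓝 0) := by
  have hc := S.hc
  obtain ⟨N, hN⟩ := nsk_far S hm0 hm1 hm2 he (y := fun n => (Ei^[n₀ + n] z).2)
    (fun n => H.back_height h0 h1 (n₀ + n)) l hl
  have hstep : ∀ n, n₀ + N ≤ n → ‖fderiv ℝ (Ei^[n + 1]) z v‖ ≤
      (1 + S.c / 2)⁻¹ * ‖fderiv ℝ (Ei^[n]) z v‖ := by
    intro n hn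
    obtain ⟨h2, h3⟩ := H.back_strip h0 h1 (n + 1)
    have h4 := hN (n + 1 - n₀) (by omega)
    have e1 : n₀ + (n + 1 - n₀) = n + 1 := by omega
    simp only [e1] at h4
    rw [abs_lt] at h4
    have h5 := H.expand (by linarith) (l := l) h2 h3 (by linarith) (by linarith)
      (fderiv ℝ (Ei^[n + 1]) z v)
    rw [H.fderiv_back] at h5
    rw [← div_eq_inv_mul, le_div_iff₀ (by positivity)]
    linarith
  have h6 : Tendsto (fun n => ‖fderiv ℝ (Ei^[n]) z v‖) atTop (𝓝 0) :=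
    tendsto_of_geom (by positivity) (inv_lt_one_of_one_lt₀ (by linarith)) (N := n₀ + N)
      (fun n => norm_nonneg _) hstep
  exact tendsto_zero_iff_norm_tendsto_zero.2 h6

/-- the estimate of the derivative at heights close to the integers -/
theorem est (H : NSkew S E Ei B e) {w : Plane} {k l : ℤ}
    (h0 : k + 3/8 < w.1) (h1 : w.1 < k + 5/8) (h2 : |w.2 - l| ≤ 1/8) :
    ∃ α γ : ℝ, 1 + S.c ≤ α ∧ |γ| ≤ B ∧
      ∀ v : Plane, |(fderiv ℝ E w v).1 - (α * v.1 + γ * v.2)| ≤ e * ‖v‖ ∧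
      |(fderiv ℝ E w v).2 - S.κ * v.2| ≤ e * ‖v‖ := by
  obtain ⟨γ, hγ, _, hd⟩ := H.der w k h0 h1
  refine ⟨S.a' w.1, γ, S.clS_deriv_strip k h0.le h1.le, hγ, fun v => ?_⟩
  have h3 : S.a' w.2 = S.κ := by
    have h4 := S.clS_deriv_add_int (w.2 - l) l
    rw [sub_add_cancel] at h4
    rw [h4]
    exact S.clS_deriv_lin (h2.trans (by norm_num))
  have := hd v
  rwa [h3] at this

/-- heights close to the integers stay close -/
theorem fwd_height (H : NSkew S E Ei B e) (he : e ≤ (1 - S.κ) / 8) {w : Plane} {k l : ℤ}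
    (h0 : k + 3/8 < w.1) (h1 : w.1 < k + 5/8) (h2 : |w.2 - l| ≤ 1/8) : |(E w).2 - l| ≤ 1/8 := by
  have h3 := H.snd_strip w k h0 h1
  have h4 : S.a w.2 = S.κ * (w.2 - l) + l := by
    rw [← S.a_lin (w.2 - l) (h2.trans (by norm_num)), ← S.clS_add_int]; congr 1; ring
  have hκ := S.hκ
  have h5 : |S.κ * (w.2 - l)| ≤ S.κ * (1/8) := by
    rw [abs_mul, abs_of_nonneg (by linarith)]
    exact mul_le_mul_of_nonneg_left h2 (by linarith)
  have h6 := abs_le.1 h5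
  have h7 := abs_le.1 h3
  rw [h4] at h7
  rw [abs_le]
  constructor <;> linarith [h6.1, h6.2, h7.1, h7.2]

/-- case (3) -/
theorem split_near (H : NSkew S E Ei B e) {Θ θ : ℝ} (hB : 0 ≤ B) (he0 : 0 ≤ e)
    (he1 : e ≤ (1 - S.κ) / 8) (hΘ1 : 1 ≤ Θ) (hBΘ : B ≤ S.c / 4 * Θ)
    (h3 : e * (1 + Θ) ≤ S.c / 2) (hθ0 : 0 < θ) (hθ1 : θ ≤ 1) (hΘθ : Θ * θ < 1)
    (hBθ : B * θ ≤ S.c / 8) (h4 : e ≤ θ * S.c / 4) (h5 : S.κ + e * Θ < 1)
    {z : Plane} {k : ℤ} (hz : ∀ n, k + 3/8 < (E^[n] z).1 ∧ (E^[n] z).1 < k + 5/8)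
    (hl : ∀ n, ∃ l : ℤ, |(Ei^[n] z).2 - l| ≤ 1/8) (v : Plane) :
    ∃ v1 v2, v = v1 + v2 ∧ Tendsto (fun n => fderiv ℝ (E^[n]) z v1) atTop (𝓝 0) ∧
      Tendsto (fun n => fderiv ℝ (Ei^[n]) z v2) atTop (𝓝 0) := by
  have hc := S.hc
  have hκ := S.hκ
  have hκ1 := S.hκ1
  have hκ0 : 0 ≤ S.κ := by linarith
  -- forward heights
  have hfz : ∀ n, ∃ l : ℤ, |(E^[n] z).2 - l| ≤ 1/8 := by
    intro n
    induction n with
    | zero => simpa using hl 0
    | succ n ih =>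
      obtain ⟨l, hl'⟩ := ih
      refine ⟨l, ?_⟩
      rw [Function.iterate_succ_apply']
      exact H.fwd_height he1 (hz n).1 (hz n).2 hl'
  have hz0 := hz 0
  simp only [Function.iterate_zero, id_eq] at hz0
  -- stable vector
  set C' : Set Plane := {v | |v.1| ≤ Θ * |v.2|} with hC'
  have hC'cl : IsClosed C' :=
    isClosed_le (continuous_abs.comp continuous_fst)
      ((continuous_abs.comp continuous_snd).const_mul Θ)
  have hC'sm : ∀ (t : ℝ) (v : Plane), v ∈ C' → t • v ∈ C' := by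
    intro t v hv
    simp only [hC', mem_ofPred_eq, Prod.smul_fst, Prod.smul_snd, smul_eq_mul, abs_mul] at hv ⊢
    have := mul_le_mul_of_nonneg_left hv (abs_nonneg t)
    linarith
  set C : Set Plane := {v | |v.2| ≤ θ * |v.1|} with hC
  have hCcl : IsClosed C :=
    isClosed_le (continuous_abs.comp continuous_snd)
      ((continuous_abs.comp continuous_fst).const_mul θ)
  have hCsm : ∀ (t : ℝ) (v : Plane), v ∈ C → t • v ∈ C := by
    intro t v hv
    simp only [hC, mem_ofPred_eq, Prod.smul_fst, Prod.smul_snd, smul_eq_mul, abs_mul] at hv ⊢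
    have := mul_le_mul_of_nonneg_left hv (abs_nonneg t)
    linarith
  obtain ⟨p, hp0, hp⟩ := exists_cone (fun n => fderiv ℝ (E^[n]) z) C' hC'cl hC'sm
    (fun n => by
      refine ⟨fderiv ℝ (Ei^[n]) (E^[n] z) (0, 1), ?_, ?_⟩
      · intro h0
        have h1 := fderiv_rinv (H.diff.iterate n) (H.diffi.iterate n) (iterate_rinv H.E_Ei n)
          (E^[n] z) (0, 1)
        rw [h0, map_zero] at h1
        have := congrArg Prod.snd h1
        simp at this
      · have h1 := fderiv_rinv (H.diff.iterate n) (H.diffi.iterate n) (iterate_rinv H.E_Ei n)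
          (E^[n] z) (0, 1)
        rw [iterate_rinv H.Ei_E n] at h1
        simp only [h1, hC', mem_ofPred_eq, abs_zero, abs_one]
        linarith)
    (fun n v hv => by
      rw [fderiv_iterate_succ_apply H.diff] at hv
      obtain ⟨l, hl'⟩ := hfz n
      obtain ⟨α, γ, hα, hγ, hd⟩ := H.est (hz n).1 (hz n).2 hl'
      obtain ⟨d1, d2⟩ := hd (fderiv ℝ (E^[n]) z v)
      exact cone_i (L := fderiv ℝ E (E^[n] z)) hc hκ0 hκ1.le he0 hΘ1 hBΘ h3 hα hγ d1 d2 hv)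
  obtain ⟨q, hq0, hq⟩ := exists_cone (fun n => fderiv ℝ (Ei^[n]) z) C hCcl hCsm
    (fun n => by
      refine ⟨fderiv ℝ (E^[n]) (Ei^[n] z) (1, 0), ?_, ?_⟩
      · intro h0
        have h1 := fderiv_rinv (H.diffi.iterate n) (H.diff.iterate n) (iterate_rinv H.Ei_E n)
          (Ei^[n] z) (1, 0)
        rw [h0, map_zero] at h1
        have := congrArg Prod.fst h1
        simp at this
      · have h1 := fderiv_rinv (H.diffi.iterate n) (H.diff.iterate n) (iterate_rinv H.Ei_E n)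
          (Ei^[n] z) (1, 0)
        rw [iterate_rinv H.E_Ei n] at h1
        simp only [h1, hC, mem_ofPred_eq, abs_zero, abs_one]
        linarith)
    (fun n v hv => by
      obtain ⟨l, hl'⟩ := hl (n + 1)
      obtain ⟨b0, b1⟩ := H.back_strip hz0.1 hz0.2 (n + 1)
      obtain ⟨α, γ, hα, hγ, hd⟩ := H.est b0 b1 hl'
      obtain ⟨d1, d2⟩ := hd (fderiv ℝ (Ei^[n + 1]) z v)
      have := (cone_ii (L := fderiv ℝ E (Ei^[n + 1] z)) hc hκ0 hκ1.le he0 hθ0 hθ1 hB hBθ h4 hα hγ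
        d1 d2 hv).1
      rw [H.fderiv_back] at this
      exact this)
  -- convergence for p
  have hp2 : Tendsto (fun n => |(fderiv ℝ (E^[n]) z p).2|) atTop (𝓝 0) := by
    refine tendsto_of_geom (q := S.κ + e * Θ) (by positivity) h5 (N := 0)
      (fun n => abs_nonneg _) fun n _ => ?_
    obtain ⟨l, hl'⟩ := hfz n
    obtain ⟨α, γ, hα, hγ, hd⟩ := H.est (hz n).1 (hz n).2 hl'
    obtain ⟨d1, d2⟩ := hd (fderiv ℝ (E^[n]) z p)
    have := cone_iii (L := fderiv ℝ E (E^[n] z)) hκ0 he0 hΘ1 d2 (hp n)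
    rw [fderiv_iterate_succ_apply H.diff]
    exact this
  have hp1 : Tendsto (fun n => fderiv ℝ (E^[n]) z p) atTop (𝓝 0) := by
    rw [tendsto_zero_iff_norm_tendsto_zero]
    refine squeeze_zero (fun n => norm_nonneg _) (fun n => ?_)
      (by simpa using hp2.const_mul Θ)
    have h6 : |(fderiv ℝ (E^[n]) z p).1| ≤ Θ * |(fderiv ℝ (E^[n]) z p).2| := hp n
    rw [norm_plane]
    exact max_le h6 (by nlinarith [abs_nonneg (fderiv ℝ (E^[n]) z p).2])
  have hq2 : Tendsto (fun n => |(fderiv ℝ (Ei^[n]) z q).1|) atTop (𝓝 0) := by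
    refine tendsto_of_geom (q := (1 + S.c / 2)⁻¹) (by positivity)
      (inv_lt_one_of_one_lt₀ (by linarith)) (N := 0) (fun n => abs_nonneg _) fun n _ => ?_
    obtain ⟨l, hl'⟩ := hl (n + 1)
    obtain ⟨b0, b1⟩ := H.back_strip hz0.1 hz0.2 (n + 1)
    obtain ⟨α, γ, hα, hγ, hd⟩ := H.est b0 b1 hl'
    obtain ⟨d1, d2⟩ := hd (fderiv ℝ (Ei^[n + 1]) z q)
    have := (cone_ii (L := fderiv ℝ E (Ei^[n + 1] z)) hc hκ0 hκ1.le he0 hθ0 hθ1 hB hBθ h4 hα hγ
        d1 d2 (hq (n + 1))).2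
    rw [H.fderiv_back] at this
    rw [← div_eq_inv_mul, le_div_iff₀ (by positivity)]
    linarith
  have hq1 : Tendsto (fun n => fderiv ℝ (Ei^[n]) z q) atTop (𝓝 0) := by
    rw [tendsto_zero_iff_norm_tendsto_zero]
    refine squeeze_zero (fun n => norm_nonneg _) (fun n => ?_) hq2
    have h6 : |(fderiv ℝ (Ei^[n]) z q).2| ≤ θ * |(fderiv ℝ (Ei^[n]) z q).1| := hq n
    rw [norm_plane]
    exact max_le le_rfl (h6.trans (by nlinarith [abs_nonneg (fderiv ℝ (Ei^[n]) z q).1]))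
  -- p and q span
  have hpC : |p.1| ≤ Θ * |p.2| := by simpa [hC'] using hp 0
  have hqC : |q.2| ≤ θ * |q.1| := by simpa [hC] using hq 0
  have hp2' : p.2 ≠ 0 := by
    intro h0
    rw [h0, abs_zero, mul_zero] at hpC
    exact hp0 (Prod.ext (abs_nonpos_iff.1 hpC) h0)
  have hq1' : q.1 ≠ 0 := by
    intro h0
    rw [h0, abs_zero, mul_zero] at hqC
    exact hq0 (Prod.ext h0 (abs_nonpos_iff.1 hqC))
  have hdet : p.1 * q.2 - p.2 * q.1 ≠ 0 := by
    intro h0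
    have h6 : |p.1 * q.2| = |p.2 * q.1| := by congr 1; linarith
    rw [abs_mul, abs_mul] at h6
    have h7 : 0 < |p.2| * |q.1| := mul_pos (abs_pos.2 hp2') (abs_pos.2 hq1')
    have h8 : |p.1| * |q.2| ≤ (Θ * |p.2|) * (θ * |q.1|) :=
      mul_le_mul hpC hqC (abs_nonneg _) (by positivity)
    have h9 : (Θ * |p.2|) * (θ * |q.1|) = (Θ * θ) * (|p.2| * |q.1|) := by ring
    nlinarith
  refine ⟨((v.1 * q.2 - v.2 * q.1) / (p.1 * q.2 - p.2 * q.1)) • p,
    ((p.1 * v.2 - p.2 * v.1) / (p.1 * q.2 - p.2 * q.1)) • q, ?_, ?_, ?_⟩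
  · ext
    · simp only [Prod.fst_add, Prod.smul_fst, smul_eq_mul]
      rw [div_mul_eq_mul_div, div_mul_eq_mul_div, ← add_div, eq_div_iff hdet]
      ring
    · simp only [Prod.snd_add, Prod.smul_snd, smul_eq_mul]
      rw [div_mul_eq_mul_div, div_mul_eq_mul_div, ← add_div, eq_div_iff hdet]
      ring
  · simpa using hp1.const_smul ((v.1 * q.2 - v.2 * q.1) / (p.1 * q.2 - p.2 * q.1))
  · simpa using hq1.const_smul ((p.1 * v.2 - p.2 * v.1) / (p.1 * q.2 - p.2 * q.1))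

/-- GOAL of the planar part of block E2. -/
theorem split (S : ShearData) (B : ℝ) (hB : 0 ≤ B) : ∃ e > 0, ∀ E Ei : Plane → Plane,
    NSkew S E Ei B e → ∀ (z : Plane) (k : ℤ),
    (∀ n, k + 3/8 < (E^[n] z).1 ∧ (E^[n] z).1 < k + 5/8) → ∀ v : Plane,
    ∃ v1 v2, v = v1 + v2 ∧ Tendsto (fun n => fderiv ℝ (E^[n]) z v1) atTop (𝓝 0) ∧
      Tendsto (fun n => fderiv ℝ (Ei^[n]) z v2) atTop (𝓝 0) := by
  have hc := S.hc
  have hκ := S.hκ
  have hκ1 := S.hκ1
  set m := min S.c ((1 - S.κ) / 8) with hm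
  have hm0 : 0 < m := lt_min hc (by linarith)
  have hm1 : m ≤ S.c := min_le_left _ _
  have hm2 : m ≤ (1 - S.κ) / 8 := min_le_right _ _
  set Θ := 4 * (B + 1) / S.c + 1 with hΘ
  have hΘ1 : 1 ≤ Θ := by
    have : 0 ≤ 4 * (B + 1) / S.c := by positivity
    linarith
  have hΘ0 : 0 < Θ := by linarith
  have hBΘ : B ≤ S.c / 4 * Θ := by
    have : S.c / 4 * Θ = B + 1 + S.c / 4 := by
      rw [hΘ]; field_simp
    rw [this]; linarith
  set θ := 1 / (2 * Θ) with hθ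
  have hθ0 : 0 < θ := by positivity
  have hΘθ : Θ * θ = 1/2 := by rw [hθ]; field_simp
  have hθ1 : θ ≤ 1 := by nlinarith
  have hBθ : B * θ ≤ S.c / 8 := by
    calc B * θ ≤ S.c / 4 * Θ * θ := mul_le_mul_of_nonneg_right hBΘ hθ0.le
      _ = S.c / 4 * (Θ * θ) := by ring
      _ = S.c / 8 := by rw [hΘθ]; ring
  set e := min (m / 2) (min (S.c / (2 * (1 + Θ))) (min (θ * S.c / 4) ((1 - S.κ) / (2 * Θ)))) with he
  have he0 : 0 < e := by
    have h1 : 0 < 1 - S.κ := by linarith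
    exact lt_min (by linarith) (lt_min (by positivity) (lt_min (by positivity) (by positivity)))
  have he1 : e ≤ m / 2 := min_le_left _ _
  have he2 : e ≤ S.c / (2 * (1 + Θ)) := (min_le_right _ _).trans (min_le_left _ _)
  have he3 : e ≤ θ * S.c / 4 :=
    (min_le_right _ _).trans ((min_le_right _ _).trans (min_le_left _ _))
  have he4 : e ≤ (1 - S.κ) / (2 * Θ) :=
    (min_le_right _ _).trans ((min_le_right _ _).trans (min_le_right _ _))
  have h3 : e * (1 + Θ) ≤ S.c / 2 := by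
    rw [le_div_iff₀ (by positivity)] at he2
    linarith
  have h5 : S.κ + e * Θ < 1 := by
    rw [le_div_iff₀ (by positivity)] at he4
    linarith
  refine ⟨e, he0, fun E Ei H z k hz v => ?_⟩
  by_cases hl : ∀ n, ∃ l : ℤ, |(Ei^[n] z).2 - l| ≤ 1/8
  · exact H.split_near hB he0.le (by linarith) hΘ1 hBΘ h3 hθ0 hθ1 (by rw [hΘθ]; norm_num) hBθ he3
      h5 hz hl v
  · push Not at hl
    obtain ⟨n₀, hn₀⟩ := hl
    have hz0 := hz 0
    simp only [Function.iterate_zero, id_eq] at hz0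
    refine ⟨0, v, by simp, by simp, ?_⟩
    refine H.split_far hm0 hm1 hm2 he1 hz0.1 hz0.2 (n₀ := n₀) (l := ⌊(Ei^[n₀] z).2⌋) ?_ v
    have h6 := hn₀ ⌊(Ei^[n₀] z).2⌋
    have h7 := hn₀ (⌊(Ei^[n₀] z).2⌋ + 1)
    have h8 := Int.floor_le (Ei^[n₀] z).2
    have h9 := Int.lt_floor_add_one (Ei^[n₀] z).2
    rw [abs_of_nonneg (by linarith)] at h6
    push_cast at h7
    rw [abs_of_nonpos (by linarith)] at h7
    rw [abs_le]
    constructor <;> linarith

end NSkew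

end Pool.Agent.Work.MP_f9d495_an
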