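import Mathlib

/-!
# Periodization of functions supported near `0`
-/

open Filter Topology Set

namespace Pool.Agent.Work.MP_f9d495_an

/-- The `1`-periodic function which equals `g` on `[-1/2, 1/2]` (for `g` vanishing outside
`[-3/8, 3/8]`). -/
noncomputable def per (g : ℝ → ℝ) (x : ℝ) : ℝ := g (x - round x)

theorem per_eq {g : ℝ → ℝ} (hg : ∀ x, 3/8 ≤ |x| → g x = 0) {x : ℝ} {n : ℤ} (h : |x - n| ≤ 1/2) :
    per g x = g (x - n) := by
  unfold per
  rcases lt_or_eq_of_le h with h | h
  · have : round x = n := by
      have h0 : round (x - n) = 0 := by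
        rw [round_eq_zero_iff]
        rw [abs_lt] at h
        exact ⟨by linarith, by linarith⟩
      have h1 : round (x - n + (n : ℝ)) = round (x - n) + n := round_add_intCast _ _
      rw [sub_add_cancel, h0, zero_add] at h1
      exact h1
    rw [this]
  · have h1 : (1 : ℝ)/2 ≤ |x - round x| := by
      by_contra hlt
      push Not at hlt
      have h2 : |((round x : ℤ) : ℝ) - n| < 1 := by
        calc |((round x : ℤ) : ℝ) - n| = |(x - n) - (x - round x)| := by ring_nf
          _ ≤ |x - n| + |x - round x| := abs_sub _ _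
          _ < 1 := by linarith
      have h3 : round x = n := by
        have : |(round x - n : ℤ)| < 1 := by exact_mod_cast h2
        have := Int.abs_lt_one_iff.1 this
        omega
      rw [h3] at hlt
      linarith
    rw [hg _ (by linarith), hg _ (by linarith)]

theorem per_periodic (g : ℝ → ℝ) (x : ℝ) : per g (x + 1) = per g x := by
  unfold per
  have : round (x + 1) = round x + 1 := by
    have := round_add_intCast x 1
    simpa using this
  rw [this]
  congr 1
  push_cast
  ring

theorem per_zero_of {g : ℝ → ℝ} (hg : ∀ x, 3/8 ≤ |x| → g x = 0) {x : ℝ} {n : ℤ}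
    (h1 : n + 3/8 ≤ x) (h2 : x ≤ n + 5/8) : per g x = 0 := by
  rcases le_total x (n + 1/2) with h | h
  · have : |x - n| ≤ 1/2 := by rw [abs_le]; constructor <;> linarith
    rw [per_eq hg this]
    apply hg
    rw [abs_of_nonneg (by linarith)]
    linarith
  · have : |x - ((n + 1 : ℤ) : ℝ)| ≤ 1/2 := by
      push_cast
      rw [abs_le]; constructor <;> linarith
    rw [per_eq hg this]
    apply hg
    push_cast
    rw [abs_of_nonpos (by linarith)]
    linarith

theorem per_contDiff {g : ℝ → ℝ} (hg : ∀ x, 3/8 ≤ |x| → g x = 0) {n : WithTop ℕ∞}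
    (hs : ContDiff ℝ n g) : ContDiff ℝ n (per g) := by
  rw [contDiff_iff_contDiffAt]
  intro x
  by_cases h : |x - round x| < 1/2
  · -- locally `per g = g (· - round x)`
    have h1 : per g =ᶠ[𝓝 x] fun y => g (y - round x) := by
      have hopen : IsOpen {y : ℝ | |y - round x| < 1/2} :=
        isOpen_lt (by fun_prop) continuous_const
      filter_upwards [hopen.mem_nhds h] with y hy
      exact per_eq hg (le_of_lt hy)
    exact (ContDiffAt.congr_of_eventuallyEq
      ((hs.comp (contDiff_id.sub contDiff_const)).contDiffAt) h1)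
  · -- locally zero
    have h2 : |x - round x| = 1/2 := le_antisymm (abs_sub_round x) (not_lt.1 h)
    have h1 : per g =ᶠ[𝓝 x] fun _ => (0 : ℝ) := by
      have hopen : IsOpen {y : ℝ | |y - x| < 1/8} := isOpen_lt (by fun_prop) continuous_const
      filter_upwards [hopen.mem_nhds (show |x - x| < 1/8 by simp)] with y hy
      have hy' : |y - x| < 1/8 := hy
      rw [abs_lt] at hy'
      rcases abs_eq (by norm_num : (0:ℝ) ≤ 1/2) |>.1 h2 with h3 | h3
      · exact per_zero_of hg (n := round x) (by linarith) (by linarith)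
      · refine per_zero_of hg (n := round x - 1) ?_ ?_
        · push_cast; linarith
        · push_cast; linarith
    exact (contDiffAt_const).congr_of_eventuallyEq h1

theorem per_abs_le {g : ℝ → ℝ} {M : ℝ} (h : ∀ x, |g x| ≤ M) (x : ℝ) : |per g x| ≤ M := h _

theorem per_odd {g : ℝ → ℝ} (hg : ∀ x, 3/8 ≤ |x| → g x = 0) (ho : ∀ x, g (-x) = - g x) (x : ℝ) :
    per g (-x) = - per g x := by
  have h1 : |x - round x| ≤ 1/2 := abs_sub_round x
  have h2 : |-x - ((-round x : ℤ) : ℝ)| ≤ 1/2 := by
    push_cast
    rw [show -x - -(round x : ℝ) = -(x - round x) by ring, abs_neg]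
    exact h1
  rw [per_eq hg h2, per_eq hg h1, ← ho]
  congr 1
  push_cast
  ring

/-- A smooth cut-off function: `1` on `[-p, p]`, `0` outside `[-q, q]`. -/
noncomputable def cut (p q x : ℝ) : ℝ :=
  Real.smoothTransition ((q - x) / (q - p)) * Real.smoothTransition ((q + x) / (q - p))

theorem cut_contDiff (p q : ℝ) {n : ℕ∞} : ContDiff ℝ n (cut p q) := by
  unfold cut
  apply ContDiff.mul
  · exact Real.smoothTransition.contDiff.comp (by fun_prop)
  · exact Real.smoothTransition.contDiff.comp (by fun_prop)

theorem cut_one {p q x : ℝ} (hpq : p < q) (hx : |x| ≤ p) : cut p q x = 1 := by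
  rw [abs_le] at hx
  unfold cut
  rw [Real.smoothTransition.one_of_one_le, Real.smoothTransition.one_of_one_le, one_mul]
  · rw [le_div_iff₀ (by linarith)]; linarith
  · rw [le_div_iff₀ (by linarith)]; linarith

theorem cut_zero {p q x : ℝ} (hpq : p < q) (hx : q ≤ |x|) : cut p q x = 0 := by
  unfold cut
  rcases le_abs.1 hx with h | h
  · rw [Real.smoothTransition.zero_of_nonpos, zero_mul]
    rw [div_le_iff₀ (by linarith)]; linarith
  · rw [Real.smoothTransition.zero_of_nonpos (x := (q + x) / (q - p)), mul_zero]
    rw [div_le_iff₀ (by linarith)]; linarith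

theorem cut_nonneg (p q x : ℝ) : 0 ≤ cut p q x :=
  mul_nonneg (Real.smoothTransition.nonneg _) (Real.smoothTransition.nonneg _)

theorem cut_le_one (p q x : ℝ) : cut p q x ≤ 1 :=
  mul_le_one₀ (Real.smoothTransition.le_one _) (Real.smoothTransition.nonneg _)
    (Real.smoothTransition.le_one _)

theorem cut_even (p q x : ℝ) : cut p q (-x) = cut p q x := by
  unfold cut
  rw [mul_comm]
  congr 2 <;> ring

/-- smooth step: `0` for `x ≤ p`, `1` for `x ≥ q` -/
noncomputable def step (p q x : ℝ) : ℝ := Real.smoothTransition ((x - p) / (q - p))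

theorem step_contDiff (p q : ℝ) {n : ℕ∞} : ContDiff ℝ n (step p q) := by
  unfold step
  exact Real.smoothTransition.contDiff.comp (by fun_prop)

theorem step_zero {p q x : ℝ} (hpq : p < q) (hx : x ≤ p) : step p q x = 0 := by
  unfold step
  rw [Real.smoothTransition.zero_of_nonpos]
  rw [div_le_iff₀ (by linarith)]; linarith

theorem step_one {p q x : ℝ} (hpq : p < q) (hx : q ≤ x) : step p q x = 1 := by
  unfold step
  rw [Real.smoothTransition.one_of_one_le]
  rw [le_div_iff₀ (by linarith)]; linarith

end Pool.Agent.Work.MP_f9d495_an
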