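import Pool.Agent.Work.MP_f9d495_an.Defs

open Filter Topology MeasureTheory Set

namespace Pool.Agent.Work.MP_f9d495_an

theorem continuous_cov : Continuous cov := by
  unfold cov
  exact (AddCircle.continuous_mk' 1 |>.comp continuous_fst).prodMk
    (AddCircle.continuous_mk' 1 |>.comp continuous_snd)

theorem cov_add_int (x : Plane) (m n : ℤ) : cov (x + ((m : ℝ), (n : ℝ))) = cov x :=
  (cov_eq_iff.2 ⟨m, n, rfl⟩).symm

/-- A continuous integer valued function on a connected space is constant. -/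
theorem int_valued_const {X : Type*} [TopologicalSpace X] [PreconnectedSpace X] {φ : X → ℝ}
    (hφ : Continuous φ) (h : ∀ x, ∃ m : ℤ, φ x = m) : ∀ x y, φ x = φ y := by
  intro x y
  by_contra hne
  obtain ⟨m, hm⟩ := h x
  obtain ⟨n, hn⟩ := h y
  have hpre : IsPreconnected (Set.range φ) := isPreconnected_range hφ
  have hoc := hpre.ordConnected
  rcases lt_or_gt_of_ne hne with hlt | hlt
  · have hmn : (m : ℝ) + 1 ≤ n := by
      have : (m : ℝ) < n := by rw [← hm, ← hn]; exact hlt
      exact_mod_cast this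
    have : (m : ℝ) + 1/2 ∈ Set.range φ := hoc.out ⟨x, rfl⟩ ⟨y, rfl⟩ ⟨by linarith, by linarith⟩
    obtain ⟨z, hz⟩ := this
    obtain ⟨k, hk⟩ := h z
    rw [hk] at hz
    have h1 : (2 * k : ℤ) = 2 * m + 1 := by
      have : (2 * k : ℝ) = 2 * m + 1 := by linarith
      exact_mod_cast this
    omega
  · have hmn : (n : ℝ) + 1 ≤ m := by
      have : (n : ℝ) < m := by rw [← hm, ← hn]; exact hlt
      exact_mod_cast this
    have : (n : ℝ) + 1/2 ∈ Set.range φ := hoc.out ⟨y, rfl⟩ ⟨x, rfl⟩ ⟨by linarith, by linarith⟩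
    obtain ⟨z, hz⟩ := this
    obtain ⟨k, hk⟩ := h z
    rw [hk] at hz
    have h1 : (2 * k : ℤ) = 2 * n + 1 := by
      have : (2 * k : ℝ) = 2 * n + 1 := by linarith
      exact_mod_cast this
    omega

/-- Two continuous plane maps which agree modulo `ℤ²` differ by a constant integer vector. -/
theorem eq_add_int_of_cov_eq {F G : Plane → Plane} (hF : Continuous F) (hG : Continuous G)
    (h : ∀ x, cov (F x) = cov (G x)) : ∃ m n : ℤ, ∀ x, G x = F x + ((m : ℝ), (n : ℝ)) := by
  have h1 : ∀ x, ∃ m : ℤ, (G x - F x).1 = m := by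
    intro x
    obtain ⟨m, n, hmn⟩ := cov_eq_iff.1 (h x)
    exact ⟨m, by rw [hmn]; simp⟩
  have h2 : ∀ x, ∃ m : ℤ, (G x - F x).2 = m := by
    intro x
    obtain ⟨m, n, hmn⟩ := cov_eq_iff.1 (h x)
    exact ⟨n, by rw [hmn]; simp⟩
  have hc := hG.sub hF
  have c1 := int_valued_const (continuous_fst.comp hc) h1
  have c2 := int_valued_const (continuous_snd.comp hc) h2
  obtain ⟨m, hm⟩ := h1 0
  obtain ⟨n, hn⟩ := h2 0
  refine ⟨m, n, fun x => ?_⟩
  have e1 := c1 x 0
  have e2 := c2 x 0
  simp only [Function.comp_apply] at e1 e2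
  ext
  · simp only [Prod.fst_add]
    have : (G x - F x).1 = (m : ℝ) := by rw [← hm]; exact e1
    simp only [Prod.fst_sub] at this
    linarith
  · simp only [Prod.snd_add]
    have : (G x - F x).2 = (n : ℝ) := by rw [← hn]; exact e2
    simp only [Prod.snd_sub] at this
    linarith

theorem IsLift.continuous {r : ℕ} {F : Plane → Plane} {h : Torus → Torus} (hF : IsLift r F h) :
    Continuous F := hF.1.continuous

theorem IsLift.mono {r r' : ℕ} (hr : r' ≤ r) {F : Plane → Plane} {h : Torus → Torus}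
    (hF : IsLift r F h) : IsLift r' F h := ⟨hF.1.of_le (by exact_mod_cast hr), hF.2⟩

theorem IsLift.eq_add_int {r r' : ℕ} {F G : Plane → Plane} {h : Torus → Torus}
    (hF : IsLift r F h) (hG : IsLift r' G h) : ∃ m n : ℤ, ∀ x, G x = F x + ((m : ℝ), (n : ℝ)) :=
  eq_add_int_of_cov_eq hF.continuous hG.continuous (fun x => by rw [hF.2, hG.2])

theorem IsLift.add_const {r : ℕ} {F : Plane → Plane} {h : Torus → Torus} (hF : IsLift r F h)
    (m n : ℤ) : IsLift r (fun x => F x + ((m : ℝ), (n : ℝ))) h :=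
  ⟨hF.1.add contDiff_const, fun x => by rw [cov_add_int, hF.2]⟩

theorem IsLift.translate {r : ℕ} {F : Plane → Plane} {h : Torus → Torus} (hF : IsLift r F h)
    (m n : ℤ) : IsLift r (fun x => F (x + ((m : ℝ), (n : ℝ)))) h :=
  ⟨hF.1.comp (contDiff_id.add contDiff_const), fun x => by rw [hF.2, cov_add_int]⟩

theorem IsLift.fderiv_eq {F G : Plane → Plane} {h : Torus → Torus} {r r' : ℕ}
    (hF : IsLift r F h) (hG : IsLift r' G h) (x : Plane) : fderiv ℝ G x = fderiv ℝ F x := by
  obtain ⟨m, n, hmn⟩ := hF.eq_add_int hG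
  have : G = fun x => F x + ((m : ℝ), (n : ℝ)) := funext hmn
  rw [this, fderiv_add_const]

theorem IsLift.fderiv_translate {F : Plane → Plane} {h : Torus → Torus} {r : ℕ}
    (hF : IsLift r F h) (x : Plane) (m n : ℤ) :
    fderiv ℝ F (x + ((m : ℝ), (n : ℝ))) = fderiv ℝ F x := by
  have := hF.fderiv_eq (hF.translate m n) x
  rw [← this]
  exact (fderiv_comp_add_right _).symm

/-- The derivative of a torus map is the derivative of any `C¹` lift at any point above. -/
theorem tderiv_eq {F : Plane → Plane} {h : Torus → Torus} (hF : IsLift 1 F h) (x : Plane) :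
    tderiv h (cov x) = fderiv ℝ F x := by
  classical
  have H : ∃ F, IsLift 1 F h := ⟨F, hF⟩
  rw [tderiv, dif_pos H, hF.fderiv_eq H.choose_spec]
  have : cov x = cov (Function.surjInv cov_surjective (cov x)) :=
    (Function.surjInv_eq cov_surjective (cov x)).symm
  obtain ⟨m, n, hmn⟩ := cov_eq_iff.1 this
  rw [hmn, hF.fderiv_translate]

theorem IsLift.comp {r : ℕ} {F G : Plane → Plane} {h k : Torus → Torus}
    (hF : IsLift r F h) (hG : IsLift r G k) : IsLift r (F ∘ G) (h ∘ k) :=
  ⟨hF.1.comp hG.1, fun x => by simp [hF.2, hG.2]⟩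

theorem IsLift.id (r : ℕ) : IsLift r _root_.id _root_.id := ⟨contDiff_id, fun _ => rfl⟩

theorem IsLift.differentiableAt {r : ℕ} (hr : 1 ≤ r) {F : Plane → Plane} {h : Torus → Torus}
    (hF : IsLift r F h) (x : Plane) : DifferentiableAt ℝ F x :=
  (hF.1.differentiable (by
    have : (1 : WithTop ℕ∞) ≤ r := by exact_mod_cast hr
    intro h0
    rw [h0] at this
    exact absurd this (by simp))).differentiableAt

/-- Chain rule on the torus. -/
theorem tderiv_comp {F G : Plane → Plane} {h k : Torus → Torus}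
    (hF : IsLift 1 F h) (hG : IsLift 1 G k) (z : Torus) :
    tderiv (h ∘ k) z = (tderiv h (k z)).comp (tderiv k z) := by
  obtain ⟨x, rfl⟩ := cov_surjective z
  rw [tderiv_eq (hF.comp hG), tderiv_eq hG, ← hG.2, tderiv_eq hF,
    fderiv_comp x (hF.differentiableAt le_rfl _) (hG.differentiableAt le_rfl _)]

theorem tderiv_id (z : Torus) : tderiv id z = ContinuousLinearMap.id ℝ Plane := by
  obtain ⟨x, rfl⟩ := cov_surjective z
  rw [tderiv_eq (IsLift.id 1), fderiv_id]

/-! ### Permutations with lifts -/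

theorem IsLift.pow {r : ℕ} {F : Plane → Plane} {f : Equiv.Perm Torus} (hF : IsLift r F f) (n : ℕ) :
    IsLift r (F^[n]) (f ^ n : Equiv.Perm Torus) := by
  induction n with
  | zero => exact ⟨contDiff_id, fun x => rfl⟩
  | succ n ih =>
    rw [Function.iterate_succ', pow_succ']
    exact hF.comp ih

theorem tderiv_pow_succ {F : Plane → Plane} {f : Equiv.Perm Torus} (hF : IsLift 1 F f) (n : ℕ)
    (z : Torus) : tderiv (f ^ (n + 1) : Equiv.Perm Torus) z =
      (tderiv f ((f ^ n) z)).comp (tderiv (f ^ n : Equiv.Perm Torus) z) := by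
  rw [pow_succ']
  exact tderiv_comp hF (hF.pow n) z

theorem tderiv_pow_succ' {F : Plane → Plane} {f : Equiv.Perm Torus} (hF : IsLift 1 F f) (n : ℕ)
    (z : Torus) : tderiv (f ^ (n + 1) : Equiv.Perm Torus) z =
      (tderiv (f ^ n : Equiv.Perm Torus) (f z)).comp (tderiv f z) := by
  rw [pow_succ]
  exact tderiv_comp (hF.pow n) hF z

theorem tderiv_pow_zero {f : Equiv.Perm Torus} (z : Torus) :
    tderiv (f ^ 0 : Equiv.Perm Torus) z = ContinuousLinearMap.id ℝ Plane := by
  rw [pow_zero]
  exact tderiv_id z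

/-- `Df⁻¹` is inverse to `Df`. -/
theorem tderiv_inv_comp {F G : Plane → Plane} {f : Equiv.Perm Torus} (hF : IsLift 1 F f)
    (hG : IsLift 1 G f.symm) (z : Torus) :
    (tderiv f.symm (f z)).comp (tderiv f z) = ContinuousLinearMap.id ℝ Plane := by
  rw [← tderiv_comp hG hF]
  have : (f.symm : Torus → Torus) ∘ f = id := by
    funext x; simp
  rw [this, tderiv_id]

theorem tderiv_comp_inv {F G : Plane → Plane} {f : Equiv.Perm Torus} (hF : IsLift 1 F f)
    (hG : IsLift 1 G f.symm) (z : Torus) :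
    (tderiv f z).comp (tderiv f.symm (f z)) = ContinuousLinearMap.id ℝ Plane := by
  have h1 : (f : Torus → Torus) ∘ f.symm = id := by
    funext x; simp
  have h2 := tderiv_comp hF hG (f z)
  rw [h1, tderiv_id] at h2
  simpa using h2.symm

/-! ### Distances -/

theorem dist_coe_le (a b : ℝ) : dist (a : UnitAddCircle) (b : UnitAddCircle) ≤ |a - b| := by
  rw [dist_eq_norm, ← AddCircle.coe_sub, UnitAddCircle.norm_eq]
  by_cases h : |a - b| ≤ 1/2
  · have : round (a - b) = 0 ∨ |a - b| = 1/2 := by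
      rcases lt_or_eq_of_le h with h | h
      · left
        rw [round_eq_zero_iff]
        rw [abs_lt] at h
        exact ⟨by linarith, by linarith⟩
      · exact Or.inr h
    rcases this with h0 | h0
    · rw [h0]; simp
    · rw [h0]
      exact abs_sub_round _
  · push_neg at h
    exact le_trans (abs_sub_round _) h.le

theorem dist_cov_le (x y : Plane) : dist (cov x) (cov y) ≤ dist x y := by
  rw [Prod.dist_eq, Prod.dist_eq]
  refine max_le_max ?_ ?_
  · rw [Real.dist_eq]; exact dist_coe_le _ _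
  · rw [Real.dist_eq]; exact dist_coe_le _ _

theorem exists_coe_dist_eq (a : ℝ) (w : UnitAddCircle) :
    ∃ b : ℝ, (b : UnitAddCircle) = w ∧ |a - b| = dist (a : UnitAddCircle) w := by
  obtain ⟨b, rfl⟩ := QuotientAddGroup.mk_surjective w
  refine ⟨b + round (a - b), ?_, ?_⟩
  · have : ((round (a - b) : ℤ) : ℝ) = (round (a - b)) • (1 : ℝ) := by simp
    rw [this, AddCircle.coe_add]
    have h0 : ((((round (a - b)) • (1 : ℝ)) : ℝ) : UnitAddCircle) = 0 := by
      rw [AddCircle.coe_eq_zero_iff]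
      exact ⟨_, rfl⟩
    rw [h0, add_zero]
  · change _ = dist (a : UnitAddCircle) (b : UnitAddCircle)
    rw [dist_eq_norm, ← AddCircle.coe_sub, UnitAddCircle.norm_eq]
    congr 1
    ring

/-- Every torus point has a lift whose distance to a given plane point is the torus distance. -/
theorem exists_cov_dist_eq (x : Plane) (w : Torus) :
    ∃ y : Plane, cov y = w ∧ dist x y = dist (cov x) w := by
  obtain ⟨a, ha, ha'⟩ := exists_coe_dist_eq x.1 w.1
  obtain ⟨b, hb, hb'⟩ := exists_coe_dist_eq x.2 w.2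
  refine ⟨(a, b), Prod.ext ha hb, ?_⟩
  rw [Prod.dist_eq, Prod.dist_eq, Real.dist_eq, Real.dist_eq]
  simp only [ha', hb']
  rfl

theorem dist_torus_le (z w : Torus) : dist z w ≤ 1/2 := by
  obtain ⟨x, rfl⟩ := cov_surjective z
  obtain ⟨y, rfl⟩ := cov_surjective w
  have h : ∀ a b : ℝ, dist (a : UnitAddCircle) (b : UnitAddCircle) ≤ 1/2 := by
    intro a b
    rw [dist_eq_norm, ← AddCircle.coe_sub, UnitAddCircle.norm_eq]
    exact abs_sub_round _
  rw [Prod.dist_eq]
  exact max_le (h _ _) (h _ _)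

end Pool.Agent.Work.MP_f9d495_an
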