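import Pool.Agent.Work.MP_f9d495_an.ShearData
import Pool.Agent.Work.MP_f9d495_an.TBasic

/-!
# Block D2 : the torus map
-/

open Filter Topology MeasureTheory Set

namespace Pool.Agent.Work.MP_f9d495_an

/-- The determinant of a linear map of the plane. -/
theorem det_plane (L : Plane →L[ℝ] Plane) :
    L.det = (L (1, 0)).1 * (L (0, 1)).2 - (L (0, 1)).1 * (L (1, 0)).2 := by
  have h : L.det = LinearMap.det (L : Plane →ₗ[ℝ] Plane) := rfl
  rw [h, ← LinearMap.det_toMatrix (Module.Basis.finTwoProd ℝ), Matrix.det_fin_two]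
  simp [LinearMap.toMatrix_apply]

theorem det_comp_plane (L M : Plane →L[ℝ] Plane) : (L.comp M).det = L.det * M.det := by
  have h : (L.comp M).det = LinearMap.det ((L : Plane →ₗ[ℝ] Plane) ∘ₗ (M : Plane →ₗ[ℝ] Plane)) :=
    rfl
  rw [h, LinearMap.det_comp]

/-- horizontal shear -/
def HS (h : ℝ → ℝ) (z : Plane) : Plane := (z.1 + h z.2, z.2)

/-- vertical shear -/
def VS (v : ℝ → ℝ) (z : Plane) : Plane := (z.1, z.2 + v z.1)

theorem HS_contDiff {h : ℝ → ℝ} {n : WithTop ℕ∞} (hh : ContDiff ℝ n h) : ContDiff ℝ n (HS h) :=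
  (contDiff_fst.add (hh.comp contDiff_snd)).prodMk contDiff_snd

theorem VS_contDiff {h : ℝ → ℝ} {n : WithTop ℕ∞} (hh : ContDiff ℝ n h) : ContDiff ℝ n (VS h) :=
  contDiff_fst.prodMk (contDiff_snd.add (hh.comp contDiff_fst))

theorem HS_hasFDerivAt {h : ℝ → ℝ} {h' : ℝ} {z : Plane} (hh : HasDerivAt h h' z.2) :
    HasFDerivAt (HS h) ((ContinuousLinearMap.fst ℝ ℝ ℝ +
      h' • ContinuousLinearMap.snd ℝ ℝ ℝ).prod (ContinuousLinearMap.snd ℝ ℝ ℝ)) z := by
  have e1 : HasFDerivAt (fun z : Plane => h z.2) (h' • ContinuousLinearMap.snd ℝ ℝ ℝ) z := by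
    have := hh.comp_hasFDerivAt z (hasFDerivAt_snd (𝕜 := ℝ) (E := ℝ) (F := ℝ) (p := z))
    exact this
  exact (hasFDerivAt_fst.add e1).prodMk hasFDerivAt_snd

theorem VS_hasFDerivAt {h : ℝ → ℝ} {h' : ℝ} {z : Plane} (hh : HasDerivAt h h' z.1) :
    HasFDerivAt (VS h) ((ContinuousLinearMap.fst ℝ ℝ ℝ).prod (ContinuousLinearMap.snd ℝ ℝ ℝ +
      h' • ContinuousLinearMap.fst ℝ ℝ ℝ)) z := by
  have e1 : HasFDerivAt (fun z : Plane => h z.1) (h' • ContinuousLinearMap.fst ℝ ℝ ℝ) z := by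
    have := hh.comp_hasFDerivAt z (hasFDerivAt_fst (𝕜 := ℝ) (E := ℝ) (F := ℝ) (p := z))
    exact this
  exact hasFDerivAt_fst.prodMk (hasFDerivAt_snd.add e1)

theorem det_fderiv_HS {h : ℝ → ℝ} (hh : Differentiable ℝ h) (z : Plane) :
    (fderiv ℝ (HS h) z).det = 1 := by
  rw [(HS_hasFDerivAt (hh z.2).hasDerivAt).fderiv, det_plane]
  simp

theorem det_fderiv_VS {h : ℝ → ℝ} (hh : Differentiable ℝ h) (z : Plane) :
    (fderiv ℝ (VS h) z).det = 1 := by
  rw [(VS_hasFDerivAt (hh z.1).hasDerivAt).fderiv, det_plane]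
  simp

/-- product map -/
def PM (a : ℝ → ℝ) (z : Plane) : Plane := (a z.1, a z.2)

theorem PM_contDiff {a : ℝ → ℝ} {n : WithTop ℕ∞} (ha : ContDiff ℝ n a) : ContDiff ℝ n (PM a) :=
  (ha.comp contDiff_fst).prodMk (ha.comp contDiff_snd)

theorem PM_hasFDerivAt {a : ℝ → ℝ} {a1 a2 : ℝ} {z : Plane} (h1 : HasDerivAt a a1 z.1)
    (h2 : HasDerivAt a a2 z.2) :
    HasFDerivAt (PM a) ((a1 • ContinuousLinearMap.fst ℝ ℝ ℝ).prod
      (a2 • ContinuousLinearMap.snd ℝ ℝ ℝ)) z := by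
  have e1 : HasFDerivAt (fun z : Plane => a z.1) (a1 • ContinuousLinearMap.fst ℝ ℝ ℝ) z :=
    h1.comp_hasFDerivAt z (hasFDerivAt_fst (𝕜 := ℝ) (E := ℝ) (F := ℝ) (p := z))
  have e2 : HasFDerivAt (fun z : Plane => a z.2) (a2 • ContinuousLinearMap.snd ℝ ℝ ℝ) z :=
    h2.comp_hasFDerivAt z (hasFDerivAt_snd (𝕜 := ℝ) (E := ℝ) (F := ℝ) (p := z))
  exact e1.prodMk e2

theorem det_fderiv_PM {a a' : ℝ → ℝ} (ha : ∀ x, HasDerivAt a (a' x) x) (z : Plane) :
    (fderiv ℝ (PM a) z).det = a' z.1 * a' z.2 := by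
  rw [(PM_hasFDerivAt (ha z.1) (ha z.2)).fderiv, det_plane]
  simp

theorem periodic_add_int {h : ℝ → ℝ} (hh : ∀ x, h (x + 1) = h x) (x : ℝ) (m : ℤ) :
    h (x + m) = h x := by
  have hp : Function.Periodic h 1 := hh
  have := hp.int_mul m x
  simpa using this

theorem a_add_int {a : ℝ → ℝ} (ha : ∀ x, a (x + 1) = a x + 1) (x : ℝ) (m : ℤ) :
    a (x + m) = a x + m := by
  have hp : Function.Periodic (fun x => a x - x) 1 := by
    intro x; simp only [ha]; ring
  have := hp.int_mul m x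
  simp only [mul_one] at this
  linarith

/-! ### Torus maps induced by equivariant plane maps -/

/-- the torus map induced by a plane map -/
noncomputable def tmap (F : Plane → Plane) (z : Torus) : Torus :=
  cov (F (Function.surjInv cov_surjective z))

theorem tmap_cov {F : Plane → Plane}
    (hF : ∀ z (m n : ℤ), F (z + ((m : ℝ), (n : ℝ))) = F z + ((m : ℝ), (n : ℝ))) (x : Plane) :
    tmap F (cov x) = cov (F x) := by
  unfold tmap
  have h : cov (Function.surjInv cov_surjective (cov x)) = cov x :=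
    Function.surjInv_eq cov_surjective (cov x)
  obtain ⟨m, n, hmn⟩ := cov_eq_iff.1 h
  have : F x = F (Function.surjInv cov_surjective (cov x)) + ((m : ℝ), (n : ℝ)) := by
    rw [← hF, ← hmn]
  rw [this, cov_add_int]

namespace ShearData
variable (S : ShearData)

/-- contraction factor of `f` in the `x` direction near the horseshoe -/
noncomputable def lam : ℝ := 4 / (9 * S.κ)
/-- `1/nu` is the expansion factor of `f` in the `y` direction near the horseshoe -/
noncomputable def nu : ℝ := 4 * S.κ / 9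

/-- The map `F = f⁻¹` on the plane. -/
def F (z : Plane) : Plane :=
  let x0 := S.a z.1
  let y0 := S.a z.2
  let x1 := x0 + S.h1 y0
  let y1 := y0 + S.v1 x1
  let x2 := x1 + S.h2 y1
  let y2 := y1 + S.v2 x2
  (x2 + S.h3 y2, y2)

theorem F_eq : S.F = HS S.h3 ∘ VS S.v2 ∘ HS S.h2 ∘ VS S.v1 ∘ HS S.h1 ∘ PM S.a := rfl

theorem a_strictMono : StrictMono S.a := by
  apply strictMono_of_deriv_pos
  intro x
  rw [(S.a_deriv x).deriv]
  exact S.a_pos x

theorem a_zero : S.a 0 = 0 := by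
  rw [S.a_lin 0 (by simp), mul_zero]

theorem a_int (n : ℤ) : S.a n = n := by
  have := a_add_int S.a_add 0 n
  rw [zero_add, S.a_zero, zero_add] at this
  exact this

/-- The circle map `a` is an increasing diffeomorphism of the line. -/
theorem a_bijective : Function.Bijective S.a := by
  refine ⟨S.a_strictMono.injective, fun y => ?_⟩
  have hc : Continuous S.a := S.a_smooth.continuous
  have h1 : S.a (⌊y⌋ : ℤ) ≤ y := by rw [S.a_int]; exact Int.floor_le y
  have h2 : y ≤ S.a ((⌊y⌋ + 1 : ℤ) : ℝ) := by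
    rw [S.a_int]; push_cast; exact (Int.lt_floor_add_one y).le
  have hle : ((⌊y⌋ : ℤ) : ℝ) ≤ ((⌊y⌋ + 1 : ℤ) : ℝ) := by push_cast; linarith
  obtain ⟨x, -, hx⟩ := intermediate_value_Icc hle hc.continuousOn ⟨h1, h2⟩
  exact ⟨x, hx⟩

/-- inverse of `a` -/
noncomputable def ai : ℝ → ℝ := Function.surjInv S.a_bijective.2

theorem a_ai (x : ℝ) : S.a (S.ai x) = x := Function.surjInv_eq _ x

theorem ai_a (x : ℝ) : S.ai (S.a x) = x := S.a_bijective.1 (S.a_ai _)

theorem ai_add_int (x : ℝ) (m : ℤ) : S.ai (x + m) = S.ai x + m := by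
  apply S.a_bijective.1
  rw [S.a_ai, a_add_int S.a_add, S.a_ai]

/-- `a` as a homeomorphism -/
noncomputable def aHomeo : ℝ ≃ₜ ℝ :=
  (S.a_strictMono.orderIsoOfSurjective S.a S.a_bijective.2).toHomeomorph

theorem ai_smooth (n : WithTop ℕ∞) (hn : n ≤ (⊤ : ℕ∞)) : ContDiff ℝ n S.ai := by
  have h1 : ContDiff ℝ n (S.aHomeo.symm : ℝ → ℝ) := by
    apply S.aHomeo.contDiff_symm_deriv (f' := S.a')
    · intro x; exact (S.a_pos x).ne'
    · intro x; exact S.a_deriv x
    · exact S.a_smooth.of_le hn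
  have h2 : (S.aHomeo.symm : ℝ → ℝ) = S.ai := by
    funext x
    apply S.a_bijective.1
    rw [S.a_ai]
    exact S.aHomeo.apply_symm_apply x
  rwa [h2] at h1

/-- The map `f` on the plane. -/
noncomputable def Fi (z : Plane) : Plane :=
  let y2 := z.2
  let x2 := z.1 - S.h3 y2
  let y1 := y2 - S.v2 x2
  let x1 := x2 - S.h2 y1
  let y0 := y1 - S.v1 x1
  let x0 := x1 - S.h1 y0
  (S.ai x0, S.ai y0)

theorem Fi_eq : S.Fi = PM S.ai ∘ HS (fun y => - S.h1 y) ∘ VS (fun y => - S.v1 y) ∘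
    HS (fun y => - S.h2 y) ∘ VS (fun y => - S.v2 y) ∘ HS (fun y => - S.h3 y) := by
  funext z
  simp only [Fi, PM, HS, VS, Function.comp_apply, sub_eq_add_neg]

theorem F_Fi (z : Plane) : S.F (S.Fi z) = z := by
  simp only [F, Fi, S.a_ai, sub_add_cancel]

theorem Fi_F (z : Plane) : S.Fi (S.F z) = z := by
  simp only [F, Fi, add_sub_cancel_right, S.ai_a]

theorem nat_le_top (n : ℕ) : ((n : ℕ) : WithTop ℕ∞) ≤ ((⊤ : ℕ∞) : WithTop ℕ∞) := by
  exact_mod_cast le_top

theorem F_smooth (n : ℕ) : ContDiff ℝ n S.F := by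
  rw [S.F_eq]
  have hn := nat_le_top n
  exact (HS_contDiff (S.h3s.smooth.of_le hn)).comp ((VS_contDiff (S.v2s.smooth.of_le hn)).comp
    ((HS_contDiff (S.h2s.smooth.of_le hn)).comp ((VS_contDiff (S.v1s.smooth.of_le hn)).comp
      ((HS_contDiff (S.h1s.smooth.of_le hn)).comp (PM_contDiff (S.a_smooth.of_le hn))))))

theorem Fi_smooth (n : ℕ) : ContDiff ℝ n S.Fi := by
  rw [S.Fi_eq]
  have hn := nat_le_top n
  exact (PM_contDiff (S.ai_smooth n hn)).comp ((HS_contDiff (S.h1s.smooth.of_le hn).neg).comp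
    ((VS_contDiff (S.v1s.smooth.of_le hn).neg).comp ((HS_contDiff (S.h2s.smooth.of_le hn).neg).comp
      ((VS_contDiff (S.v2s.smooth.of_le hn).neg).comp
        (HS_contDiff (S.h3s.smooth.of_le hn).neg)))))

theorem F_periodic (z : Plane) (m n : ℤ) :
    S.F (z + ((m : ℝ), (n : ℝ))) = S.F z + ((m : ℝ), (n : ℝ)) := by
  have e1 := periodic_add_int S.h1s.periodic
  have e2 := periodic_add_int S.v1s.periodic
  have e3 := periodic_add_int S.h2s.periodic
  have e4 := periodic_add_int S.v2s.periodic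
  have e5 := periodic_add_int S.h3s.periodic
  have e6 := a_add_int S.a_add
  have add_r : ∀ x y z : ℝ, x + y + z = x + z + y := fun x y z => by ring
  simp only [F, Prod.fst_add, Prod.snd_add, e6]
  rw [e1, add_r (S.a z.1) (m : ℝ), e2, add_r (S.a z.2) (n : ℝ), e3,
    add_r (S.a z.1 + S.h1 (S.a z.2)) (m : ℝ), e4,
    add_r (S.a z.2 + S.v1 (S.a z.1 + S.h1 (S.a z.2))) (n : ℝ), e5,
    add_r _ (m : ℝ)]
  rfl

theorem Fi_periodic (z : Plane) (m n : ℤ) :
    S.Fi (z + ((m : ℝ), (n : ℝ))) = S.Fi z + ((m : ℝ), (n : ℝ)) := by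
  have : S.F (S.Fi z + ((m : ℝ), (n : ℝ))) = z + ((m : ℝ), (n : ℝ)) := by
    rw [S.F_periodic, S.F_Fi]
  rw [← this, S.Fi_F]

/-- The permutation of the torus induced by `Fi`. -/
noncomputable def fperm : Equiv.Perm Torus where
  toFun := tmap S.Fi
  invFun := tmap S.F
  left_inv := by
    intro z
    obtain ⟨x, rfl⟩ := cov_surjective z
    rw [tmap_cov S.Fi_periodic, tmap_cov S.F_periodic, S.F_Fi]
  right_inv := by
    intro z
    obtain ⟨x, rfl⟩ := cov_surjective z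
    rw [tmap_cov S.F_periodic, tmap_cov S.Fi_periodic, S.Fi_F]

theorem fperm_lift (r : ℕ) : IsLift r S.Fi S.fperm :=
  ⟨S.Fi_smooth r, fun x => (tmap_cov S.Fi_periodic x).symm⟩

theorem fperm_symm_lift (r : ℕ) : IsLift r S.F S.fperm.symm :=
  ⟨S.F_smooth r, fun x => (tmap_cov S.F_periodic x).symm⟩

/-- the diffeomorphism -/
noncomputable def diffeo (r : ℕ) : TorusDiffeo r where
  perm := S.fperm
  lift := ⟨_, S.fperm_lift r⟩
  lift_symm := ⟨_, S.fperm_symm_lift r⟩

/-- The permutation of the torus induced by `Fi` (inverse induced by `F`), and the diffeo. -/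
theorem exists_diffeo (r : ℕ) : ∃ f : TorusDiffeo r, IsLift r S.Fi f.perm ∧
    IsLift r S.F f.perm.symm :=
  ⟨S.diffeo r, S.fperm_lift r, S.fperm_symm_lift r⟩

/-- Jacobian of `F`. -/
theorem det_fderiv_F (z : Plane) : (fderiv ℝ S.F z).det = S.a' z.1 * S.a' z.2 := by
  have top_ne : ((⊤ : ℕ∞) : WithTop ℕ∞) ≠ 0 := by simp
  have dh1 := S.h1s.smooth.differentiable top_ne
  have dv1 := S.v1s.smooth.differentiable top_ne
  have dh2 := S.h2s.smooth.differentiable top_ne
  have dv2 := S.v2s.smooth.differentiable top_ne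
  have dh3 := S.h3s.smooth.differentiable top_ne
  have da : Differentiable ℝ (PM S.a) := (PM_contDiff S.a_smooth).differentiable top_ne
  have Hd1 : Differentiable ℝ (HS S.h1) := (HS_contDiff S.h1s.smooth).differentiable top_ne
  have Vd1 : Differentiable ℝ (VS S.v1) := (VS_contDiff S.v1s.smooth).differentiable top_ne
  have Hd2 : Differentiable ℝ (HS S.h2) := (HS_contDiff S.h2s.smooth).differentiable top_ne
  have Vd2 : Differentiable ℝ (VS S.v2) := (VS_contDiff S.v2s.smooth).differentiable top_ne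
  have Hd3 : Differentiable ℝ (HS S.h3) := (HS_contDiff S.h3s.smooth).differentiable top_ne
  have c1 : Differentiable ℝ (HS S.h1 ∘ PM S.a) := Hd1.comp da
  have c2 : Differentiable ℝ (VS S.v1 ∘ HS S.h1 ∘ PM S.a) := Vd1.comp c1
  have c3 : Differentiable ℝ (HS S.h2 ∘ VS S.v1 ∘ HS S.h1 ∘ PM S.a) := Hd2.comp c2
  have c4 : Differentiable ℝ (VS S.v2 ∘ HS S.h2 ∘ VS S.v1 ∘ HS S.h1 ∘ PM S.a) := Vd2.comp c3
  rw [S.F_eq, fderiv_comp z (Hd3 _) (c4 _), det_comp_plane, det_fderiv_HS dh3, one_mul,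
    fderiv_comp z (Vd2 _) (c3 _), det_comp_plane, det_fderiv_VS dv2, one_mul,
    fderiv_comp z (Hd2 _) (c2 _), det_comp_plane, det_fderiv_HS dh2, one_mul,
    fderiv_comp z (Vd1 _) (c1 _), det_comp_plane, det_fderiv_VS dv1, one_mul,
    fderiv_comp z (Hd1 _) (da _), det_comp_plane, det_fderiv_HS dh1, one_mul,
    det_fderiv_PM S.a_deriv]

/-! Local forms in scaled coordinates. `δ' = 4/1000`. -/

/-- offset in `x` of the two branches of `f` : 0 or 1 - λ -/
noncomputable def cc (i : Bool) : ℝ := if i then 1 - S.lam else 0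
/-- offset in `y` of the two strips : 0 or 1 - ν -/
noncomputable def dd (i : Bool) : ℝ := if i then 1 - S.nu else 0

theorem lam_mul : S.lam * (9 * S.κ) = 4 := by
  have := S.hκ
  unfold lam
  rw [div_mul_cancel₀]
  nlinarith

theorem lam_pos : 0 < S.lam := by
  have := S.hκ
  unfold lam
  positivity

theorem lam_bounds : 4/9 < S.lam ∧ S.lam ≤ 200/441 := by
  have h1 := S.hκ
  have h2 := S.hκ1
  have h3 := S.lam_mul
  have h4 := S.lam_pos
  constructor <;> nlinarith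

theorem nu_bounds : 196/450 ≤ S.nu ∧ S.nu < 4/9 := by
  have h1 := S.hκ
  have h2 := S.hκ1
  unfold nu
  constructor <;> linarith

/-- The composition of `F` in scaled coordinates, up to the last two shears. -/
theorem F_scaled (x y X2 Y2 X3 : ℝ) (hx : |x| ≤ 20) (hy : |y| ≤ 40)
    (hX2 : X2 = x / S.lam)
    (hv : S.v2 (S.s * X2) = S.s * (Y2 - (S.nu * y - X2)))
    (hh : S.h3 (S.s * Y2) = S.s * (X3 - X2)) :
    S.F (S.s * x, S.s * y) = (S.s * X3, S.s * Y2) := by
  have hs := S.hs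
  have hs1 := S.hs1
  have k0 := S.hκ
  have k1 := S.hκ1
  have ax := abs_le.1 hx
  have ay := abs_le.1 hy
  have small : ∀ t : ℝ, |t| ≤ 40 → |S.s * t| ≤ 1/4 := by
    intro t ht
    rw [abs_mul, abs_of_pos hs]
    calc S.s * |t| ≤ 1/10000 * 40 := mul_le_mul hs1 ht (abs_nonneg _) (by norm_num)
      _ ≤ 1/4 := by norm_num
  have hX2' : X2 = 9 * S.κ / 4 * x := by
    rw [hX2, lam]; field_simp
  have hx0 : S.a (S.s * x) = S.s * (S.κ * x) := by rw [S.a_lin _ (small x (by linarith))]; ring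
  have hy0 : S.a (S.s * y) = S.s * (S.κ * y) := by rw [S.a_lin _ (small y hy)]; ring
  have kx : |S.κ * x| ≤ 20 := by
    rw [abs_mul, abs_of_pos (by linarith)]
    nlinarith [abs_nonneg x]
  have ky : |S.κ * y| ≤ 40 := by
    rw [abs_mul, abs_of_pos (by linarith)]
    nlinarith [abs_nonneg y]
  have kx' := abs_le.1 kx
  have ky' := abs_le.1 ky
  have hx1 : S.s * (S.κ * x) + S.h1 (S.s * (S.κ * y)) =
      S.s * (S.κ * x + 20/81 * (S.κ * y)) := by
    rw [S.h1_loc _ (by linarith)]; ring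
  have hy1 : S.s * (S.κ * y) + S.v1 (S.s * (S.κ * x + 20/81 * (S.κ * y))) =
      S.s * (S.nu * y - X2) := by
    rw [S.v1_loc _ (abs_le.2 ⟨by linarith, by linarith⟩), hX2', nu]; ring
  have hx2 : S.s * (S.κ * x + 20/81 * (S.κ * y)) + S.h2 (S.s * (S.nu * y - X2)) =
      S.s * X2 := by
    rw [S.h2_loc]
    · rw [hX2', nu]; ring
    · rw [hX2', nu, abs_le]
      constructor <;> linarith
  simp only [F]
  rw [hx0, hy0, hx1, hy1, hx2, hv]
  have e : S.s * (S.nu * y - X2) + S.s * (Y2 - (S.nu * y - X2)) = S.s * Y2 := by ring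
  rw [e, hh]
  ext
  · simp only; ring
  · rfl

theorem F_affine (i : Bool) (x y : ℝ) (hy0 : -(4/1000) ≤ y) (hy1 : y ≤ 1 + 4/1000)
    (hx0 : S.cc i - S.lam * (4/1000) ≤ x) (hx1 : x ≤ S.cc i + S.lam + S.lam * (4/1000)) :
    S.F (S.s * x, S.s * y) = (S.s * ((x - S.cc i) / S.lam), S.s * (S.dd i + S.nu * y)) := by
  have hl := S.lam_bounds
  have hn := S.nu_bounds
  have hl0 := S.lam_pos
  have k0 := S.hκ
  have k1 := S.hκ1
  have hlm := S.lam_mul
  cases i with
  | false =>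
    simp only [cc, dd] at *
    norm_num at hx0 hx1 ⊢
    have hX : x / S.lam ≤ 1004/1000 := by rw [div_le_iff₀ hl0]; linarith
    have hX' : -(4/1000) ≤ x / S.lam := by rw [le_div_iff₀ hl0]; linarith
    apply S.F_scaled x y (x / S.lam) (S.nu * y) (x / S.lam)
    · rw [abs_le]; constructor <;> nlinarith
    · rw [abs_le]; constructor <;> linarith
    · rfl
    · rw [S.v2_low _ (by linarith) (by linarith)]; ring
    · rw [S.h3_low _ (by nlinarith) (by nlinarith)]; ring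
  | true =>
    simp only [cc, dd] at *
    norm_num at hx0 hx1 ⊢
    have hX : x / S.lam ≤ 100 := by rw [div_le_iff₀ hl0]; nlinarith
    have hX' : 239/200 ≤ x / S.lam := by rw [le_div_iff₀ hl0]; nlinarith
    apply S.F_scaled x y (x / S.lam) (1 - S.nu + S.nu * y) ((x - (1 - S.lam)) / S.lam)
    · rw [abs_le]; constructor <;> nlinarith
    · rw [abs_le]; constructor <;> linarith
    · rfl
    · rw [S.v2_high _ hX' hX, nu]; ring
    · rw [S.h3_high _ (by nlinarith) (by nlinarith)]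
      have : (x - (1 - S.lam)) / S.lam - x / S.lam = 1 - 9 * S.κ / 4 := by
        field_simp
        linarith
      rw [this]

theorem Fi_affine (i : Bool) (x y : ℝ) (hx0 : -(4/1000) ≤ x) (hx1 : x ≤ 1 + 4/1000)
    (hy0 : S.dd i - S.nu * (4/1000) ≤ y) (hy1 : y ≤ S.dd i + S.nu + S.nu * (4/1000)) :
    S.Fi (S.s * x, S.s * y) = (S.s * (S.cc i + S.lam * x), S.s * ((y - S.dd i) / S.nu)) := by
  have hl0 := S.lam_pos
  have hn := S.nu_bounds
  have hn0 : 0 < S.nu := by linarith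
  have h := S.F_affine i (S.cc i + S.lam * x) ((y - S.dd i) / S.nu)
    (by rw [le_div_iff₀ hn0]; linarith) (by rw [div_le_iff₀ hn0]; linarith)
    (by nlinarith) (by nlinarith)
  have e1 : (S.cc i + S.lam * x - S.cc i) / S.lam = x := by field_simp; ring
  have e2 : S.dd i + S.nu * ((y - S.dd i) / S.nu) = y := by field_simp; ring
  rw [e1, e2] at h
  rw [← h, S.Fi_F]

/-- The fold. -/
theorem Fi_fold (x y : ℝ) (hx0 : S.lam + 1/20 - 11/100 ≤ x) (hx1 : x ≤ S.lam + 1/20 + 1/100)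
    (hy : |y - 1/2| ≤ 1/25) :
    S.Fi (S.s * x, S.s * y) =
      (S.s * (S.lam * (13/20 + x + (y - 1/2) / (10 * S.nu) + (y - 1/2)^2)),
       S.s * (10 * (S.lam + 1/20 - x - (y - 1/2)^2))) := by
  have hl := S.lam_bounds
  have hn := S.nu_bounds
  have hl0 := S.lam_pos
  have hn0 : 0 < S.nu := by linarith
  have hy' := abs_le.1 hy
  have hsq : (y - 1/2)^2 ≤ 1/625 := by nlinarith
  have hq1 : (y - 1/2) / (10 * S.nu) ≤ 1/100 := by
    rw [div_le_iff₀ (by positivity)]; nlinarith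
  have hq2 : -(1/100) ≤ (y - 1/2) / (10 * S.nu) := by
    rw [le_div_iff₀ (by positivity)]; nlinarith
  set q := (y - 1/2) / (10 * S.nu) with hq
  have hqe : 10 * S.nu * q = y - 1/2 := by rw [hq]; field_simp
  set X2 := 13/20 + x + q + (y - 1/2)^2 with hX2
  have hF := S.F_scaled (S.lam * X2) (10 * (S.lam + 1/20 - x - (y - 1/2)^2)) X2 y x
    (by rw [abs_le]; constructor <;> nlinarith [sq_nonneg (y - 1/2)])
    (by rw [abs_le]; constructor <;> nlinarith [sq_nonneg (y - 1/2)])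
    (by field_simp)
    (by
      rw [S.v2_mid _ (by nlinarith [sq_nonneg (y - 1/2)]) (by nlinarith [sq_nonneg (y - 1/2)])]
      have e1 : 4 * S.κ / 9 = S.nu := rfl
      have e2 : 4 / (9 * S.κ) = S.lam := rfl
      rw [e1, e2]
      have : 10 * S.nu * (X2 - (S.lam + 7/10)) =
          y - 1/2 + 10 * S.nu * (x + (y - 1/2)^2 - S.lam - 1/20) := by
        rw [hX2]
        linear_combination hqe
      rw [this]
      ring)
    (by
      rw [S.h3_mid y hy]
      have e1 : (y - 1/2) / (10 * (4 * S.κ / 9)) = q := rfl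
      rw [e1, hX2]
      ring)
  rw [← hF, S.Fi_F]

end ShearData

end Pool.Agent.Work.MP_f9d495_an
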