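import Pool.Agent.Work.MP_f9d495_an.Leaf5
import Pool.Agent.Work.MP_f9d495_an.Shears

/-!
# Perturbations of the model map in scaled coordinates
-/

open Filter Topology Set

namespace Pool.Agent.Work.MP_f9d495_an

theorem C11.swap {ε : ℝ} {u ux uy : ℝ → ℝ → ℝ} (h : C11 ε u ux uy) :
    C11 ε (fun x y => u y x) (fun x y => uy y x) (fun x y => ux y x) where
  bound x y := h.bound y x
  bx x y := h.by' y x
  by' x y := h.bx y x
  lip x y x' y' := by rw [add_comm]; exact h.lip y x y' x'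
  lipx x y x' y' := by rw [add_comm]; exact h.lipy y x y' x'
  lipy x y x' y' := by rw [add_comm]; exact h.lipx y x y' x'
  taylor x y x' y' := by
    have := h.taylor y x y' x'
    have e : |x' - x| + |y' - y| = |y' - y| + |x' - x| := add_comm _ _
    have e2 : u y' x' - u y x - uy y x * (x' - x) - ux y x * (y' - y) =
      u y' x' - u y x - ux y x * (y' - y) - uy y x * (x' - x) := by ring
    rw [e, e2]; exact this

/-- The lift `G` (with inverse `Gi`) of a torus map close to the model map. The differences to the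
model map are written in the scaled coordinates `z = s * ẑ`. -/
structure Pert (S : ShearData) where
  (G Gi : Plane → Plane)
  Gi_G : ∀ z, Gi (G z) = z
  G_Gi : ∀ z, G (Gi z) = z
  ε : ℝ
  hε0 : 0 < ε
  hε1 : ε ≤ 1/100000
  (u ux uy v vx vy p px py q qx qy : ℝ → ℝ → ℝ)
  hG : ∀ x y, G (S.s * x, S.s * y) = S.Fi (S.s * x, S.s * y) + (S.s * u x y, S.s * v x y)
  hGi : ∀ x y, Gi (S.s * x, S.s * y) = S.F (S.s * x, S.s * y) + (S.s * p x y, S.s * q x y)
  hu : C11 ε u ux uy
  hv : C11 ε v vx vy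
  hp : C11 ε p px py
  hq : C11 ε q qx qy

namespace Leaf
variable (T : Leaf)

/-- height of the image under branch `i` -/
noncomputable def ny (i : Bool) (x y : ℝ) : ℝ := (y - T.dd i) / T.m + T.v x y

/-- The box around the strip `i`. -/
def Box (i : Bool) (x y : ℝ) : Prop :=
  -(1/1000) ≤ x ∧ x ≤ 1 + 1/1000 ∧ T.dd i - 1/1000 ≤ y ∧ y ≤ T.dd i + T.m + 1/1000

/-- A larger box around the strip `i`. -/
def BigBox (i : Bool) (x y : ℝ) : Prop :=
  -(3/1000) ≤ x ∧ x ≤ 1 + 3/1000 ∧ T.dd i - 3/2000 ≤ y ∧ y ≤ T.dd i + T.m + 3/2000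

theorem ny_leaf (ω : ℕ → Bool) (x : ℝ) :
    T.ny (ω 0) x (T.Φ ω x) = T.Φ (tail ω) (T.nx (ω 0) x (T.Φ ω x)) :=
  (T.Φ_image ω x).symm

/-- Points of the leaves above `[-1/1000, 1+1/1000]` are in the boxes. -/
theorem box_leaf (ω : ℕ → Bool) {x : ℝ} (h0 : -(1/1000) ≤ x) (h1 : x ≤ 1 + 1/1000) :
    T.Box (ω 0) x (T.Φ ω x) := by
  have h := T.Φ_mem' ω x
  have := T.hε1
  exact ⟨h0, h1, by linarith [h.1], by linarith [h.2]⟩

/-- `[-1/1000, 1+1/1000]` is mapped into itself by the contracting coordinate. -/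
theorem nx_mem (i : Bool) {x : ℝ} (y : ℝ) (h0 : -(1/1000) ≤ x) (h1 : x ≤ 1 + 1/1000) :
    -(1/1000) ≤ T.nx i x y ∧ T.nx i x y ≤ 1 + 1/1000 := by
  have h := abs_le.1 (T.hu.bound x y)
  have := T.hε1
  have h2 := T.cc_nonneg i
  have h3 := T.cc_le i
  have h4 := T.hl0
  have h5 := T.hl1
  unfold nx
  constructor <;> nlinarith [h.1, h.2]

end Leaf

/-- The torus bijection `g` acts, in the chart `E`, as the branches of `T`. -/
structure LeafMap (T : Leaf) (g : Equiv.Perm Torus) (E : Plane →L[ℝ] Plane) where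
  (G Gi : Plane → Plane)
  lift : IsLift 1 G g
  lift_symm : IsLift 1 Gi g.symm
  s : ℝ
  hs : 0 < s
  hs1 : s ≤ 1/10000
  hE : ∀ z, ‖E z‖ = s * ‖z‖
  loc : ∀ i x y, T.BigBox i x y → G (E (x, y)) = E (T.nx i x y, T.ny i x y)

namespace Pert
variable {S : ShearData} (P : Pert S)

/-- the stable leaves -/
noncomputable def T : Leaf where
  l := S.lam
  m := S.nu
  ε := P.ε
  u := P.u
  ux := P.ux
  uy := P.uy
  v := P.v
  vx := P.vx
  vy := P.vy
  hl0 := by have := S.lam_bounds.1; linarith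
  hl1 := by have := S.lam_bounds.2; linarith
  hm0 := by have := S.nu_bounds.1; linarith
  hm1 := by have := S.nu_bounds.2; linarith
  hε0 := P.hε0
  hε1 := P.hε1
  hu := P.hu
  hv := P.hv

/-- the unstable leaves; the coordinates are exchanged -/
noncomputable def T' : Leaf where
  l := S.nu
  m := S.lam
  ε := P.ε
  u := fun x y => P.q y x
  ux := fun x y => P.qy y x
  uy := fun x y => P.qx y x
  v := fun x y => P.p y x
  vx := fun x y => P.py y x
  vy := fun x y => P.px y x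
  hl0 := by have := S.nu_bounds.1; linarith
  hl1 := by have := S.nu_bounds.2; linarith
  hm0 := by have := S.lam_bounds.1; linarith
  hm1 := by have := S.lam_bounds.2; linarith
  hε0 := P.hε0
  hε1 := P.hε1
  hu := P.hq.swap
  hv := P.hp.swap

@[simp] theorem T_l : P.T.l = S.lam := rfl
@[simp] theorem T_m : P.T.m = S.nu := rfl
@[simp] theorem T_ε : P.T.ε = P.ε := rfl
@[simp] theorem T'_l : P.T'.l = S.nu := rfl
@[simp] theorem T'_m : P.T'.m = S.lam := rfl
@[simp] theorem T'_ε : P.T'.ε = P.ε := rfl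
theorem T_cc (i : Bool) : P.T.cc i = S.cc i := rfl
theorem T_dd (i : Bool) : P.T.dd i = S.dd i := rfl
theorem T'_cc (i : Bool) : P.T'.cc i = S.dd i := rfl
theorem T'_dd (i : Bool) : P.T'.dd i = S.cc i := rfl

/-- scaled chart `(x,y) ↦ (s x, s y)` -/
noncomputable def Es (S : ShearData) : Plane →L[ℝ] Plane := S.s • ContinuousLinearMap.id ℝ Plane

/-- scaled chart with exchanged coordinates `(x,y) ↦ (s y, s x)` -/
noncomputable def Eu (S : ShearData) : Plane →L[ℝ] Plane :=
  S.s • ((ContinuousLinearMap.snd ℝ ℝ ℝ).prod (ContinuousLinearMap.fst ℝ ℝ ℝ))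

@[simp] theorem Es_apply (x y : ℝ) : Es S (x, y) = (S.s * x, S.s * y) := by
  simp [Es]
@[simp] theorem Eu_apply (x y : ℝ) : Eu S (x, y) = (S.s * y, S.s * x) := by
  simp [Eu]

theorem G_box (i : Bool) {x y : ℝ} (h : P.T.BigBox i x y) :
    P.G (S.s * x, S.s * y) = (S.s * P.T.nx i x y, S.s * P.T.ny i x y) := by
  obtain ⟨h0, h1, h2, h3⟩ := h
  have hn := S.nu_bounds
  simp only [T_m, T_dd] at h2 h3
  rw [P.hG, S.Fi_affine i x y (by linarith) (by linarith) (by linarith) (by linarith)]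
  ext
  · simp only [Prod.fst_add, Leaf.nx, T_cc, T_l]
    change S.s * (S.cc i + S.lam * x) + S.s * P.u x y = S.s * (S.cc i + S.lam * x + P.u x y)
    ring
  · simp only [Prod.snd_add, Leaf.ny, T_dd, T_m]
    change S.s * ((y - S.dd i) / S.nu) + S.s * P.v x y = S.s * ((y - S.dd i) / S.nu + P.v x y)
    ring

theorem Gi_box (i : Bool) {x y : ℝ} (h : P.T'.BigBox i x y) :
    P.Gi (S.s * y, S.s * x) = (S.s * P.T'.ny i x y, S.s * P.T'.nx i x y) := by
  obtain ⟨h0, h1, h2, h3⟩ := h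
  have hn := S.lam_bounds
  simp only [T'_m, T'_dd] at h2 h3
  rw [P.hGi, S.F_affine i y x (by linarith) (by linarith) (by linarith) (by linarith)]
  ext
  · simp only [Prod.fst_add, Leaf.ny, T'_dd, T'_m]
    change S.s * ((y - S.cc i) / S.lam) + S.s * P.p y x = S.s * ((y - S.cc i) / S.lam + P.p y x)
    ring
  · simp only [Prod.snd_add, Leaf.nx, T'_cc, T'_l]
    change S.s * (S.dd i + S.nu * x) + S.s * P.q y x = S.s * (S.dd i + S.nu * x + P.q y x)
    ring

/-- The stable leaves of the torus map. -/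
noncomputable def leafMap {g : Equiv.Perm Torus} (hg : IsLift 1 P.G g)
    (hg' : IsLift 1 P.Gi g.symm) : LeafMap P.T g (Es S) where
  G := P.G
  Gi := P.Gi
  lift := hg
  lift_symm := hg'
  s := S.s
  hs := S.hs
  hs1 := S.hs1
  hE z := by
    simp [Es, norm_smul, abs_of_pos S.hs]
  loc i x y h := by
    rw [Es_apply, Es_apply, P.G_box i h]

/-- The unstable leaves of the torus map. -/
noncomputable def leafMap' {g : Equiv.Perm Torus} (hg : IsLift 1 P.G g)
    (hg' : IsLift 1 P.Gi g.symm) : LeafMap P.T' g.symm (Eu S) where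
  G := P.Gi
  Gi := P.G
  lift := hg'
  lift_symm := by rwa [Equiv.symm_symm]
  s := S.s
  hs := S.hs
  hs1 := S.hs1
  hE z := by
    have e : ‖((ContinuousLinearMap.snd ℝ ℝ ℝ).prod (ContinuousLinearMap.fst ℝ ℝ ℝ)) z‖ = ‖z‖ := by
      obtain ⟨x, y⟩ := z
      simp [Prod.norm_def, max_comm]
    rw [Eu, ContinuousLinearMap.smul_apply, norm_smul, e, Real.norm_eq_abs, abs_of_pos S.hs]
  loc i x y h := by
    rw [Eu_apply, Eu_apply, P.Gi_box i h]

end Pert

end Pool.Agent.Work.MP_f9d495_an
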