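import Pool.Agent.Work.MP_f9d495_an.Defs
import Pool.Agent.Work.MP_f9d495_an.Periodic

/-!
# Block D1 : the one-variable functions of the example
-/

open Filter Topology MeasureTheory Set

namespace Pool.Agent.Work.MP_f9d495_an

/-- A smooth `1`-periodic function, supported near the integers and with values in `[-A,A]`. -/
structure IsShear (A : ℝ) (h : ℝ → ℝ) : Prop where
  smooth : ContDiff ℝ (⊤ : ℕ∞) h
  periodic : ∀ x, h (x + 1) = h x
  supp : ∀ x, 1/8 ≤ x → x ≤ 7/8 → h x = 0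
  amp : ∀ x, |h x| ≤ A

/-- All one-variable data of the example.  Write `ν = 4κ/9`, `λ = 4/(9κ)`. -/
structure ShearData where
  (κ s A c : ℝ)
  (a a' h1 v1 h2 v2 h3 : ℝ → ℝ)
  hκ : 49/50 ≤ κ
  hκ1 : κ < 1
  hs : 0 < s
  hs1 : s ≤ 1/10000
  hA : 0 < A
  hc : 0 < c
  hAc : 100 * A ≤ c
  hAκ : 100 * A ≤ 1 - κ
  a_smooth : ContDiff ℝ (⊤ : ℕ∞) a
  a_deriv : ∀ x, HasDerivAt a (a' x) x
  a_pos : ∀ x, 0 < a' x
  a_add : ∀ x, a (x + 1) = a x + 1
  a_odd : ∀ x, a (-x) = - a x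
  a_lin : ∀ x, |x| ≤ 1/4 → a x = κ * x
  a_mid : ∀ x, 1/4 ≤ x → x ≤ 3/8 → a x ≤ x - c
  a_exp : ∀ x, |x - 1/2| ≤ 1/8 → 1 + c ≤ a' x
  h1s : IsShear A h1
  v1s : IsShear A v1
  h2s : IsShear A h2
  v2s : IsShear A v2
  h3s : IsShear A h3
  h1_loc : ∀ y, |y| ≤ 100 → h1 (s * y) = s * (20/81 * y)
  v1_loc : ∀ x, |x| ≤ 100 → v1 (s * x) = s * (-(9/4) * x)
  h2_loc : ∀ y, |y| ≤ 100 → h2 (s * y) = s * (-(5/9) * y)
  v2_low : ∀ x, -100 ≤ x → x ≤ 101/100 → v2 (s * x) = s * x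
  v2_mid : ∀ x, 203/200 ≤ x → x ≤ 119/100 → v2 (s * x) =
    s * (x + 1/2 + 10 * (4 * κ / 9) * (x - (4 / (9 * κ) + 7/10)))
  v2_high : ∀ x, 239/200 ≤ x → x ≤ 100 → v2 (s * x) = s * (x + 1 - 4 * κ / 9)
  h3_low : ∀ y, -100 ≤ y → y ≤ 9/20 → h3 (s * y) = 0
  h3_mid : ∀ y, |y - 1/2| ≤ 1/25 → h3 (s * y) =
    s * (-(13/20) - (y - 1/2) / (10 * (4 * κ / 9)) - (y - 1/2)^2)
  h3_high : ∀ y, 11/20 ≤ y → y ≤ 100 → h3 (s * y) = s * (1 - 9 * κ / 4)

/-! ### The shears -/

/-- The periodized, rescaled function. -/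
noncomputable def shearOf (s : ℝ) (L : ℝ → ℝ) : ℝ → ℝ := per (fun t => s * L (t / s))

theorem shearOf_supp {s : ℝ} (hs : 0 < s) (hs1 : s ≤ 1/10000) {L : ℝ → ℝ}
    (hL : ∀ x, 101 ≤ |x| → L x = 0) : ∀ x, 1/8 ≤ |x| → s * L (x / s) = 0 := by
  intro x hx
  rw [hL, mul_zero]
  rw [abs_div, abs_of_pos hs, le_div_iff₀ hs]
  linarith

theorem shearOf_isShear {s A M : ℝ} (hs : 0 < s) (hs1 : s ≤ 1/10000) {L : ℝ → ℝ}
    (hsm : ContDiff ℝ (⊤ : ℕ∞) L) (hL : ∀ x, 101 ≤ |x| → L x = 0) (hM : ∀ x, |L x| ≤ M)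
    (hA : s * M ≤ A) : IsShear A (shearOf s L) where
  smooth := by
    apply per_contDiff (fun x hx => shearOf_supp hs hs1 hL x (by linarith))
    exact contDiff_const.mul (hsm.comp (contDiff_id.div_const s))
  periodic := per_periodic _
  supp := by
    intro x h1 h2
    have hz := fun x hx => shearOf_supp hs hs1 hL x hx
    unfold shearOf
    rcases le_total x (1/2) with h | h
    · have : |x - ((0 : ℤ) : ℝ)| ≤ 1/2 := by
        push_cast; rw [abs_le]; constructor <;> linarith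
      rw [per_eq (fun x hx => hz x (by linarith)) this]
      apply hz
      push_cast
      rw [abs_of_nonneg (by linarith)]
      linarith
    · have : |x - ((1 : ℤ) : ℝ)| ≤ 1/2 := by
        push_cast; rw [abs_le]; constructor <;> linarith
      rw [per_eq (fun x hx => hz x (by linarith)) this]
      apply hz
      push_cast
      rw [abs_of_nonpos (by linarith)]
      linarith
  amp := by
    intro x
    refine per_abs_le (fun t => ?_) x
    rw [abs_mul, abs_of_pos hs]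
    exact (mul_le_mul_of_nonneg_left (hM _) hs.le).trans hA

theorem shearOf_loc {s : ℝ} (hs : 0 < s) (hs1 : s ≤ 1/10000) {L : ℝ → ℝ}
    (hL : ∀ x, 101 ≤ |x| → L x = 0) {y : ℝ} (hy : |y| ≤ 100) :
    shearOf s L (s * y) = s * L y := by
  have h1 : |s * y - ((0 : ℤ) : ℝ)| ≤ 1/2 := by
    push_cast
    rw [sub_zero, abs_mul, abs_of_pos hs]
    calc s * |y| ≤ 1/10000 * 100 := mul_le_mul hs1 hy (abs_nonneg _) (by norm_num)
      _ ≤ 1/2 := by norm_num
  unfold shearOf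
  rw [per_eq (fun x hx => shearOf_supp hs hs1 hL x (by linarith)) h1]
  push_cast
  rw [sub_zero, mul_div_cancel_left₀ _ hs.ne']

/-- a bound for a smooth compactly supported function -/
theorem exists_bound {L : ℝ → ℝ} (hsm : ContDiff ℝ (⊤ : ℕ∞) L)
    (hL : ∀ x, 101 ≤ |x| → L x = 0) : ∃ M, 0 ≤ M ∧ ∀ x, |L x| ≤ M := by
  obtain ⟨C, hC⟩ := (isCompact_Icc (a := (-101 : ℝ)) (b := 101)).exists_bound_of_continuousOn
    hsm.continuous.continuousOn
  refine ⟨max C 0, le_max_right _ _, fun x => ?_⟩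
  by_cases h : x ∈ Icc (-101 : ℝ) 101
  · exact (hC x h).trans (le_max_left _ _)
  · rw [hL x, abs_zero]
    · exact le_max_right _ _
    · by_contra hlt
      push Not at hlt
      rw [abs_lt] at hlt
      exact h ⟨hlt.1.le, hlt.2.le⟩

/-- profile of `v2` -/
noncomputable def Lv2 (κ : ℝ) (x : ℝ) : ℝ :=
  cut 100 101 x * (x * (1 - step (101/100) (203/200) x) +
    (x + 1/2 + 10 * (4 * κ / 9) * (x - (4 / (9 * κ) + 7/10))) *
      (step (101/100) (203/200) x * (1 - step (119/100) (239/200) x)) +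
    (x + 1 - 4 * κ / 9) * step (119/100) (239/200) x)

/-- profile of `h3` -/
noncomputable def Lh3 (κ : ℝ) (y : ℝ) : ℝ :=
  cut 100 101 y * ((-(13/20) - (y - 1/2) / (10 * (4 * κ / 9)) - (y - 1/2)^2) *
      (step (9/20) (23/50) y * (1 - step (27/50) (11/20) y)) +
    (1 - 9 * κ / 4) * step (27/50) (11/20) y)

theorem Lv2_smooth (κ : ℝ) : ContDiff ℝ (⊤ : ℕ∞) (Lv2 κ) := by
  unfold Lv2
  have h1 := step_contDiff (101/100) (203/200) (n := ⊤)
  have h2 := step_contDiff (119/100) (239/200) (n := ⊤)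
  have h3 := cut_contDiff 100 101 (n := ⊤)
  fun_prop

theorem Lh3_smooth (κ : ℝ) : ContDiff ℝ (⊤ : ℕ∞) (Lh3 κ) := by
  unfold Lh3
  have h1 := step_contDiff (9/20) (23/50) (n := ⊤)
  have h2 := step_contDiff (27/50) (11/20) (n := ⊤)
  have h3 := cut_contDiff 100 101 (n := ⊤)
  fun_prop

theorem shears_exist (κ A : ℝ) (hA : 0 < A) : ∃ (s : ℝ) (h1 v1 h2 v2 h3 : ℝ → ℝ),
    0 < s ∧ s ≤ 1/10000 ∧ IsShear A h1 ∧ IsShear A v1 ∧ IsShear A h2 ∧ IsShear A v2 ∧
    IsShear A h3 ∧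
    (∀ y, |y| ≤ 100 → h1 (s * y) = s * (20/81 * y)) ∧
    (∀ x, |x| ≤ 100 → v1 (s * x) = s * (-(9/4) * x)) ∧
    (∀ y, |y| ≤ 100 → h2 (s * y) = s * (-(5/9) * y)) ∧
    (∀ x, |x| ≤ 100 → v2 (s * x) = s * Lv2 κ x) ∧
    (∀ x, |x| ≤ 100 → h3 (s * x) = s * Lh3 κ x) := by
  set L1 : ℝ → ℝ := fun y => cut 100 101 y * (20/81 * y) with hL1
  set L2 : ℝ → ℝ := fun x => cut 100 101 x * (-(9/4) * x) with hL2
  set L3 : ℝ → ℝ := fun y => cut 100 101 y * (-(5/9) * y) with hL3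
  have hcut := cut_contDiff 100 101 (n := ⊤)
  have s1 : ContDiff ℝ (⊤ : ℕ∞) L1 := by fun_prop
  have s2 : ContDiff ℝ (⊤ : ℕ∞) L2 := by fun_prop
  have s3 : ContDiff ℝ (⊤ : ℕ∞) L3 := by fun_prop
  have hc0 : ∀ x : ℝ, 101 ≤ |x| → cut 100 101 x = 0 := fun x hx => cut_zero (by norm_num) hx
  have hc1 : ∀ x : ℝ, |x| ≤ 100 → cut 100 101 x = 1 := fun x hx => cut_one (by norm_num) hx
  have z1 : ∀ x, 101 ≤ |x| → L1 x = 0 := fun x hx => by simp only [hL1]; rw [hc0 x hx, zero_mul]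
  have z2 : ∀ x, 101 ≤ |x| → L2 x = 0 := fun x hx => by simp only [hL2]; rw [hc0 x hx, zero_mul]
  have z3 : ∀ x, 101 ≤ |x| → L3 x = 0 := fun x hx => by simp only [hL3]; rw [hc0 x hx, zero_mul]
  have z4 : ∀ x, 101 ≤ |x| → Lv2 κ x = 0 := fun x hx => by unfold Lv2; rw [hc0 x hx, zero_mul]
  have z5 : ∀ x, 101 ≤ |x| → Lh3 κ x = 0 := fun x hx => by unfold Lh3; rw [hc0 x hx, zero_mul]
  obtain ⟨M1, p1, b1⟩ := exists_bound s1 z1
  obtain ⟨M2, p2, b2⟩ := exists_bound s2 z2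
  obtain ⟨M3, p3, b3⟩ := exists_bound s3 z3
  obtain ⟨M4, p4, b4⟩ := exists_bound (Lv2_smooth κ) z4
  obtain ⟨M5, p5, b5⟩ := exists_bound (Lh3_smooth κ) z5
  set M := M1 + M2 + M3 + M4 + M5 + 1 with hM
  have hMpos : 0 < M := by linarith
  set s := min (1/10000) (A / M) with hsdef
  have hs : 0 < s := lt_min (by norm_num) (div_pos hA hMpos)
  have hs1 : s ≤ 1/10000 := min_le_left _ _
  have hsM : s * M ≤ A := by
    have : s ≤ A / M := min_le_right _ _
    rwa [le_div_iff₀ hMpos] at this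
  have hsMi : ∀ m, m ≤ M → s * m ≤ A := fun m hm =>
    (mul_le_mul_of_nonneg_left hm hs.le).trans hsM
  refine ⟨s, shearOf s L1, shearOf s L2, shearOf s L3, shearOf s (Lv2 κ), shearOf s (Lh3 κ),
    hs, hs1, shearOf_isShear hs hs1 s1 z1 b1 (hsMi _ (by linarith)),
    shearOf_isShear hs hs1 s2 z2 b2 (hsMi _ (by linarith)),
    shearOf_isShear hs hs1 s3 z3 b3 (hsMi _ (by linarith)),
    shearOf_isShear hs hs1 (Lv2_smooth κ) z4 b4 (hsMi _ (by linarith)),
    shearOf_isShear hs hs1 (Lh3_smooth κ) z5 b5 (hsMi _ (by linarith)), ?_, ?_, ?_, ?_, ?_⟩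
  · intro y hy
    rw [shearOf_loc hs hs1 z1 hy]
    simp only [hL1]
    rw [hc1 y hy, one_mul]
  · intro y hy
    rw [shearOf_loc hs hs1 z2 hy]
    simp only [hL2]
    rw [hc1 y hy, one_mul]
  · intro y hy
    rw [shearOf_loc hs hs1 z3 hy]
    simp only [hL3]
    rw [hc1 y hy, one_mul]
  · intro y hy
    exact shearOf_loc hs hs1 z4 hy
  · intro y hy
    exact shearOf_loc hs hs1 z5 hy

theorem Lv2_low (κ : ℝ) {x : ℝ} (h0 : -100 ≤ x) (h1 : x ≤ 101/100) : Lv2 κ x = x := by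
  unfold Lv2
  rw [cut_one (by norm_num) (abs_le.2 ⟨h0, by linarith⟩), step_zero (by norm_num) h1,
    step_zero (by norm_num) (by linarith)]
  ring

theorem Lv2_mid (κ : ℝ) {x : ℝ} (h0 : 203/200 ≤ x) (h1 : x ≤ 119/100) :
    Lv2 κ x = x + 1/2 + 10 * (4 * κ / 9) * (x - (4 / (9 * κ) + 7/10)) := by
  unfold Lv2
  rw [cut_one (by norm_num) (abs_le.2 ⟨by linarith, by linarith⟩), step_one (by norm_num) h0,
    step_zero (by norm_num) h1]
  ring

theorem Lv2_high (κ : ℝ) {x : ℝ} (h0 : 239/200 ≤ x) (h1 : x ≤ 100) :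
    Lv2 κ x = x + 1 - 4 * κ / 9 := by
  unfold Lv2
  rw [cut_one (by norm_num) (abs_le.2 ⟨by linarith, by linarith⟩),
    step_one (by norm_num) (by linarith), step_one (by norm_num) h0]
  ring

theorem Lh3_low (κ : ℝ) {y : ℝ} (h1 : y ≤ 9/20) : Lh3 κ y = 0 := by
  unfold Lh3
  rw [step_zero (by norm_num) h1, step_zero (by norm_num) (by linarith)]
  ring

theorem Lh3_mid (κ : ℝ) {y : ℝ} (h : |y - 1/2| ≤ 1/25) :
    Lh3 κ y = -(13/20) - (y - 1/2) / (10 * (4 * κ / 9)) - (y - 1/2)^2 := by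
  rw [abs_le] at h
  unfold Lh3
  rw [cut_one (by norm_num) (abs_le.2 ⟨by linarith, by linarith⟩),
    step_one (by norm_num) (by linarith), step_zero (by norm_num) (by linarith)]
  ring

theorem Lh3_high (κ : ℝ) {y : ℝ} (h0 : 11/20 ≤ y) (h1 : y ≤ 100) :
    Lh3 κ y = 1 - 9 * κ / 4 := by
  unfold Lh3
  rw [cut_one (by norm_num) (abs_le.2 ⟨by linarith, by linarith⟩),
    step_one (by norm_num) (by linarith), step_one (by norm_num) h0]
  ring

/-! ### The circle map -/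

/-- `g = χ (x - sin (2πx)/(2π))` -/
noncomputable def gfun (x : ℝ) : ℝ :=
  cut (1/4) (11/32) x * (x - Real.sin (2 * Real.pi * x) / (2 * Real.pi))

/-- `b x = x` on `[-1/4,1/4]`, `b x = sin (2πx)/(2π)` near `1/2`, odd and `1`-periodic -/
noncomputable def bfun (x : ℝ) : ℝ := Real.sin (2 * Real.pi * x) / (2 * Real.pi) + per gfun x

theorem gfun_smooth : ContDiff ℝ (⊤ : ℕ∞) gfun := by
  unfold gfun
  have := cut_contDiff (1/4) (11/32) (n := ⊤)
  fun_prop

theorem gfun_zero' {x : ℝ} (hx : 11/32 ≤ |x|) : gfun x = 0 := by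
  unfold gfun
  rw [cut_zero (by norm_num) hx, zero_mul]

theorem gfun_zero : ∀ x, 3/8 ≤ |x| → gfun x = 0 := fun x hx => gfun_zero' (by linarith)

theorem bfun_smooth : ContDiff ℝ (⊤ : ℕ∞) bfun := by
  unfold bfun
  have := per_contDiff gfun_zero gfun_smooth
  fun_prop

theorem bfun_periodic (x : ℝ) : bfun (x + 1) = bfun x := by
  unfold bfun
  rw [per_periodic]
  congr 2
  rw [show 2 * Real.pi * (x + 1) = 2 * Real.pi * x + 2 * Real.pi by ring, Real.sin_add_two_pi]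

theorem bfun_odd (x : ℝ) : bfun (-x) = - bfun x := by
  unfold bfun
  rw [per_odd gfun_zero]
  · rw [show 2 * Real.pi * (-x) = -(2 * Real.pi * x) by ring, Real.sin_neg]
    ring
  · intro y
    unfold gfun
    rw [cut_even, show 2 * Real.pi * (-y) = -(2 * Real.pi * y) by ring, Real.sin_neg]
    ring

theorem bfun_lin {x : ℝ} (hx : |x| ≤ 1/4) : bfun x = x := by
  unfold bfun
  have h1 : |x - ((0 : ℤ) : ℝ)| ≤ 1/2 := by push_cast; rw [sub_zero]; linarith
  rw [per_eq gfun_zero h1]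
  push_cast
  rw [sub_zero]
  unfold gfun
  rw [cut_one (by norm_num) hx]
  ring

theorem bfun_mid {x : ℝ} (h0 : 1/4 ≤ x) (h1 : x ≤ 3/8) : 1/10 ≤ bfun x := by
  have hpi := Real.pi_pos
  have hpi3 : Real.pi < 3.15 := Real.pi_lt_d2
  have hx : |x - ((0 : ℤ) : ℝ)| ≤ 1/2 := by
    push_cast; rw [sub_zero, abs_of_nonneg (by linarith)]; linarith
  unfold bfun
  rw [per_eq gfun_zero hx]
  push_cast
  rw [sub_zero]
  unfold gfun
  have hs1 : Real.sin (2 * Real.pi * x) ≤ 2 * Real.pi * x :=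
    Real.sin_le (by positivity)
  have hs2 : Real.sin (2 * Real.pi * x) / (2 * Real.pi) ≤ x := by
    rw [div_le_iff₀ (by positivity)]; linarith
  have h2 : 0 ≤ cut (1/4) (11/32) x * (x - Real.sin (2 * Real.pi * x) / (2 * Real.pi)) :=
    mul_nonneg (cut_nonneg _ _ _) (by linarith)
  -- sin (2πx) ≥ √2/2
  have h3 : Real.sqrt 2 / 2 ≤ Real.sin (2 * Real.pi * x) := by
    rw [← Real.cos_pi_div_four, ← Real.cos_sub_pi_div_two]
    apply Real.cos_le_cos_of_nonneg_of_le_pi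
    · nlinarith
    · linarith
    · nlinarith
  have h4 : (1.4 : ℝ) ≤ Real.sqrt 2 := by
    rw [show (1.4 : ℝ) = Real.sqrt (1.4 ^ 2) by rw [Real.sqrt_sq (by norm_num)]]
    exact Real.sqrt_le_sqrt (by norm_num)
  have h5 : (1 : ℝ)/10 ≤ Real.sin (2 * Real.pi * x) / (2 * Real.pi) := by
    rw [le_div_iff₀ (by positivity)]
    nlinarith
  linarith

theorem bfun_deriv_mid {x : ℝ} (h : |x - 1/2| ≤ 1/8) : deriv bfun x ≤ -(1/2) := by
  have hpi := Real.pi_pos
  rw [abs_le] at h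
  have h1 : bfun =ᶠ[𝓝 x] fun y => Real.sin (2 * Real.pi * y) / (2 * Real.pi) := by
    have hopen : IsOpen (Ioo (11/32 : ℝ) (21/32)) := isOpen_Ioo
    filter_upwards [hopen.mem_nhds ⟨by linarith, by linarith⟩] with y hy
    have : per gfun y = 0 := by
      rcases le_total y (1/2) with h' | h'
      · have hx : |y - ((0 : ℤ) : ℝ)| ≤ 1/2 := by
          push_cast; rw [sub_zero, abs_of_nonneg (by linarith [hy.1])]; linarith
        rw [per_eq gfun_zero hx]
        apply gfun_zero'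
        push_cast
        rw [sub_zero, abs_of_nonneg (by linarith [hy.1])]
        linarith [hy.1]
      · have hx : |y - ((1 : ℤ) : ℝ)| ≤ 1/2 := by
          push_cast; rw [abs_of_nonpos (by linarith [hy.2])]; linarith
        rw [per_eq gfun_zero hx]
        apply gfun_zero'
        push_cast
        rw [abs_of_nonpos (by linarith [hy.2])]
        linarith [hy.2]
    unfold bfun
    rw [this, add_zero]
  rw [h1.deriv_eq]
  have h2 : HasDerivAt (fun y => Real.sin (2 * Real.pi * y) / (2 * Real.pi))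
      (Real.cos (2 * Real.pi * x)) x := by
    have e1 : HasDerivAt (fun y : ℝ => 2 * Real.pi * y) (2 * Real.pi) x := by
      simpa using (hasDerivAt_id x).const_mul (2 * Real.pi)
    have e2 := (e1.sin).div_const (2 * Real.pi)
    have e3 : Real.cos (2 * Real.pi * x) * (2 * Real.pi) / (2 * Real.pi) =
        Real.cos (2 * Real.pi * x) := by
      rw [mul_div_assoc, div_self (by positivity), mul_one]
    rw [e3] at e2
    exact e2
  rw [h2.deriv]
  have h3 : Real.cos (2 * Real.pi * x) = - Real.cos (2 * Real.pi * (x - 1/2)) := by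
    rw [show 2 * Real.pi * (x - 1/2) = 2 * Real.pi * x - Real.pi by ring, Real.cos_sub_pi]
    ring
  rw [h3]
  have h4 : Real.cos (Real.pi / 4) ≤ Real.cos (2 * Real.pi * (x - 1/2)) := by
    rw [← Real.cos_abs (2 * Real.pi * (x - 1/2))]
    apply Real.cos_le_cos_of_nonneg_of_le_pi (abs_nonneg _)
    · linarith
    · rw [abs_le]
      constructor <;> nlinarith
  rw [Real.cos_pi_div_four] at h4
  have h5 : (1.4 : ℝ) ≤ Real.sqrt 2 := by
    rw [show (1.4 : ℝ) = Real.sqrt (1.4 ^ 2) by rw [Real.sqrt_sq (by norm_num)]]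
    exact Real.sqrt_le_sqrt (by norm_num)
  linarith

theorem bfun_deriv_bound : ∃ B, 0 < B ∧ ∀ x, |deriv bfun x| ≤ B := by
  have hcont : Continuous (deriv bfun) :=
    bfun_smooth.continuous_deriv (by exact_mod_cast le_top)
  obtain ⟨C, hC⟩ := (isCompact_Icc (a := (0 : ℝ)) (b := 1)).exists_bound_of_continuousOn
    hcont.continuousOn
  have hper : Function.Periodic (deriv bfun) 1 := by
    intro x
    have : deriv (fun y => bfun (y + 1)) x = deriv bfun (x + 1) := deriv_comp_add_const _ _ _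
    rw [← this]
    congr 1
    funext y
    exact bfun_periodic y
  refine ⟨max C 1, lt_max_of_lt_right one_pos, fun x => ?_⟩
  obtain ⟨y, hy, hxy⟩ := hper.exists_mem_Ico₀ one_pos x
  rw [hxy]
  exact (hC y ⟨hy.1, hy.2.le⟩).trans (le_max_left _ _)

theorem exists_shearData : Nonempty ShearData := by
  obtain ⟨B, hB, hBb⟩ := bfun_deriv_bound
  set δ := min (1/50) (1 / (2 * B)) with hδ
  have hδ0 : 0 < δ := lt_min (by norm_num) (by positivity)
  have hδ1 : δ ≤ 1/50 := min_le_left _ _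
  have hδ2 : δ * B ≤ 1/2 := by
    have : δ ≤ 1 / (2 * B) := min_le_right _ _
    rw [le_div_iff₀ (by positivity)] at this
    linarith
  have hdiff : Differentiable ℝ bfun := bfun_smooth.differentiable (by simp)
  have hA : 0 < δ / 1000 := by positivity
  obtain ⟨s, h1, v1, h2, v2, h3, hs, hs1, sh1, sv1, sh2, sv2, sh3, l1, l2, l3, l4, l5⟩ :=
    shears_exist (1 - δ) (δ / 1000) hA
  exact ⟨{
    κ := 1 - δ
    s := s
    A := δ / 1000
    c := δ / 10
    a := fun x => x - δ * bfun x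
    a' := fun x => 1 - δ * deriv bfun x
    h1 := h1
    v1 := v1
    h2 := h2
    v2 := v2
    h3 := h3
    hκ := by linarith
    hκ1 := by linarith
    hs := hs
    hs1 := hs1
    hA := hA
    hc := by positivity
    hAc := by linarith
    hAκ := by linarith
    a_smooth := contDiff_id.sub (contDiff_const.mul bfun_smooth)
    a_deriv := fun x => (hasDerivAt_id x).sub ((hdiff x).hasDerivAt.const_mul δ)
    a_pos := fun x => by
      have e1 := (abs_le.1 (hBb x)).2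
      have : δ * deriv bfun x ≤ δ * B := mul_le_mul_of_nonneg_left e1 hδ0.le
      linarith
    a_add := fun x => by rw [bfun_periodic]; ring
    a_odd := fun x => by rw [bfun_odd]; ring
    a_lin := fun x hx => by rw [bfun_lin hx]; ring
    a_mid := fun x h0 h1 => by
      have := bfun_mid h0 h1
      nlinarith
    a_exp := fun x h => by
      have := bfun_deriv_mid h
      nlinarith
    h1s := sh1
    v1s := sv1
    h2s := sh2
    v2s := sv2
    h3s := sh3
    h1_loc := l1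
    v1_loc := l2
    h2_loc := l3
    v2_low := fun x h0 h1 => by
      rw [l4 x (abs_le.2 ⟨h0, by linarith⟩), Lv2_low _ h0 h1]
    v2_mid := fun x h0 h1 => by
      rw [l4 x (abs_le.2 ⟨by linarith, by linarith⟩), Lv2_mid _ h0 h1]
    v2_high := fun x h0 h1 => by
      rw [l4 x (abs_le.2 ⟨by linarith, by linarith⟩), Lv2_high _ h0 h1]
    h3_low := fun y h0 h1 => by
      rw [l5 y (abs_le.2 ⟨h0, by linarith⟩), Lh3_low _ h1, mul_zero]
    h3_mid := fun y h => by
      have h' := abs_le.1 h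
      rw [l5 y (abs_le.2 ⟨by linarith, by linarith⟩), Lh3_mid _ h]
    h3_high := fun y h0 h1 => by
      rw [l5 y (abs_le.2 ⟨by linarith, by linarith⟩), Lh3_high _ h0 h1] }⟩

end Pool.Agent.Work.MP_f9d495_an
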