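import Pool.Agent.Work.MP_f9d495_an.Fold
import Pool.Agent.Work.MP_f9d495_an.LeafMap
import Pool.Agent.Work.MP_f9d495_an.HypSet

/-!
# The hyperbolic set of a nearby diffeomorphism and its homoclinic tangency
-/

open Filter Topology Set

namespace Pool.Agent.Work.MP_f9d495_an

/-- `C11` functions are differentiable. -/
theorem C11.hasFDerivAt' {ε : ℝ} {u ux uy : ℝ → ℝ → ℝ} (h : C11 ε u ux uy) (z : Plane) :
    HasFDerivAt (fun z : Plane => u z.1 z.2)
      (ux z.1 z.2 • ContinuousLinearMap.fst ℝ ℝ ℝ + uy z.1 z.2 • ContinuousLinearMap.snd ℝ ℝ ℝ)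
      z := by
  have hε : 0 ≤ ε := (abs_nonneg _).trans (h.bound 0 0)
  rw [hasFDerivAt_iff_isLittleO_nhds_zero, Asymptotics.isLittleO_iff]
  intro c hc
  have h1 : ∀ᶠ t : Plane in 𝓝 0, ‖t‖ < c / (4 * ε + 1) := by
    have : Tendsto (fun t : Plane => ‖t‖) (𝓝 0) (𝓝 ‖(0 : Plane)‖) := continuous_norm.tendsto 0
    rw [norm_zero] at this
    exact this.eventually_lt_const (by positivity)
  filter_upwards [h1] with t ht
  have h2 := h.taylor z.1 z.2 (z + t).1 (z + t).2
  have e1 : (z + t).1 - z.1 = t.1 := by simp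
  have e2 : (z + t).2 - z.2 = t.2 := by simp
  rw [e1, e2] at h2
  have e3 : u (z + t).1 (z + t).2 - u z.1 z.2 -
      (ux z.1 z.2 • ContinuousLinearMap.fst ℝ ℝ ℝ + uy z.1 z.2 • ContinuousLinearMap.snd ℝ ℝ ℝ) t =
      u (z + t).1 (z + t).2 - u z.1 z.2 - ux z.1 z.2 * t.1 - uy z.1 z.2 * t.2 := by
    simp; ring
  rw [Real.norm_eq_abs, e3]
  refine h2.trans ?_
  have n1 : |t.1| ≤ ‖t‖ := norm_fst_le t
  have n2 : |t.2| ≤ ‖t‖ := norm_snd_le t
  have n0 : 0 ≤ ‖t‖ := norm_nonneg t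
  have n3 : (|t.1| + |t.2|) ^ 2 ≤ (2 * ‖t‖) ^ 2 := by
    apply pow_le_pow_left₀ (by positivity)
    linarith
  have n4 : ‖t‖ * (4 * ε + 1) < c := by
    rwa [lt_div_iff₀ (by positivity)] at ht
  calc ε * (|t.1| + |t.2|) ^ 2 ≤ ε * (2 * ‖t‖) ^ 2 := mul_le_mul_of_nonneg_left n3 hε
    _ = (‖t‖ * (4 * ε)) * ‖t‖ := by ring
    _ ≤ c * ‖t‖ := by
        apply mul_le_mul_of_nonneg_right _ n0
        nlinarith

/-- A line is not the whole plane. -/
theorem span_singleton_ne_top (v : Plane) : Submodule.span ℝ {v} ≠ ⊤ := by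
  intro h
  have h1 : ((1, 0) : Plane) ∈ Submodule.span ℝ {v} := by rw [h]; trivial
  have h2 : ((0, 1) : Plane) ∈ Submodule.span ℝ {v} := by rw [h]; trivial
  obtain ⟨c, hc⟩ := Submodule.mem_span_singleton.1 h1
  obtain ⟨d, hd⟩ := Submodule.mem_span_singleton.1 h2
  have c1 : c * v.1 = 1 := congrArg Prod.fst hc
  have c2 : c * v.2 = 0 := congrArg Prod.snd hc
  have d1 : d * v.1 = 0 := congrArg Prod.fst hd
  have d2 : d * v.2 = 1 := congrArg Prod.snd hd
  have h3 : c ≠ 0 := by rintro rfl; simp at c1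
  have h4 : v.2 = 0 := by
    rcases mul_eq_zero.1 c2 with h | h
    · exact absurd h h3
    · exact h
  rw [h4, mul_zero] at d2
  exact zero_ne_one d2

theorem isCompl_span {v w : Plane} (h : v.1 * w.2 - v.2 * w.1 ≠ 0) :
    IsCompl (Submodule.span ℝ {v}) (Submodule.span ℝ {w}) := by
  constructor
  · rw [Submodule.disjoint_def]
    intro x hx hx'
    obtain ⟨c, rfl⟩ := Submodule.mem_span_singleton.1 hx
    obtain ⟨d, hd⟩ := Submodule.mem_span_singleton.1 hx'
    have d1 : d * w.1 = c * v.1 := congrArg Prod.fst hd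
    have d2 : d * w.2 = c * v.2 := congrArg Prod.snd hd
    have : c * (v.1 * w.2 - v.2 * w.1) = 0 := by linear_combination w.1 * d2 - w.2 * d1
    rcases mul_eq_zero.1 this with h' | h'
    · rw [h', zero_smul]
    · exact absurd h' h
  · rw [codisjoint_iff, eq_top_iff]
    intro x _
    set Δ := v.1 * w.2 - v.2 * w.1
    rw [Submodule.mem_sup]
    refine ⟨((x.1 * w.2 - x.2 * w.1) / Δ) • v, Submodule.smul_mem _ _
      (Submodule.mem_span_singleton_self v), ((v.1 * x.2 - v.2 * x.1) / Δ) • w,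
      Submodule.smul_mem _ _ (Submodule.mem_span_singleton_self w), ?_⟩
    ext
    · simp only [Prod.fst_add, Prod.smul_fst, smul_eq_mul]
      field_simp
      simp only [Δ]
      ring
    · simp only [Prod.snd_add, Prod.smul_snd, smul_eq_mul]
      field_simp
      simp only [Δ]
      ring

theorem stableSet_shift {g : Equiv.Perm Torus} {z p : Torus} (h : z ∈ unstableSet g p) :
    g z ∈ unstableSet g (g p) := by
  change Tendsto (fun n : ℕ => dist ((g⁻¹ ^ n) (g z)) ((g⁻¹ ^ n) (g p))) atTop (𝓝 0)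
  rw [← tendsto_add_atTop_iff_nat 1]
  refine h.congr (fun n => ?_)
  have : ∀ w, (g⁻¹ ^ (n + 1)) (g w) = (g⁻¹ ^ n) w := by
    intro w
    rw [pow_succ, Equiv.Perm.mul_apply]
    exact congrArg _ (g.symm_apply_apply w)
  rw [this, this]

namespace Pert
variable {S : ShearData} (P : Pert S)

/-- The set of all points which stay in the boxes is hyperbolic. -/
theorem isHyperbolicSet_Lam {g : Equiv.Perm Torus} (hg : IsLift 1 P.G g)
    (hg' : IsLift 1 P.Gi g.symm) : IsHyperbolicSet g (P.Lam g) where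
  nonempty := by
    obtain ⟨x, y, -, -, -, -, -, -, h⟩ := P.exists_point hg hg' zeros zeros
    exact ⟨_, h⟩
  isCompact := P.isCompact_Lam hg hg'
  invariant := P.image_Lam hg hg'
  splitting := by
    refine ⟨stableTangent g, unstableTangent g, 1, 1/2, one_pos, by norm_num, by norm_num, ?_⟩
    intro z hz
    obtain ⟨a, ω, x, y, hx0, hx1, hy0, hy1, hx, hy, rfl⟩ := P.exists_code hg hg' hz
    have M := P.leafMap hg hg'
    have M' := P.leafMap' hg hg'
    have e1 : cov (S.s * x, S.s * y) = cov (Es S (x, P.T.Φ ω x)) := by rw [Es_apply, ← hy]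
    have e2 : cov (S.s * x, S.s * y) = cov (Eu S (y, P.T'.Φ a y)) := by rw [Eu_apply, ← hx]
    have hs : stableTangent g (cov (S.s * x, S.s * y)) =
        Submodule.span ℝ {Es S (1, P.T.S ω x)} := by
      rw [e1]; exact M.stableTangent_eq ω hx0 hx1
    have hu : unstableTangent g (cov (S.s * x, S.s * y)) =
        Submodule.span ℝ {Eu S (1, P.T'.S a y)} := by
      rw [e2]; exact M'.stableTangent_eq a hy0 hy1
    refine ⟨?_, map_stableTangent hg hg' _, map_unstableTangent hg hg' _, ?_, ?_⟩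
    · rw [hs, hu]
      apply isCompl_span
      rw [Es_apply, Eu_apply]
      have b1 := abs_le.1 (P.T.S_bound ω x)
      have b2 := abs_le.1 (P.T'.S_bound a y)
      have hs0 := S.hs
      have hε := P.hε0
      have hε1 := P.hε1
      simp only [T_ε, T'_ε] at b1 b2
      have e : S.s * 1 * (S.s * 1) - S.s * P.T.S ω x * (S.s * P.T'.S a y) =
          S.s ^ 2 * (1 - P.T.S ω x * P.T'.S a y) := by ring
      simp only
      rw [e]
      have : 0 < 1 - P.T.S ω x * P.T'.S a y := by nlinarith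
      positivity
    · intro v hv n
      rw [hs] at hv
      obtain ⟨c, rfl⟩ := Submodule.mem_span_singleton.1 hv
      rw [map_smul, norm_smul, norm_smul, one_mul, e1]
      have := M.tderiv_pow_leaf ω hx0 hx1 n
      calc ‖c‖ * _ ≤ ‖c‖ * ((1/2) ^ n * ‖Es S (1, P.T.S ω x)‖) :=
            mul_le_mul_of_nonneg_left this (norm_nonneg c)
        _ = _ := by ring
    · intro v hv n
      rw [hu] at hv
      obtain ⟨c, rfl⟩ := Submodule.mem_span_singleton.1 hv
      rw [map_smul, norm_smul, norm_smul, one_mul, e2]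
      have := M'.tderiv_pow_leaf a hy0 hy1 n
      calc ‖c‖ * _ ≤ ‖c‖ * ((1/2) ^ n * ‖Eu S (1, P.T'.S a y)‖) :=
            mul_le_mul_of_nonneg_left this (norm_nonneg c)
        _ = _ := by ring

/-- The map near the fold. -/
theorem G_fold {x w : ℝ} (hx0 : S.lam + 1/20 - 11/100 ≤ x) (hx1 : x ≤ S.lam + 1/20 + 1/100)
    (hw : |w| ≤ 1/25) :
    P.G (S.s * x, S.s * (1/2 + w)) =
      (S.s * (S.lam * (13/20 + x + w / (10 * S.nu) + w^2) + P.u x (1/2 + w)),
        S.s * (10 * (S.lam + 1/20 - x - w^2) + P.v x (1/2 + w))) := by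
  have e : 1/2 + w - 1/2 = w := by ring
  rw [P.hG, S.Fi_fold x (1/2 + w) hx0 hx1 (by rwa [e]), e]
  ext
  · simp only [Prod.fst_add]; ring
  · simp only [Prod.snd_add]; ring

/-- The derivative near the fold. -/
theorem fderiv_fold (hd : Differentiable ℝ P.G) {x w : ℝ} (hx0 : S.lam + 1/20 - 11/100 < x)
    (hx1 : x < S.lam + 1/20 + 1/100) (hw : |w| < 1/25) (v1 v2 : ℝ) :
    fderiv ℝ P.G (S.s * x, S.s * (1/2 + w)) (S.s * v1, S.s * v2) =
      (S.s * (S.lam * (v1 + v2 / (10 * S.nu) + 2 * w * v2) + P.ux x (1/2 + w) * v1 +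
          P.uy x (1/2 + w) * v2),
        S.s * (10 * (- v1 - 2 * w * v2) + P.vx x (1/2 + w) * v1 + P.vy x (1/2 + w) * v2)) := by
  have hw' := abs_lt.1 hw
  -- the scaled map
  have h1 : HasFDerivAt (fun z : Plane => P.G (Es S z))
      ((fderiv ℝ P.G (S.s * x, S.s * (1/2 + w))).comp (Es S)) (x, 1/2 + w) := by
    have : HasFDerivAt P.G (fderiv ℝ P.G (S.s * x, S.s * (1/2 + w))) (Es S (x, 1/2 + w)) := by
      rw [Es_apply]; exact (hd _).hasFDerivAt
    exact this.comp (x, 1/2 + w) (Es S).hasFDerivAt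
  let F1 : Plane → ℝ := fun z => S.lam * (13/20 + z.1 + (z.2 - 1/2) / (10 * S.nu) +
    (z.2 - 1/2)^2) + P.u z.1 z.2
  let F2 : Plane → ℝ := fun z => 10 * (S.lam + 1/20 - z.1 - (z.2 - 1/2)^2) + P.v z.1 z.2
  have hfst := hasFDerivAt_fst (𝕜 := ℝ) (E := ℝ) (F := ℝ) (p := ((x, 1/2 + w) : Plane))
  have hsnd := hasFDerivAt_snd (𝕜 := ℝ) (E := ℝ) (F := ℝ) (p := ((x, 1/2 + w) : Plane))
  have hsq : HasFDerivAt (fun z : Plane => (z.2 - 1/2)^2)
      ((2 * w) • ContinuousLinearMap.snd ℝ ℝ ℝ) (x, 1/2 + w) := by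
    have := (hsnd.sub_const (1/2)).pow 2
    refine this.congr_fderiv ?_
    ext <;> simp
  have hF1 : HasFDerivAt F1 (S.lam • (ContinuousLinearMap.fst ℝ ℝ ℝ +
      (1 / (10 * S.nu)) • ContinuousLinearMap.snd ℝ ℝ ℝ + (2 * w) • ContinuousLinearMap.snd ℝ ℝ ℝ) +
      (P.ux x (1/2 + w) • ContinuousLinearMap.fst ℝ ℝ ℝ +
        P.uy x (1/2 + w) • ContinuousLinearMap.snd ℝ ℝ ℝ)) (x, 1/2 + w) := by
    have k1 : HasFDerivAt (fun z : Plane => 13/20 + z.1 + (z.2 - 1/2) / (10 * S.nu) +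
        (z.2 - 1/2)^2) (ContinuousLinearMap.fst ℝ ℝ ℝ +
      (1 / (10 * S.nu)) • ContinuousLinearMap.snd ℝ ℝ ℝ + (2 * w) • ContinuousLinearMap.snd ℝ ℝ ℝ)
        (x, 1/2 + w) := by
      have k2 := ((hfst.const_add (13/20)).add
        ((hsnd.sub_const (1/2)).mul_const (1 / (10 * S.nu)))).add hsq
      refine k2.congr_of_eventuallyEq (Eventually.of_forall fun z => ?_)
      simp only [Pi.add_apply]
      ring
    exact (k1.const_mul S.lam).add (P.hu.hasFDerivAt' (x, 1/2 + w))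
  have hF2 : HasFDerivAt F2 ((10 : ℝ) • (-ContinuousLinearMap.fst ℝ ℝ ℝ -
      (2 * w) • ContinuousLinearMap.snd ℝ ℝ ℝ) +
      (P.vx x (1/2 + w) • ContinuousLinearMap.fst ℝ ℝ ℝ +
        P.vy x (1/2 + w) • ContinuousLinearMap.snd ℝ ℝ ℝ)) (x, 1/2 + w) := by
    have k1 : HasFDerivAt (fun z : Plane => S.lam + 1/20 - z.1 - (z.2 - 1/2)^2)
        (-ContinuousLinearMap.fst ℝ ℝ ℝ - (2 * w) • ContinuousLinearMap.snd ℝ ℝ ℝ)
        (x, 1/2 + w) := (hfst.const_sub (S.lam + 1/20)).sub hsq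
    exact (k1.const_mul 10).add (P.hv.hasFDerivAt' (x, 1/2 + w))
  have h2a := (Es S).hasFDerivAt.comp (x, 1/2 + w) (hF1.prodMk hF2)
  have h2b : (fun z : Plane => P.G (Es S z)) =ᶠ[𝓝 (x, 1/2 + w)]
      (Es S) ∘ (fun z : Plane => (F1 z, F2 z)) := by
    have o1 : ∀ᶠ z : Plane in 𝓝 (x, 1/2 + w), S.lam + 1/20 - 11/100 < z.1 :=
      continuous_fst.continuousAt.eventually_const_lt hx0
    have o2 : ∀ᶠ z : Plane in 𝓝 (x, 1/2 + w), z.1 < S.lam + 1/20 + 1/100 :=
      continuous_fst.continuousAt.eventually_lt_const hx1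
    have o3 : ∀ᶠ z : Plane in 𝓝 (x, 1/2 + w), |z.2 - 1/2| < 1/25 := by
      have c : ContinuousAt (fun z : Plane => |z.2 - 1/2|) (x, 1/2 + w) := by fun_prop
      apply c.eventually_lt_const
      simpa using hw
    filter_upwards [o1, o2, o3] with z hz1 hz2 hz3
    obtain ⟨zx, zy⟩ := z
    simp only at hz1 hz2 hz3
    have := P.G_fold hz1.le hz2.le hz3.le
    have e : 1/2 + (zy - 1/2) = zy := by ring
    rw [e] at this
    rw [Es_apply, this]
    simp only [Function.comp_apply, Es_apply, F1, F2]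
  have h3 := h1.unique (h2a.congr_of_eventuallyEq h2b)
  have h4 := congrArg (fun L : Plane →L[ℝ] Plane => L (v1, v2)) h3
  simp only [ContinuousLinearMap.comp_apply, Es_apply, ContinuousLinearMap.prod_apply] at h4
  rw [h4]
  ext
  · simp
    ring_nf
    simp
  · simp
    ring_nf
    simp

/-- The hyperbolic set has a homoclinic tangency. -/
theorem hasHomoclinicTangency_Lam {g : Equiv.Perm Torus} (hg : IsLift 1 P.G g)
    (hg' : IsLift 1 P.Gi g.symm) : HasHomoclinicTangency g (P.Lam g) := by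
  obtain ⟨a, b, w, hw, hY, hT, hx0, hx1, hX0, hX1⟩ := P.exists_fold_tangency
  obtain ⟨xq, yq, hxq0, hxq1, -, -, -, hyq, hq⟩ := P.exists_point hg hg' a b
  obtain ⟨xp, yp, -, -, hyp0, hyp1, hxp, -, hp⟩ := P.exists_point hg hg' a b
  have M := P.leafMap hg hg'
  have M' := P.leafMap' hg hg'
  have hw' := abs_lt.1 hw
  have hd : Differentiable ℝ P.G := hg.1.differentiable (by norm_num)
  set x := P.T'.Φ a (1/2 + w) with hx
  set ζ : Torus := cov (S.s * x, S.s * (1/2 + w)) with hζ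
  have hz : g ζ = cov (Es S (P.FX a w, P.T.Φ b (P.FX a w))) := by
    rw [hζ, ← hg.2, P.G_fold hx0.le hx1.le hw.le, Es_apply, ← hY]
    rfl
  refine ⟨g (cov (S.s * xp, S.s * yp)), ?_, cov (S.s * xq, S.s * yq), hq, g ζ, ⟨?_, ?_⟩, ?_⟩
  · rw [← P.image_Lam hg hg']
    exact mem_image_of_mem _ hp
  · apply stableSet_shift
    have e1 : ζ = cov (Eu S (1/2 + w, P.T'.Φ a (1/2 + w))) := by rw [hζ, Eu_apply]
    have e2 : cov (S.s * xp, S.s * yp) = cov (Eu S (yp, P.T'.Φ a yp)) := by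
      rw [Eu_apply, ← hxp]
    rw [e1, e2]
    exact M'.mem_stableSet a (by linarith [hw'.1]) (by linarith [hw'.2]) hyp0 hyp1
  · have e2 : cov (S.s * xq, S.s * yq) = cov (Es S (xq, P.T.Φ b xq)) := by
      rw [Es_apply, ← hyq]
    rw [hz, e2]
    exact M.mem_stableSet b (by linarith) (by linarith) hxq0 hxq1
  · have hs : stableTangent g (g ζ) = Submodule.span ℝ {Es S (1, P.T.S b (P.FX a w))} := by
      rw [hz]; exact M.stableTangent_eq b (by linarith) (by linarith)
    have hu : unstableTangent g ζ = Submodule.span ℝ {Eu S (1, P.T'.S a (1/2 + w))} := by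
      have e1 : ζ = cov (Eu S (1/2 + w, P.T'.Φ a (1/2 + w))) := by rw [hζ, Eu_apply]
      rw [e1]
      exact M'.stableTangent_eq a (by linarith [hw'.1]) (by linarith [hw'.2])
    have hu' : unstableTangent g (g ζ) ≤ stableTangent g (g ζ) := by
      rw [← map_unstableTangent hg hg' ζ, hu, hs, Submodule.map_span_le]
      intro m hm
      rw [mem_singleton_iff] at hm
      subst hm
      have e3 : (tderiv g ζ : Plane →ₗ[ℝ] Plane) (Eu S (1, P.T'.S a (1/2 + w))) =
          P.FX' a w • Es S (1, P.T.S b (P.FX a w)) := by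
        change tderiv g ζ (Eu S (1, P.T'.S a (1/2 + w))) = _
        rw [hζ, tderiv_eq hg, Eu_apply, P.fderiv_fold hd hx0 hx1 hw, Es_apply]
        ext
        · simp only [Prod.smul_fst, smul_eq_mul, FX']
          rw [← hx]
          ring
        · simp only [Prod.smul_snd, smul_eq_mul]
          have : P.FX' a w * (S.s * P.T.S b (P.FX a w)) = S.s * P.FY' a w := by
            rw [hT]; ring
          rw [this]
          simp only [FY']
          rw [← hx]
          ring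
      rw [e3]
      exact Submodule.smul_mem _ _ (Submodule.mem_span_singleton_self _)
    rw [sup_eq_right.2 hu', hs]
    exact span_singleton_ne_top _

end Pert

end Pool.Agent.Work.MP_f9d495_an
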